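import Pool.Agent.LibOM70B.C1a

/-! ODD MOMENTS, signed route, row C1. -/

set_option autoImplicit false

namespace Pool.Agent.LibOM70

open MeasureTheory Set Filter Topology Complex ProbabilityTheory
open scoped NNReal ComplexConjugate
open Pool.Agent.LibZM Pool.Agent.LibM3
open Pool.Agent.LibLaw15 hiding Lam

private theorem c1_Gk_smooth (ε : ℝ) : ContDiff ℝ 4 (Gk ε) := by
  unfold Gk Fk
  have h1 : ContDiff ℝ 4 Real.smoothTransition := Real.smoothTransition.contDiff (n := 4)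
  have h2 : ContDiff ℝ 4 (fun y : ℝ => y / ε) := contDiff_id.div_const ε
  have h3 : ContDiff ℝ 4 (fun y : ℝ => 2 - y) := contDiff_const.sub contDiff_id
  exact (contDiff_const.mul (h1.comp h2)).mul (h1.comp h3)

private theorem c1_Fk_cont (ε : ℝ) : Continuous (Fk ε) := by
  unfold Fk
  exact continuous_const.mul (Real.smoothTransition.continuous.comp (continuous_id.div_const ε))

private theorem c1_Fk_zero {ε : ℝ} (hε : 0 < ε) {y : ℝ} (hy : y ≤ 0) : Fk ε y = 0 := by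
  unfold Fk
  rw [Real.smoothTransition.zero_of_nonpos (div_nonpos_of_nonpos_of_nonneg hy hε.le), mul_zero]

private theorem c1_Fk_nonneg (ε y : ℝ) : 0 ≤ Fk ε y := by
  unfold Fk
  have := Real.smoothTransition.nonneg (y / ε)
  positivity

private theorem c1_Gk_nonneg (ε y : ℝ) : 0 ≤ Gk ε y :=
  mul_nonneg (c1_Fk_nonneg ε y) (Real.smoothTransition.nonneg _)

private theorem c1_Gk_zero {ε : ℝ} (hε : 0 < ε) {y : ℝ} (hy : y ≤ 0) : Gk ε y = 0 := by
  unfold Gk
  rw [c1_Fk_zero hε hy, zero_mul]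

private theorem c1_Gk_eq {ε y : ℝ} (hy : y ≤ 1) : Gk ε y = Fk ε y := by
  unfold Gk
  rw [Real.smoothTransition.one_of_one_le (by linarith), mul_one]

private theorem c1_Gk_supp {ε : ℝ} (hε : 0 < ε) : HasCompactSupport (Gk ε) := by
  refine HasCompactSupport.intro (isCompact_Icc (a := (0:ℝ)) (b := 2)) fun y hy => ?_
  rw [Set.mem_Icc, not_and_or, not_le, not_le] at hy
  rcases hy with h | h
  · exact c1_Gk_zero hε h.le
  · unfold Gk
    rw [Real.smoothTransition.zero_of_nonpos (by linarith), mul_zero]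

private theorem c1_dGk_cont (ε : ℝ) : Continuous (deriv (Gk ε)) :=
  (c1_Gk_smooth ε).continuous_deriv (by norm_num)

private theorem c1_dGk_zero {ε : ℝ} (hε : 0 < ε) {y : ℝ} (hy : y ≤ 0) : deriv (Gk ε) y = 0 := by
  have h1 : ∀ y ∈ Set.Iio (0:ℝ), deriv (Gk ε) y = 0 := by
    intro y hy
    have h2 : Gk ε =ᶠ[𝓝 y] fun _ => 0 := by
      filter_upwards [Iio_mem_nhds hy] with x hx
      exact c1_Gk_zero hε (le_of_lt hx)
    rw [h2.deriv_eq]
    simp
  have h3 : Set.EqOn (deriv (Gk ε)) (fun _ => 0) (closure (Set.Iio (0:ℝ))) :=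
    Set.EqOn.closure h1 (c1_dGk_cont ε) continuous_const
  rw [closure_Iio] at h3
  exact h3 hy

private theorem c1_int {G : ℝ → ℝ} (hG : Continuous G) (y a b : ℝ) :
    IntervalIntegrable (fun h : ℝ => h ^ (-(1/2) : ℝ) * G (y - h)) volume a b :=
  (intervalIntegral.intervalIntegrable_rpow' (by norm_num)).mul_continuousOn
    (hG.comp (continuous_const.sub continuous_id)).continuousOn

private theorem c1_HL_nonneg {ε : ℝ} (y : ℝ) : 0 ≤ HL (Gk ε) y := by
  unfold HL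
  refine mul_nonneg (by positivity) (intervalIntegral.integral_nonneg (by norm_num) fun h hh => ?_)
  exact mul_nonneg (Real.rpow_nonneg hh.1 _) (c1_Gk_nonneg ε _)

private theorem c1_HL_lower {ε : ℝ} (hε : 0 < ε) {y : ℝ} (h1 : ε ≤ y) (h2 : y ≤ 1) : (y - ε) ^ (1/2 : ℝ) ≤ HL (Gk ε) y := by
  unfold HL
  have hc := (c1_Gk_smooth ε).continuous
  rw [← intervalIntegral.integral_add_adjacent_intervals (c1_int hc y 0 (y - ε)) (c1_int hc y (y - ε) 1)]
  have e1 : ∫ h in (0:ℝ)..(y - ε), h ^ (-(1/2) : ℝ) * Gk ε (y - h) = √Real.pi * (y - ε) ^ (1/2 : ℝ) := by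
    have e2 : ∫ h in (0:ℝ)..(y - ε), h ^ (-(1/2) : ℝ) * Gk ε (y - h) = ∫ h in (0:ℝ)..(y - ε), h ^ (-(1/2) : ℝ) * (√Real.pi / 2) := by
      refine intervalIntegral.integral_congr fun h hh => ?_
      rw [Set.uIcc_of_le (by linarith)] at hh
      have hh1 := hh.1
      have hh2 := hh.2
      rw [c1_Gk_eq (by linarith)]
      unfold Fk
      rw [Real.smoothTransition.one_of_one_le, mul_one]
      rw [le_div_iff₀ hε]
      linarith
    rw [e2, intervalIntegral.integral_mul_const, integral_rpow (Or.inl (by norm_num))]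
    rw [show (-(1/2) : ℝ) + 1 = 1/2 by norm_num, Real.zero_rpow (by norm_num), sub_zero]
    ring
  have e3 : 0 ≤ ∫ h in (y - ε)..1, h ^ (-(1/2) : ℝ) * Gk ε (y - h) := by
    refine intervalIntegral.integral_nonneg (by linarith) fun h hh => ?_
    exact mul_nonneg (Real.rpow_nonneg (by linarith [hh.1]) _) (c1_Gk_nonneg ε _)
  rw [e1]
  have hpi : 0 < √Real.pi := Real.sqrt_pos.2 Real.pi_pos
  have e4 : (y - ε) ^ (1/2 : ℝ) = 1 / √Real.pi * (√Real.pi * (y - ε) ^ (1/2 : ℝ)) := by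
    field_simp
  calc (y - ε) ^ (1/2 : ℝ) = 1 / √Real.pi * (√Real.pi * (y - ε) ^ (1/2 : ℝ)) := e4
    _ ≤ _ := mul_le_mul_of_nonneg_left (by linarith) (by positivity)

/-- ROW C1. The kernel: `Φ = HL (Gk ε)`, `F = Fk ε`. PROOF. `Gk ε = Fk ε` on `(-∞,1]` (`Real.smoothTransition` is `1` on `[1,∞)`), `0` on `(-∞,0]` and on `[2,∞)`. `half`: `deriv Φ = HL (deriv (Gk ε))` (`HL_smooth`), `HL (HL (deriv Gk)) y = ∫_0^{max 0 y} Gk' = Gk ε y = Fk ε y` for
`y ≤ 1` (`HL_HL`; the integrand of `Ker.half` is `h^{-1/2} deriv Φ (y-h)`, i.e. `HL (deriv Φ) y`). `halfI`: `HL (HL Gk) y = ∫_0^y Gk = ∫_0^y Fk` for `0 ≤ y ≤ 1`. `mass`: for `ε ≤ y ≤ 1`, `Φ y ≥ (1/√π) ∫_0^{y-ε} h^{-1/2} (√π/2) dh = (y-ε)^{1/2}`, and `Φ ≥ 0` on `[0, ε]`. -/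
theorem ker_exists {ε : ℝ} (hε : 0 < ε) (hε1 : ε < 1) : Ker ε (HL (Gk ε)) (Fk ε) := by
  have hG := c1_Gk_smooth ε
  have hs := c1_Gk_supp hε
  obtain ⟨hΦ, hdΦ⟩ := HL_smooth hG hs
  have hdΦ' : deriv (HL (Gk ε)) = HL (deriv (Gk ε)) := funext hdΦ
  refine ⟨hΦ, ?_, c1_Fk_cont ε, ?_, fun y hy => c1_Fk_zero hε hy, ?_, ?_, ?_, ?_⟩
  · intro y hy
    unfold HL
    have h1 : ∫ h in (0:ℝ)..1, h ^ (-(1/2) : ℝ) * Gk ε (y - h) = ∫ h in (0:ℝ)..1, (0:ℝ) := by
      refine intervalIntegral.integral_congr fun h hh => ?_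
      rw [Set.uIcc_of_le (by norm_num)] at hh
      rw [c1_Gk_zero hε (by linarith [hh.1]), mul_zero]
    rw [h1]
    simp
  · intro x y hxy
    unfold Fk
    refine mul_le_mul_of_nonneg_left (Real.smoothTransition.monotone ?_) (by positivity)
    exact div_le_div_of_nonneg_right hxy hε.le
  · intro y
    unfold Fk
    exact mul_le_of_le_one_right (by positivity) (Real.smoothTransition.le_one _)
  · intro y hy
    have h1 : (1 / √Real.pi) * ∫ h in (0:ℝ)..1, h ^ (-(1/2) : ℝ) * deriv (HL (Gk ε)) (y - h) = HL (HL (deriv (Gk ε))) y := by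
      rw [hdΦ']
      rfl
    rw [h1, HL_HL (c1_dGk_cont ε) (fun y hy => c1_dGk_zero hε hy) hy]
    rw [intervalIntegral.integral_deriv_eq_sub (fun x _ => (hG.differentiable (by norm_num)).differentiableAt)
      ((c1_dGk_cont ε).intervalIntegrable _ _), c1_Gk_zero hε le_rfl, sub_zero]
    rcases le_total y 0 with h0 | h0
    · rw [max_eq_left h0, c1_Gk_zero hε le_rfl, c1_Fk_zero hε h0]
    · rw [max_eq_right h0, c1_Gk_eq hy]
  · intro y hy0 hy
    have h1 : (1 / √Real.pi) * ∫ h in (0:ℝ)..1, h ^ (-(1/2) : ℝ) * HL (Gk ε) (y - h) = HL (HL (Gk ε)) y := rfl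
    rw [h1, HL_HL hG.continuous (fun y hy => c1_Gk_zero hε hy) hy, max_eq_right hy0]
    refine intervalIntegral.integral_congr fun x hx => ?_
    rw [Set.uIcc_of_le hy0] at hx
    exact c1_Gk_eq (hx.2.trans hy)
  · intro c hc1 hc2
    have hc : Continuous (HL (Gk ε)) := hΦ.continuous
    rw [← intervalIntegral.integral_add_adjacent_intervals (hc.intervalIntegrable 0 ε) (hc.intervalIntegrable ε c)]
    have h1 : 0 ≤ ∫ y in (0:ℝ)..ε, HL (Gk ε) y :=
      intervalIntegral.integral_nonneg hε.le fun y _ => c1_HL_nonneg y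
    have hrc : Continuous fun y : ℝ => (y - ε) ^ (1/2 : ℝ) :=
      (continuous_id.sub continuous_const).rpow_const fun _ => Or.inr (by norm_num)
    have h2 : ∫ y in ε..c, (y - ε) ^ (1/2 : ℝ) ≤ ∫ y in ε..c, HL (Gk ε) y :=
      intervalIntegral.integral_mono_on hc1 (hrc.intervalIntegrable _ _) (hc.intervalIntegrable _ _)
        fun y hy => c1_HL_lower hε hy.1 (hy.2.trans hc2)
    have h3 : ∫ y in ε..c, (y - ε) ^ (1/2 : ℝ) = (2/3) * (c - ε) ^ (3/2 : ℝ) := by
      rw [intervalIntegral.integral_comp_sub_right (fun y => y ^ (1/2 : ℝ)) ε, sub_self,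
        integral_rpow (Or.inl (by norm_num)), show (1/2 : ℝ) + 1 = 3/2 by norm_num,
        Real.zero_rpow (by norm_num), sub_zero]
      ring
    rw [← h3]
    linarith

end Pool.Agent.LibOM70
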