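import Pool.Agent.LibOM70B.Defs2

/-! ODD MOMENTS, signed route, row C1a. -/

set_option autoImplicit false

namespace Pool.Agent.LibOM70

open MeasureTheory Set Filter Topology Complex ProbabilityTheory
open scoped NNReal ComplexConjugate
open Pool.Agent.LibZM Pool.Agent.LibM3
open Pool.Agent.LibLaw15 hiding Lam

/-- The kernel `h^{-1/2}` on `(0,1]`. -/
noncomputable def c1a_k : ℝ → ℝ := (Ioc (0:ℝ) 1).indicator (fun h => h ^ (-(1/2) : ℝ))

theorem c1a_k_int : Integrable c1a_k volume := by
  have h : IntervalIntegrable (fun x : ℝ => x ^ (-(1/2) : ℝ)) volume 0 1 :=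
    intervalIntegral.intervalIntegrable_rpow' (by norm_num)
  rw [intervalIntegrable_iff_integrableOn_Ioc_of_le zero_le_one] at h
  exact (integrable_indicator_iff measurableSet_Ioc).2 h

theorem c1a_HL (G : ℝ → ℝ) (y : ℝ) :
    HL G y = (1 / √Real.pi) * (MeasureTheory.convolution c1a_k G (ContinuousLinearMap.mul ℝ ℝ) volume) y := by
  unfold HL
  rw [MeasureTheory.convolution_def, intervalIntegral.integral_of_le zero_le_one,
    ← integral_indicator measurableSet_Ioc]
  congr 1
  apply integral_congr_ae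
  refine Eventually.of_forall fun t => ?_
  by_cases ht : t ∈ Ioc (0:ℝ) 1
  · simp [c1a_k, indicator_of_mem ht]
  · simp [c1a_k, indicator_of_notMem ht]

/-- ROW C1a. The half integral of a smooth compactly supported function is smooth and commutes with the derivative (`HL G = k ⋆ G`, `k(h) = π^{-1/2} h^{-1/2} 1_{(0,1)}` integrable: `HasCompactSupport.contDiff_convolution_right`,
`HasCompactSupport.hasDerivAt_convolution_right`, or `hasDerivAt_integral_of_dominated_loc_of_deriv_le` several times). -/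
theorem HL_smooth {G : ℝ → ℝ} (hG : ContDiff ℝ 4 G) (hs : HasCompactSupport G) : ContDiff ℝ 3 (HL G) ∧ ∀ y, deriv (HL G) y = HL (deriv G) y := by
  have e : HL G = fun y => (1 / √Real.pi) * (MeasureTheory.convolution c1a_k G (ContinuousLinearMap.mul ℝ ℝ) volume) y :=
    funext (c1a_HL G)
  have hloc : LocallyIntegrable c1a_k volume := c1a_k_int.locallyIntegrable
  refine ⟨?_, ?_⟩
  · rw [e]
    have h3 : ContDiff ℝ ((3 : ℕ∞) : WithTop ℕ∞) G := hG.of_le (by norm_cast)
    have := hs.contDiff_convolution_right (ContinuousLinearMap.mul ℝ ℝ) hloc h3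
    exact contDiff_const.mul (by exact_mod_cast this)
  · intro y
    have h1 : ContDiff ℝ 1 G := hG.of_le (by norm_cast)
    have hd := (hs.hasDerivAt_convolution_right (ContinuousLinearMap.mul ℝ ℝ) hloc h1 y).const_mul (1 / √Real.pi)
    rw [e, c1a_HL (deriv G) y]
    exact hd.deriv

theorem c1a_beta {s : ℝ} (hs : 0 < s) :
    ∫ h in (0:ℝ)..s, h ^ (-(1/2) : ℝ) * (s - h) ^ (-(1/2) : ℝ) = Real.pi := by
  have h1 := Complex.betaIntegral_scaled (1/2) (1/2) hs
  have h2 := Complex.Gamma_mul_Gamma_eq_betaIntegral (s := 1/2) (t := 1/2) (by norm_num) (by norm_num)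
  have h3 : (1/2 : ℂ) + 1/2 = 1 := by norm_num
  rw [h3, Complex.Gamma_one, one_mul, Complex.Gamma_one_half_eq, ← Complex.cpow_add _ _ (by exact_mod_cast Real.pi_ne_zero),
    h3, Complex.cpow_one] at h2
  rw [h3, ← h2, sub_self, Complex.cpow_zero, one_mul] at h1
  have h4 : ((∫ h in (0:ℝ)..s, h ^ (-(1/2) : ℝ) * (s - h) ^ (-(1/2) : ℝ) : ℝ) : ℂ) = (Real.pi : ℂ) := by
    rw [← intervalIntegral.integral_ofReal, ← h1]
    apply intervalIntegral.integral_congr
    intro x hx
    rw [uIcc_of_le hs.le] at hx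
    have h5 : (1/2 : ℂ) - 1 = ((-(1/2) : ℝ) : ℂ) := by push_cast; ring
    simp only
    rw [h5, Complex.ofReal_mul, Complex.ofReal_cpow hx.1, Complex.ofReal_cpow (sub_nonneg.2 hx.2)]
    push_cast
    rfl
  exact_mod_cast h4

theorem c1a_kk_nonpos {s : ℝ} (hs : s ≤ 0) :
    (MeasureTheory.convolution c1a_k c1a_k (ContinuousLinearMap.mul ℝ ℝ) volume) s = 0 := by
  rw [MeasureTheory.convolution_def]
  rw [integral_eq_zero_of_ae]
  refine Eventually.of_forall fun t => ?_
  simp only [ContinuousLinearMap.mul_apply', Pi.zero_apply]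
  by_cases ht : t ∈ Ioc (0:ℝ) 1
  · have : s - t ∉ Ioc (0:ℝ) 1 := by
      rintro ⟨h, _⟩
      linarith [ht.1]
    unfold c1a_k
    rw [indicator_of_notMem this, mul_zero]
  · unfold c1a_k
    rw [indicator_of_notMem ht, zero_mul]

theorem c1a_kk {s : ℝ} (hs : 0 < s) (hs1 : s ≤ 1) :
    (MeasureTheory.convolution c1a_k c1a_k (ContinuousLinearMap.mul ℝ ℝ) volume) s = Real.pi := by
  rw [MeasureTheory.convolution_def, ← c1a_beta hs, intervalIntegral.integral_of_le hs.le,
    integral_Ioc_eq_integral_Ioo, ← integral_indicator measurableSet_Ioo]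
  apply integral_congr_ae
  refine Eventually.of_forall fun t => ?_
  simp only [ContinuousLinearMap.mul_apply']
  unfold c1a_k
  by_cases ht : t ∈ Ioo (0:ℝ) s
  · have h1 : t ∈ Ioc (0:ℝ) 1 := ⟨ht.1, ht.2.le.trans hs1⟩
    have h2 : s - t ∈ Ioc (0:ℝ) 1 := ⟨by linarith [ht.2], by linarith [ht.1]⟩
    rw [indicator_of_mem ht, indicator_of_mem h1, indicator_of_mem h2]
  · rw [indicator_of_notMem ht]
    by_cases h1 : t ∈ Ioc (0:ℝ) 1
    · have h2 : s - t ∉ Ioc (0:ℝ) 1 := by
        rintro ⟨h, _⟩
        exact ht ⟨h1.1, by linarith⟩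
      rw [indicator_of_notMem h2, mul_zero]
    · rw [indicator_of_notMem h1, zero_mul]

theorem c1a_assoc {H : ℝ → ℝ} (hH : Continuous H) (hs : HasCompactSupport H) (y : ℝ) :
    (MeasureTheory.convolution (MeasureTheory.convolution c1a_k c1a_k (ContinuousLinearMap.mul ℝ ℝ) volume) H
      (ContinuousLinearMap.mul ℝ ℝ) volume) y =
    (MeasureTheory.convolution c1a_k (MeasureTheory.convolution c1a_k H (ContinuousLinearMap.mul ℝ ℝ) volume)
      (ContinuousLinearMap.mul ℝ ℝ) volume) y := by
  have hloc : LocallyIntegrable c1a_k volume := c1a_k_int.locallyIntegrable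
  have hlocn : LocallyIntegrable (fun x => ‖c1a_k x‖) volume := c1a_k_int.norm.locallyIntegrable
  have hsupp : HasCompactSupport (fun x => ‖c1a_k x‖) := by
    apply HasCompactSupport.intro (isCompact_Icc (a := (0:ℝ)) (b := 1))
    intro x hx
    have : x ∉ Ioc (0:ℝ) 1 := fun h => hx ⟨h.1.le, h.2⟩
    unfold c1a_k
    rw [indicator_of_notMem this, norm_zero]
  have hnH : Continuous (fun x => ‖H x‖) := hH.norm
  have hnHs : HasCompactSupport (fun x => ‖H x‖) := hs.norm
  apply MeasureTheory.convolution_assoc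
  · intro a b c
    simp [mul_assoc]
  · exact c1a_k_int.aestronglyMeasurable
  · exact c1a_k_int.aestronglyMeasurable
  · exact hH.aestronglyMeasurable
  · exact c1a_k_int.ae_convolution_exists (ContinuousLinearMap.mul ℝ ℝ) c1a_k_int
  · exact Eventually.of_forall (hnHs.convolutionExists_right (ContinuousLinearMap.mul ℝ ℝ) hlocn hnH)
  · have hc : Continuous (MeasureTheory.convolution (fun x => ‖c1a_k x‖) (fun x => ‖H x‖) (ContinuousLinearMap.mul ℝ ℝ) volume) :=
      hnHs.continuous_convolution_right (ContinuousLinearMap.mul ℝ ℝ) hlocn hnH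
    have hcs : HasCompactSupport (MeasureTheory.convolution (fun x => ‖c1a_k x‖) (fun x => ‖H x‖) (ContinuousLinearMap.mul ℝ ℝ) volume) :=
      HasCompactSupport.convolution (ContinuousLinearMap.mul ℝ ℝ) hsupp hnHs
    exact hcs.convolutionExists_right (ContinuousLinearMap.mul ℝ ℝ) hlocn hc y

/-- ROW C1b. `HL (HL H)` is the integral: for `y ≤ 1` and continuous `H` which is zero on `(-∞, 0]`, `HL (HL H) y = ∫_0^{max 0 y} H`. PROOF. Fubini and the substitution `s = h + k`: the weight of `H (y - s)` is `(1/π) ∫_0^s h^{-1/2} (s-h)^{-1/2} dh = 1` for `0 < s ≤ 1`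
(beta integral `B(1/2,1/2) = π`; `Real.betaIntegral`/`Complex.betaIntegral`, `Complex.Gamma_mul_Gamma_eq_betaIntegral`, see also the circle of ideas in LibM3/L-blocks), and `H (y-s) = 0` for `s ≥ 1`. -/
theorem HL_HL {H : ℝ → ℝ} (hH : Continuous H) (h0 : ∀ y, y ≤ 0 → H y = 0) {y : ℝ} (hy : y ≤ 1) : HL (HL H) y = ∫ x in (0:ℝ)..(max 0 y), H x := by
  obtain ⟨H', hH', hs', h0', he⟩ : ∃ H' : ℝ → ℝ, Continuous H' ∧ HasCompactSupport H' ∧ (∀ y, y ≤ 0 → H' y = 0) ∧
      ∀ x, x ≤ 1 → H' x = H x := by
    refine ⟨fun x => H x * max 0 (min 1 (2 - x)), by fun_prop, ?_, ?_, ?_⟩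
    · apply HasCompactSupport.intro (isCompact_Icc (a := (0:ℝ)) (b := 2))
      intro x hx
      rcases le_or_gt x 0 with h | h
      · rw [h0 x h, zero_mul]
      · have h2 : 2 < x := by
          by_contra hc
          exact hx ⟨h.le, not_lt.1 hc⟩
        rw [max_eq_left, mul_zero]
        exact (min_le_right _ _).trans (by linarith)
    · intro x hx
      simp only
      rw [h0 x hx, zero_mul]
    · intro x hx
      simp only
      rw [min_eq_left (by linarith), max_eq_right zero_le_one, mul_one]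
  have hHL : ∀ z, z ≤ 1 → HL H z = HL H' z := by
    intro z hz
    unfold HL
    congr 1
    apply intervalIntegral.integral_congr
    intro h hh
    rw [uIcc_of_le zero_le_one] at hh
    simp only
    rw [he (z - h) (by linarith [hh.1])]
  have hHL2 : HL (HL H) y = HL (HL H') y := by
    rw [HL, HL]
    congr 1
    apply intervalIntegral.integral_congr
    intro h hh
    rw [uIcc_of_le zero_le_one] at hh
    simp only
    rw [hHL (y - h) (by linarith [hh.1])]
  have e1 : HL H' = (1 / √Real.pi) • (MeasureTheory.convolution c1a_k H' (ContinuousLinearMap.mul ℝ ℝ) volume) := by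
    funext z
    rw [c1a_HL, Pi.smul_apply, smul_eq_mul]
  rw [hHL2, c1a_HL, e1, MeasureTheory.convolution_smul, Pi.smul_apply, smul_eq_mul, ← c1a_assoc hH' hs' y,
    MeasureTheory.convolution_def]
  have e2 : (fun t => ((ContinuousLinearMap.mul ℝ ℝ)
      ((MeasureTheory.convolution c1a_k c1a_k (ContinuousLinearMap.mul ℝ ℝ) volume) t)) (H' (y - t))) =
      (Ioc (0:ℝ) 1).indicator (fun t => Real.pi * H' (y - t)) := by
    funext t
    rw [ContinuousLinearMap.mul_apply']
    rcases le_or_gt t 0 with h | h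
    · rw [c1a_kk_nonpos h, zero_mul, indicator_of_notMem]
      rintro ⟨h2, _⟩
      linarith
    · rcases le_or_gt t 1 with h1 | h1
      · rw [c1a_kk h h1, indicator_of_mem (show t ∈ Ioc (0:ℝ) 1 from ⟨h, h1⟩)]
      · rw [h0' (y - t) (by linarith), mul_zero, indicator_of_notMem]
        rintro ⟨_, h2⟩
        linarith
  rw [e2, integral_indicator measurableSet_Ioc, ← intervalIntegral.integral_of_le zero_le_one,
    intervalIntegral.integral_const_mul, intervalIntegral.integral_comp_sub_left (fun x => H' x) y, sub_zero]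
  have hpi : (1 / √Real.pi) * ((1 / √Real.pi) * (Real.pi * ∫ x in (y - 1)..y, H' x)) = ∫ x in (y - 1)..y, H' x := by
    have hsq : √Real.pi * √Real.pi = Real.pi := Real.mul_self_sqrt Real.pi_pos.le
    have hne : √Real.pi ≠ 0 := (Real.sqrt_pos.2 Real.pi_pos).ne'
    field_simp
    rw [pow_two, hsq]
  rw [hpi]
  rcases le_or_gt y 0 with h | h
  · rw [max_eq_left h, intervalIntegral.integral_same]
    have h1 : ∫ x in (y - 1)..y, H' x = ∫ x in (y - 1)..y, (0:ℝ) := by
      apply intervalIntegral.integral_congr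
      intro x hx
      rw [uIcc_of_le (by linarith)] at hx
      exact h0' x (hx.2.trans h)
    rw [h1, intervalIntegral.integral_zero]
  · rw [max_eq_right h.le]
    rw [← intervalIntegral.integral_add_adjacent_intervals (hH'.intervalIntegrable (y - 1) 0) (hH'.intervalIntegrable 0 y)]
    have h1 : ∫ x in (y - 1)..0, H' x = ∫ x in (y - 1)..0, (0:ℝ) := by
      apply intervalIntegral.integral_congr
      intro x hx
      rw [uIcc_of_le (by linarith)] at hx
      exact h0' x hx.2
    rw [h1, intervalIntegral.integral_zero, zero_add]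
    apply intervalIntegral.integral_congr
    intro x hx
    rw [uIcc_of_le h.le] at hx
    exact he x (hx.2.trans hy)

end Pool.Agent.LibOM70
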