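import Pool.Agent.LibOM70B.Defs2

/-! ODD MOMENTS, signed route, row C2. -/

set_option autoImplicit false

namespace Pool.Agent.LibOM70

open MeasureTheory Set Filter Topology Complex ProbabilityTheory
open scoped NNReal ComplexConjugate
open Pool.Agent.LibZM Pool.Agent.LibM3
open Pool.Agent.LibLaw15 hiding Lam

private lemma c2_int {Φ : ℝ → ℝ} (hΦ : Continuous Φ) (h0 : ∀ y, y ≤ 0 → Φ y = 0) {a c d : ℝ} (ha : 0 ≤ a)
    (hd0 : 0 ≤ d) (hdc : d ≤ c) :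
    IntervalIntegrable (fun z : ℝ => if z ≤ d then ((Φ (z - a) : ℝ) : ℂ) else 0) volume 0 c ∧
      ∫ z in (0:ℝ)..c, (if z ≤ d then ((Φ (z - a) : ℝ) : ℂ) else 0) = ((∫ y in (0:ℝ)..(d - a), Φ y : ℝ) : ℂ) := by
  have hg : Continuous fun z : ℝ => ((Φ (z - a) : ℝ) : ℂ) := by fun_prop
  have hf : (fun z : ℝ => if z ≤ d then ((Φ (z - a) : ℝ) : ℂ) else 0) = (Iic d).indicator fun z => ((Φ (z - a) : ℝ) : ℂ) := by
    funext z
    by_cases h : z ≤ d
    · rw [if_pos h, indicator_of_mem (show z ∈ Iic d from h)]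
    · rw [if_neg h, indicator_of_notMem (show z ∉ Iic d from h)]
  have hc : 0 ≤ c := hd0.trans hdc
  constructor
  · rw [hf, intervalIntegrable_iff_integrableOn_Ioc_of_le hc]
    have h1 : IntegrableOn (fun z : ℝ => ((Φ (z - a) : ℝ) : ℂ)) (Ioc 0 c) volume :=
      (hg.intervalIntegrable 0 c).1
    exact h1.indicator measurableSet_Iic
  · rw [hf, intervalIntegral.integral_of_le hc, setIntegral_indicator measurableSet_Iic]
    have h1 : Ioc 0 c ∩ Iic d = Ioc 0 d := by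
      ext z
      simp only [mem_inter_iff, mem_Ioc, mem_Iic]
      constructor
      · rintro ⟨⟨h1, _⟩, h2⟩; exact ⟨h1, h2⟩
      · rintro ⟨h1, h2⟩; exact ⟨⟨h1, h2.trans hdc⟩, h2⟩
    rw [h1, ← intervalIntegral.integral_of_le hd0, intervalIntegral.integral_ofReal]
    congr 1
    rw [intervalIntegral.integral_comp_sub_right (fun y => Φ y) a]
    have h2 : ∫ y in (0 - a)..(0:ℝ), Φ y = 0 := by
      have h3 : ∫ y in (0 - a)..(0:ℝ), Φ y = ∫ _y in (0 - a)..(0:ℝ), (0:ℝ) := by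
        refine intervalIntegral.integral_congr fun y hy => ?_
        rw [uIcc_of_le (by linarith)] at hy
        exact h0 y hy.2
      rw [h3]
      simp
    have h4 := intervalIntegral.integral_add_adjacent_intervals (a := 0 - a) (b := 0) (c := d - a)
      (hΦ.intervalIntegrable (μ := volume) _ _) (hΦ.intervalIntegrable (μ := volume) _ _)
    rw [h2, zero_add] at h4
    exact h4.symm

private lemma c2_neg {Φ : ℝ → ℝ} (h0 : ∀ y, y ≤ 0 → Φ y = 0) {y : ℝ} (hy : y ≤ 0) :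
    ∫ x in (0:ℝ)..y, Φ x = 0 := by
  have h3 : ∫ x in (0:ℝ)..y, Φ x = ∫ _x in (0:ℝ)..y, (0:ℝ) := by
    refine intervalIntegral.integral_congr fun x hx => ?_
    rw [uIcc_of_ge hy] at hx
    exact h0 x hx.2
  rw [h3]
  simp

private lemma c2_le_iff {m : ℕ} (hm : 1 ≤ m) (z : ℝ) : m ≤ ⌊Real.exp z⌋₊ ↔ Real.log m ≤ z := by
  rw [Nat.le_floor_iff (Real.exp_pos z).le, Real.log_le_iff_le_exp (by exact_mod_cast hm)]

private lemma c2_Ye_eq {B z : ℝ} (hz : z ≤ B) (t : ℝ) :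
    Ye z t = ∑ m ∈ Finset.Icc 1 ⌊Real.exp B⌋₊, if Real.log m ≤ z then ((tau (1/2) m : ℝ) : ℂ) * (m:ℂ) ^ (-crit t) else 0 := by
  unfold Ye PP dp
  have hK : ⌊Real.exp z⌋₊ ≤ ⌊Real.exp B⌋₊ := Nat.floor_mono (Real.exp_le_exp.mpr hz)
  rw [← Finset.sum_filter]
  have hset : Finset.Icc 1 ⌊Real.exp z⌋₊ = (Finset.Icc 1 ⌊Real.exp B⌋₊).filter (fun m : ℕ => Real.log m ≤ z) := by
    ext k
    simp only [Finset.mem_Icc, Finset.mem_filter]
    constructor
    · rintro ⟨h1, h2⟩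
      exact ⟨⟨h1, h2.trans hK⟩, (c2_le_iff h1 z).mp h2⟩
    · rintro ⟨⟨h1, _⟩, h3⟩
      exact ⟨h1, (c2_le_iff h1 z).mpr h3⟩
  rw [← hset]
  refine Finset.sum_congr rfl fun m hm => ?_
  rw [halfTrunc_apply, if_pos (Finset.mem_Icc.mp hm).2]

private lemma c2_group (f g F : ℕ → ℂ) (N : ℕ) (hF : ∀ n, N < n → F n = 0) :
    ∑ m ∈ Finset.Icc 1 N, ∑ n ∈ Finset.Icc 1 N, F (m * n) * (f m * g n) =
      ∑ n ∈ Finset.Icc 1 N, F n * ∑ x ∈ Nat.divisorsAntidiagonal n, f x.1 * g x.2 := by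
  classical
  have hR : ∀ n ∈ Finset.Icc 1 N, F n * ∑ x ∈ Nat.divisorsAntidiagonal n, f x.1 * g x.2 =
      ∑ x ∈ Nat.divisorsAntidiagonal n, F (x.1 * x.2) * (f x.1 * g x.2) := by
    intro n _
    rw [Finset.mul_sum]
    refine Finset.sum_congr rfl fun x hx => ?_
    rw [(Nat.mem_divisorsAntidiagonal.mp hx).1]
  have hL : ∑ m ∈ Finset.Icc 1 N, ∑ n ∈ Finset.Icc 1 N, F (m * n) * (f m * g n) =
      ∑ q ∈ Finset.Icc 1 N ×ˢ Finset.Icc 1 N, F (q.1 * q.2) * (f q.1 * g q.2) :=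
    (Finset.sum_product' _ _ fun m n => F (m * n) * (f m * g n)).symm
  rw [hL, Finset.sum_congr rfl hR, Finset.sum_sigma']
  symm
  refine Finset.sum_of_injOn (fun x => x.2) ?_ ?_ ?_ ?_
  · rintro ⟨k, x⟩ hx ⟨k', x'⟩ hx' h
    simp only [Finset.coe_sigma, Set.mem_sigma_iff, Finset.mem_coe, Nat.mem_divisorsAntidiagonal] at hx hx'
    simp only at h
    subst h
    have : k = k' := hx.2.1.symm.trans hx'.2.1
    subst this
    rfl
  · rintro ⟨k, x⟩ hx
    simp only [Finset.coe_sigma, Set.mem_sigma_iff, Finset.mem_coe, Nat.mem_divisorsAntidiagonal, Finset.coe_Icc, Set.mem_Icc] at hx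
    simp only [Finset.coe_product, Set.mem_prod, Finset.coe_Icc, Set.mem_Icc]
    obtain ⟨⟨h1, h2⟩, h3, h4⟩ := hx
    have hx1 : x.1 ≠ 0 := by rintro h; rw [h, zero_mul] at h3; omega
    have hx2 : x.2 ≠ 0 := by rintro h; rw [h, mul_zero] at h3; omega
    refine ⟨⟨by omega, ?_⟩, ⟨by omega, ?_⟩⟩
    · exact (Nat.le_mul_of_pos_right _ (by omega)).trans (h3.le.trans h2)
    · exact (Nat.le_mul_of_pos_left _ (by omega)).trans (h3.le.trans h2)
  · rintro ⟨a, b⟩ hx hnot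
    simp only [Finset.mem_product, Finset.mem_Icc] at hx
    by_cases hab : a * b ≤ N
    · exfalso
      apply hnot
      refine ⟨⟨a * b, (a, b)⟩, ?_, rfl⟩
      simp only [Finset.coe_sigma, Set.mem_sigma_iff, Finset.mem_coe, Nat.mem_divisorsAntidiagonal, Finset.coe_Icc, Set.mem_Icc]
      have : 1 ≤ a * b := Nat.one_le_iff_ne_zero.mpr (Nat.mul_ne_zero (by omega) (by omega))
      exact ⟨⟨this, hab⟩, trivial, by omega⟩
    · simp only
      rw [hF _ (by omega), zero_mul]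
  · rintro ⟨k, x⟩ _
    rfl

/-- ROW C2. The convolution identity. PROOF. `AA 1 (NT c T) δ (Φ(z-·)) (crit t) · Ye ((c-z) log T) t = ∑_{h,k} τ_{-1/2}(h) τ_{1/2}(k) (hk)^{-crit t} Φ(z - δ log h) 1[δ log k ≤ c - z]`, `δ = 1/log T`; the integral over `z ∈ [0,c]` of the last two factors is
`∫_0^{max 0 (c - δ log (hk))} Φ` (`Φ = 0` on `(-∞,0]`), a function of `hk` that vanishes for `hk > T^c`; `∑_{hk = n} τ_{-1/2}(h) τ_{1/2}(k) = [n = 1]` (`tau_mul`, `tau_zero_eq`). (`Ye`, `PP`, `dp`, `halfTrunc`: see U5 of LibOM70 for the analogous identity `HH`.) -/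
theorem hankel2 {Φ : ℝ → ℝ} (hΦ : Continuous Φ) (h0 : ∀ y, y ≤ 0 → Φ y = 0) {c T : ℝ} (hc : 0 < c) (hT : 1 < T) (t : ℝ) :
    ∫ z in (0:ℝ)..c, AA 1 (NT c T) (1 / Real.log T) (fun x => Φ (z - x)) (crit t) * Ye ((c - z) * Real.log T) t = ((∫ y in (0:ℝ)..c, Φ y : ℝ) : ℂ) := by
  set L : ℝ := Real.log T with hL
  have hL0 : 0 < L := Real.log_pos hT
  have hT0 : 0 < T := by linarith
  set N : ℕ := ⌊Real.exp (c * L)⌋₊ with hN
  have hNT : NT c T = N := by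
    unfold NT
    rw [Real.rpow_def_of_pos hT0, mul_comm (Real.log T) c]
  have hcs : cs 1 (NT c T) = Finset.Icc 1 N := by
    unfold cs
    rw [hNT]
    exact Finset.filter_true_of_mem fun h _ => Nat.coprime_one_right h
  have hlog0 : ∀ k ∈ Finset.Icc 1 N, 0 ≤ 1 / L * Real.log (k:ℝ) := by
    intro k hk
    exact mul_nonneg (by positivity) (Real.log_nonneg (by exact_mod_cast (Finset.mem_Icc.mp hk).1))
  have hlogc : ∀ k ∈ Finset.Icc 1 N, 1 / L * Real.log (k:ℝ) ≤ c := by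
    intro k hk
    have h1 := (c2_le_iff (Finset.mem_Icc.mp hk).1 (c * L)).mp (Finset.mem_Icc.mp hk).2
    rw [one_div, inv_mul_le_iff₀ hL0]
    linarith
  -- the integrand as a double sum
  have hEq : Set.EqOn (fun z => AA 1 (NT c T) (1 / L) (fun x => Φ (z - x)) (crit t) * Ye ((c - z) * L) t)
      (fun z => ∑ h ∈ Finset.Icc 1 N, ∑ k ∈ Finset.Icc 1 N,
        (if z ≤ c - 1 / L * Real.log k then ((Φ (z - 1 / L * Real.log h) : ℝ) : ℂ) else 0) *
          ((((tau (-1/2) h : ℝ) : ℂ) * (h:ℂ) ^ (-crit t)) * (((tau (1/2) k : ℝ) : ℂ) * (k:ℂ) ^ (-crit t)))) (Set.uIcc 0 c) := by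
    intro z hz
    rw [uIcc_of_le hc.le] at hz
    simp only
    rw [c2_Ye_eq (B := c * L) (z := (c - z) * L) (by nlinarith [hz.1]) t]
    unfold AA
    rw [hcs, Finset.sum_mul_sum]
    refine Finset.sum_congr rfl fun h _ => Finset.sum_congr rfl fun k _ => ?_
    have hiff : Real.log k ≤ (c - z) * L ↔ z ≤ c - 1 / L * Real.log k := by
      rw [le_sub_iff_add_le, ← le_sub_iff_add_le', one_div, inv_mul_le_iff₀ hL0, mul_comm L]
    by_cases h1 : Real.log k ≤ (c - z) * L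
    · rw [if_pos h1, if_pos (hiff.mp h1)]
      push_cast
      ring
    · rw [if_neg h1, if_neg (fun h2 => h1 (hiff.mpr h2))]
      ring
  have hi : ∀ h ∈ Finset.Icc 1 N, ∀ k ∈ Finset.Icc 1 N,
      IntervalIntegrable (fun z : ℝ => if z ≤ c - 1 / L * Real.log k then ((Φ (z - 1 / L * Real.log h) : ℝ) : ℂ) else 0) volume 0 c ∧
      ∫ z in (0:ℝ)..c, (if z ≤ c - 1 / L * Real.log k then ((Φ (z - 1 / L * Real.log h) : ℝ) : ℂ) else 0) =
        ((∫ y in (0:ℝ)..(c - 1 / L * Real.log ((h * k : ℕ) : ℝ)), Φ y : ℝ) : ℂ) := by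
    intro h hh k hk
    obtain ⟨e1, e2⟩ := c2_int hΦ h0 (a := 1 / L * Real.log h) (c := c) (d := c - 1 / L * Real.log k)
      (hlog0 h hh) (by linarith [hlogc k hk]) (by linarith [hlog0 k hk])
    refine ⟨e1, ?_⟩
    rw [e2]
    have hh0 : (h:ℝ) ≠ 0 := by
      have := (Finset.mem_Icc.mp hh).1
      exact_mod_cast (by omega : h ≠ 0)
    have hk0 : (k:ℝ) ≠ 0 := by
      have := (Finset.mem_Icc.mp hk).1
      exact_mod_cast (by omega : k ≠ 0)
    rw [Nat.cast_mul, Real.log_mul hh0 hk0]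
    congr 2
    ring
  rw [intervalIntegral.integral_congr hEq, intervalIntegral.integral_finsetSum]
  swap
  · intro h hh
    have e : (fun z : ℝ => ∑ k ∈ Finset.Icc 1 N,
        (if z ≤ c - 1 / L * Real.log k then ((Φ (z - 1 / L * Real.log h) : ℝ) : ℂ) else 0) *
          ((((tau (-1/2) h : ℝ) : ℂ) * (h:ℂ) ^ (-crit t)) * (((tau (1/2) k : ℝ) : ℂ) * (k:ℂ) ^ (-crit t)))) =
        ∑ k ∈ Finset.Icc 1 N, fun z : ℝ =>
        (if z ≤ c - 1 / L * Real.log k then ((Φ (z - 1 / L * Real.log h) : ℝ) : ℂ) else 0) *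
          ((((tau (-1/2) h : ℝ) : ℂ) * (h:ℂ) ^ (-crit t)) * (((tau (1/2) k : ℝ) : ℂ) * (k:ℂ) ^ (-crit t))) := by
      funext y
      rw [Finset.sum_apply]
    rw [e]
    exact IntervalIntegrable.sum _ fun k hk => (hi h hh k hk).1.mul_const _
  have hsum : ∀ h ∈ Finset.Icc 1 N, ∫ z in (0:ℝ)..c, ∑ k ∈ Finset.Icc 1 N,
        (if z ≤ c - 1 / L * Real.log k then ((Φ (z - 1 / L * Real.log h) : ℝ) : ℂ) else 0) *
          ((((tau (-1/2) h : ℝ) : ℂ) * (h:ℂ) ^ (-crit t)) * (((tau (1/2) k : ℝ) : ℂ) * (k:ℂ) ^ (-crit t))) =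
      ∑ k ∈ Finset.Icc 1 N, (((∫ y in (0:ℝ)..(c - 1 / L * Real.log ((h * k : ℕ) : ℝ)), Φ y : ℝ) : ℂ) *
        (((h * k : ℕ) : ℂ) ^ (-crit t))) * (((tau (-1/2) h : ℝ) : ℂ) * ((tau (1/2) k : ℝ) : ℂ)) := by
    intro h hh
    rw [intervalIntegral.integral_finsetSum fun k hk => (hi h hh k hk).1.mul_const _]
    refine Finset.sum_congr rfl fun k hk => ?_
    rw [intervalIntegral.integral_mul_const, (hi h hh k hk).2]
    have e3 : (((h * k : ℕ) : ℂ) ^ (-crit t)) = (h:ℂ) ^ (-crit t) * (k:ℂ) ^ (-crit t) := by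
      rw [Nat.cast_mul]
      exact natCast_mul_natCast_cpow h k _
    rw [e3]
    ring
  rw [Finset.sum_congr rfl hsum]
  rw [c2_group (fun m => ((tau (-1/2) m : ℝ) : ℂ)) (fun m => ((tau (1/2) m : ℝ) : ℂ))
    (fun n => ((∫ y in (0:ℝ)..(c - 1 / L * Real.log (n : ℝ)), Φ y : ℝ) : ℂ) * ((n : ℂ) ^ (-crit t))) N ?_]
  · have hone : ∀ n ∈ Finset.Icc 1 N, (((∫ y in (0:ℝ)..(c - 1 / L * Real.log (n : ℝ)), Φ y : ℝ) : ℂ) * ((n : ℂ) ^ (-crit t))) *
        ∑ x ∈ Nat.divisorsAntidiagonal n, ((tau (-1/2) x.1 : ℝ) : ℂ) * ((tau (1/2) x.2 : ℝ) : ℂ) =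
        if n = 1 then ((∫ y in (0:ℝ)..c, Φ y : ℝ) : ℂ) else 0 := by
      intro n _
      have h1 : ∑ x ∈ Nat.divisorsAntidiagonal n, ((tau (-1/2) x.1 : ℝ) : ℂ) * ((tau (1/2) x.2 : ℝ) : ℂ) =
          (((tau (-1/2) * tau (1/2) : ArithmeticFunction ℝ) n : ℝ) : ℂ) := by
        rw [ArithmeticFunction.mul_apply]
        push_cast
        rfl
      rw [h1, tau_mul, show (-1/2 + 1/2 : ℝ) = 0 by norm_num, tau_zero_eq, ArithmeticFunction.one_apply]
      by_cases hn : n = 1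
      · subst hn
        simp
      · simp [hn]
    rw [Finset.sum_congr rfl hone, Finset.sum_ite_eq', if_pos]
    rw [Finset.mem_Icc]
    refine ⟨le_rfl, ?_⟩
    rw [c2_le_iff le_rfl]
    simp only [Nat.cast_one, Real.log_one]
    positivity
  · intro n hn
    have hn1 : 1 ≤ n := by omega
    have h1 : c * L < Real.log n := by
      by_contra h2
      rw [not_lt] at h2
      have := (c2_le_iff hn1 (c * L)).mpr h2
      omega
    have h2 : c - 1 / L * Real.log n ≤ 0 := by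
      have h3 : c < 1 / L * Real.log n := by
        rw [one_div, lt_inv_mul_iff₀ hL0, mul_comm]
        exact h1
      linarith
    rw [c2_neg h0 h2]
    simp

end Pool.Agent.LibOM70
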