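import Pool.Agent.LibOM70B.C2
import Pool.Agent.LibOM70.U6a

/-! ODD MOMENTS, signed route, row C3. -/

set_option autoImplicit false

namespace Pool.Agent.LibOM70

open MeasureTheory Set Filter Topology Complex ProbabilityTheory
open scoped NNReal ComplexConjugate
open Pool.Agent.LibZM Pool.Agent.LibM3
open Pool.Agent.LibLaw15 hiding Lam

private lemma c3_cs {μ : Measure ℝ} [IsFiniteMeasure μ] {f g : ℝ → ℝ} (hf : Measurable f) (hg : Measurable g)
    (hf0 : ∀ t, 0 ≤ f t) (hg0 : ∀ t, 0 ≤ g t) {A : ℝ} (hfA : ∀ t, f t ≤ A) (hgA : ∀ t, g t ≤ A) :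
    ∫ t, f t * g t ∂μ ≤ √(∫ t, f t ^ 2 ∂μ) * √(∫ t, g t ^ 2 ∂μ) := by
  have hf2 : MemLp f (ENNReal.ofReal 2) μ :=
    MemLp.of_bound hf.aestronglyMeasurable A (Eventually.of_forall fun t => by
      rw [Real.norm_eq_abs, abs_of_nonneg (hf0 t)]; exact hfA t)
  have hg2 : MemLp g (ENNReal.ofReal 2) μ :=
    MemLp.of_bound hg.aestronglyMeasurable A (Eventually.of_forall fun t => by
      rw [Real.norm_eq_abs, abs_of_nonneg (hg0 t)]; exact hgA t)
  have h := integral_mul_le_Lp_mul_Lq_of_nonneg (μ := μ) (p := 2) (q := 2) Real.HolderConjugate.two_two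
    (Eventually.of_forall hf0) (Eventually.of_forall hg0) hf2 hg2
  simp only [Real.rpow_two] at h
  rw [Real.sqrt_eq_rpow, Real.sqrt_eq_rpow]
  exact h

private lemma c3_main {μ ν : Measure ℝ} [IsFiniteMeasure μ] [IsFiniteMeasure ν] {f g : ℝ → ℝ → ℝ} {ω : ℝ → ℝ}
    (hf : Measurable (Function.uncurry f)) (hg : Measurable (Function.uncurry g)) (hω : Measurable ω)
    (hf0 : ∀ z t, 0 ≤ f z t) (hg0 : ∀ z t, 0 ≤ g z t) (hω0 : ∀ t, 0 ≤ ω t) {A W : ℝ}
    (hfA : ∀ z t, f z t ≤ A) (hgA : ∀ z t, g z t ≤ A) (hωW : ∀ t, ω t ≤ W) :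
    Integrable (fun t => (∫ z, f z t * g z t ∂ν) * ω t) μ ∧
    Integrable (fun z => √(∫ t, f z t ^ 2 * ω t ∂μ) * √(∫ t, g z t ^ 2 * ω t ∂μ)) ν ∧
    ∫ t, (∫ z, f z t * g z t ∂ν) * ω t ∂μ ≤
      ∫ z, √(∫ t, f z t ^ 2 * ω t ∂μ) * √(∫ t, g z t ^ 2 * ω t ∂μ) ∂ν := by
  have hA0 : 0 ≤ A := (hf0 0 0).trans (hfA 0 0)
  have hW0 : 0 ≤ W := (hω0 0).trans (hωW 0)
  have hI : Integrable (fun p : ℝ × ℝ => f p.1 p.2 * g p.1 p.2 * ω p.2) (ν.prod μ) := by
    refine Integrable.mono' (g := fun _ => A * A * W) (integrable_const _)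
      ((hf.mul hg).mul (hω.comp measurable_snd)).aestronglyMeasurable (Eventually.of_forall fun p => ?_)
    rw [Real.norm_eq_abs, abs_of_nonneg (mul_nonneg (mul_nonneg (hf0 _ _) (hg0 _ _)) (hω0 _))]
    exact mul_le_mul (mul_le_mul (hfA _ _) (hgA _ _) (hg0 _ _) hA0) (hωW _) (hω0 _) (mul_nonneg hA0 hA0)
  have e1 : ∀ t, (∫ z, f z t * g z t ∂ν) * ω t = ∫ z, f z t * g z t * ω t ∂ν := fun t =>
    (integral_mul_const (ω t) fun z => f z t * g z t).symm
  have hJ : Integrable (fun t => (∫ z, f z t * g z t ∂ν) * ω t) μ := by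
    simp only [e1]
    exact hI.integral_prod_right
  have hm : ∀ k : ℝ → ℝ → ℝ, Measurable (Function.uncurry k) →
      Measurable fun z => √(∫ t, k z t ^ 2 * ω t ∂μ) := by
    intro k hk
    have h1 : StronglyMeasurable (Function.uncurry fun z t : ℝ => k z t ^ 2 * ω t) :=
      ((hk.pow_const 2).mul (hω.comp measurable_snd)).stronglyMeasurable
    exact h1.integral_prod_right.measurable.sqrt
  have hb : ∀ k : ℝ → ℝ → ℝ, (∀ z t, 0 ≤ k z t) → (∀ z t, k z t ≤ A) → Measurable (Function.uncurry k) → ∀ z,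
      √(∫ t, k z t ^ 2 * ω t ∂μ) ≤ √(A ^ 2 * W * μ.real univ) := by
    intro k hk0 hkA hk z
    apply Real.sqrt_le_sqrt
    have h1 : ∫ t, k z t ^ 2 * ω t ∂μ ≤ ∫ _t, A ^ 2 * W ∂μ := by
      refine integral_mono_of_nonneg (Eventually.of_forall fun t => mul_nonneg (sq_nonneg _) (hω0 t))
        (integrable_const _) (Eventually.of_forall fun t => ?_)
      exact mul_le_mul (pow_le_pow_left₀ (hk0 _ _) (hkA _ _) 2) (hωW _) (hω0 _) (sq_nonneg _)
    rw [integral_const, smul_eq_mul] at h1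
    linarith
  have hR : Integrable (fun z => √(∫ t, f z t ^ 2 * ω t ∂μ) * √(∫ t, g z t ^ 2 * ω t ∂μ)) ν := by
    refine Integrable.mono' (g := fun _ => √(A ^ 2 * W * μ.real univ) * √(A ^ 2 * W * μ.real univ))
      (integrable_const _) ((hm f hf).mul (hm g hg)).aestronglyMeasurable (Eventually.of_forall fun z => ?_)
    rw [Real.norm_eq_abs, abs_of_nonneg (mul_nonneg (Real.sqrt_nonneg _) (Real.sqrt_nonneg _))]
    exact mul_le_mul (hb f hf0 hfA hf z) (hb g hg0 hgA hg z) (Real.sqrt_nonneg _) (Real.sqrt_nonneg _)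
  refine ⟨hJ, hR, ?_⟩
  have e2 : ∫ t, (∫ z, f z t * g z t ∂ν) * ω t ∂μ = ∫ z, ∫ t, f z t * g z t * ω t ∂μ ∂ν := by
    simp only [e1]
    exact (integral_integral_swap (f := fun z t : ℝ => f z t * g z t * ω t) hI).symm
  rw [e2]
  refine integral_mono_of_nonneg (Eventually.of_forall fun z => integral_nonneg fun t =>
    mul_nonneg (mul_nonneg (hf0 _ _) (hg0 _ _)) (hω0 _)) hR (Eventually.of_forall fun z => ?_)
  have hfz : Measurable (f z) := hf.comp (measurable_const.prodMk measurable_id)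
  have hgz : Measurable (g z) := hg.comp (measurable_const.prodMk measurable_id)
  have hsW : ∀ t, √(ω t) ≤ √W := fun t => Real.sqrt_le_sqrt (hωW t)
  have h1 := c3_cs (μ := μ) (f := fun t => f z t * √(ω t)) (g := fun t => g z t * √(ω t))
    (hfz.mul hω.sqrt) (hgz.mul hω.sqrt)
    (fun t => mul_nonneg (hf0 _ _) (Real.sqrt_nonneg _)) (fun t => mul_nonneg (hg0 _ _) (Real.sqrt_nonneg _))
    (A := A * √W)
    (fun t => mul_le_mul (hfA _ _) (hsW t) (Real.sqrt_nonneg _) hA0)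
    (fun t => mul_le_mul (hgA _ _) (hsW t) (Real.sqrt_nonneg _) hA0)
  have e3 : ∀ t, f z t * √(ω t) * (g z t * √(ω t)) = f z t * g z t * ω t := by
    intro t
    calc f z t * √(ω t) * (g z t * √(ω t)) = f z t * g z t * (√(ω t) * √(ω t)) := by ring
      _ = _ := by rw [Real.mul_self_sqrt (hω0 t)]
  have e4 : ∀ (k : ℝ → ℝ → ℝ) (t : ℝ), (k z t * √(ω t)) ^ 2 = k z t ^ 2 * ω t := by
    intro k t
    rw [mul_pow, Real.sq_sqrt (hω0 t)]
  simp only [e3, e4] at h1
  exact h1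

private lemma c3_AA {Φ : ℝ → ℝ} (hΦ : Continuous Φ) (N : ℕ) (δ c : ℝ) :
    Continuous fun q : ℝ × ℝ => AA 1 N δ (fun x => Φ (max 0 (min q.1 c) - x)) (crit q.2) := by
  unfold AA
  refine continuous_finsetSum _ fun h hh => ?_
  have hh0 : (h:ℂ) ≠ 0 := by
    have h1 := (Finset.mem_Icc.mp (Finset.mem_filter.mp hh).1).1
    exact_mod_cast (by omega : h ≠ 0)
  refine Continuous.mul ?_ ?_
  · refine Complex.continuous_ofReal.comp (continuous_const.mul (hΦ.comp ?_))
    fun_prop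
  · unfold crit
    refine Continuous.const_cpow ?_ (Or.inl hh0)
    fun_prop

/-- ROW C3. Cauchy-Schwarz and Fubini under the window (pattern `HH_cs`, U6a): by `hankel2`, `‖ζ‖ · ∫_0^c Φ ≤ ∫_0^c ‖ζ A_z‖ ‖Ye ((c-z) log T)‖ dz`; integrate against `w` over the window, and enlarge the window to the line in the second factor (`w ≥ 0`). -/
theorem CS_signed {r : ℕ} (p : Fin r → ℕ) {w : Tor r → ℝ} (hw : Continuous w) (hw0 : ∀ x, 0 ≤ w x) {Φ : ℝ → ℝ} (hΦ : Continuous Φ) (h0 : ∀ y, y ≤ 0 → Φ y = 0)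
    {c : ℝ} (hc : 0 < c) (hΦ0 : 0 ≤ ∫ y in (0:ℝ)..c, Φ y) {P : ℝ × ℝ} (hP : 1 < P.1) (hu : 0 < P.2) :
    IntervalIntegrable (fun z => √(XW p w 1 c P (fun x => Φ (z - x))) * √(mmw p w P ((c - z) * Real.log P.1))) volume 0 c ∧
    (∫ y in (0:ℝ)..c, Φ y) * ∫ t in win P.2, ‖riemannZeta (crit t)‖ * w (xt p t) ∂(gaussianReal P.2 (vw P.1)) ≤
      ∫ z in (0:ℝ)..c, √(XW p w 1 c P (fun x => Φ (z - x))) * √(mmw p w P ((c - z) * Real.log P.1)) := by
  set L : ℝ := Real.log P.1 with hL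
  have hL0 : 0 < L := Real.log_pos hP
  set N : ℕ := NT c P.1 with hNdef
  obtain ⟨W, hW0, hW⟩ := u1_bdd hw
  obtain ⟨M, hM⟩ : ∃ M : ℕ, M = ⌊Real.exp (c * L)⌋₊ := ⟨_, rfl⟩
  obtain ⟨n, hn⟩ : ∃ n : ℝ → ℕ, ∀ z, n z = min ⌊Real.exp ((c - z) * L)⌋₊ M := ⟨_, fun _ => rfl⟩
  have hnm : Measurable n := by
    have h1 : n = fun z => min ⌊Real.exp ((c - z) * L)⌋₊ M := funext hn
    rw [h1]
    exact (Nat.measurable_floor.comp (Real.measurable_exp.comp ((measurable_const.sub measurable_id).mul_const L))).min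
      measurable_const
  have hnB : ∀ z, 0 ≤ z → n z = ⌊Real.exp ((c - z) * L)⌋₊ := by
    intro z hz
    rw [hn, hM]
    exact min_eq_left (Nat.floor_mono (Real.exp_le_exp.2 (by nlinarith)))
  obtain ⟨F, hF⟩ : ∃ F : ℕ → ℝ → ℝ, ∀ k t, F k t = ‖PP k (crit t)‖ := ⟨_, fun _ _ => rfl⟩
  have hFm : Measurable (Function.uncurry F) := by
    refine measurable_from_prod_countable_right fun k => ?_
    have h1 : (fun t => Function.uncurry F (k, t)) = fun t => ‖PP k (crit t)‖ := funext fun t => hF k t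
    rw [h1]
    exact ((continuous_dp_crit (halfTrunc k) k).norm).measurable
  have hF0 : ∀ k t, 0 ≤ F k t := fun k t => by rw [hF]; exact norm_nonneg _
  obtain ⟨A, hA⟩ : ∃ A : ℝ, ∀ k ≤ M, ∀ t, F k t ≤ A := by
    refine ⟨∑ k ∈ Finset.range (M + 1), ∑ n ∈ Finset.Icc 1 k, halfTrunc k n, fun k hk t => ?_⟩
    rw [hF]
    refine (norm_dp_crit_le (halfTrunc_nonneg k) k t).trans ?_
    exact Finset.single_le_sum (f := fun k => ∑ n ∈ Finset.Icc 1 k, halfTrunc k n)
      (fun j _ => Finset.sum_nonneg fun n _ => halfTrunc_nonneg j n) (Finset.mem_range.2 (Nat.lt_succ_of_le hk))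
  have hnM : ∀ z, n z ≤ M := fun z => by rw [hn]; exact min_le_right _ _
  have hgm : Measurable (Function.uncurry fun z t : ℝ => F (n z) t) :=
    hFm.comp ((hnm.comp measurable_fst).prodMk measurable_snd)
  -- the first factor
  have hwin : MeasurableSet (win P.2) := measurableSet_Icc
  obtain ⟨G, hG⟩ : ∃ G : ℝ × ℝ → ℝ, ∀ q, G q = ‖riemannZeta (crit q.2)‖ *
      ‖AA 1 N (1 / L) (fun x => Φ (max 0 (min q.1 c) - x)) (crit q.2)‖ := ⟨_, fun _ => rfl⟩
  have hGc : Continuous G := by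
    have h1 : G = fun q => ‖riemannZeta (crit q.2)‖ *
      ‖AA 1 N (1 / L) (fun x => Φ (max 0 (min q.1 c) - x)) (crit q.2)‖ := funext hG
    rw [h1]
    exact ((continuous_zeta_crit.comp continuous_snd).norm).mul (c3_AA hΦ N (1 / L) c).norm
  have hG0 : ∀ q, 0 ≤ G q := fun q => by rw [hG]; exact mul_nonneg (norm_nonneg _) (norm_nonneg _)
  have hclip : ∀ z t : ℝ, G (z, t) = G (max 0 (min z c), t) := by
    intro z t
    rw [hG, hG]
    have : max 0 (min (max 0 (min z c)) c) = max 0 (min z c) := by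
      rw [min_eq_left (max_le hc.le (min_le_right _ _)), max_eq_right (le_max_left _ _)]
    simp only [this]
  obtain ⟨A', hA'⟩ : ∃ A' : ℝ, ∀ z : ℝ, ∀ t ∈ win P.2, G (z, t) ≤ A' := by
    have hK : IsCompact (Icc (0:ℝ) c ×ˢ win P.2) := isCompact_Icc.prod isCompact_Icc
    obtain ⟨A', hA'⟩ := hK.bddAbove_image hGc.continuousOn
    refine ⟨A', fun z t ht => ?_⟩
    rw [hclip]
    exact hA' ⟨(max 0 (min z c), t), ⟨⟨le_max_left _ _, max_le hc.le (min_le_right _ _)⟩, ht⟩, rfl⟩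
  obtain ⟨f, hf⟩ : ∃ f : ℝ → ℝ → ℝ, ∀ z t, f z t = (win P.2).indicator (fun t => G (z, t)) t := ⟨_, fun _ _ => rfl⟩
  have hf0 : ∀ z t, 0 ≤ f z t := fun z t => by rw [hf]; exact indicator_nonneg (fun t _ => hG0 _) t
  have hfA : ∀ z t, f z t ≤ max A' 0 := by
    intro z t
    rw [hf]
    by_cases ht : t ∈ win P.2
    · rw [indicator_of_mem ht]; exact (hA' z t ht).trans (le_max_left _ _)
    · rw [indicator_of_notMem ht]; exact le_max_right _ _
  have hfm : Measurable (Function.uncurry f) := by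
    have h1 : Function.uncurry f = (Prod.snd ⁻¹' (win P.2)).indicator G := by
      funext q
      obtain ⟨z, t⟩ := q
      show f z t = _
      rw [hf]
      by_cases ht : t ∈ win P.2
      · rw [indicator_of_mem ht, indicator_of_mem (show (z, t) ∈ Prod.snd ⁻¹' (win P.2) from ht)]
      · rw [indicator_of_notMem ht, indicator_of_notMem (show (z, t) ∉ Prod.snd ⁻¹' (win P.2) from ht)]
    rw [h1]
    exact hGc.measurable.indicator (measurable_snd hwin)
  obtain ⟨h1, h2, h3⟩ := c3_main (μ := gaussianReal P.2 (vw P.1)) (ν := volume.restrict (Ioc 0 c))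
    (ω := fun t => w (xt p t)) (f := f) (g := fun z t => F (n z) t) hfm hgm (hw.comp (xt_continuous p)).measurable
    hf0 (fun z t => hF0 _ _) (fun t => hw0 _) (A := max (max A' 0) A) (W := W)
    (fun z t => (hfA z t).trans (le_max_left _ _)) (fun z t => (hA _ (hnM _) _).trans (le_max_right _ _)) (fun t => hW _)
  have ecl : ∀ z ∈ Ioc 0 c, max 0 (min z c) = z := by
    intro z hz
    rw [min_eq_left hz.2, max_eq_right hz.1.le]
  have eG : ∀ z ∈ Ioc 0 c, ∀ t, G (z, t) = ‖riemannZeta (crit t)‖ * ‖AA 1 N (1 / L) (fun x => Φ (z - x)) (crit t)‖ := by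
    intro z hz t
    rw [hG]
    simp only [ecl z hz]
  have e1 : ∀ z ∈ Ioc 0 c, √(∫ t, f z t ^ 2 * w (xt p t) ∂(gaussianReal P.2 (vw P.1))) *
      √(∫ t, F (n z) t ^ 2 * w (xt p t) ∂(gaussianReal P.2 (vw P.1))) =
      √(XW p w 1 c P (fun x => Φ (z - x))) * √(mmw p w P ((c - z) * L)) := by
    intro z hz
    have e5 : ∫ t, f z t ^ 2 * w (xt p t) ∂(gaussianReal P.2 (vw P.1)) = XW p w 1 c P (fun x => Φ (z - x)) := by
      unfold XW
      rw [← integral_indicator hwin]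
      refine integral_congr_ae (Eventually.of_forall fun t => ?_)
      simp only [hf]
      by_cases ht : t ∈ win P.2
      · rw [indicator_of_mem ht, indicator_of_mem ht, eG z hz, mul_pow]
      · rw [indicator_of_notMem ht, indicator_of_notMem ht]
        ring
    have e6 : ∫ t, F (n z) t ^ 2 * w (xt p t) ∂(gaussianReal P.2 (vw P.1)) = mmw p w P ((c - z) * L) := by
      unfold mmw
      rw [hnB z hz.1.le]
      simp only [hF]
      rfl
    rw [e5, e6]
  have e3 : ∀ t ∈ win P.2, (∫ y in (0:ℝ)..c, Φ y) * ‖riemannZeta (crit t)‖ ≤ ∫ z in Ioc 0 c, f z t * F (n z) t := by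
    intro t ht
    have e7 : ∀ z ∈ Ioc 0 c, f z t * F (n z) t =
        ‖riemannZeta (crit t)‖ * ‖AA 1 N (1 / L) (fun x => Φ (z - x)) (crit t) * Ye ((c - z) * L) t‖ := by
      intro z hz
      rw [hf, indicator_of_mem ht, eG z hz, hnB z hz.1.le, hF, norm_mul]
      simp only [Ye]
      ring
    rw [setIntegral_congr_fun measurableSet_Ioc e7, integral_const_mul, mul_comm]
    refine mul_le_mul_of_nonneg_left ?_ (norm_nonneg _)
    have e8 := hankel2 hΦ h0 hc hP t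
    have e9 : (∫ y in (0:ℝ)..c, Φ y) = ‖∫ z in (0:ℝ)..c, AA 1 N (1 / L) (fun x => Φ (z - x)) (crit t) * Ye ((c - z) * L) t‖ := by
      rw [hNdef, hL, e8, Complex.norm_real, Real.norm_eq_abs, abs_of_nonneg hΦ0]
    rw [e9, intervalIntegral.integral_of_le hc.le]
    exact norm_integral_le_integral_norm _
  constructor
  · rw [intervalIntegrable_iff_integrableOn_Ioc_of_le hc.le]
    exact IntegrableOn.congr_fun h2 e1 measurableSet_Ioc
  · have eR : ∫ z in (0:ℝ)..c, √(XW p w 1 c P (fun x => Φ (z - x))) * √(mmw p w P ((c - z) * L)) =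
        ∫ z in Ioc 0 c, √(∫ t, f z t ^ 2 * w (xt p t) ∂(gaussianReal P.2 (vw P.1))) *
          √(∫ t, F (n z) t ^ 2 * w (xt p t) ∂(gaussianReal P.2 (vw P.1))) := by
      rw [intervalIntegral.integral_of_le hc.le]
      exact (setIntegral_congr_fun measurableSet_Ioc e1).symm
    rw [eR]
    refine le_trans ?_ h3
    rw [← integral_const_mul]
    have h4 : ∫ t in win P.2, (∫ y in (0:ℝ)..c, Φ y) * (‖riemannZeta (crit t)‖ * w (xt p t)) ∂(gaussianReal P.2 (vw P.1)) ≤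
        ∫ t in win P.2, (∫ z in Ioc 0 c, f z t * F (n z) t) * w (xt p t) ∂(gaussianReal P.2 (vw P.1)) := by
      refine integral_mono_of_nonneg (Eventually.of_forall fun t => mul_nonneg hΦ0 (mul_nonneg (norm_nonneg _) (hw0 _)))
        h1.integrableOn ((ae_restrict_iff' hwin).2 (Eventually.of_forall fun t ht => ?_))
      simp only
      rw [← mul_assoc]
      exact mul_le_mul_of_nonneg_right (e3 t ht) (hw0 _)
    refine h4.trans (setIntegral_le_integral h1 (Eventually.of_forall fun t => ?_))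
    exact mul_nonneg (integral_nonneg fun z => mul_nonneg (hf0 _ _) (hF0 _ _)) (hw0 _)

end Pool.Agent.LibOM70
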