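import Pool.Agent.LibOM70B.D4b

/-! ODD MOMENTS, signed route, row D5a. -/

set_option autoImplicit false

namespace Pool.Agent.LibOM70

open MeasureTheory Set Filter Topology Complex ProbabilityTheory
open scoped NNReal ComplexConjugate
open Pool.Agent.LibZM Pool.Agent.LibM3
open Pool.Agent.LibLaw15 hiding Lam

private theorem d5a_F0 {ε : ℝ} {Φ F : ℝ → ℝ} (hK : Ker ε Φ F) (y : ℝ) : 0 ≤ F y := by
  rcases le_total y 0 with hy | hy
  · rw [hK.Fzero y hy]
  · rw [← hK.Fzero 0 le_rfl]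
    exact hK.Fmono hy

private theorem d5a_adm {ε : ℝ} {Φ F : ℝ → ℝ} (hK : Ker ε Φ F) {z : ℝ} :
    ∃ B : ℝ, 0 < B ∧ Adm z B (fun x => Φ (z - x)) := by
  have hs : ContDiff ℝ 3 (fun x => Φ (z - x)) := hK.smooth.comp (contDiff_const.sub contDiff_id)
  have h0 : ∀ x, z ≤ x → Φ (z - x) = 0 := fun x hx => hK.zero _ (by linarith)
  have hb : ∀ k : ℕ, ∃ B : ℝ, 0 ≤ B ∧ (k ≤ 3 → ∀ x, 0 ≤ x →
      |iteratedDeriv k (fun x => Φ (z - x)) x| ≤ B) := by
    intro k
    by_cases hk : k ≤ 3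
    · have hc : Continuous (iteratedDeriv k (fun x => Φ (z - x))) :=
        hs.continuous_iteratedDeriv k (by exact_mod_cast hk)
      obtain ⟨B, hB⟩ := (isCompact_Icc (a := (0 : ℝ)) (b := z)).exists_bound_of_continuousOn
        hc.continuousOn
      refine ⟨max B 0, le_max_right _ _, fun _ x hx => ?_⟩
      rcases le_or_gt x z with hxz | hxz
      · exact le_trans (hB x ⟨hx, hxz⟩) (le_max_left _ _)
      · have he : (fun x => Φ (z - x)) =ᶠ[𝓝 x] fun _ => (0 : ℝ) := by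
          filter_upwards [lt_mem_nhds hxz] with y hy
          exact h0 y hy.le
        have h1 : iteratedDeriv k (fun x => Φ (z - x)) x = iteratedDeriv k (fun _ => (0 : ℝ)) x :=
          he.iteratedDeriv_eq k
        have h2 : iteratedDeriv k (fun _ : ℝ => (0 : ℝ)) x = 0 := by
          rcases Nat.eq_zero_or_pos k with rfl | hk0
          · rw [iteratedDeriv_zero]
          · rw [iteratedDeriv_const]
            simp
        rw [h1, h2, abs_zero]
        exact le_max_right _ _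
    · exact ⟨0, le_rfl, fun h => absurd h hk⟩
  choose B hB0 hB using hb
  refine ⟨1 + ∑ k ∈ Finset.range 4, B k, by
    have := Finset.sum_nonneg (s := Finset.range 4) (f := B) fun k _ => hB0 k
    linarith, hs, h0, fun k hk x hx => ?_⟩
  refine le_trans (hB k hk x hx) ?_
  have h1 := Finset.single_le_sum (s := Finset.range 4) (f := B) (fun k _ => hB0 k)
    (Finset.mem_range.2 (by omega : k < 4))
  linarith

private theorem d5a_half {ε : ℝ} {Φ F : ℝ → ℝ} (hK : Ker ε Φ F) {z : ℝ} (hz : z < 1/2) {x : ℝ}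
    (hx : 0 ≤ x) : HI (fun y => -deriv (fun u => Φ (z - u)) y) x = F (z - x) := by
  rw [← hK.half (z - x) (by linarith)]
  unfold HI
  congr 1
  refine intervalIntegral.integral_congr fun h _ => ?_
  change h ^ (-(1/2) : ℝ) * -deriv (fun u => Φ (z - u)) (x + h) =
    h ^ (-(1/2) : ℝ) * deriv Φ (z - x - h)
  rw [deriv_comp_const_sub, neg_neg, sub_sub]

private theorem d5a_halfI {ε : ℝ} {Φ F : ℝ → ℝ} (hK : Ker ε Φ F) {z : ℝ} (hz : z < 1/2) {x : ℝ}
    (hx : 0 ≤ x) : HI (fun u => Φ (z - u)) x = ∫ v in (0:ℝ)..(max 0 (z - x)), F v := by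
  rcases le_total z x with hzx | hzx
  · rw [max_eq_left (by linarith), intervalIntegral.integral_same]
    unfold HI
    have h1 : ∫ h in (0:ℝ)..1, h ^ (-(1/2) : ℝ) * Φ (z - (x + h)) = ∫ _h in (0:ℝ)..1, (0 : ℝ) := by
      refine intervalIntegral.integral_congr fun h hh => ?_
      rw [uIcc_of_le zero_le_one] at hh
      have h2 : Φ (z - (x + h)) = 0 := hK.zero _ (by linarith [hh.1])
      simp only [h2, mul_zero]
    rw [h1]
    simp
  · rw [max_eq_right (by linarith), ← hK.halfI (z - x) (by linarith) (by linarith)]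
    unfold HI
    congr 1
    refine intervalIntegral.integral_congr fun h _ => ?_
    change h ^ (-(1/2) : ℝ) * Φ (z - (x + h)) = h ^ (-(1/2) : ℝ) * Φ (z - x - h)
    rw [sub_sub]

/-- ROW D5a. The two brackets. Let `φ = Φ(z - ·)`, `0 ≤ z < 1/2`, `Ker ε Φ F`. Then `HI (-φ') x = F (z - x)` and `HI φ x = ∫_0^{z-x} F` for `0 ≤ x` (for `x > z` both are `0`; `Ker.half`, `Ker.halfI`), `φ` is admissible
(`Adm z B`, some `B`), and with `f(x) = F(z-x)`, `f_1 = HI (-(xφ)') = x f - (1/2) ∫_0^{z-x} F` (`HI_mul`): for `0 ≤ x_g ≤ x`: `(1 + 2x_g) f(x) - 2 f_1(x) = (1 + 2x_g - 2x) f(x) + ∫_0^{z-x} F`, which is `≥ 0` (if `x ≤ z < 1/2`; it is `0` for `x ≥ z`) and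
`≤ f(x_g) + ∫_0^{z-x_g} F` (`F` nondecreasing, `≥ 0`). -/
theorem brackets {ε : ℝ} {Φ F : ℝ → ℝ} (hK : Ker ε Φ F) {z : ℝ} (hz0 : 0 ≤ z) (hz : z < 1/2) :
    (∃ B : ℝ, 0 < B ∧ Adm z B (fun x => Φ (z - x))) ∧
    (∀ x, 0 ≤ x → HI (fun y => -deriv (fun u => Φ (z - u)) y) x = F (z - x)) ∧
    (∀ x g, 0 ≤ g → g ≤ x → 0 ≤ (1 + 2 * g) * F (z - x) - 2 * HI (fun y => -deriv (fun u => u * Φ (z - u)) y) x ∧
      (1 + 2 * g) * F (z - x) - 2 * HI (fun y => -deriv (fun u => u * Φ (z - u)) y) x ≤ F (z - g) + ∫ v in (0:ℝ)..(max 0 (z - g)), F v) := by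
  obtain ⟨B, hB0, hA⟩ := d5a_adm hK (z := z)
  refine ⟨⟨B, hB0, hA⟩, fun x hx => d5a_half hK hz hx, fun x g hg hgx => ?_⟩
  have hx : 0 ≤ x := le_trans hg hgx
  have h1 : HI (fun y => -deriv (fun u => u * Φ (z - u)) y) x =
      x * HI (fun y => -deriv (fun u => Φ (z - u)) y) x - (1/2) * HI (fun u => Φ (z - u)) x :=
    (HI_mul (by linarith) hA).2 x hx
  rw [d5a_half hK hz hx, d5a_halfI hK hz hx] at h1
  have hint : ∀ a b : ℝ, IntervalIntegrable F volume a b := fun a b =>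
    hK.Fcont.intervalIntegrable a b
  have hJ : ∀ y : ℝ, 0 ≤ ∫ v in (0:ℝ)..(max 0 y), F v := fun y =>
    intervalIntegral.integral_nonneg (le_max_left _ _) fun v _ => d5a_F0 hK v
  have hJm : (∫ v in (0:ℝ)..(max 0 (z - x)), F v) ≤ ∫ v in (0:ℝ)..(max 0 (z - g)), F v := by
    have h2 : max 0 (z - x) ≤ max 0 (z - g) := max_le_max le_rfl (by linarith)
    rw [← intervalIntegral.integral_add_adjacent_intervals (hint 0 (max 0 (z - x)))
      (hint (max 0 (z - x)) (max 0 (z - g)))]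
    have h3 : 0 ≤ ∫ v in (max 0 (z - x))..(max 0 (z - g)), F v :=
      intervalIntegral.integral_nonneg h2 fun v _ => d5a_F0 hK v
    linarith
  have hF0 := d5a_F0 hK (z - x)
  have hFm : F (z - x) ≤ F (z - g) := hK.Fmono (by linarith)
  rw [h1]
  have h4 := hJ (z - x)
  rcases le_total z x with hzx | hzx
  · have h5 : F (z - x) = 0 := hK.Fzero _ (by linarith)
    have h6 : (∫ v in (0:ℝ)..(max 0 (z - x)), F v) = 0 := by
      rw [max_eq_left (by linarith), intervalIntegral.integral_same]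
    rw [h5, h6]
    refine ⟨by simp, ?_⟩
    have h7 := d5a_F0 hK (z - g)
    have h8 := hJ (z - g)
    simp only [mul_zero, sub_zero]
    linarith
  · constructor
    · nlinarith
    · nlinarith

end Pool.Agent.LibOM70
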