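import Pool.Agent.LibOM70B.D4b
import Pool.Agent.LibOM70B.D5a

/-! ODD MOMENTS, signed route, row D5b. -/

set_option autoImplicit false

namespace Pool.Agent.LibOM70

open MeasureTheory Set Filter Topology Complex ProbabilityTheory
open scoped NNReal ComplexConjugate
open Pool.Agent.LibZM Pool.Agent.LibM3
open Pool.Agent.LibLaw15 hiding Lam

private theorem d5b_nonneg {ε : ℝ} {Φ F : ℝ → ℝ} (hK : Ker ε Φ F) (y : ℝ) : 0 ≤ F y := by
  rcases le_total y 0 with h | h
  · rw [hK.Fzero y h]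
  · rw [← hK.Fzero 0 le_rfl]
    exact hK.Fmono h

/-- ROW D5b. The integral: with `0 ≤ F ≤ √π/2`. `∫_0^z v^{-3/4} dv = 4 z^{1/4}`, `∫_0^z v^{-3/4} (z-v) dv = (16/5) z^{5/4}`, `Γ(5/4) = Γ(1/4)/4`, `Γ(9/4) = (5/16) Γ(1/4)`. -/
theorem QQ_ge {ε : ℝ} {Φ F : ℝ → ℝ} (hK : Ker ε Φ F) {z : ℝ} (hz0 : 0 ≤ z) (hz : z ≤ 1) :
    1 / Real.Gamma (1/4) * ∫ v in (0:ℝ)..1, v ^ (-(3/4) : ℝ) * (F (z - v) * (F (z - v) + ∫ u in (0:ℝ)..(max 0 (z - v)), F u)) ≤ QQ z := by
  have hF0 := d5b_nonneg hK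
  have hΓ : 0 < Real.Gamma (1/4) := Real.Gamma_pos_of_pos (by norm_num)
  have hA0 : 0 ≤ √Real.pi / 2 := by positivity
  have hAA : (√Real.pi / 2) * (√Real.pi / 2) = Real.pi / 4 := by
    have := Real.mul_self_sqrt Real.pi_pos.le
    nlinarith
  have hGc : Continuous fun y => ∫ u in (0:ℝ)..y, F u :=
    intervalIntegral.continuous_primitive (fun a b => hK.Fcont.intervalIntegrable a b) 0
  have hcont : Continuous fun v => F (z - v) * (F (z - v) + ∫ u in (0:ℝ)..(max 0 (z - v)), F u) := by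
    have h1 : Continuous fun v : ℝ => F (z - v) := hK.Fcont.comp (by fun_prop)
    have h2 : Continuous fun v : ℝ => ∫ u in (0:ℝ)..(max 0 (z - v)), F u :=
      hGc.comp (by fun_prop : Continuous fun v : ℝ => max 0 (z - v))
    exact h1.mul (h1.add h2)
  have hrp : ∀ (s a b : ℝ), -1 < s → IntervalIntegrable (fun v : ℝ => v ^ s) volume a b :=
    fun s a b hs => intervalIntegral.intervalIntegrable_rpow' hs
  have hint : ∀ a b, IntervalIntegrable (fun v : ℝ => v ^ (-(3/4) : ℝ) *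
      (F (z - v) * (F (z - v) + ∫ u in (0:ℝ)..(max 0 (z - v)), F u))) volume a b :=
    fun a b => (hrp _ a b (by norm_num)).mul_continuousOn hcont.continuousOn
  rw [← intervalIntegral.integral_add_adjacent_intervals (hint 0 z) (hint z 1)]
  have h2 : ∫ v in z..1, v ^ (-(3/4) : ℝ) *
      (F (z - v) * (F (z - v) + ∫ u in (0:ℝ)..(max 0 (z - v)), F u)) = 0 := by
    rw [intervalIntegral.integral_congr (g := fun _ => (0:ℝ))]
    · simp
    · intro v hv
      rw [uIcc_of_le hz] at hv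
      simp only
      rw [hK.Fzero (z - v) (by linarith [hv.1])]
      ring
  have h1 : ∫ v in (0:ℝ)..z, v ^ (-(3/4) : ℝ) *
      (F (z - v) * (F (z - v) + ∫ u in (0:ℝ)..(max 0 (z - v)), F u)) ≤
      ∫ v in (0:ℝ)..z, (Real.pi / 4) * ((1 + z) * v ^ (-(3/4) : ℝ) - v ^ (1/4 : ℝ)) := by
    refine intervalIntegral.integral_mono_on hz0 (hint 0 z) ?_ ?_
    · exact (((hrp _ 0 z (by norm_num)).const_mul _).sub (hrp _ 0 z (by norm_num))).const_mul _
    · intro v hv
      have hv0 : 0 ≤ v := hv.1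
      have hr : 0 ≤ v ^ (-(3/4) : ℝ) := Real.rpow_nonneg hv0 _
      have e1 : v ^ (1/4 : ℝ) = v ^ (-(3/4) : ℝ) * v := by
        rcases hv0.eq_or_lt with h | h
        · rw [← h]; simp
        · rw [← Real.rpow_add_one h.ne']
          norm_num
      have hf0 := hF0 (z - v)
      have hf1 := hK.Fle (z - v)
      have hm : max 0 (z - v) = z - v := max_eq_right (by linarith [hv.2])
      have hI0 : 0 ≤ ∫ u in (0:ℝ)..(max 0 (z - v)), F u :=
        intervalIntegral.integral_nonneg (le_max_left _ _) fun u _ => hF0 u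
      have hI1 : ∫ u in (0:ℝ)..(max 0 (z - v)), F u ≤ (√Real.pi / 2) * (z - v) := by
        have h3 : ∫ u in (0:ℝ)..(max 0 (z - v)), F u ≤
            ∫ u in (0:ℝ)..(max 0 (z - v)), (√Real.pi / 2) :=
          intervalIntegral.integral_mono_on (le_max_left _ _)
            (hK.Fcont.intervalIntegrable _ _) intervalIntegrable_const fun u _ => hK.Fle u
        rw [intervalIntegral.integral_const, hm, sub_zero, smul_eq_mul] at h3
        rw [hm]
        linarith
      have h4 : F (z - v) * (F (z - v) + ∫ u in (0:ℝ)..(max 0 (z - v)), F u) ≤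
          (√Real.pi / 2) * ((√Real.pi / 2) + (√Real.pi / 2) * (z - v)) :=
        mul_le_mul hf1 (by linarith) (by linarith) hA0
      have h5 : (√Real.pi / 2) * ((√Real.pi / 2) + (√Real.pi / 2) * (z - v)) =
          Real.pi / 4 * (1 + z - v) := by rw [← hAA]; ring
      rw [e1]
      calc _ ≤ v ^ (-(3/4) : ℝ) * (Real.pi / 4 * (1 + z - v)) :=
            mul_le_mul_of_nonneg_left (h4.trans_eq h5) hr
        _ = _ := by ring
  have h3 : ∫ v in (0:ℝ)..z, (Real.pi / 4) * ((1 + z) * v ^ (-(3/4) : ℝ) - v ^ (1/4 : ℝ)) =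
      Real.pi / 4 * (4 * z ^ (1/4 : ℝ) + 16 / 5 * z ^ (5/4 : ℝ)) := by
    rw [intervalIntegral.integral_const_mul, intervalIntegral.integral_sub
      ((hrp _ 0 z (by norm_num)).const_mul _) (hrp _ 0 z (by norm_num)),
      intervalIntegral.integral_const_mul, integral_rpow (Or.inl (by norm_num)),
      integral_rpow (Or.inl (by norm_num))]
    have e2 : (-(3/4) : ℝ) + 1 = 1/4 := by norm_num
    have e3 : (1/4 : ℝ) + 1 = 5/4 := by norm_num
    rw [e2, e3, Real.zero_rpow (by norm_num), Real.zero_rpow (by norm_num)]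
    have e4 : z ^ (5/4 : ℝ) = z ^ (1/4 : ℝ) * z := by
      rcases hz0.eq_or_lt with h | h
      · rw [← h]; simp
      · rw [← Real.rpow_add_one h.ne']
        norm_num
    rw [e4]
    ring
  have g1 : Real.Gamma (5/4) = 1/4 * Real.Gamma (1/4) := by
    have := Real.Gamma_add_one (s := 1/4) (by norm_num)
    rw [← this]
    norm_num
  have g2 : Real.Gamma (9/4) = 5/16 * Real.Gamma (1/4) := by
    have := Real.Gamma_add_one (s := 5/4) (by norm_num)
    have e5 : (5/4 : ℝ) + 1 = 9/4 := by norm_num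
    rw [e5, g1] at this
    rw [this]
    ring
  rw [h2, add_zero]
  calc _ ≤ 1 / Real.Gamma (1/4) * (Real.pi / 4 * (4 * z ^ (1/4 : ℝ) + 16 / 5 * z ^ (5/4 : ℝ))) :=
        mul_le_mul_of_nonneg_left (h1.trans_eq h3) (by positivity)
    _ = QQ z := by
        unfold QQ
        rw [g1, g2]
        field_simp

end Pool.Agent.LibOM70
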