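import Pool.Agent.LibOM70B.D4b
import Pool.Agent.LibOM70B.D5a
import Pool.Agent.LibOM70B.D5b

/-! ODD MOMENTS, signed route, row D5c. -/

set_option autoImplicit false

namespace Pool.Agent.LibOM70

open MeasureTheory Set Filter Topology Complex ProbabilityTheory
open scoped NNReal ComplexConjugate
open Pool.Agent.LibZM Pool.Agent.LibM3
open Pool.Agent.LibLaw15 hiding Lam

private theorem d5c_nonneg {ε : ℝ} {Φ F : ℝ → ℝ} (hK : Ker ε Φ F) (y : ℝ) : 0 ≤ F y := by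
  rcases le_total y 0 with h | h
  · rw [hK.Fzero y h]
  · rw [← hK.Fzero 0 le_rfl]
    exact hK.Fmono h

private theorem d5c_le_one {ε : ℝ} {Φ F : ℝ → ℝ} (hK : Ker ε Φ F) (y : ℝ) : F y ≤ 1 := by
  refine (hK.Fle y).trans ?_
  have h1 : √Real.pi ≤ 2 := by
    rw [show (2:ℝ) = √4 by rw [show (4:ℝ) = 2 ^ 2 by norm_num]; exact (Real.sqrt_sq (by norm_num)).symm]
    exact Real.sqrt_le_sqrt Real.pi_le_four
  linarith

private theorem d5c_I {ε : ℝ} {Φ F : ℝ → ℝ} (hK : Ker ε Φ F) {z : ℝ} (hz : z ≤ 1) {v : ℝ} (hv : 0 ≤ v) :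
    0 ≤ (∫ u in (0:ℝ)..(max 0 (z - v)), F u) ∧ (∫ u in (0:ℝ)..(max 0 (z - v)), F u) ≤ 1 := by
  have hm : max 0 (z - v) ≤ 1 := max_le zero_le_one (by linarith)
  have hm0 : (0:ℝ) ≤ max 0 (z - v) := le_max_left _ _
  refine ⟨intervalIntegral.integral_nonneg hm0 fun u _ => d5c_nonneg hK u, ?_⟩
  have h3 : ∫ u in (0:ℝ)..(max 0 (z - v)), F u ≤ ∫ u in (0:ℝ)..(max 0 (z - v)), (1:ℝ) :=
    intervalIntegral.integral_mono_on hm0 (hK.Fcont.intervalIntegrable _ _)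
      intervalIntegrable_const fun u _ => d5c_le_one hK u
  rw [intervalIntegral.integral_const, sub_zero, smul_eq_mul, mul_one] at h3
  exact h3.trans hm

/-- the estimate of one term -/
private theorem d5c_term {ε : ℝ} {Φ F : ℝ → ℝ} (hK : Ker ε Φ F) {z : ℝ} (hz0 : 0 ≤ z) (hz : z < 1/2)
    {B : ℝ} (hφ1 : Adm 1 B (fun x => Φ (z - x))) (hφ2 : Adm 1 (4 * B) (fun x => x * Φ (z - x)))
    {ω δ : ℝ} (hω : 0 ≤ ω) (hω1 : ω ≤ 1) (hδ : 0 < δ)
    (hv1 : ∀ x : ℝ, 0 ≤ x → |vv δ (fun x => Φ (z - x)) x - HI (fun y => -deriv (fun u => Φ (z - u)) y) x| ≤ ω)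
    (hv2 : ∀ x : ℝ, 0 ≤ x → |vv δ (fun x => x * Φ (z - x)) x -
      HI (fun y => -deriv (fun u => u * Φ (z - u)) y) x| ≤ ω)
    {g : ℕ} (hg : g ∈ Finset.Icc 1 (MN δ)) :
    (1 / δ) * ((Nat.totient g : ℝ) * (Uq 1 g (MN δ) δ (fun x => Φ (z - x)) *
      ((1 + 2 * (δ * Real.log g)) * Uq 1 g (MN δ) δ (fun x => Φ (z - x)) -
        2 * Uq 1 g (MN δ) δ (fun x => x * Φ (z - x))))) ≤
    ww g * (F (z - δ * Real.log g) * (F (z - δ * Real.log g) +
      ∫ u in (0:ℝ)..(max 0 (z - δ * Real.log g)), F u) + 12 * ω) := by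
  obtain ⟨hg1, hgM⟩ := Finset.mem_Icc.1 hg
  obtain ⟨-, hf, hbr⟩ := brackets hK hz0 hz
  have hg0 : (0:ℝ) < g := by exact_mod_cast hg1
  have hx0 : 0 ≤ δ * Real.log g := mul_nonneg hδ.le (Real.log_nonneg (by exact_mod_cast hg1))
  have hx1 : δ * Real.log g ≤ 1 := by
    have h1 : (g:ℝ) ≤ Real.exp (1 / δ) := by
      have h2 : g ≤ ⌊Real.exp (1 / δ)⌋₊ := hgM
      exact (Nat.le_floor_iff (Real.exp_pos _).le).1 h2
    have h3 : Real.log g ≤ 1 / δ := (Real.log_le_iff_le_exp hg0).2 h1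
    calc δ * Real.log g ≤ δ * (1 / δ) := mul_le_mul_of_nonneg_left h3 hδ.le
      _ = 1 := by field_simp
  have hcop : Nat.Coprime g 1 := Nat.coprime_one_right g
  have hU := Uq_rep hg1 hcop hδ hφ1
  have hU' := Uq_rep hg1 hcop hδ hφ2
  have hsign : ∀ y : ℕ, 0 ≤ (-1 : ℝ) ^ g.primeFactors.card * ee 1 g y :=
    ee_sign le_rfl hg1 hcop
  have hsum := ee_sum le_rfl hg1 hcop (MN δ)
  have hCq : Cq 1 = 1 := by simp [Cq]
  rw [hCq, one_mul] at hsum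
  have hss : ((-1 : ℝ) ^ g.primeFactors.card) * ((-1 : ℝ) ^ g.primeFactors.card) = 1 := by
    rw [← mul_pow]; norm_num
  have hsabs : |(-1 : ℝ) ^ g.primeFactors.card| = 1 := by rw [abs_pow, abs_neg, abs_one, one_pow]
  generalize (-1 : ℝ) ^ g.primeFactors.card = s at hsign hss hsabs
  have hee : ∀ y, ee 1 g y = s * |ee 1 g y| := by
    intro y
    have h1 : |ee 1 g y| = s * ee 1 g y := by
      rw [← abs_of_nonneg (hsign y), abs_mul, hsabs, one_mul]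
    rw [h1, ← mul_assoc, hss, one_mul]
  set xg := δ * Real.log g with hxg
  set Fg := F (z - xg) with hFg
  set Ig := ∫ u in (0:ℝ)..(max 0 (z - xg)), F u with hIg
  have hFg0 : 0 ≤ Fg := d5c_nonneg hK _
  have hFg1 : Fg ≤ 1 := d5c_le_one hK _
  obtain ⟨hIg0, hIg1⟩ := d5c_I hK (by linarith : z ≤ 1) hx0
  rw [← hIg] at hIg0 hIg1
  set V : ℕ → ℝ := fun y => vv δ (fun x => Φ (z - x)) (xg + δ * Real.log y) with hV
  set V' : ℕ → ℝ := fun y => vv δ (fun x => x * Φ (z - x)) (xg + δ * Real.log y) with hV'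
  set a := ∑ y ∈ Finset.Icc 1 (MN δ), |ee 1 g y| / y * V y with ha
  set b := ∑ y ∈ Finset.Icc 1 (MN δ), |ee 1 g y| / y * ((1 + 2 * xg) * V y - 2 * V' y) with hb
  have eU : Uq 1 g (MN δ) δ (fun x => Φ (z - x)) = s * δ ^ (1/2 : ℝ) / g * a := by
    rw [hU, ha, Finset.mul_sum, Finset.mul_sum]
    refine Finset.sum_congr rfl fun y _ => ?_
    rw [hee y]
    simp only [hV, abs_mul, hsabs, abs_abs, one_mul]
    ring
  have eU' : (1 + 2 * xg) * Uq 1 g (MN δ) δ (fun x => Φ (z - x)) -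
      2 * Uq 1 g (MN δ) δ (fun x => x * Φ (z - x)) = s * δ ^ (1/2 : ℝ) / g * b := by
    rw [hU, hU', hb, Finset.mul_sum, Finset.mul_sum, Finset.mul_sum, Finset.mul_sum,
      Finset.mul_sum, ← Finset.sum_sub_distrib]
    refine Finset.sum_congr rfl fun y _ => ?_
    rw [hee y]
    simp only [hV, hV', abs_mul, hsabs, abs_abs, one_mul]
    ring
  have hd : δ ^ (1/2 : ℝ) * δ ^ (1/2 : ℝ) = δ := by
    rw [← Real.rpow_add hδ]; norm_num
  have hprod : (1 / δ) * ((Nat.totient g : ℝ) * (Uq 1 g (MN δ) δ (fun x => Φ (z - x)) *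
      ((1 + 2 * xg) * Uq 1 g (MN δ) δ (fun x => Φ (z - x)) -
        2 * Uq 1 g (MN δ) δ (fun x => x * Φ (z - x))))) = (Nat.totient g : ℝ) / (g:ℝ) ^ 2 * (a * b) := by
    rw [eU', eU]
    calc _ = (1 / δ) * ((Nat.totient g : ℝ) * ((s * s) * (δ ^ (1/2 : ℝ) * δ ^ (1/2 : ℝ)) /
          (g:ℝ) ^ 2 * (a * b))) := by ring
      _ = _ := by
        rw [hss, hd]
        field_simp
  rw [hprod]
  have hy0 : ∀ y ∈ Finset.Icc 1 (MN δ), 0 ≤ δ * Real.log y := fun y hy =>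
    mul_nonneg hδ.le (Real.log_nonneg (by exact_mod_cast (Finset.mem_Icc.1 hy).1))
  have hA : |a| ≤ kap g * (Fg + ω) := by
    rw [ha]
    refine (Finset.abs_sum_le_sum_abs _ _).trans ?_
    calc _ ≤ ∑ y ∈ Finset.Icc 1 (MN δ), |ee 1 g y| / y * (Fg + ω) := by
          refine Finset.sum_le_sum fun y hy => ?_
          have h1 := hy0 y hy
          rw [abs_mul, abs_of_nonneg (by positivity : 0 ≤ |ee 1 g y| / (y:ℝ))]
          refine mul_le_mul_of_nonneg_left ?_ (by positivity)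
          have h2 := hv1 (xg + δ * Real.log y) (by linarith)
          rw [hf _ (by linarith)] at h2
          have h3 : F (z - (xg + δ * Real.log y)) ≤ Fg := hK.Fmono (by linarith)
          have h4 := d5c_nonneg hK (z - (xg + δ * Real.log y))
          rw [abs_le] at h2 ⊢
          constructor <;> linarith [h2.1, h2.2]
      _ = (∑ y ∈ Finset.Icc 1 (MN δ), |ee 1 g y| / y) * (Fg + ω) := by rw [Finset.sum_mul]
      _ ≤ _ := mul_le_mul_of_nonneg_right hsum (by linarith)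
  have hBb : |b| ≤ kap g * (Fg + Ig + 5 * ω) := by
    rw [hb]
    refine (Finset.abs_sum_le_sum_abs _ _).trans ?_
    calc _ ≤ ∑ y ∈ Finset.Icc 1 (MN δ), |ee 1 g y| / y * (Fg + Ig + 5 * ω) := by
          refine Finset.sum_le_sum fun y hy => ?_
          have h1 := hy0 y hy
          rw [abs_mul, abs_of_nonneg (by positivity : 0 ≤ |ee 1 g y| / (y:ℝ))]
          refine mul_le_mul_of_nonneg_left ?_ (by positivity)
          have h2 := hv1 (xg + δ * Real.log y) (by linarith)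
          rw [hf _ (by linarith)] at h2
          have h5 := hv2 (xg + δ * Real.log y) (by linarith)
          obtain ⟨h6, h7⟩ := hbr (xg + δ * Real.log y) xg hx0 (by linarith)
          have h8 : |(1 + 2 * xg) * (V y - F (z - (xg + δ * Real.log y)))| ≤ 3 * ω := by
            rw [abs_mul, abs_of_nonneg (by linarith : 0 ≤ 1 + 2 * xg)]
            exact mul_le_mul (by linarith) h2 (abs_nonneg _) (by norm_num)
          change |V' y - _| ≤ ω at h5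
          rw [abs_le] at h5 h8 ⊢
          constructor <;> nlinarith [h5.1, h5.2, h8.1, h8.2, h6, h7]
      _ = (∑ y ∈ Finset.Icc 1 (MN δ), |ee 1 g y| / y) * (Fg + Ig + 5 * ω) := by rw [Finset.sum_mul]
      _ ≤ _ := mul_le_mul_of_nonneg_right hsum (by linarith)
  have hk0 : 0 ≤ kap g := kap_props.1 g
  have hab : a * b ≤ kap g ^ 2 * (Fg * (Fg + Ig) + 12 * ω) := by
    calc a * b ≤ |a| * |b| := by rw [← abs_mul]; exact le_abs_self _
      _ ≤ (kap g * (Fg + ω)) * (kap g * (Fg + Ig + 5 * ω)) :=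
          mul_le_mul hA hBb (abs_nonneg _) (mul_nonneg hk0 (by linarith))
      _ = kap g ^ 2 * (Fg * (Fg + Ig) + (5 * (ω * Fg) + ω * (Fg + Ig) + 5 * (ω * ω))) := by ring
      _ ≤ kap g ^ 2 * (Fg * (Fg + Ig) + 12 * ω) := by
          refine mul_le_mul_of_nonneg_left ?_ (by positivity)
          nlinarith
  calc (Nat.totient g : ℝ) / (g:ℝ) ^ 2 * (a * b)
      ≤ (Nat.totient g : ℝ) / (g:ℝ) ^ 2 * (kap g ^ 2 * (Fg * (Fg + Ig) + 12 * ω)) :=
        mul_le_mul_of_nonneg_left hab (by positivity)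
    _ = ww g * (Fg * (Fg + Ig) + 12 * ω) := by
        unfold ww
        ring

/-- ROW D5c. The upper bound for the signed form.
PROOF. `ZZ_diag` with `q = 1`, `m = 1/δ + ρ`, `|ρ| ≤ C0`, `x_g = δ log g`:
`ZZ = (1/δ) ∑_g φ(g) U_g [(1 + 2x_g) U_g - 2 U_g(xφ)] + ρ ∑ φ(g) U_g² + 2 ∑ LP(g) U_g²`. The last two are `O(δ · δ^{-1/4})` (`Uq_le`, `ww_bdd`, `LP_sum`). By `Uq_rep`, `ee_sign`: `U_g = (σ/g) δ^{1/2} ∑_y |ee|/y vv(φ)(x_g + x_y)`, `σ = ±1` independent of `y` and of the test function;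
by `vv_lim` for `φ` and `xφ` (finitely many applications), with an error `ω` uniform in `x ≥ 0`: `∑_y |ee|/y vv(φ)(x_g + x_y) ∈ [-kap ω, kap (F(z - x_g) + ω)]` (`F` nondecreasing, `≥ 0`, `ee_sum` with `q = 1`, `Cq 1 = 1`), and the second bracket
`∈ [-5 kap ω, kap (F(z-x_g) + ∫_0^{z-x_g} F + 5ω)]` (`brackets`). If `a ∈ [-α, A]`, `b ∈ [-β, B]`, all nonnegative, then `ab ≤ (A + α)(B + β)`. So the main term is `≤ ∑_g ww g (F(z-x_g) + 2ω)(F(z - x_g) + ∫ F + 10ω)`; `ww_lim` (the function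
`F(z-v)(F(z-v) + ∫_0^{z-v} F)` is continuous and zero for `v ≥ z`), `ww_bdd` for the terms with `ω`, and `QQ_ge`. -/
theorem ZZ_upper {ε : ℝ} {Φ F : ℝ → ℝ} (hK : Ker ε Φ F) {z : ℝ} (hz0 : 0 ≤ z) (hz : z < 1/2) (C0 : ℝ) {ε' : ℝ} (hε' : 0 < ε') :
    ∀ᶠ δ : ℝ in 𝓝[>] 0, ∀ m : ℝ, |m - 1 / δ| ≤ C0 →
      ZZ m 1 (MN δ) δ (fun x => Φ (z - x)) ≤ (Aconst (1/2) * QQ z + ε') * δ ^ (-(1/4) : ℝ) := by
  obtain ⟨⟨B, hB, hφB⟩, hf, hbr⟩ := brackets hK hz0 hz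
  have hz1 : z ≤ 1 := by linarith
  have hφ1 : Adm 1 B (fun x => Φ (z - x)) :=
    ⟨hφB.smooth, fun x hx => hφB.zero x (hz1.trans hx), hφB.bound⟩
  obtain ⟨hφ2', -⟩ := HI_mul hz1 hφB
  have hφ2 : Adm 1 (4 * B) (fun x => x * Φ (z - x)) :=
    ⟨hφ2'.smooth, fun x hx => hφ2'.zero x (hz1.trans hx), hφ2'.bound⟩
  obtain ⟨CU, hCU, hU⟩ := Uq_le
  obtain ⟨CL, hCL, hLP0, hLP⟩ := LP_sum
  obtain ⟨CW, hCW, hW⟩ := ww_bdd
  have hww0 := ww_series.1
  have hA0 : 0 < Aconst (1/2) := Aconst_pos (by norm_num)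
  -- the limit of the main term
  have hGc : Continuous fun v => F (z - v) * (F (z - v) + ∫ u in (0:ℝ)..(max 0 (z - v)), F u) := by
    have hGc : Continuous fun y => ∫ u in (0:ℝ)..y, F u :=
      intervalIntegral.continuous_primitive (fun a b => hK.Fcont.intervalIntegrable a b) 0
    have h1 : Continuous fun v : ℝ => F (z - v) := hK.Fcont.comp (by fun_prop)
    have h2 : Continuous fun v : ℝ => ∫ u in (0:ℝ)..(max 0 (z - v)), F u :=
      hGc.comp (by fun_prop : Continuous fun v : ℝ => max 0 (z - v))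
    exact h1.mul (h1.add h2)
  have hG1 : ∀ x, 1 ≤ x → F (z - x) * (F (z - x) + ∫ u in (0:ℝ)..(max 0 (z - x)), F u) = 0 := by
    intro x hx
    rw [hK.Fzero (z - x) (by linarith), zero_mul]
  have hlim := ww_lim hGc hG1
  have hQ := QQ_ge hK hz0 hz1
  have hlt : Aconst (1/2) / Real.Gamma (1/4) * (∫ v in (0:ℝ)..1, v ^ (-(3/4) : ℝ) *
      (F (z - v) * (F (z - v) + ∫ u in (0:ℝ)..(max 0 (z - v)), F u))) <
      Aconst (1/2) * QQ z + ε' / 4 := by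
    have h1 := mul_le_mul_of_nonneg_left hQ hA0.le
    have h2 : Aconst (1/2) / Real.Gamma (1/4) * (∫ v in (0:ℝ)..1, v ^ (-(3/4) : ℝ) *
      (F (z - v) * (F (z - v) + ∫ u in (0:ℝ)..(max 0 (z - v)), F u))) =
      Aconst (1/2) * (1 / Real.Gamma (1/4) * (∫ v in (0:ℝ)..1, v ^ (-(3/4) : ℝ) *
      (F (z - v) * (F (z - v) + ∫ u in (0:ℝ)..(max 0 (z - v)), F u)))) := by ring
    linarith
  have hev := hlim.eventually_lt_const hlt
  -- the parameter ω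
  obtain ⟨ω, hω0, hω1, hω2⟩ : ∃ ω : ℝ, 0 < ω ∧ ω ≤ 1 ∧ 12 * ω * CW ≤ ε' / 4 := by
    refine ⟨min 1 (ε' / (48 * CW)), lt_min one_pos (by positivity), min_le_left _ _, ?_⟩
    have h1 : min 1 (ε' / (48 * CW)) ≤ ε' / (48 * CW) := min_le_right _ _
    calc 12 * min 1 (ε' / (48 * CW)) * CW ≤ 12 * (ε' / (48 * CW)) * CW := by gcongr
      _ = ε' / 4 := by field_simp; norm_num
  have hv1 := vv_lim hφ1 hω0
  have hv2 := vv_lim hφ2 hω0
  set D := CU * Cq 1 * B with hD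
  set K := |C0| * D ^ 2 * CW + 2 * D ^ 2 * CL with hKdef
  have hK0 : 0 ≤ K := by positivity
  have hsmall : ∀ᶠ δ : ℝ in 𝓝[>] 0, K * δ ≤ ε' / 4 := by
    have h1 : ∀ᶠ δ : ℝ in 𝓝[>] 0, δ < ε' / (4 * (K + 1)) :=
      (eventually_lt_nhds (by positivity : (0:ℝ) < ε' / (4 * (K + 1)))).filter_mono nhdsWithin_le_nhds
    filter_upwards [h1, self_mem_nhdsWithin] with δ hδ hδ0
    have hδ0' : 0 < δ := hδ0
    rw [lt_div_iff₀ (by positivity)] at hδ
    nlinarith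
  have hone : ∀ᶠ δ : ℝ in 𝓝[>] 0, δ < 1 :=
    (eventually_lt_nhds one_pos).filter_mono nhdsWithin_le_nhds
  filter_upwards [hev, hv1, hv2, hsmall, hone, self_mem_nhdsWithin] with δ h1 h2 h3 h4 h5 h6 m hm
  have hδ : 0 < δ := h6
  have hW' := hW δ hδ h5.le
  have hLP' := hLP δ hδ h5.le
  have hcs : cs 1 (MN δ) = Finset.Icc 1 (MN δ) :=
    Finset.filter_true_of_mem fun h _ => Nat.coprime_one_right h
  rw [ZZ_diag m 1 (MN δ) hδ, hcs]
  have hd : δ ^ (1/2 : ℝ) * δ ^ (1/2 : ℝ) = δ := by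
    rw [← Real.rpow_add hδ]; norm_num
  have hpt : ∀ g ∈ Finset.Icc 1 (MN δ),
      ((Nat.totient g : ℝ) * (Uq 1 g (MN δ) δ (fun x => Φ (z - x)) *
        (m * Uq 1 g (MN δ) δ (fun x => Φ (z - x)) -
          (2 / δ) * Uq 1 g (MN δ) δ (fun x => x * Φ (z - x)))) +
      2 * ((Nat.totient g : ℝ) * Real.log g + LP g) * Uq 1 g (MN δ) δ (fun x => Φ (z - x)) ^ 2) ≤
      ww g * (F (z - δ * Real.log g) * (F (z - δ * Real.log g) +
        ∫ u in (0:ℝ)..(max 0 (z - δ * Real.log g)), F u)) +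
      (12 * ω + |C0| * D ^ 2 * δ) * ww g + 2 * D ^ 2 * δ * (LP g * (kap g / g) ^ 2) := by
    intro g hg
    have hg1 : 1 ≤ g := (Finset.mem_Icc.1 hg).1
    have t1 := d5c_term hK hz0 hz hφ1 hφ2 hω0.le hω1 hδ h2 h3 hg
    have t2 := hU 1 g le_rfl hg1 (Nat.coprime_one_right g) δ hδ h5.le _ B hφ1
    set u := Uq 1 g (MN δ) δ (fun x => Φ (z - x)) with hu
    set u' := Uq 1 g (MN δ) δ (fun x => x * Φ (z - x)) with hu'
    have t3 : u ^ 2 ≤ D ^ 2 * δ * (kap g / g) ^ 2 := by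
      calc u ^ 2 = |u| ^ 2 := (sq_abs u).symm
        _ ≤ (CU * Cq 1 * B * δ ^ (1/2 : ℝ) * (kap g / g)) ^ 2 :=
            pow_le_pow_left₀ (abs_nonneg _) t2 2
        _ = D ^ 2 * (δ ^ (1/2 : ℝ) * δ ^ (1/2 : ℝ)) * (kap g / g) ^ 2 := by rw [hD]; ring
        _ = _ := by rw [hd]
    have hm' : m - 1 / δ ≤ |C0| := (le_abs_self _).trans (hm.trans (le_abs_self _))
    have htot : (0:ℝ) ≤ Nat.totient g := by positivity
    have t4 : (m - 1 / δ) * ((Nat.totient g : ℝ) * u ^ 2) ≤ |C0| * D ^ 2 * δ * ww g := by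
      calc (m - 1 / δ) * ((Nat.totient g : ℝ) * u ^ 2)
          ≤ |C0| * ((Nat.totient g : ℝ) * u ^ 2) := mul_le_mul_of_nonneg_right hm' (by positivity)
        _ ≤ |C0| * ((Nat.totient g : ℝ) * (D ^ 2 * δ * (kap g / g) ^ 2)) := by gcongr
        _ = _ := by unfold ww; ring
    have t5 : 2 * LP g * u ^ 2 ≤ 2 * D ^ 2 * δ * (LP g * (kap g / g) ^ 2) := by
      have := hLP0 g
      calc 2 * LP g * u ^ 2 ≤ 2 * LP g * (D ^ 2 * δ * (kap g / g) ^ 2) := by gcongr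
        _ = _ := by ring
    have t6 : ((Nat.totient g : ℝ) * (u * (m * u - (2 / δ) * u')) +
        2 * ((Nat.totient g : ℝ) * Real.log g + LP g) * u ^ 2) =
        (1 / δ) * ((Nat.totient g : ℝ) * (u * ((1 + 2 * (δ * Real.log g)) * u - 2 * u'))) +
        (m - 1 / δ) * ((Nat.totient g : ℝ) * u ^ 2) + 2 * LP g * u ^ 2 := by
      field_simp
      ring
    rw [t6]
    linarith
  refine (Finset.sum_le_sum hpt).trans ?_
  rw [Finset.sum_add_distrib, Finset.sum_add_distrib, ← Finset.mul_sum, ← Finset.mul_sum]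
  have he : δ ^ (1/4 : ℝ) * δ ^ (-(1/4) : ℝ) = 1 := by
    rw [← Real.rpow_add hδ]; norm_num
  have he0 : 0 < δ ^ (-(1/4) : ℝ) := Real.rpow_pos_of_pos hδ _
  have hinv : ∀ X Y : ℝ, δ ^ (1/4 : ℝ) * X ≤ Y → X ≤ Y * δ ^ (-(1/4) : ℝ) := by
    intro X Y h
    calc X = (δ ^ (1/4 : ℝ) * X) * δ ^ (-(1/4) : ℝ) := by
          rw [mul_right_comm, he, one_mul]
      _ ≤ _ := mul_le_mul_of_nonneg_right h he0.le
  have a1 := hinv _ _ h1.le
  have a2 := hinv _ _ hW'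
  have b1 : (12 * ω + |C0| * D ^ 2 * δ) * ∑ g ∈ Finset.Icc 1 (MN δ), ww g ≤
      (12 * ω + |C0| * D ^ 2 * δ) * (CW * δ ^ (-(1/4) : ℝ)) :=
    mul_le_mul_of_nonneg_left a2 (by positivity)
  have b2 : 2 * D ^ 2 * δ * ∑ g ∈ Finset.Icc 1 (MN δ), LP g * (kap g / g) ^ 2 ≤
      2 * D ^ 2 * δ * (CL * δ ^ (-(1/4) : ℝ)) :=
    mul_le_mul_of_nonneg_left hLP' (by positivity)
  have b3 : (12 * ω + |C0| * D ^ 2 * δ) * (CW * δ ^ (-(1/4) : ℝ)) +
      2 * D ^ 2 * δ * (CL * δ ^ (-(1/4) : ℝ)) =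
      (12 * ω * CW + K * δ) * δ ^ (-(1/4) : ℝ) := by
    rw [hKdef]; ring
  have b4 : (12 * ω * CW + K * δ) * δ ^ (-(1/4) : ℝ) ≤ (ε' / 2) * δ ^ (-(1/4) : ℝ) :=
    mul_le_mul_of_nonneg_right (by linarith) he0.le
  nlinarith

end Pool.Agent.LibOM70
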