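import Pool.Agent.LibOM70B.P6
import Pool.Agent.LibOM70B.D5c
import Pool.Agent.LibOM70B.C1

/-! ODD MOMENTS, signed route, row C4a. -/

set_option autoImplicit false

namespace Pool.Agent.LibOM70

open MeasureTheory Set Filter Topology Complex ProbabilityTheory
open scoped NNReal ComplexConjugate
open Pool.Agent.LibZM Pool.Agent.LibM3
open Pool.Agent.LibLaw15 hiding Lam

/-- The test functions `Φ(z - ·)` are admissible with a common bound. -/
theorem c4a_adm {ε : ℝ} {Φ F : ℝ → ℝ} (hK : Ker ε Φ F) {c : ℝ} (_hc0 : 0 < c) :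
    ∃ B : ℝ, 0 < B ∧ ∀ z ∈ Icc (0:ℝ) c, Adm c B (fun x => Φ (z - x)) := by
  have hk : ∀ k : ℕ, k ≤ 3 → Continuous (iteratedDeriv k Φ) := fun k hk =>
    hK.smooth.continuous_iteratedDeriv k (by exact_mod_cast hk)
  have hneg : ∀ k : ℕ, k ≤ 3 → ∀ y : ℝ, y ≤ 0 → iteratedDeriv k Φ y = 0 := by
    intro k hk3 y hy
    have hlt : ∀ y : ℝ, y < 0 → iteratedDeriv k Φ y = 0 := by
      intro y hy
      have he : Φ =ᶠ[𝓝 y] fun _ => (0:ℝ) := by
        filter_upwards [gt_mem_nhds hy] with x hx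
        exact hK.zero x hx.le
      rw [he.iteratedDeriv_eq k]
      cases k with
      | zero => simp
      | succ k => simp
    have hcl : closure (Iio (0:ℝ)) = Iic 0 := closure_Iio' ⟨-1, by simp⟩
    have hmem : y ∈ closure (Iio (0:ℝ)) := by rw [hcl]; exact hy
    have hcs : IsClosed {x : ℝ | iteratedDeriv k Φ x = 0} := isClosed_eq (hk k hk3) continuous_const
    exact hcs.closure_subset_iff.mpr (fun x hx => hlt x hx) hmem
  have hbd : ∀ k : ℕ, k ≤ 3 → ∃ B : ℝ, 0 < B ∧ ∀ y : ℝ, y ≤ c → |iteratedDeriv k Φ y| ≤ B := by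
    intro k hk3
    obtain ⟨B, hB⟩ := (isCompact_Icc (a := (0:ℝ)) (b := c)).exists_bound_of_continuousOn (hk k hk3).continuousOn
    refine ⟨max B 1, by positivity, fun y hy => ?_⟩
    rcases le_or_gt y 0 with h | h
    · rw [hneg k hk3 y h]; simp
    · exact (hB y ⟨h.le, hy⟩).trans (le_max_left _ _)
  obtain ⟨B0, h0, h0'⟩ := hbd 0 (by norm_num)
  obtain ⟨B1, h1, h1'⟩ := hbd 1 (by norm_num)
  obtain ⟨B2, h2, h2'⟩ := hbd 2 (by norm_num)
  obtain ⟨B3, h3, h3'⟩ := hbd 3 (by norm_num)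
  refine ⟨B0 + B1 + B2 + B3, by positivity, fun z hz => ⟨?_, ?_, ?_⟩⟩
  · exact hK.smooth.comp (contDiff_const.sub contDiff_id)
  · intro x hx
    exact hK.zero _ (by linarith [hz.2])
  · intro k hk3 x hx
    have e : iteratedDeriv k (fun x => Φ (z - x)) x = (-1 : ℝ) ^ k • iteratedDeriv k Φ (z - x) := by
      rw [iteratedDeriv_comp_const_sub]
    rw [e, smul_eq_mul, abs_mul, abs_pow, abs_neg, abs_one, one_pow, one_mul]
    have hle : z - x ≤ c := by linarith [hz.2]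
    interval_cases k
    · linarith [h0' _ hle]
    · linarith [h1' _ hle]
    · linarith [h2' _ hle]
    · linarith [h3' _ hle]

private theorem c4a_TM1 {r : ℕ} {p : Fin r → ℕ} (hp : ∀ i, (p i).Prime) {w : Tor r → ℝ} (hw0 : ∀ x, 0 ≤ w x) : 0 ≤ TM1 p w := by
  have hMT : ∀ v : Tor r → ℝ, (∀ x, 0 ≤ v x) → 0 ≤ MT1 p v := fun v hv =>
    integral_nonneg fun x => mul_nonneg (hv x) ((ET_props hp).2 x).le
  exact div_nonneg (hMT w hw0) (hMT 1 fun _ => zero_le_one)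

/-- The diagonal evaluation of `XX 1`. -/
theorem c4a_XX {η : ℝ} (hη : 0 < η) {c : ℝ} (hc0 : 0 < c) (hc : c < 1/2) {ε : ℝ} {Φ F : ℝ → ℝ} (hK : Ker ε Φ F)
    {z : ℝ} (hz0 : 0 ≤ z) (hz : z ≤ c) {ε' : ℝ} (hε' : 0 < ε') :
    ∀ᶠ P : ℝ × ℝ in Fl η, XX 1 c P (fun x => Φ (z - x)) / Lam P.1 ≤ QQ z + ε' := by
  obtain ⟨B, hB0, hBad⟩ := c4a_adm hK hc0
  have hφ := hBad z ⟨hz0, hz⟩
  have hA : 0 < Aconst (1/2) := Aconst_pos (κ := 1/2) (by norm_num)
  obtain ⟨C0, hC0, hmass⟩ := mass_exact hη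
  obtain ⟨C, κ, hC, hκ, hmean⟩ := AA_mean hη hc0 hc 1 (m := 1) (n := 1) le_rfl le_rfl (by norm_num) (by simp)
  have hup := ZZ_upper hK hz0 (by linarith) C0 (ε' := Aconst (1/2) * (ε' / 2)) (by positivity)
  have hδ : Tendsto (fun P : ℝ × ℝ => 1 / Real.log P.1) (Fl η) (𝓝[>] 0) := by
    have h1 : Tendsto (fun P : ℝ × ℝ => Real.log P.1) (Fl η) atTop := Real.tendsto_log_atTop.comp (Fl_fst η)
    have h2 := tendsto_inv_atTop_nhdsGT_zero.comp h1
    simpa [one_div, Function.comp_def] using h2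
  have hsm : ∀ᶠ P : ℝ × ℝ in Fl η, C * B ^ 2 * P.1 ^ (-κ) / Aconst (1/2) < ε' / 2 := by
    have h1 : Tendsto (fun P : ℝ × ℝ => C * B ^ 2 * P.1 ^ (-κ) / Aconst (1/2)) (Fl η) (𝓝 (C * B ^ 2 * 0 / Aconst (1/2))) :=
      (((tendsto_rpow_neg_atTop hκ).comp (Fl_fst η)).const_mul _).div_const _
    exact h1.eventually_lt_const (by simpa using half_pos hε')
  filter_upwards [hmass, hmean, hδ.eventually hup, hsm, (Fl_fst η).eventually (eventually_ge_atTop (Real.exp 1)), Fl_range η] with P h1 h2 h3 h4 h5 h6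
  have hT0 : 0 < P.1 := (Real.exp_pos 1).trans_le h5
  have hlog : 1 ≤ Real.log P.1 := by
    rw [Real.le_log_iff_exp_le hT0]; exact h5
  have hN : ((NT c P.1 : ℕ) : ℝ) ≤ P.1 ^ c := Nat.floor_le (Real.rpow_nonneg hT0.le _)
  have hb : ∀ x : ℝ, 0 ≤ x → |(fun x => Φ (z - x)) x| ≤ B := by
    intro x hx
    have := hφ.bound 0 (by norm_num) x hx
    simpa using this
  have h7 := h2 (NT c P.1) hN (1 / Real.log P.1) (fun x => Φ (z - x)) B (by positivity) hb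
  have hXX : (∫ t in win P.2, ((‖riemannZeta (crit t)‖ ^ 2 : ℝ) : ℂ) * (((‖AA 1 (NT c P.1) (1 / Real.log P.1) (fun x => Φ (z - x)) (crit t)‖ ^ 2 : ℝ) : ℂ) * chr 1 1 t) ∂(gaussianReal P.2 (vw P.1)))
      = ((XX 1 c P (fun x => Φ (z - x)) : ℝ) : ℂ) := by
    unfold XX
    rw [← integral_complex_ofReal]
    refine integral_congr_ae (Eventually.of_forall fun t => ?_)
    simp [chr]
  have hZ : ((((1:ℕ):ℝ) * ((1:ℕ):ℝ)) ^ (-(1/2) : ℝ) * ZZ (mW P - Real.log (((1:ℕ):ℝ) * ((1:ℕ):ℝ))) 1 (NT c P.1) (1 / Real.log P.1) (fun x => Φ (z - x)) : ℝ)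
      = ZZ (mW P) 1 (MN (1 / Real.log P.1)) (1 / Real.log P.1) (fun x => Φ (z - x)) := by
    rw [(ZZ_len (by linarith) hφ (mW P - Real.log (((1:ℕ):ℝ) * ((1:ℕ):ℝ))) 1 h5).1]
    simp
  rw [hXX, hZ, ← Complex.ofReal_sub, Complex.norm_real, Real.norm_eq_abs] at h7
  have h8 := (abs_le.mp h7).2
  have hm : |mW P - 1 / (1 / Real.log P.1)| ≤ C0 := by
    rw [one_div_one_div]; exact h1.2
  have h9 := h3 (mW P) hm
  have hLam : Lam P.1 = Aconst (1/2) * (1 / Real.log P.1) ^ (-(1/4) : ℝ) := by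
    unfold Lam
    rw [one_div (Real.log P.1), Real.inv_rpow (by linarith), Real.rpow_neg (by linarith), inv_inv]
  have hLam1 : Aconst (1/2) ≤ Lam P.1 := by
    unfold Lam
    have : (1:ℝ) ≤ Real.log P.1 ^ (1/4 : ℝ) := Real.one_le_rpow hlog (by norm_num)
    nlinarith
  have hLp : 0 < Lam P.1 := hA.trans_le hLam1
  rw [div_le_iff₀ hLp]
  have h10 : C * B ^ 2 * P.1 ^ (-κ) ≤ ε' / 2 * Lam P.1 := by
    rw [div_lt_iff₀ hA] at h4
    nlinarith
  have h11 : (Aconst (1/2) * QQ z + Aconst (1/2) * (ε' / 2)) * (1 / Real.log P.1) ^ (-(1/4) : ℝ) = (QQ z + ε' / 2) * Lam P.1 := by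
    rw [hLam]; ring
  rw [h11] at h9
  nlinarith

/-- ROW C4a. The asymptotic upper bound for fixed `z`: `AA_mean` (`m = n = 1`, so `XX 1 = ZZ (mW P) + O(P.1^{-κ})`), `mass_exact` (`|mW P - log P.1| ≤ C`), `ZZ_len`, `ZZ_upper` with `δ = 1/log P.1` (`Lam = Aconst (1/2) (log T)^{1/4}`), `XX_law`, `Adm z B` implies `Adm c B`. -/
theorem XW_upper {η : ℝ} (hη : 0 < η) {c : ℝ} (hc0 : 0 < c) (hc : c < 1/2) {ε : ℝ} {Φ F : ℝ → ℝ} (hK : Ker ε Φ F)
    {r : ℕ} {p : Fin r → ℕ} (hp : ∀ i, (p i).Prime) (hinj : Function.Injective p) {w : Tor r → ℝ} (hw : Continuous w) (hw0 : ∀ x, 0 ≤ w x)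
    {z : ℝ} (hz0 : 0 ≤ z) (hz : z ≤ c) {ε' : ℝ} (hε' : 0 < ε') :
    ∀ᶠ P : ℝ × ℝ in Fl η, XW p w 1 c P (fun x => Φ (z - x)) / Lam P.1 ≤ QQ z * TM1 p w + ε' := by
  obtain ⟨B, hB0, hBad⟩ := c4a_adm hK hc0
  have hφ := hBad z ⟨hz0, hz⟩
  have hT := c4a_TM1 hp hw0
  have h1 := (XX_law hη hc0 hc hφ hp hinj hw).eventually_lt_const (half_pos hε')
  have h2 := c4a_XX hη hc0 hc hK hz0 hz (ε' := ε' / (2 * (TM1 p w + 1))) (by positivity)
  filter_upwards [h1, h2] with P h1 h2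
  have h3 := mul_le_mul_of_nonneg_right h2 hT
  have h4 : ε' / (2 * (TM1 p w + 1)) * TM1 p w ≤ ε' / 2 := by
    rw [div_mul_eq_mul_div, div_le_div_iff₀ (by positivity) (by norm_num)]
    nlinarith
  rw [sub_div, mul_div_right_comm] at h1
  nlinarith

/-- ROW C4b. Uniform bound in `z ∈ [0,c]` (`XX_le`; the functions `Φ(z - ·)`, `0 ≤ z ≤ c`, are admissible with `c` and a common `B`; `w ≤ W`). -/
theorem XW_bdd {η : ℝ} (hη : 0 < η) {c : ℝ} (hc0 : 0 < c) (hc : c < 1/2) {ε : ℝ} {Φ F : ℝ → ℝ} (hK : Ker ε Φ F)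
    {r : ℕ} (p : Fin r → ℕ) {w : Tor r → ℝ} (hw : Continuous w) (hw0 : ∀ x, 0 ≤ w x) :
    ∃ C : ℝ, ∀ᶠ P : ℝ × ℝ in Fl η, ∀ z ∈ Icc (0:ℝ) c, XW p w 1 c P (fun x => Φ (z - x)) / Lam P.1 ≤ C := by
  obtain ⟨B, hB0, hBad⟩ := c4a_adm hK hc0
  obtain ⟨C, hC, hXX⟩ := XX_le hη hc0 hc (q := 1) le_rfl
  obtain ⟨W, hW⟩ := (isCompact_univ (X := Tor r)).exists_bound_of_continuousOn hw.continuousOn
  have hW0 : 0 ≤ W := (norm_nonneg _).trans (hW 0 (mem_univ _))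
  refine ⟨W * (C * B ^ 2), ?_⟩
  filter_upwards [hXX, (Fl_fst η).eventually (eventually_gt_atTop 1)] with P hP hP1 z hz
  have hL := Lam_pos hP1
  have h1 := hP _ B (hBad z hz)
  rw [div_le_iff₀ hL]
  have hAc : Continuous fun t : ℝ => AA 1 (NT c P.1) (1 / Real.log P.1) (fun x => Φ (z - x)) (crit t) := by
    unfold AA
    refine continuous_finset_sum _ fun h hh => ?_
    have hh1 : h ≠ 0 := by
      have := (Finset.mem_filter.mp hh).1
      have := (Finset.mem_Icc.mp this).1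
      omega
    refine continuous_const.mul ?_
    have : Continuous fun t : ℝ => -crit t := by
      unfold crit
      fun_prop
    exact this.const_cpow (Or.inl (by exact_mod_cast hh1))
  have hg : Continuous fun t : ℝ => ‖riemannZeta (crit t)‖ ^ 2 * ‖AA 1 (NT c P.1) (1 / Real.log P.1) (fun x => Φ (z - x)) (crit t)‖ ^ 2 :=
    (continuous_zeta_crit.norm.pow 2).mul (hAc.norm.pow 2)
  have hint : ∀ f : ℝ → ℝ, Continuous f → IntegrableOn f (win P.2) (gaussianReal P.2 (vw P.1)) := fun f hf =>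
    hf.continuousOn.integrableOn_compact isCompact_Icc
  have h2 : XW p w 1 c P (fun x => Φ (z - x)) ≤ W * XX 1 c P (fun x => Φ (z - x)) := by
    unfold XW XX
    rw [← integral_const_mul]
    refine setIntegral_mono_on (hint _ (hg.mul (hw.comp (xt_continuous p)))) ((hint _ hg).const_mul W) measurableSet_Icc fun t _ => ?_
    have h3 : w (xt p t) ≤ W := (le_abs_self _).trans (hW _ (mem_univ _))
    have h4 : 0 ≤ ‖riemannZeta (crit t)‖ ^ 2 * ‖AA 1 (NT c P.1) (1 / Real.log P.1) (fun x => Φ (z - x)) (crit t)‖ ^ 2 := by positivity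
    nlinarith
  calc XW p w 1 c P (fun x => Φ (z - x)) ≤ W * XX 1 c P (fun x => Φ (z - x)) := h2
    _ ≤ W * (C * B ^ 2 * Lam P.1) := mul_le_mul_of_nonneg_left h1 hW0
    _ = W * (C * B ^ 2) * Lam P.1 := by ring

end Pool.Agent.LibOM70
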