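import Pool.Agent.LibOM70B.C4a
import Pool.Agent.LibOM70.U6c

/-! ODD MOMENTS, signed route, row C5. -/

set_option autoImplicit false

namespace Pool.Agent.LibOM70

open MeasureTheory Set Filter Topology Complex ProbabilityTheory
open scoped NNReal ComplexConjugate
open Pool.Agent.LibZM Pool.Agent.LibM3
open Pool.Agent.LibLaw15 hiding Lam

/-- ROW C5. The limit of the integral over `z` (upper bound). PROOF. With `a_P(z) = √(XW/Lam)`, `b_P(z) = √(mmw/Lam)`: `b_P(z) → ((c-z)^{1/4}/Γ(5/4) · TM1)^{1/2}` (`mmw_lim`), `limsup a_P(z) ≤ √(QQ z · TM1)` (`XW_upper`), both bounded (`XW_bdd`, `mmw_bdd`). Dominated convergence for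
`max (a_P b_P) (g)` with `g(z) = √(QQ z · TM1) · √((c-z)^{1/4}/Γ(5/4) · TM1)`: the maximum tends to `g` pointwise. (`Fl η` is countably generated: `u6c_cg` in U6c; measurability in `z`: `XW` is continuous in `z` or use the hypothesis `hI`.) -/
theorem lim_signed {η : ℝ} (hη : 0 < η) {c : ℝ} (hc0 : 0 < c) (hc : c < 1/2) {ε : ℝ} {Φ F : ℝ → ℝ} (hK : Ker ε Φ F)
    {r : ℕ} {p : Fin r → ℕ} (hp : ∀ i, (p i).Prime) (hinj : Function.Injective p) {w : Tor r → ℝ} (hw : Continuous w) (hw0 : ∀ x, 0 ≤ w x)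
    (hI : ∀ᶠ P : ℝ × ℝ in Fl η, IntervalIntegrable (fun z => √(XW p w 1 c P (fun x => Φ (z - x))) * √(mmw p w P ((c - z) * Real.log P.1))) volume 0 c) {ε' : ℝ} (hε' : 0 < ε') :
    ∀ᶠ P : ℝ × ℝ in Fl η, ∫ z in (0:ℝ)..c, √(XW p w 1 c P (fun x => Φ (z - x))) * √(mmw p w P ((c - z) * Real.log P.1)) ≤
      (TM1 p w * (∫ z in (0:ℝ)..c, √(QQ z * ((c - z) ^ (1/4 : ℝ) / Real.Gamma (5/4)))) + ε') * Lam P.1 := by
  have hcg : (Fl η).IsCountablyGenerated := by
    unfold Fl
    infer_instance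
  have hG : 0 < Real.Gamma (5/4) := Real.Gamma_pos_of_pos (by norm_num)
  have hG' : 0 < Real.Gamma (9/4) := Real.Gamma_pos_of_pos (by norm_num)
  have hT0 : 0 ≤ TM1 p w := (TM1_props hp).2.1 w hw0
  have hQ0 : ∀ z : ℝ, 0 ≤ z → 0 ≤ QQ z := fun z hz => by
    unfold QQ
    positivity
  have hQc : Continuous QQ := by
    unfold QQ
    refine continuous_const.mul ((Continuous.div_const ?_ _).add (Continuous.div_const ?_ _))
    · exact continuous_id.rpow_const fun _ => Or.inr (by norm_num)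
    · exact continuous_id.rpow_const fun _ => Or.inr (by norm_num)
  obtain ⟨g, hg⟩ : ∃ g : ℝ → ℝ, g = fun z => TM1 p w * √(QQ z * ((c - z) ^ (1/4 : ℝ) / Real.Gamma (5/4))) := ⟨_, rfl⟩
  have hgc : Continuous g := by
    rw [hg]
    refine continuous_const.mul (Real.continuous_sqrt.comp (hQc.mul (Continuous.div_const ?_ _)))
    exact (continuous_const.sub continuous_id).rpow_const fun _ => Or.inr (by norm_num)
  have hg0 : ∀ z, 0 ≤ g z := fun z => by
    rw [hg]
    exact mul_nonneg hT0 (Real.sqrt_nonneg _)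
  obtain ⟨C1, hC1⟩ := XW_bdd hη hc0 hc hK p hw hw0
  obtain ⟨C2, hC2⟩ := mmw_bdd hη hc0 (by linarith : c < 1) p hw
  obtain ⟨f, hf⟩ : ∃ f : ℝ × ℝ → ℝ → ℝ, f = fun P z => √(XW p w 1 c P (fun x => Φ (z - x)) / Lam P.1) *
    √(mmw p w P ((c - z) * Real.log P.1) / Lam P.1) := ⟨_, rfl⟩
  have hf0 : ∀ P z, 0 ≤ f P z := fun P z => by
    rw [hf]
    positivity
  have hfe : ∀ P : ℝ × ℝ, 1 < P.1 → f P = fun z => (√(XW p w 1 c P (fun x => Φ (z - x))) *
      √(mmw p w P ((c - z) * Real.log P.1))) / Lam P.1 := by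
    intro P hP
    have hLam : 0 < Lam P.1 := Lam_pos hP
    rw [hf]
    funext z
    show √(XW p w 1 c P (fun x => Φ (z - x)) / Lam P.1) *
      √(mmw p w P ((c - z) * Real.log P.1) / Lam P.1) = _
    rw [Real.sqrt_div' _ hLam.le, Real.sqrt_div' _ hLam.le, div_mul_div_comm,
      Real.mul_self_sqrt hLam.le]
  have hfI : ∀ᶠ P : ℝ × ℝ in Fl η, IntervalIntegrable (f P) volume 0 c := by
    filter_upwards [hI, (Fl_fst η).eventually (eventually_gt_atTop 1)] with P h1 hP
    rw [hfe P hP]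
    exact h1.div_const _
  have hlim : Tendsto (fun P : ℝ × ℝ => ∫ z in (0:ℝ)..c, max (f P z) (g z)) (Fl η) (𝓝 (∫ z in (0:ℝ)..c, g z)) := by
    refine intervalIntegral.tendsto_integral_filter_of_dominated_convergence
      (fun z => √C1 * √C2 + g z) ?_ ?_ ((continuous_const.add hgc).intervalIntegrable _ _) ?_
    · filter_upwards [hfI] with P hP
      have h1 : AEStronglyMeasurable (f P) (volume.restrict (uIoc 0 c)) := by
        rw [uIoc_of_le hc0.le]
        exact hP.aestronglyMeasurable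
      exact h1.sup hgc.aestronglyMeasurable
    · filter_upwards [hC1, hC2] with P h1 h2
      refine Eventually.of_forall fun z hz => ?_
      rw [uIoc_of_le hc0.le] at hz
      have e1 : f P z ≤ √C1 * √C2 := by
        rw [hf]
        exact mul_le_mul (Real.sqrt_le_sqrt (h1 z ⟨hz.1.le, hz.2⟩))
          (Real.sqrt_le_sqrt (h2 (c - z) ⟨by linarith [hz.2], by linarith [hz.1]⟩)) (Real.sqrt_nonneg _)
          (Real.sqrt_nonneg _)
      have e2 : 0 ≤ √C1 * √C2 := by positivity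
      rw [Real.norm_of_nonneg (le_max_of_le_right (hg0 z))]
      exact max_le (by linarith [hg0 z]) (by linarith)
    · have hne : ∀ᵐ z : ℝ, z ≠ c := by
        rw [ae_iff]
        simp
      filter_upwards [hne] with z hzc hz
      rw [uIoc_of_le hc0.le] at hz
      have hzc' : z < c := lt_of_le_of_ne hz.2 hzc
      have hcz : 0 < c - z := by linarith
      obtain ⟨α, hα⟩ : ∃ α : ℝ, α = QQ z * TM1 p w := ⟨_, rfl⟩
      obtain ⟨β, hβ⟩ : ∃ β : ℝ, β = (c - z) ^ (1/4 : ℝ) / Real.Gamma (5/4) * TM1 p w := ⟨_, rfl⟩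
      have hα0 : 0 ≤ α := by rw [hα]; exact mul_nonneg (hQ0 z hz.1.le) hT0
      have hβ0 : 0 ≤ β := by rw [hβ]; positivity
      have hgz : g z = √(α * β) := by
        rw [hg, hα, hβ]
        show TM1 p w * √(QQ z * ((c - z) ^ (1/4 : ℝ) / Real.Gamma (5/4))) = _
        rw [show QQ z * TM1 p w * ((c - z) ^ (1/4 : ℝ) / Real.Gamma (5/4) * TM1 p w) =
          TM1 p w ^ 2 * (QQ z * ((c - z) ^ (1/4 : ℝ) / Real.Gamma (5/4))) by ring,
          Real.sqrt_mul (sq_nonneg _), Real.sqrt_sq hT0]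
      have h2 := mmw_lim hη (s := c - z) hcz (by linarith [hz.1]) hp hinj hw
      rw [← hβ] at h2
      refine tendsto_order.2 ⟨fun a ha => ?_, fun b hb => ?_⟩
      · exact Eventually.of_forall fun P => lt_of_lt_of_le ha (le_max_right _ _)
      · have hcont : Continuous fun e : ℝ => √((α + e) * (β + e)) :=
          Real.continuous_sqrt.comp ((continuous_const.add continuous_id).mul (continuous_const.add continuous_id))
        have h3 : ∀ᶠ e : ℝ in 𝓝 0, √((α + e) * (β + e)) < b := by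
          refine (hcont.tendsto 0).eventually_lt_const ?_
          rw [add_zero, add_zero, ← hgz]
          exact hb
        obtain ⟨e, he, he0⟩ := ((h3.filter_mono nhdsWithin_le_nhds).and (self_mem_nhdsWithin : Ioi (0:ℝ) ∈ 𝓝[>] (0:ℝ))).exists
        have he0' : 0 < e := he0
        filter_upwards [XW_upper hη hc0 hc hK hp hinj hw hw0 hz.1.le hz.2 he0',
          h2.eventually_le_const (show β < β + e by linarith)] with P h4 h5
        refine max_lt ?_ hb
        refine lt_of_le_of_lt ?_ he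
        rw [hf, Real.sqrt_mul (by linarith)]
        rw [← hα] at h4
        exact mul_le_mul (Real.sqrt_le_sqrt h4) (Real.sqrt_le_sqrt h5) (Real.sqrt_nonneg _) (Real.sqrt_nonneg _)
  have hval : ∫ z in (0:ℝ)..c, g z = TM1 p w * (∫ z in (0:ℝ)..c, √(QQ z * ((c - z) ^ (1/4 : ℝ) / Real.Gamma (5/4)))) := by
    rw [hg, intervalIntegral.integral_const_mul]
  filter_upwards [hlim.eventually_le_const (show ∫ z in (0:ℝ)..c, g z < (∫ z in (0:ℝ)..c, g z) + ε' by linarith), hfI,
    (Fl_fst η).eventually (eventually_gt_atTop 1)] with P h1 h2 hP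
  have hLam : 0 < Lam P.1 := Lam_pos hP
  have h3 : ∫ z in (0:ℝ)..c, f P z ≤ ∫ z in (0:ℝ)..c, max (f P z) (g z) := by
    refine intervalIntegral.integral_mono_on hc0.le h2 ?_ fun z _ => le_max_left _ _
    have h4 : IntervalIntegrable g volume 0 c := hgc.intervalIntegrable _ _
    rw [intervalIntegrable_iff_integrableOn_Ioc_of_le hc0.le] at h2 h4 ⊢
    exact Integrable.sup h2 h4
  have h5 : ∫ z in (0:ℝ)..c, √(XW p w 1 c P (fun x => Φ (z - x))) * √(mmw p w P ((c - z) * Real.log P.1)) =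
      (∫ z in (0:ℝ)..c, f P z) * Lam P.1 := by
    rw [hfe P hP, intervalIntegral.integral_div, div_mul_cancel₀ _ hLam.ne']
  rw [h5, ← hval]
  exact mul_le_mul_of_nonneg_right (h3.trans h1) hLam.le

end Pool.Agent.LibOM70
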