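import Pool.Agent.LibOM70B.C5
import Pool.Agent.LibOM70B.C3
import Pool.Agent.LibOM70B.C1

/-! ODD MOMENTS, signed route, row C6. -/

set_option autoImplicit false

namespace Pool.Agent.LibOM70

open MeasureTheory Set Filter Topology Complex ProbabilityTheory
open scoped NNReal ComplexConjugate
open Pool.Agent.LibZM Pool.Agent.LibM3
open Pool.Agent.LibLaw15 hiding Lam

private theorem c6_QQ {z y : ℝ} (hz : 0 ≤ z) (hy : 0 ≤ y) :
    √(QQ z * (y ^ (1/4 : ℝ) / Real.Gamma (5/4))) =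
      (√Real.pi / 2) / Real.Gamma (5/4) * ((z * y) ^ (1/8 : ℝ) * √(1 + 4 * z / 5)) := by
  have hΓ : 0 < Real.Gamma (5/4) := Real.Gamma_pos_of_pos (by norm_num)
  have g2 : Real.Gamma (9/4) = 5/4 * Real.Gamma (5/4) := by
    have := Real.Gamma_add_one (s := 5/4) (by norm_num)
    have e5 : (5/4 : ℝ) + 1 = 9/4 := by norm_num
    rw [e5] at this
    exact this
  have e4 : z ^ (5/4 : ℝ) = z ^ (1/4 : ℝ) * z := by
    rcases hz.eq_or_lt with h | h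
    · rw [← h]; simp
    · rw [← Real.rpow_add_one h.ne']
      norm_num
  have hpi : √Real.pi * √Real.pi = Real.pi := Real.mul_self_sqrt Real.pi_pos.le
  have hzy : 0 ≤ z * y := mul_nonneg hz hy
  have h8 : (z * y) ^ (1/8 : ℝ) * (z * y) ^ (1/8 : ℝ) = z ^ (1/4 : ℝ) * y ^ (1/4 : ℝ) := by
    rw [← Real.mul_rpow hz hy, ← Real.rpow_add_of_nonneg hzy (by norm_num) (by norm_num)]
    norm_num
  have hs : √(1 + 4 * z / 5) * √(1 + 4 * z / 5) = 1 + 4 * z / 5 :=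
    Real.mul_self_sqrt (by positivity)
  have h1 : QQ z * (y ^ (1/4 : ℝ) / Real.Gamma (5/4)) =
      ((√Real.pi / 2) / Real.Gamma (5/4) * ((z * y) ^ (1/8 : ℝ) * √(1 + 4 * z / 5))) ^ 2 := by
    calc QQ z * (y ^ (1/4 : ℝ) / Real.Gamma (5/4))
        = (Real.pi / 4) / Real.Gamma (5/4) ^ 2 * ((z ^ (1/4 : ℝ) * y ^ (1/4 : ℝ)) * (1 + 4 * z / 5)) := by
          unfold QQ
          rw [g2, e4]
          field_simp
      _ = ((√Real.pi * √Real.pi) / 4) / Real.Gamma (5/4) ^ 2 *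
          (((z * y) ^ (1/8 : ℝ) * (z * y) ^ (1/8 : ℝ)) * (√(1 + 4 * z / 5) * √(1 + 4 * z / 5))) := by
          rw [h8, hs, hpi]
      _ = _ := by ring
  rw [h1, Real.sqrt_sq (by positivity)]

private theorem c6_cont (c : ℝ) :
    Continuous fun z : ℝ => (z * (c - z)) ^ (1/8 : ℝ) * √(1 + 4 * z / 5) := by
  refine Continuous.mul ?_ (by fun_prop)
  exact Continuous.rpow_const (by fun_prop) fun _ => Or.inr (by norm_num)

/-- ROW C6a. The integrand at `c = 1/2` (`Γ(9/4) = (5/4) Γ(5/4)`), and monotonicity in `c`. -/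
theorem KK_le {c : ℝ} (hc0 : 0 < c) (hc : c < 1/2) :
    (3/2) * (2:ℝ) ^ (3/2 : ℝ) * ∫ z in (0:ℝ)..c, √(QQ z * ((c - z) ^ (1/4 : ℝ) / Real.Gamma (5/4))) ≤ CS1 := by
  have hΓ : 0 < Real.Gamma (5/4) := Real.Gamma_pos_of_pos (by norm_num)
  have h1 : ∫ z in (0:ℝ)..c, √(QQ z * ((c - z) ^ (1/4 : ℝ) / Real.Gamma (5/4))) =
      (√Real.pi / 2) / Real.Gamma (5/4) *
        ∫ z in (0:ℝ)..c, (z * (c - z)) ^ (1/8 : ℝ) * √(1 + 4 * z / 5) := by
    rw [← intervalIntegral.integral_const_mul]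
    refine intervalIntegral.integral_congr fun z hz => ?_
    rw [uIcc_of_le hc0.le] at hz
    exact c6_QQ hz.1 (by linarith [hz.2])
  have h2 : ∫ z in (0:ℝ)..c, (z * (c - z)) ^ (1/8 : ℝ) * √(1 + 4 * z / 5) ≤
      ∫ z in (0:ℝ)..c, (z * (1/2 - z)) ^ (1/8 : ℝ) * √(1 + 4 * z / 5) := by
    refine intervalIntegral.integral_mono_on hc0.le ((c6_cont c).intervalIntegrable _ _)
      ((c6_cont (1/2)).intervalIntegrable _ _) fun z hz => ?_
    refine mul_le_mul_of_nonneg_right ?_ (Real.sqrt_nonneg _)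
    refine Real.rpow_le_rpow (mul_nonneg hz.1 (by linarith [hz.2])) ?_ (by norm_num)
    exact mul_le_mul_of_nonneg_left (by linarith) hz.1
  have h3 : ∫ z in (0:ℝ)..c, (z * (1/2 - z)) ^ (1/8 : ℝ) * √(1 + 4 * z / 5) ≤
      ∫ z in (0:ℝ)..(1/2), (z * (1/2 - z)) ^ (1/8 : ℝ) * √(1 + 4 * z / 5) := by
    rw [← intervalIntegral.integral_add_adjacent_intervals
      ((c6_cont (1/2)).intervalIntegrable 0 c) ((c6_cont (1/2)).intervalIntegrable c (1/2))]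
    have h4 : 0 ≤ ∫ z in c..(1/2), (z * (1/2 - z)) ^ (1/8 : ℝ) * √(1 + 4 * z / 5) := by
      refine intervalIntegral.integral_nonneg hc.le fun z hz => ?_
      exact mul_nonneg (Real.rpow_nonneg (mul_nonneg (by linarith [hz.1]) (by linarith [hz.2])) _)
        (Real.sqrt_nonneg _)
    linarith
  rw [h1]
  unfold CS1
  calc (3/2) * (2:ℝ) ^ (3/2 : ℝ) * ((√Real.pi / 2) / Real.Gamma (5/4) *
        ∫ z in (0:ℝ)..c, (z * (c - z)) ^ (1/8 : ℝ) * √(1 + 4 * z / 5))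
      ≤ (3/2) * (2:ℝ) ^ (3/2 : ℝ) * ((√Real.pi / 2) / Real.Gamma (5/4) *
        ∫ z in (0:ℝ)..(1/2), (z * (1/2 - z)) ^ (1/8 : ℝ) * √(1 + 4 * z / 5)) := by
        refine mul_le_mul_of_nonneg_left (mul_le_mul_of_nonneg_left (h2.trans h3) ?_) ?_ <;>
          positivity
    _ = _ := by ring

/-- ROW C6b. The window upper bound. PROOF. `CS_signed` and `lim_signed` for `Ker ε` (`ker_exists`) and `c < 1/2`: `∫ ‖ζ‖ w ≤ (TM1 · K(c) + ε') Lam / ((2/3)(c-ε)^{3/2})` (`Ker.mass`), and `KK_le`: `K(c) ≤ CS1/((3/2) 2^{3/2})`; let `c → 1/2`, `ε → 0`, `ε' → 0`: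
`(3/2) (c-ε)^{-3/2} → (3/2) 2^{3/2}`. `TM1 p w ≥ 0`. -/
theorem window_upper2 {η : ℝ} (hη : 0 < η) {r : ℕ} {p : Fin r → ℕ} (hp : ∀ i, (p i).Prime) (hinj : Function.Injective p)
    {w : Tor r → ℝ} (hw : Continuous w) (hw0 : ∀ x, 0 ≤ w x) {ε : ℝ} (hε : 0 < ε) :
    ∀ᶠ P : ℝ × ℝ in Fl η, ∫ t in win P.2, ‖riemannZeta (crit t)‖ * w (xt p t) ∂(gaussianReal P.2 (vw P.1)) ≤
      (CS1 * TM1 p w + ε) * Lam P.1 := by
  have hMT : ∀ v : Tor r → ℝ, (∀ x, 0 ≤ v x) → 0 ≤ MT1 p v := fun v hv =>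
    integral_nonneg fun x => mul_nonneg (hv x) ((ET_props hp).2 x).le
  have hTM : 0 ≤ TM1 p w := div_nonneg (hMT w hw0) (hMT 1 fun _ => zero_le_one)
  -- choice of `t`, `c = 1/2 - t`, kernel parameter `t`
  obtain ⟨t, ht0, ht1, ht2⟩ : ∃ t : ℝ, 0 < t ∧ t < 1/8 ∧
      TM1 p w * CS1 * (1 - 4 * t) ^ (-(3/2) : ℝ) < TM1 p w * CS1 + ε / 2 := by
    have hc : ContinuousAt (fun t : ℝ => TM1 p w * CS1 * (1 - 4 * t) ^ (-(3/2) : ℝ)) 0 := by
      refine continuousAt_const.mul (ContinuousAt.rpow_const (by fun_prop) (Or.inl ?_))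
      norm_num
    have h1 : TM1 p w * CS1 * (1 - 4 * (0:ℝ)) ^ (-(3/2) : ℝ) < TM1 p w * CS1 + ε / 2 := by
      rw [mul_zero, sub_zero, Real.one_rpow]
      linarith
    have e1 : ∀ᶠ t : ℝ in 𝓝[>] 0, TM1 p w * CS1 * (1 - 4 * t) ^ (-(3/2) : ℝ) <
        TM1 p w * CS1 + ε / 2 :=
      (hc.tendsto.eventually_lt_const h1).filter_mono nhdsWithin_le_nhds
    have e2 : ∀ᶠ t : ℝ in 𝓝[>] 0, t < 1/8 :=
      (eventually_lt_nhds (by norm_num : (0:ℝ) < 1/8)).filter_mono nhdsWithin_le_nhds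
    have e3 : ∀ᶠ t : ℝ in 𝓝[>] 0, 0 < t := eventually_mem_nhdsWithin
    obtain ⟨t, h2, h3, h4⟩ := (e1.and (e2.and e3)).exists
    exact ⟨t, h4, h3, h2⟩
  have hK := ker_exists ht0 (by linarith : t < 1)
  set Φ := HL (Gk t) with hΦ
  set F := Fk t with hF
  set c : ℝ := 1/2 - t with hc
  have hc0 : 0 < c := by rw [hc]; linarith
  have hc1 : c < 1/2 := by rw [hc]; linarith
  have hmass := hK.mass c (by rw [hc]; linarith) (by linarith)
  have hx : c - t = (1 - 4 * t) / 2 := by rw [hc]; ring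
  have hxp : 0 < c - t := by rw [hx]; linarith
  have hxq : 1/4 ≤ c - t := by rw [hx]; linarith
  have hm0 : 0 < (2/3) * (c - t) ^ (3/2 : ℝ) := by positivity
  have hΦ0 : 0 ≤ ∫ y in (0:ℝ)..c, Φ y := hm0.le.trans hmass
  have hKK := KK_le hc0 hc1
  set K := ∫ z in (0:ℝ)..c, √(QQ z * ((c - z) ^ (1/4 : ℝ) / Real.Gamma (5/4))) with hKdef
  have hpos := Fl_pos hη
  have hCS := hpos.mono fun P hP =>
    CS_signed p hw hw0 hK.smooth.continuous hK.zero hc0 hΦ0 hP.1 (one_pos.trans hP.2)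
  have hlim := lim_signed hη hc0 hc1 hK hp hinj hw hw0 (hCS.mono fun P h => h.1)
    (by positivity : (0:ℝ) < ε / 24)
  filter_upwards [hCS, hlim, hpos] with P h1 h2 h3
  have hLam : 0 < Lam P.1 := Lam_pos h3.1
  set W := ∫ t in win P.2, ‖riemannZeta (crit t)‖ * w (xt p t) ∂(gaussianReal P.2 (vw P.1)) with hW
  have hW0 : 0 ≤ W := integral_nonneg fun t => mul_nonneg (norm_nonneg _) (hw0 _)
  have h4 : (2/3) * (c - t) ^ (3/2 : ℝ) * W ≤ (TM1 p w * K + ε / 24) * Lam P.1 :=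
    (mul_le_mul_of_nonneg_right hmass hW0).trans (h1.2.trans h2)
  set X := (c - t) ^ (-(3/2) : ℝ) with hX
  have hX0 : 0 < X := Real.rpow_pos_of_pos hxp _
  have hXX : (c - t) ^ (3/2 : ℝ) * X = 1 := by
    rw [hX, ← Real.rpow_add hxp]; norm_num
  have h5 : W ≤ (3/2) * X * ((TM1 p w * K + ε / 24) * Lam P.1) := by
    calc W = (3/2) * X * ((2/3) * (c - t) ^ (3/2 : ℝ) * W) := by
          have : (3/2) * X * ((2/3) * (c - t) ^ (3/2 : ℝ) * W) =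
            ((c - t) ^ (3/2 : ℝ) * X) * W := by ring
          rw [this, hXX, one_mul]
      _ ≤ _ := mul_le_mul_of_nonneg_left h4 (by positivity)
  -- `X = (1-4t)^{-3/2} 2^{3/2}`
  have hX1 : X = (1 - 4 * t) ^ (-(3/2) : ℝ) * (2:ℝ) ^ (3/2 : ℝ) := by
    rw [hX, hx, Real.div_rpow (by linarith) (by norm_num), Real.rpow_neg (by norm_num : (0:ℝ) ≤ 2)]
    field_simp
  have hX8 : X ≤ 8 := by
    have h6 : X ≤ (1/4 : ℝ) ^ (-(3/2) : ℝ) :=
      Real.rpow_le_rpow_of_nonpos (by norm_num) hxq (by norm_num)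
    have h7 : (1/4 : ℝ) ^ (-(3/2) : ℝ) = 8 := by
      rw [show (1/4 : ℝ) = (2:ℝ) ^ (-2 : ℝ) by rw [Real.rpow_neg (by norm_num)]; norm_num,
        ← Real.rpow_mul (by norm_num)]
      norm_num
    linarith
  have hY0 : 0 ≤ (1 - 4 * t) ^ (-(3/2) : ℝ) := Real.rpow_nonneg (by linarith) _
  have h8 : (3/2) * X * (TM1 p w * K) ≤ TM1 p w * CS1 * (1 - 4 * t) ^ (-(3/2) : ℝ) := by
    calc (3/2) * X * (TM1 p w * K) = (TM1 p w * (1 - 4 * t) ^ (-(3/2) : ℝ)) *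
          ((3/2) * (2:ℝ) ^ (3/2 : ℝ) * K) := by rw [hX1]; ring
      _ ≤ (TM1 p w * (1 - 4 * t) ^ (-(3/2) : ℝ)) * CS1 :=
          mul_le_mul_of_nonneg_left hKK (mul_nonneg hTM hY0)
      _ = _ := by ring
  have h9 : (3/2) * X * (TM1 p w * K + ε / 24) ≤ CS1 * TM1 p w + ε := by nlinarith
  calc W ≤ (3/2) * X * ((TM1 p w * K + ε / 24) * Lam P.1) := h5
    _ = ((3/2) * X * (TM1 p w * K + ε / 24)) * Lam P.1 := by ring
    _ ≤ _ := mul_le_mul_of_nonneg_right h9 hLam.le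

end Pool.Agent.LibOM70
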