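import Pool.Agent.LibOM70B.Defs

/-! ODD MOMENTS, signed route, row D1a. -/

set_option autoImplicit false

namespace Pool.Agent.LibOM70

open MeasureTheory Set Filter Topology Complex ProbabilityTheory
open scoped NNReal ComplexConjugate
open Pool.Agent.LibZM Pool.Agent.LibM3
open Pool.Agent.LibLaw15 hiding Lam

/-- `Λ * φ`. -/
noncomputable def LP (g : ℕ) : ℝ := ∑ d ∈ g.divisors, ArithmeticFunction.vonMangoldt d * (Nat.totient (g / d) : ℝ)

/-- ROW D1a. `n log n = ∑_{g ∣ n} (φ(g) log g + (Λ*φ)(g))` (`log = Λ * 1`, `id = 1 * φ`, and `log (ab) = log a + log b`: `id·log = 1 * (φ log) + (1·log) * φ`). -/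
theorem id_log {n : ℕ} (hn : 1 ≤ n) : (n:ℝ) * Real.log n = ∑ g ∈ n.divisors, ((Nat.totient g : ℝ) * Real.log g + LP g) := by
  have hn0 : n ≠ 0 := by omega
  have hnR : (0:ℝ) < n := by exact_mod_cast hn
  let Φ : ArithmeticFunction ℝ := ⟨fun n => (Nat.totient n : ℝ), by simp⟩
  have hΦ : ∀ m, Φ m = (Nat.totient m : ℝ) := fun m => rfl
  have hLP : ∀ g, (ArithmeticFunction.vonMangoldt * Φ) g = LP g := by
    intro g
    rw [ArithmeticFunction.mul_apply]
    unfold LP
    exact Nat.sum_divisorsAntidiagonal (fun a b => ArithmeticFunction.vonMangoldt a * Φ b)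
  have h1 : ∑ g ∈ n.divisors, LP g = ∑ g ∈ n.divisors, (Nat.totient g : ℝ) *
      Real.log ((n / g : ℕ) : ℝ) := by
    have h2 : (ArithmeticFunction.vonMangoldt * Φ) * (ArithmeticFunction.zeta : ArithmeticFunction ℝ) =
        Φ * ArithmeticFunction.log := by
      rw [mul_comm ArithmeticFunction.vonMangoldt Φ, mul_assoc,
        ArithmeticFunction.vonMangoldt_mul_zeta]
    have h3 := congrArg (fun f : ArithmeticFunction ℝ => f n) h2
    rw [ArithmeticFunction.coe_mul_zeta_apply, ArithmeticFunction.mul_apply,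
      Nat.sum_divisorsAntidiagonal (fun a b => Φ a * ArithmeticFunction.log b)] at h3
    simp only [hLP] at h3
    exact h3
  rw [Finset.sum_add_distrib, h1, ← Finset.sum_add_distrib]
  have h4 : ∀ g ∈ n.divisors, (Nat.totient g : ℝ) * Real.log g + (Nat.totient g : ℝ) *
      Real.log ((n / g : ℕ) : ℝ) = (Nat.totient g : ℝ) * Real.log n := by
    intro g hg
    have hgd : g ∣ n := Nat.dvd_of_mem_divisors hg
    have hg0 : 0 < g := Nat.pos_of_mem_divisors hg
    have hgR : (0:ℝ) < g := by exact_mod_cast hg0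
    rw [Nat.cast_div hgd hgR.ne', Real.log_div hnR.ne' hgR.ne']
    ring
  rw [Finset.sum_congr rfl h4, ← Finset.sum_mul]
  congr 1
  have h5 := Nat.sum_totient n
  have h6 : ((∑ g ∈ n.divisors, Nat.totient g : ℕ) : ℝ) = (n : ℝ) := by rw [h5]
  rw [← h6]
  push_cast
  rfl

end Pool.Agent.LibOM70
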