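import Pool.Agent.LibOM70B.Defs
import Pool.Agent.LibOM70B.D1a

/-! ODD MOMENTS, signed route, row D1b. -/

set_option autoImplicit false

namespace Pool.Agent.LibOM70

open MeasureTheory Set Filter Topology Complex ProbabilityTheory
open scoped NNReal ComplexConjugate
open Pool.Agent.LibZM Pool.Agent.LibM3
open Pool.Agent.LibLaw15 hiding Lam

private theorem d1b_inner {q M h k : ℕ} (hh : h ∈ cs q M) (c : ℕ → ℝ) :
    ∑ g ∈ (Nat.gcd h k).divisors, c g = ∑ g ∈ cs q M, if g ∣ h ∧ g ∣ k then c g else 0 := by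
  obtain ⟨h1, h2⟩ := Finset.mem_filter.1 hh
  obtain ⟨h3, h4⟩ := Finset.mem_Icc.1 h1
  rw [← Finset.sum_filter]
  refine Finset.sum_congr ?_ fun _ _ => rfl
  ext g
  rw [Nat.mem_divisors, Finset.mem_filter]
  constructor
  · rintro ⟨h5, h6⟩
    have h7 : g ∣ h := h5.trans (Nat.gcd_dvd_left h k)
    have h8 : g ∣ k := h5.trans (Nat.gcd_dvd_right h k)
    refine ⟨Finset.mem_filter.2 ⟨Finset.mem_Icc.2 ⟨Nat.pos_of_dvd_of_pos h7 (by omega), ?_⟩, ?_⟩,
      h7, h8⟩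
    · exact (Nat.le_of_dvd (by omega) h7).trans h4
    · exact Nat.Coprime.coprime_dvd_left h7 h2
  · rintro ⟨-, h7, h8⟩
    exact ⟨Nat.dvd_gcd h7 h8, (Nat.gcd_pos_of_pos_left k (by omega)).ne'⟩

private theorem d1b_diag (q M : ℕ) (a b c : ℕ → ℝ) :
    ∑ h ∈ cs q M, ∑ k ∈ cs q M, a h * b k * (∑ g ∈ (Nat.gcd h k).divisors, c g) =
      ∑ g ∈ cs q M, c g * ((∑ h ∈ cs q M, if g ∣ h then a h else 0) *
        (∑ k ∈ cs q M, if g ∣ k then b k else 0)) := by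
  have h1 : ∀ h ∈ cs q M, ∀ k ∈ cs q M, a h * b k * (∑ g ∈ (Nat.gcd h k).divisors, c g) =
      ∑ g ∈ cs q M, c g * ((if g ∣ h then a h else 0) * (if g ∣ k then b k else 0)) := by
    intro h hh k _
    rw [d1b_inner hh, Finset.mul_sum]
    refine Finset.sum_congr rfl fun g _ => ?_
    by_cases hg1 : g ∣ h <;> by_cases hg2 : g ∣ k <;> simp [hg1, hg2] <;> ring
  rw [Finset.sum_congr rfl fun h hh => Finset.sum_congr rfl fun k hk => h1 h hh k hk]
  rw [Finset.sum_congr rfl fun h _ => Finset.sum_comm, Finset.sum_comm]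
  refine Finset.sum_congr rfl fun g _ => ?_
  rw [Finset.sum_mul_sum, Finset.mul_sum]
  refine Finset.sum_congr rfl fun h _ => ?_
  rw [Finset.mul_sum]

private theorem d1b_gcd (n : ℕ) : (n : ℝ) = ∑ g ∈ n.divisors, (Nat.totient g : ℝ) := by
  conv_lhs => rw [← Nat.sum_totient n]
  push_cast
  rfl

/-- ROW D1b. Diagonalisation of the bilinear form: `gcd(h,k) = ∑_{g ∣ h, g ∣ k} φ(g)` (`Nat.sum_totient`); divisors `g` of `h` coprime to `q` are coprime to `q`. -/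
theorem SS_diag (q M : ℕ) (δ : ℝ) (φ ψ : ℝ → ℝ) :
    SS q M δ φ ψ = ∑ g ∈ cs q M, (Nat.totient g : ℝ) * (Uq q g M δ φ * Uq q g M δ ψ) := by
  unfold SS Uq
  rw [← d1b_diag q M (fun h => tau (-1/2) h / h * φ (δ * Real.log h))
    (fun h => tau (-1/2) h / h * ψ (δ * Real.log h)) (fun g => (Nat.totient g : ℝ))]
  refine Finset.sum_congr rfl fun h _ => Finset.sum_congr rfl fun k _ => ?_
  rw [← d1b_gcd]
  ring

/-- ROW D1c. Diagonalisation of the form with logarithms (`log h · φ(δ log h) = (1/δ) (x φ)(δ log h)`, `id_log` with `n = gcd(h,k)`). -/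
theorem ZZ_diag (m : ℝ) (q M : ℕ) {δ : ℝ} (hδ : 0 < δ) (φ : ℝ → ℝ) :
    ZZ m q M δ φ = ∑ g ∈ cs q M, ((Nat.totient g : ℝ) * (Uq q g M δ φ * (m * Uq q g M δ φ - (2 / δ) * Uq q g M δ (fun x => x * φ x))) +
      2 * ((Nat.totient g : ℝ) * Real.log g + LP g) * Uq q g M δ φ ^ 2) := by
  obtain ⟨a, ha⟩ : ∃ a : ℕ → ℝ, a = fun h => tau (-1/2) h / h * φ (δ * Real.log h) := ⟨_, rfl⟩
  obtain ⟨b, hb⟩ : ∃ b : ℕ → ℝ, b = fun h => tau (-1/2) h / h *
    (δ * Real.log h * φ (δ * Real.log h)) := ⟨_, rfl⟩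
  have hU : ∀ g, Uq q g M δ φ = ∑ h ∈ cs q M, if g ∣ h then a h else 0 := by
    intro g
    rw [ha]
    rfl
  have hV : ∀ g, Uq q g M δ (fun x => x * φ x) = ∑ h ∈ cs q M, if g ∣ h then b h else 0 := by
    intro g
    rw [hb]
    rfl
  have h1 := d1b_diag q M a a (fun g => (Nat.totient g : ℝ))
  have h2 := d1b_diag q M b a (fun g => (Nat.totient g : ℝ))
  have h3 := d1b_diag q M a b (fun g => (Nat.totient g : ℝ))
  have h4 := d1b_diag q M a a (fun g => (Nat.totient g : ℝ) * Real.log g + LP g)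
  have h5 : ZZ m q M δ φ =
      m * (∑ h ∈ cs q M, ∑ k ∈ cs q M, a h * a k *
        (∑ g ∈ (Nat.gcd h k).divisors, (Nat.totient g : ℝ))) -
      (1 / δ) * (∑ h ∈ cs q M, ∑ k ∈ cs q M, b h * a k *
        (∑ g ∈ (Nat.gcd h k).divisors, (Nat.totient g : ℝ))) -
      (1 / δ) * (∑ h ∈ cs q M, ∑ k ∈ cs q M, a h * b k *
        (∑ g ∈ (Nat.gcd h k).divisors, (Nat.totient g : ℝ))) +
      2 * (∑ h ∈ cs q M, ∑ k ∈ cs q M, a h * a k *
        (∑ g ∈ (Nat.gcd h k).divisors, ((Nat.totient g : ℝ) * Real.log g + LP g))) := by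
    rw [Finset.mul_sum, Finset.mul_sum, Finset.mul_sum, Finset.mul_sum, ← Finset.sum_sub_distrib,
      ← Finset.sum_sub_distrib, ← Finset.sum_add_distrib]
    unfold ZZ
    refine Finset.sum_congr rfl fun h hh => ?_
    rw [Finset.mul_sum, Finset.mul_sum, Finset.mul_sum, Finset.mul_sum, ← Finset.sum_sub_distrib,
      ← Finset.sum_sub_distrib, ← Finset.sum_add_distrib]
    refine Finset.sum_congr rfl fun k hk => ?_
    have h6 : 1 ≤ Nat.gcd h k := Nat.gcd_pos_of_pos_left k (by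
      have := (Finset.mem_Icc.1 (Finset.mem_filter.1 hh).1).1
      omega)
    rw [← d1b_gcd, ← id_log h6, ha, hb]
    have hδ' : δ ≠ 0 := hδ.ne'
    field_simp
  rw [h5, h1, h2, h3, h4, Finset.mul_sum, Finset.mul_sum, Finset.mul_sum, Finset.mul_sum,
    ← Finset.sum_sub_distrib, ← Finset.sum_sub_distrib, ← Finset.sum_add_distrib]
  refine Finset.sum_congr rfl fun g _ => ?_
  rw [hU, hV]
  ring

end Pool.Agent.LibOM70
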