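import Pool.Agent.LibOM70B.E2f
import Pool.Agent.LibOM70B.M4d

/-! ODD MOMENTS, signed route, row D2. -/

set_option autoImplicit false

namespace Pool.Agent.LibOM70

open MeasureTheory Set Filter Topology Complex ProbabilityTheory
open scoped NNReal ComplexConjugate
open Pool.Agent.LibZM Pool.Agent.LibM3
open Pool.Agent.LibLaw15 hiding Lam

/-- ROW D2. The bound for the sums over multiples (`Uq_rep`, `vv_bdd`, `ee_sum`). -/
theorem Uq_le : ∃ C : ℝ, 0 < C ∧ ∀ (q g : ℕ), 1 ≤ q → 1 ≤ g → Nat.Coprime g q → ∀ δ : ℝ, 0 < δ → δ ≤ 1 → ∀ (φ : ℝ → ℝ) (B : ℝ), Adm 1 B φ →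
    |Uq q g (MN δ) δ φ| ≤ C * Cq q * B * δ ^ (1/2 : ℝ) * (kap g / g) := by
  obtain ⟨C, hC, hv⟩ := vv_bdd
  refine ⟨C, hC, fun q g hq hg hgq δ hδ hδ1 φ B hφ => ?_⟩
  rw [Uq_rep hg hgq hδ hφ]
  have hg0 : (0 : ℝ) < g := by exact_mod_cast hg
  have hCB : 0 ≤ C * B := le_trans (abs_nonneg _) (hv δ hδ hδ1 φ B hφ 0 le_rfl)
  have hδ2 : 0 ≤ δ ^ (1/2 : ℝ) := Real.rpow_nonneg hδ.le _
  have h1 : |∑ y ∈ Finset.Icc 1 (MN δ), ee q g y / y *
      (δ ^ (1/2 : ℝ) * vv δ φ (δ * Real.log g + δ * Real.log y))| ≤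
      (Cq q * kap g) * (δ ^ (1/2 : ℝ) * (C * B)) := by
    refine le_trans (Finset.abs_sum_le_sum_abs _ _) ?_
    refine le_trans (Finset.sum_le_sum fun y hy => ?_) (le_of_eq_of_le (Finset.sum_mul _ _ _).symm
      (mul_le_mul_of_nonneg_right (ee_sum hq hg hgq (MN δ)) (mul_nonneg hδ2 hCB)))
    have hy1 : (1 : ℝ) ≤ y := by exact_mod_cast (Finset.mem_Icc.1 hy).1
    have hx : 0 ≤ δ * Real.log g + δ * Real.log y := by
      have h2 : 0 ≤ Real.log (g : ℝ) := Real.log_natCast_nonneg g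
      have h3 : 0 ≤ Real.log (y : ℝ) := Real.log_natCast_nonneg y
      positivity
    rw [abs_mul, abs_div, abs_mul, abs_of_nonneg hδ2, Nat.abs_cast]
    exact mul_le_mul_of_nonneg_left (mul_le_mul_of_nonneg_left (hv δ hδ hδ1 φ B hφ _ hx) hδ2)
      (by positivity)
  rw [abs_mul, abs_of_nonneg (by positivity : (0 : ℝ) ≤ 1 / (g : ℝ))]
  refine le_trans (mul_le_mul_of_nonneg_left h1 (by positivity)) (le_of_eq ?_)
  ring

end Pool.Agent.LibOM70
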