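import Pool.Agent.LibOM70B.E5
import Pool.Agent.LibOM70B.D1b

/-! ODD MOMENTS, signed route, row D3. -/

set_option autoImplicit false

namespace Pool.Agent.LibOM70

open MeasureTheory Set Filter Topology Complex ProbabilityTheory
open scoped NNReal ComplexConjugate
open Pool.Agent.LibZM Pool.Agent.LibM3
open Pool.Agent.LibLaw15 hiding Lam

lemma d3_summable : Summable fun d : ℕ => ArithmeticFunction.vonMangoldt d / (d:ℝ) ^ 2 := by
  have h0 : Summable fun d : ℕ => 2 * (d:ℝ) ^ (-(3/2) : ℝ) :=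
    (Real.summable_nat_rpow.2 (by norm_num)).mul_left 2
  refine Summable.of_nonneg_of_le (fun d => div_nonneg ArithmeticFunction.vonMangoldt_nonneg (sq_nonneg _))
    (fun d => ?_) h0
  rcases Nat.eq_zero_or_pos d with h | h
  · subst h
    simp only [Nat.cast_zero]
    have : ArithmeticFunction.vonMangoldt 0 = 0 := by simp
    rw [this, zero_div]
    positivity
  · have hd0 : (0:ℝ) < d := by exact_mod_cast h
    have h1 : ArithmeticFunction.vonMangoldt d ≤ Real.log d := ArithmeticFunction.vonMangoldt_le_log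
    have h2 : Real.log d ≤ (d:ℝ) ^ (1/2 : ℝ) / (1/2) := Real.log_le_rpow_div hd0.le (by norm_num)
    have h3 : (d:ℝ) ^ (-(3/2) : ℝ) = (d:ℝ) ^ (1/2 : ℝ) / (d:ℝ) ^ 2 := by
      rw [← Real.rpow_natCast (d:ℝ) 2, ← Real.rpow_sub hd0]
      congr 1
      norm_num
    rw [h3, ← mul_div_assoc]
    refine div_le_div_of_nonneg_right ?_ (sq_nonneg _)
    linarith

lemma d3_LP_nonneg (g : ℕ) : 0 ≤ LP g :=
  Finset.sum_nonneg fun _ _ => mul_nonneg ArithmeticFunction.vonMangoldt_nonneg (Nat.cast_nonneg _)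

/-- one term -/
lemma d3_term {g : ℕ} (hg : 1 ≤ g) :
    LP g * (kap g / g) ^ 2 ≤ ∑ d ∈ g.divisors, ArithmeticFunction.vonMangoldt d / (d:ℝ) ^ 2 * ww (g / d) := by
  unfold LP
  rw [Finset.sum_mul]
  refine Finset.sum_le_sum fun d hd => ?_
  have hdg := Nat.dvd_of_mem_divisors hd
  obtain ⟨e, rfl⟩ := hdg
  have hd1 : 1 ≤ d := Nat.pos_of_ne_zero fun h => by subst h; omega
  have he1 : 1 ≤ e := Nat.pos_of_ne_zero fun h => by subst h; simp at hg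
  have hde : d * e / d = e := Nat.mul_div_cancel_left e hd1
  rw [hde]
  have hd0 : (0:ℝ) < d := by exact_mod_cast hd1
  have he0 : (0:ℝ) < e := by exact_mod_cast he1
  have h1 : kap (d * e) ≤ kap e := kap_props.2.2.1 d e hd1 he1
  have h2 : 0 ≤ kap (d * e) := kap_props.1 _
  have h3 : (kap (d * e) / ((d * e : ℕ) : ℝ)) ^ 2 ≤ (kap e / ((d:ℝ) * e)) ^ 2 := by
    push_cast
    refine pow_le_pow_left₀ (div_nonneg h2 (by positivity)) ?_ 2
    exact div_le_div_of_nonneg_right h1 (by positivity)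
  calc ArithmeticFunction.vonMangoldt d * (Nat.totient e : ℝ) * (kap (d * e) / ((d * e : ℕ) : ℝ)) ^ 2
      ≤ ArithmeticFunction.vonMangoldt d * (Nat.totient e : ℝ) * (kap e / ((d:ℝ) * e)) ^ 2 :=
        mul_le_mul_of_nonneg_left h3
          (mul_nonneg ArithmeticFunction.vonMangoldt_nonneg (Nat.cast_nonneg _))
    _ = ArithmeticFunction.vonMangoldt d / (d:ℝ) ^ 2 * ww e := by
        unfold ww
        field_simp

/-- rearrangement of a divisor sum -/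
lemma d3_rearr (M : ℕ) (A B : ℕ → ℝ) (hA : ∀ d, 0 ≤ A d) (hB : ∀ e, 0 ≤ B e) :
    ∑ g ∈ Finset.Icc 1 M, ∑ d ∈ g.divisors, A d * B (g / d) ≤
      (∑ d ∈ Finset.Icc 1 M, A d) * ∑ e ∈ Finset.Icc 1 M, B e := by
  have h1 : ∑ g ∈ Finset.Icc 1 M, ∑ d ∈ g.divisors, A d * B (g / d) =
      ∑ d ∈ Finset.Icc 1 M, ∑ g ∈ (Finset.Icc 1 M).filter (fun g => d ∣ g), A d * B (g / d) := by
    refine Finset.sum_comm' fun g d => ?_
    rw [Finset.mem_filter, Finset.mem_Icc, Finset.mem_Icc, Nat.mem_divisors]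
    constructor
    · rintro ⟨⟨h1, h2⟩, h3, h4⟩
      exact ⟨⟨⟨h1, h2⟩, h3⟩, Nat.pos_of_dvd_of_pos h3 h1, (Nat.le_of_dvd h1 h3).trans h2⟩
    · rintro ⟨⟨⟨h1, h2⟩, h3⟩, h4, h5⟩
      exact ⟨⟨h1, h2⟩, h3, by omega⟩
  rw [h1, Finset.sum_mul]
  refine Finset.sum_le_sum fun d hd => ?_
  have hd1 := (Finset.mem_Icc.1 hd).1
  rw [← Finset.mul_sum]
  refine mul_le_mul_of_nonneg_left ?_ (hA d)
  have hinj : Set.InjOn (fun g => g / d) ((Finset.Icc 1 M).filter (fun g => d ∣ g) : Set ℕ) := by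
    intro a ha b hb hab
    have ha' := (Finset.mem_filter.1 (Finset.mem_coe.1 ha)).2
    have hb' := (Finset.mem_filter.1 (Finset.mem_coe.1 hb)).2
    have hab' : a / d = b / d := hab
    rw [← Nat.div_mul_cancel ha', ← Nat.div_mul_cancel hb', hab']
  rw [← Finset.sum_image (f := B) hinj]
  refine Finset.sum_le_sum_of_subset_of_nonneg (fun e he => ?_) fun e _ _ => hB e
  obtain ⟨g, hg, rfl⟩ := Finset.mem_image.1 he
  obtain ⟨hg1, hg2⟩ := Finset.mem_filter.1 hg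
  obtain ⟨hg3, hg4⟩ := Finset.mem_Icc.1 hg1
  refine Finset.mem_Icc.2 ⟨?_, (Nat.div_le_self g d).trans hg4⟩
  exact Nat.div_pos (Nat.le_of_dvd hg3 hg2) hd1

/-- ROW D3. The contribution of `Λ * φ`: `∑_g (Λ*φ)(g) (kap g/g)² ≤ ∑_n Λ(n)/n² ∑_{g'} φ(g') (kap g'/g')² ≤ C ∑_{g' ≤ MN δ} ww g'` with `g = n g'`, `kap (n g') ≤ kap g'` (`kap_props`), `∑ Λ(n)/n² < ∞` (`Λ(n) ≤ log n`), then `ww_bdd`. -/
theorem LP_sum : ∃ C : ℝ, 0 < C ∧ (∀ g, 0 ≤ LP g) ∧ ∀ δ : ℝ, 0 < δ → δ ≤ 1 →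
    ∑ g ∈ Finset.Icc 1 (MN δ), LP g * (kap g / g) ^ 2 ≤ C * δ ^ (-(1/4) : ℝ) := by
  obtain ⟨C, hC, hCb⟩ := ww_bdd
  obtain ⟨hw, -, -⟩ := ww_series
  have hS0 : 0 ≤ ∑' d : ℕ, ArithmeticFunction.vonMangoldt d / (d:ℝ) ^ 2 :=
    tsum_nonneg fun d => div_nonneg ArithmeticFunction.vonMangoldt_nonneg (sq_nonneg _)
  refine ⟨(∑' d : ℕ, ArithmeticFunction.vonMangoldt d / (d:ℝ) ^ 2) * C + 1, by positivity, d3_LP_nonneg,
    fun δ hδ hδ1 => ?_⟩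
  have hdpos : 0 < δ ^ (1/4 : ℝ) := Real.rpow_pos_of_pos hδ _
  have hinv : δ ^ (-(1/4) : ℝ) = (δ ^ (1/4 : ℝ))⁻¹ := Real.rpow_neg hδ.le _
  have hW : ∑ g ∈ Finset.Icc 1 (MN δ), ww g ≤ C * δ ^ (-(1/4) : ℝ) := by
    have h1 := hCb δ hδ hδ1
    rw [hinv, ← div_eq_mul_inv, le_div_iff₀ hdpos, mul_comm]
    exact h1
  have hS : ∑ d ∈ Finset.Icc 1 (MN δ), ArithmeticFunction.vonMangoldt d / (d:ℝ) ^ 2 ≤
      ∑' d : ℕ, ArithmeticFunction.vonMangoldt d / (d:ℝ) ^ 2 :=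
    d3_summable.sum_le_tsum _ fun d _ => div_nonneg ArithmeticFunction.vonMangoldt_nonneg (sq_nonneg _)
  have hWn : 0 ≤ ∑ g ∈ Finset.Icc 1 (MN δ), ww g := Finset.sum_nonneg fun g _ => hw g
  calc ∑ g ∈ Finset.Icc 1 (MN δ), LP g * (kap g / g) ^ 2
      ≤ ∑ g ∈ Finset.Icc 1 (MN δ), ∑ d ∈ g.divisors,
          ArithmeticFunction.vonMangoldt d / (d:ℝ) ^ 2 * ww (g / d) :=
        Finset.sum_le_sum fun g hg => d3_term (Finset.mem_Icc.1 hg).1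
    _ ≤ (∑ d ∈ Finset.Icc 1 (MN δ), ArithmeticFunction.vonMangoldt d / (d:ℝ) ^ 2) *
          ∑ e ∈ Finset.Icc 1 (MN δ), ww e :=
        d3_rearr (MN δ) _ _ (fun d => div_nonneg ArithmeticFunction.vonMangoldt_nonneg (sq_nonneg _)) hw
    _ ≤ (∑' d : ℕ, ArithmeticFunction.vonMangoldt d / (d:ℝ) ^ 2) * (C * δ ^ (-(1/4) : ℝ)) :=
        mul_le_mul hS hW hWn hS0
    _ ≤ ((∑' d : ℕ, ArithmeticFunction.vonMangoldt d / (d:ℝ) ^ 2) * C + 1) * δ ^ (-(1/4) : ℝ) := by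
        have : 0 ≤ δ ^ (-(1/4) : ℝ) := by positivity
        nlinarith

end Pool.Agent.LibOM70
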