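import Pool.Agent.LibOM70B.D2
import Pool.Agent.LibOM70B.D3

/-! ODD MOMENTS, signed route, row D4a. -/

set_option autoImplicit false

namespace Pool.Agent.LibOM70

open MeasureTheory Set Filter Topology Complex ProbabilityTheory
open scoped NNReal ComplexConjugate
open Pool.Agent.LibZM Pool.Agent.LibM3
open Pool.Agent.LibLaw15 hiding Lam

private theorem d4a_B {c B : ℝ} {φ : ℝ → ℝ} (h : Adm c B φ) : 0 ≤ B :=
  (abs_nonneg _).trans (h.bound 0 (by norm_num) 0 le_rfl)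

private theorem d4a_Cq (q : ℕ) : 0 ≤ Cq q := by
  unfold Cq
  refine Finset.prod_nonneg fun p hp => Real.rpow_nonneg ?_ _
  have hp2 : (1:ℝ) ≤ p := by
    have := (Nat.prime_of_mem_primeFactors hp).one_lt.le
    exact_mod_cast this
  have : 1 / (p:ℝ) ≤ 1 := by
    rw [div_le_one (by linarith)]
    exact hp2
  linarith

/-- ROW D4a. Bound for the bilinear form (`SS_diag`, `Uq_le`, `ww_bdd`). -/
theorem SS_le : ∃ C : ℝ, 0 < C ∧ ∀ q : ℕ, 1 ≤ q → ∀ δ : ℝ, 0 < δ → δ ≤ 1 → ∀ (φ ψ : ℝ → ℝ) (B B' : ℝ), Adm 1 B φ → Adm 1 B' ψ →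
    |SS q (MN δ) δ φ ψ| ≤ C * Cq q ^ 2 * (B * B') * δ ^ (3/4 : ℝ) := by
  obtain ⟨C1, hC1, hU⟩ := Uq_le
  obtain ⟨C2, hC2, hw⟩ := ww_bdd
  refine ⟨C1 ^ 2 * C2, by positivity, fun q hq δ hδ hδ1 φ ψ B B' hφ hψ => ?_⟩
  have hB := d4a_B hφ
  have hB' := d4a_B hψ
  have hCq := d4a_Cq q
  have hww := ww_series.1
  rw [SS_diag]
  refine (Finset.abs_sum_le_sum_abs _ _).trans ?_
  have hhalf : δ ^ (1/2 : ℝ) * δ ^ (1/2 : ℝ) = δ := by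
    rw [← Real.rpow_add hδ]
    norm_num
  have hterm : ∀ g ∈ cs q (MN δ), |(Nat.totient g : ℝ) * (Uq q g (MN δ) δ φ * Uq q g (MN δ) δ ψ)| ≤
      C1 ^ 2 * Cq q ^ 2 * (B * B') * δ * ww g := by
    intro g hg
    unfold cs at hg
    rw [Finset.mem_filter, Finset.mem_Icc] at hg
    have h1 := hU q g hq hg.1.1 hg.2 δ hδ hδ1 φ B hφ
    have h2 := hU q g hq hg.1.1 hg.2 δ hδ hδ1 ψ B' hψ
    rw [abs_mul, abs_mul, abs_of_nonneg (Nat.cast_nonneg _)]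
    have h3 : |Uq q g (MN δ) δ φ| * |Uq q g (MN δ) δ ψ| ≤
        (C1 * Cq q * B * δ ^ (1/2 : ℝ) * (kap g / g)) *
          (C1 * Cq q * B' * δ ^ (1/2 : ℝ) * (kap g / g)) :=
      mul_le_mul h1 h2 (abs_nonneg _) ((abs_nonneg _).trans h1)
    have h4 : (C1 * Cq q * B * δ ^ (1/2 : ℝ) * (kap g / g)) *
          (C1 * Cq q * B' * δ ^ (1/2 : ℝ) * (kap g / g)) =
        C1 ^ 2 * Cq q ^ 2 * (B * B') * δ * (kap g / g) ^ 2 := by
      calc (C1 * Cq q * B * δ ^ (1/2 : ℝ) * (kap g / g)) *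
          (C1 * Cq q * B' * δ ^ (1/2 : ℝ) * (kap g / g)) =
          C1 ^ 2 * Cq q ^ 2 * (B * B') * (δ ^ (1/2 : ℝ) * δ ^ (1/2 : ℝ)) * (kap g / g) ^ 2 := by
            ring
        _ = _ := by rw [hhalf]
    rw [h4] at h3
    calc (Nat.totient g : ℝ) * (|Uq q g (MN δ) δ φ| * |Uq q g (MN δ) δ ψ|)
        ≤ (Nat.totient g : ℝ) * (C1 ^ 2 * Cq q ^ 2 * (B * B') * δ * (kap g / g) ^ 2) :=
          mul_le_mul_of_nonneg_left h3 (Nat.cast_nonneg _)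
      _ = C1 ^ 2 * Cq q ^ 2 * (B * B') * δ * ww g := by
          unfold ww
          ring
  refine (Finset.sum_le_sum hterm).trans ?_
  rw [← Finset.mul_sum]
  have hsub : ∑ g ∈ cs q (MN δ), ww g ≤ ∑ g ∈ Finset.Icc 1 (MN δ), ww g :=
    Finset.sum_le_sum_of_subset_of_nonneg (Finset.filter_subset _ _) fun g _ _ => hww g
  have hδ2 : δ = δ ^ (3/4 : ℝ) * δ ^ (1/4 : ℝ) := by
    rw [← Real.rpow_add hδ]
    norm_num
  have h5 := hw δ hδ hδ1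
  have h6 : 0 ≤ δ ^ (3/4 : ℝ) := by positivity
  calc C1 ^ 2 * Cq q ^ 2 * (B * B') * δ * ∑ g ∈ cs q (MN δ), ww g
      ≤ C1 ^ 2 * Cq q ^ 2 * (B * B') * δ * ∑ g ∈ Finset.Icc 1 (MN δ), ww g := by
        gcongr
    _ = C1 ^ 2 * Cq q ^ 2 * (B * B') * δ ^ (3/4 : ℝ) *
        (δ ^ (1/4 : ℝ) * ∑ g ∈ Finset.Icc 1 (MN δ), ww g) := by
        have h7 : δ * ∑ g ∈ Finset.Icc 1 (MN δ), ww g =
            δ ^ (3/4 : ℝ) * (δ ^ (1/4 : ℝ) * ∑ g ∈ Finset.Icc 1 (MN δ), ww g) := by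
          rw [← mul_assoc, ← hδ2]
        rw [mul_assoc (C1 ^ 2 * Cq q ^ 2 * (B * B')) δ, h7]
        ring
    _ ≤ C1 ^ 2 * Cq q ^ 2 * (B * B') * δ ^ (3/4 : ℝ) * C2 := by
        gcongr
    _ = C1 ^ 2 * C2 * Cq q ^ 2 * (B * B') * δ ^ (3/4 : ℝ) := by ring

end Pool.Agent.LibOM70
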