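import Pool.Agent.LibOM70B.D2
import Pool.Agent.LibOM70B.D3
import Pool.Agent.LibOM70B.D4a

/-! ODD MOMENTS, signed route, row D4b. -/

set_option autoImplicit false

namespace Pool.Agent.LibOM70

open MeasureTheory Set Filter Topology Complex ProbabilityTheory
open scoped NNReal ComplexConjugate
open Pool.Agent.LibZM Pool.Agent.LibM3
open Pool.Agent.LibLaw15 hiding Lam

/-- The members of the truncated set. -/
private theorem d4b_mem {q : ℕ} {δ : ℝ} {g : ℕ} (hg : g ∈ cs q (MN δ)) :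
    1 ≤ g ∧ Nat.Coprime g q ∧ g ∈ Finset.Icc 1 (MN δ) ∧ Real.log g ≤ 1 / δ := by
  unfold cs at hg
  rw [Finset.mem_filter] at hg
  have h1 := Finset.mem_Icc.1 hg.1
  refine ⟨h1.1, hg.2, hg.1, ?_⟩
  have h2 : (g : ℝ) ≤ Real.exp (1 / δ) := by
    have h3 : g ≤ ⌊Real.exp (1 / δ)⌋₊ := h1.2
    exact (Nat.le_floor_iff (Real.exp_pos _).le).1 h3
  have h4 : (0 : ℝ) < g := by exact_mod_cast h1.1
  calc Real.log g ≤ Real.log (Real.exp (1 / δ)) := Real.log_le_log h4 h2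
    _ = 1 / δ := Real.log_exp _

/-- The bound for one term. -/
private theorem d4b_term {f L R m δ U V a : ℝ} (hf : 0 ≤ f) (hR : 0 ≤ R) (hδ : 0 < δ)
    (hL0 : 0 ≤ L) (hL : L ≤ 1 / δ) (hU : |U| ≤ a) (hV : |V| ≤ 4 * a) :
    |f * (U * (m * U - (2 / δ) * V)) + 2 * (f * L + R) * U ^ 2| ≤
      a ^ 2 * (f * (|m| + 10 / δ) + 2 * R) := by
  have ha : 0 ≤ a := (abs_nonneg U).trans hU
  have h1 : |m * U - (2 / δ) * V| ≤ (|m| + 8 / δ) * a := by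
    calc |m * U - (2 / δ) * V| ≤ |m * U| + |(2 / δ) * V| := abs_sub _ _
      _ = |m| * |U| + (2 / δ) * |V| := by
        rw [abs_mul, abs_mul, abs_of_nonneg (by positivity : (0 : ℝ) ≤ 2 / δ)]
      _ ≤ |m| * a + (2 / δ) * (4 * a) := by
        gcongr
      _ = (|m| + 8 / δ) * a := by ring
  have h2 : |f * (U * (m * U - (2 / δ) * V))| ≤ f * (a * ((|m| + 8 / δ) * a)) := by
    rw [abs_mul, abs_mul, abs_of_nonneg hf]
    gcongr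
  have h3 : U ^ 2 ≤ a ^ 2 := sq_le_sq' (by linarith [neg_abs_le U]) ((le_abs_self U).trans hU)
  have h4 : |2 * (f * L + R) * U ^ 2| ≤ 2 * (f * (1 / δ) + R) * a ^ 2 := by
    rw [abs_of_nonneg (by positivity)]
    gcongr
  calc |f * (U * (m * U - (2 / δ) * V)) + 2 * (f * L + R) * U ^ 2|
      ≤ |f * (U * (m * U - (2 / δ) * V))| + |2 * (f * L + R) * U ^ 2| := abs_add_le _ _
    _ ≤ f * (a * ((|m| + 8 / δ) * a)) + 2 * (f * (1 / δ) + R) * a ^ 2 := add_le_add h2 h4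
    _ = a ^ 2 * (f * (|m| + 10 / δ) + 2 * R) := by ring

/-- ROW D4b. Bound for the form with logarithms (`ZZ_diag`, `Uq_le` for `φ` and for `x φ`, `HI_mul`; `log g ≤ 1/δ` for `g ≤ MN δ`; `LP_sum`). -/
theorem ZZ_le : ∃ C : ℝ, 0 < C ∧ ∀ q : ℕ, 1 ≤ q → ∀ δ : ℝ, 0 < δ → δ ≤ 1 → ∀ (m : ℝ) (φ : ℝ → ℝ) (B : ℝ), Adm 1 B φ →
    |ZZ m q (MN δ) δ φ| ≤ C * Cq q ^ 2 * B ^ 2 * (1 + |m| * δ) * δ ^ (-(1/4) : ℝ) := by
  obtain ⟨C1, hC1, h1⟩ := Uq_le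
  obtain ⟨C2, hC2, h2⟩ := ww_bdd
  obtain ⟨C3, hC3, hLP, h3⟩ := LP_sum
  refine ⟨C1 ^ 2 * (10 * C2 + 2 * C3), by positivity, ?_⟩
  intro q hq δ hδ hδ1 m φ B hφ
  obtain ⟨A, hA⟩ : ∃ A : ℝ, A = C1 * Cq q * B := ⟨_, rfl⟩
  have hφ' : Adm 1 (4 * B) (fun x => x * φ x) := (HI_mul le_rfl hφ).1
  have hd : (δ ^ (1/2 : ℝ)) ^ 2 = δ := by
    rw [← Real.rpow_natCast, ← Real.rpow_mul hδ.le]
    norm_num
  have hww : ∀ g : ℕ, 0 ≤ ww g := fun g => by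
    unfold ww
    positivity
  -- the bound for the terms
  have hterm : ∀ g ∈ cs q (MN δ),
      |(Nat.totient g : ℝ) * (Uq q g (MN δ) δ φ *
        (m * Uq q g (MN δ) δ φ - (2 / δ) * Uq q g (MN δ) δ (fun x => x * φ x))) +
        2 * ((Nat.totient g : ℝ) * Real.log g + LP g) * Uq q g (MN δ) δ φ ^ 2| ≤
      A ^ 2 * ((|m| * δ + 10) * ww g + 2 * δ * (LP g * (kap g / g) ^ 2)) := by
    intro g hg
    obtain ⟨hg1, hgq, -, hgL⟩ := d4b_mem hg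
    have hU := h1 q g hq hg1 hgq δ hδ hδ1 φ B hφ
    have hV := h1 q g hq hg1 hgq δ hδ hδ1 _ (4 * B) hφ'
    have hU' : |Uq q g (MN δ) δ φ| ≤ A * δ ^ (1/2 : ℝ) * (kap g / g) := by
      rw [hA]
      exact hU
    have hV' : |Uq q g (MN δ) δ (fun x => x * φ x)| ≤ 4 * (A * δ ^ (1/2 : ℝ) * (kap g / g)) := by
      rw [hA]
      refine hV.trans (le_of_eq ?_)
      ring
    have hg0 : 0 ≤ Real.log g := Real.log_nonneg (by exact_mod_cast hg1)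
    refine (d4b_term (Nat.cast_nonneg _) (hLP g) hδ hg0 hgL hU' hV').trans (le_of_eq ?_)
    have e1 : (A * δ ^ (1/2 : ℝ) * (kap g / g)) ^ 2 = A ^ 2 * δ * (kap g / g) ^ 2 := by
      rw [mul_pow, mul_pow, hd]
    rw [e1]
    unfold ww
    field_simp
  have hsub : cs q (MN δ) ⊆ Finset.Icc 1 (MN δ) := fun g hg => (d4b_mem hg).2.2.1
  have hs1 : ∑ g ∈ cs q (MN δ), ww g ≤ C2 * δ ^ (-(1/4) : ℝ) := by
    have e1 : ∑ g ∈ cs q (MN δ), ww g ≤ ∑ g ∈ Finset.Icc 1 (MN δ), ww g :=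
      Finset.sum_le_sum_of_subset_of_nonneg hsub fun g _ _ => hww g
    refine e1.trans ?_
    have e2 := h2 δ hδ hδ1
    have e3 : δ ^ (-(1/4) : ℝ) * (δ ^ (1/4 : ℝ) * ∑ g ∈ Finset.Icc 1 (MN δ), ww g) =
        ∑ g ∈ Finset.Icc 1 (MN δ), ww g := by
      rw [← mul_assoc, ← Real.rpow_add hδ]
      norm_num
    rw [← e3, mul_comm C2]
    exact mul_le_mul_of_nonneg_left e2 (Real.rpow_nonneg hδ.le _)
  have hs2 : ∑ g ∈ cs q (MN δ), LP g * (kap g / g) ^ 2 ≤ C3 * δ ^ (-(1/4) : ℝ) :=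
    (Finset.sum_le_sum_of_subset_of_nonneg hsub fun g _ _ =>
      mul_nonneg (hLP g) (sq_nonneg _)).trans (h3 δ hδ hδ1)
  rw [ZZ_diag m q (MN δ) hδ φ]
  refine (Finset.abs_sum_le_sum_abs _ _).trans ?_
  refine (Finset.sum_le_sum hterm).trans ?_
  rw [← Finset.mul_sum, Finset.sum_add_distrib, ← Finset.mul_sum, ← Finset.mul_sum]
  have hr : 0 ≤ δ ^ (-(1/4) : ℝ) := Real.rpow_nonneg hδ.le _
  have hm : 0 ≤ |m| * δ := mul_nonneg (abs_nonneg m) hδ.le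
  have hfin : (|m| * δ + 10) * ∑ g ∈ cs q (MN δ), ww g +
      2 * δ * ∑ g ∈ cs q (MN δ), LP g * (kap g / g) ^ 2 ≤
      (10 * C2 + 2 * C3) * (1 + |m| * δ) * δ ^ (-(1/4) : ℝ) := by
    have e1 : (|m| * δ + 10) * ∑ g ∈ cs q (MN δ), ww g ≤
        (10 * (1 + |m| * δ)) * (C2 * δ ^ (-(1/4) : ℝ)) :=
      mul_le_mul (by linarith) hs1 (Finset.sum_nonneg fun g _ => hww g) (by positivity)
    have e2 : 2 * δ * ∑ g ∈ cs q (MN δ), LP g * (kap g / g) ^ 2 ≤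
        (2 * (1 + |m| * δ)) * (C3 * δ ^ (-(1/4) : ℝ)) :=
      mul_le_mul (by linarith) hs2 (Finset.sum_nonneg fun g _ =>
        mul_nonneg (hLP g) (sq_nonneg _)) (by positivity)
    calc _ ≤ (10 * (1 + |m| * δ)) * (C2 * δ ^ (-(1/4) : ℝ)) +
          (2 * (1 + |m| * δ)) * (C3 * δ ^ (-(1/4) : ℝ)) := add_le_add e1 e2
      _ = _ := by ring
  calc A ^ 2 * ((|m| * δ + 10) * ∑ g ∈ cs q (MN δ), ww g +
        2 * δ * ∑ g ∈ cs q (MN δ), LP g * (kap g / g) ^ 2)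
      ≤ A ^ 2 * ((10 * C2 + 2 * C3) * (1 + |m| * δ) * δ ^ (-(1/4) : ℝ)) :=
        mul_le_mul_of_nonneg_left hfin (sq_nonneg A)
    _ = C1 ^ 2 * (10 * C2 + 2 * C3) * Cq q ^ 2 * B ^ 2 * (1 + |m| * δ) * δ ^ (-(1/4) : ℝ) := by
        rw [hA]
        ring

end Pool.Agent.LibOM70
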