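import Pool.Agent.LibOM70.U6b
import Pool.Agent.LibM3.Q4
import Pool.Agent.LibM3.LDefs
import Pool.Agent.LibLaw15.Q4

/-! First moment of zeta with prime phases, signed route: definitions. Scale: `δ = 1 / log T`, `x_h = δ log h`. -/

set_option autoImplicit false

namespace Pool.Agent.LibOM70

open MeasureTheory Set Filter Topology Complex ProbabilityTheory
open scoped NNReal ComplexConjugate
open Pool.Agent.LibZM Pool.Agent.LibM3
open Pool.Agent.LibLaw15 hiding Lam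

/-- Admissible test functions: three times continuously differentiable, zero to the right of `c`, with derivatives of order
at most three bounded by `B` on `[0, ∞)`. -/
structure Adm (c B : ℝ) (φ : ℝ → ℝ) : Prop where
  smooth : ContDiff ℝ 3 φ
  zero : ∀ x, c ≤ x → φ x = 0
  bound : ∀ k : ℕ, k ≤ 3 → ∀ x, 0 ≤ x → |iteratedDeriv k φ x| ≤ B

/-- Half integral on the right: `(1/√π) ∫_0^1 h^{-1/2} G(x+h) dh`. -/
noncomputable def HI (G : ℝ → ℝ) (x : ℝ) : ℝ :=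
  (1 / √Real.pi) * ∫ h in (0:ℝ)..1, h ^ (-(1/2) : ℝ) * G (x + h)

/-- Normalised smooth sum of `τ_{-1/2}`. -/
noncomputable def vv (δ : ℝ) (φ : ℝ → ℝ) (x : ℝ) : ℝ :=
  δ ^ (-(1/2) : ℝ) * ∑ h ∈ Finset.Icc 1 (MN δ), tau (-1/2) h / h * φ (x + δ * Real.log h)

/-- The sum over the multiples of `g`. -/
noncomputable def Uq (q g M : ℕ) (δ : ℝ) (φ : ℝ → ℝ) : ℝ :=
  ∑ h ∈ cs q M, if g ∣ h then tau (-1/2) h / h * φ (δ * Real.log h) else 0

/-- Local factor: `k(p,a) = (1-1/p)^{-1/2} ∑_i |d_{-1/2}(a+i)| p^{-i}` for `a ≥ 1`, and `1` for `a = 0`. -/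
noncomputable def kk (p a : ℕ) : ℝ :=
  if a = 0 then 1 else (1 - 1 / (p:ℝ)) ^ (-(1/2) : ℝ) * ∑' i : ℕ, |dcoef (-1/2) (a + i)| * (1 / (p:ℝ)) ^ i

/-- The multiplicative function with local factors `k(p,a)`. -/
noncomputable def kap (g : ℕ) : ℝ := g.factorization.prod kk

/-- The positive weight of the diagonalised form. -/
noncomputable def ww (g : ℕ) : ℝ := (Nat.totient g : ℝ) * (kap g / g) ^ 2

/-- `m ↦ τ_{-1/2}(g m)` for `m` coprime to `q`. -/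
noncomputable def cq (q g : ℕ) : ArithmeticFunction ℝ :=
  ⟨fun m => if m ≠ 0 ∧ Nat.Coprime m q then tau (-1/2) (g * m) else 0, by simp⟩

/-- The correction: `τ_{-1/2}(g ·) = τ_{-1/2} * ee q g`. -/
noncomputable def ee (q g : ℕ) : ArithmeticFunction ℝ := tau (1/2) * cq q g

/-- `∏_{p ∣ q} (1-1/p)^{-1/2}`. -/
noncomputable def Cq (q : ℕ) : ℝ := ∏ p ∈ q.primeFactors, (1 - 1 / (p:ℝ)) ^ (-(1/2) : ℝ)

/-- The signed bilinear form with the gcd. -/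
noncomputable def SS (q M : ℕ) (δ : ℝ) (φ ψ : ℝ → ℝ) : ℝ :=
  ∑ h ∈ cs q M, ∑ k ∈ cs q M, tau (-1/2) h * tau (-1/2) k * (φ (δ * Real.log h) * ψ (δ * Real.log k)) *
    ((Nat.gcd h k : ℝ) / ((h:ℝ) * k))

/-- The signed form of the twisted second moment. -/
noncomputable def ZZ (m : ℝ) (q M : ℕ) (δ : ℝ) (φ : ℝ → ℝ) : ℝ :=
  ∑ h ∈ cs q M, ∑ k ∈ cs q M, tau (-1/2) h * tau (-1/2) k * (φ (δ * Real.log h) * φ (δ * Real.log k)) *
    ((Nat.gcd h k : ℝ) / ((h:ℝ) * k)) * (m - Real.log h - Real.log k + 2 * Real.log (Nat.gcd h k))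

/-- The Dirichlet polynomial with coefficients `τ_{-1/2}(h) φ(δ log h)` over the integers coprime to `q`. -/
noncomputable def AA (q N : ℕ) (δ : ℝ) (φ : ℝ → ℝ) (s : ℂ) : ℂ :=
  ∑ h ∈ cs q N, ((tau (-1/2) h * φ (δ * Real.log h) : ℝ) : ℂ) * (h:ℂ) ^ (-s)

/-- The second moment of zeta times the polynomial over the window. -/
noncomputable def XX (q : ℕ) (c : ℝ) (P : ℝ × ℝ) (φ : ℝ → ℝ) : ℝ :=
  ∫ t in win P.2, ‖riemannZeta (crit t)‖ ^ 2 * ‖AA q (NT c P.1) (1 / Real.log P.1) φ (crit t)‖ ^ 2 ∂(gaussianReal P.2 (vw P.1))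

/-- The local square root at `p`: `(1-p^{-s})^{1/2}` as a power series. -/
noncomputable def Hp (p : ℕ) (s : ℂ) : ℂ := ∑' e : ℕ, ((dcoef (-1/2) e : ℝ) : ℂ) * ((p:ℂ) ^ (-s)) ^ e

/-- Limit of the normalised second moment for the family with parameter `z`. -/
noncomputable def QQ (z : ℝ) : ℝ :=
  (Real.pi / 4) * (z ^ (1/4 : ℝ) / Real.Gamma (5/4) + z ^ (5/4 : ℝ) / Real.Gamma (9/4))

/-- The improved constant of the upper bound. -/
noncomputable def CS1 : ℝ :=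
  (3/2) * (2:ℝ) ^ (3/2 : ℝ) * (√Real.pi / 2) / Real.Gamma (5/4) *
    ∫ z in (0:ℝ)..(1/2), (z * (1/2 - z)) ^ (1/8 : ℝ) * √(1 + 4 * z / 5)

/-- The kernel data: `Φ` is the half integral of the nondecreasing function `F` with values in `[0, √π/2]`. -/
structure Ker (ε : ℝ) (Φ F : ℝ → ℝ) : Prop where
  smooth : ContDiff ℝ 3 Φ
  zero : ∀ y, y ≤ 0 → Φ y = 0
  Fcont : Continuous F
  Fmono : Monotone F
  Fzero : ∀ y, y ≤ 0 → F y = 0
  Fle : ∀ y, F y ≤ √Real.pi / 2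
  half : ∀ y, y ≤ 1 → (1 / √Real.pi) * ∫ h in (0:ℝ)..1, h ^ (-(1/2) : ℝ) * deriv Φ (y - h) = F y
  halfI : ∀ y, 0 ≤ y → y ≤ 1 → (1 / √Real.pi) * ∫ h in (0:ℝ)..1, h ^ (-(1/2) : ℝ) * Φ (y - h) = ∫ x in (0:ℝ)..y, F x
  mass : ∀ c, ε ≤ c → c ≤ 1 → (2/3) * (c - ε) ^ (3/2 : ℝ) ≤ ∫ y in (0:ℝ)..c, Φ y

end Pool.Agent.LibOM70
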