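import Pool.Agent.LibOM70B.Defs

/-! ODD MOMENTS, signed route, row Defs2. -/

set_option autoImplicit false

namespace Pool.Agent.LibOM70

open MeasureTheory Set Filter Topology Complex ProbabilityTheory
open scoped NNReal ComplexConjugate
open Pool.Agent.LibZM Pool.Agent.LibM3
open Pool.Agent.LibLaw15 hiding Lam

/-- The mean of `log (t/2π) + 2γ` over the window. -/
noncomputable def mW (P : ℝ × ℝ) : ℝ :=
  ∫ t in win P.2, (Real.log (t / (2 * Real.pi)) + 2 * Real.eulerMascheroniConstant) ∂(gaussianReal P.2 (vw P.1))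

/-- Smoothed jump of height `√π/2` on `[0, ε]`. -/
noncomputable def Fk (ε y : ℝ) : ℝ := (√Real.pi / 2) * Real.smoothTransition (y / ε)

/-- `Fk` with a smooth cutoff at `2` (equal to `Fk` on `(-∞, 1]`). -/
noncomputable def Gk (ε y : ℝ) : ℝ := Fk ε y * Real.smoothTransition (2 - y)

/-- Half integral on the left: `(1/√π) ∫_0^1 h^{-1/2} G(y-h) dh`. -/
noncomputable def HL (G : ℝ → ℝ) (y : ℝ) : ℝ := (1 / √Real.pi) * ∫ h in (0:ℝ)..1, h ^ (-(1/2) : ℝ) * G (y - h)

/-- The weighted second moment of zeta times the polynomial over the window. -/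
noncomputable def XW {r : ℕ} (p : Fin r → ℕ) (w : Tor r → ℝ) (q : ℕ) (c : ℝ) (P : ℝ × ℝ) (φ : ℝ → ℝ) : ℝ :=
  ∫ t in win P.2, ‖riemannZeta (crit t)‖ ^ 2 * ‖AA q (NT c P.1) (1 / Real.log P.1) φ (crit t)‖ ^ 2 * w (xt p t) ∂(gaussianReal P.2 (vw P.1))

end Pool.Agent.LibOM70
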