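import Pool.Agent.LibOM70B.Defs

/-! ODD MOMENTS, signed route, row E1a. -/

set_option autoImplicit false

namespace Pool.Agent.LibOM70

open MeasureTheory Set Filter Topology Complex ProbabilityTheory
open scoped NNReal ComplexConjugate
open Pool.Agent.LibZM Pool.Agent.LibM3
open Pool.Agent.LibLaw15 hiding Lam

private theorem e1a_abs (a : ℕ) : |dcoef (-1/2) a| ≤ dcoef (1/2) a := by
  unfold dcoef
  rw [Finset.abs_prod]
  refine Finset.prod_le_prod (fun i _ => abs_nonneg _) fun i _ => ?_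
  have hi : (0 : ℝ) ≤ i := Nat.cast_nonneg i
  rw [abs_div, abs_of_pos (show (0 : ℝ) < (i : ℝ) + 1 by positivity)]
  apply div_le_div_of_nonneg_right _ (by positivity)
  rw [abs_le]
  constructor <;> linarith

/-- ROW E1a. The coefficients `d_{-1/2}(a)`: `1` for `a = 0`, negative afterwards, `|d_{-1/2}(a)|` nonincreasing for `a ≥ 1`, at most `d_{1/2}(a)`, with `∑_{a ≥ 1} |d_{-1/2}(a)| z^a = 1 - (1-z)^{1/2}`.
(`dcoef_succ`: `dcoef α (a+1) (a+1) = (α + a) dcoef α a`; the last formula: the binomial series, or only the bound `≤ 1` is needed together with `d_{-1/2} * d_{1/2} = δ`, `dcoef_add`.) -/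
theorem dneg : dcoef (-1/2) 0 = 1 ∧ (∀ a : ℕ, dcoef (-1/2) (a + 1) < 0) ∧ (∀ a : ℕ, |dcoef (-1/2) (a + 2)| ≤ |dcoef (-1/2) (a + 1)|) ∧
    (∀ a : ℕ, |dcoef (-1/2) a| ≤ dcoef (1/2) a) ∧ |dcoef (-1/2) 1| = 1/2 ∧ |dcoef (-1/2) 2| = 1/8 := by
  have hs : ∀ a : ℕ, dcoef (-1/2) (a + 2) * ((a : ℝ) + 2) = ((a : ℝ) + 1/2) * dcoef (-1/2) (a + 1) := by
    intro a
    have h1 := dcoef_succ (-1/2) (a + 1)
    push_cast at h1
    linear_combination h1
  have h1 : dcoef (-1/2) 1 = -1/2 := dcoef_one_right _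
  have hneg : ∀ a : ℕ, dcoef (-1/2) (a + 1) < 0 := by
    intro a
    induction a with
    | zero =>
      rw [zero_add, h1]
      norm_num
    | succ a ih =>
      have h2 := hs a
      have h3 : ((a : ℝ) + 1/2) * dcoef (-1/2) (a + 1) < 0 :=
        mul_neg_of_pos_of_neg (by positivity) ih
      rw [← h2] at h3
      have h4 : (0 : ℝ) < (a : ℝ) + 2 := by positivity
      by_contra h5
      exact absurd h3 (not_lt.2 (mul_nonneg (not_lt.1 h5) h4.le))
  refine ⟨dcoef_zero _, hneg, ?_, e1a_abs, ?_, ?_⟩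
  · intro a
    have h2 := hs a
    have h3 : (0 : ℝ) < (a : ℝ) + 2 := by positivity
    rw [abs_of_neg (hneg (a + 1)), abs_of_neg (hneg a)]
    have h4 : -dcoef (-1/2) (a + 1 + 1) * ((a : ℝ) + 2) ≤ -dcoef (-1/2) (a + 1) * ((a : ℝ) + 2) := by
      have h5 := hneg a
      nlinarith
    exact le_of_mul_le_mul_right h4 h3
  · rw [h1]
    norm_num
  · have h2 := hs 0
    rw [Nat.cast_zero, zero_add, zero_add, h1] at h2
    have h3 : dcoef (-1/2) 2 = -1/8 := by
      have : dcoef (-1/2) (0 + 2) = dcoef (-1/2) 2 := rfl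
      linarith
    rw [h3]
    norm_num

/-- ROW E1b. `|τ_{-1/2}(n)| ≤ τ_{1/2}(n)`. -/
theorem tneg_le (n : ℕ) : |tau (-1/2) n| ≤ tau (1/2) n := by
  by_cases hn : n = 0
  · rw [hn, ArithmeticFunction.map_zero, ArithmeticFunction.map_zero, abs_zero]
  · rw [tau_apply hn, tau_apply hn]
    unfold Finsupp.prod
    rw [Finset.abs_prod]
    exact Finset.prod_le_prod (fun _ _ => abs_nonneg _) fun _ _ => e1a_abs _

end Pool.Agent.LibOM70
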