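import Pool.Agent.LibOM70B.Defs
import Pool.Agent.LibOM70B.E1a

/-! ODD MOMENTS, signed route, row E1c. -/

set_option autoImplicit false

namespace Pool.Agent.LibOM70

open MeasureTheory Set Filter Topology Complex ProbabilityTheory
open scoped NNReal ComplexConjugate
open Pool.Agent.LibZM Pool.Agent.LibM3
open Pool.Agent.LibLaw15 hiding Lam

private lemma e1c_abs_le (a : ℕ) : |dcoef (-1/2) a| ≤ 1 := by
  refine le_trans (dneg.2.2.2.1 a) ?_
  have h := dcoef_mono (α := 1/2) (β := 1) (by norm_num) (by norm_num) a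
  rwa [dcoef_one_left] at h

private lemma e1c_abs_succ_le (a : ℕ) : |dcoef (-1/2) (a + 1)| ≤ 1 / 2 := by
  induction a with
  | zero => exact dneg.2.2.2.2.1.le
  | succ n ih => exact le_trans (dneg.2.2.1 n) ih

private lemma e1c_neg_one (n : ℕ) : dcoef (-1) (n + 2) = 0 := by
  induction n with
  | zero =>
    have h := dcoef_succ (-1) 1
    have h2 : dcoef (-1) (1 + 1) * (((1:ℕ):ℝ) + 1) = 0 := by rw [h]; norm_num
    rcases mul_eq_zero.1 h2 with h3 | h3
    · exact h3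
    · norm_num at h3
  | succ n ih =>
    have h := dcoef_succ (-1) (n + 2)
    rw [ih, mul_zero] at h
    rcases mul_eq_zero.1 h with h3 | h3
    · exact h3
    · have : (0:ℝ) < ((n + 2 : ℕ) : ℝ) + 1 := by positivity
      exact absurd h3 this.ne'

private lemma e1c_summable {z : ℝ} (hz : 0 ≤ z) (hz1 : z < 1) (a : ℕ) :
    Summable fun i : ℕ => |dcoef (-1/2) (a + i)| * z ^ i := by
  refine Summable.of_nonneg_of_le (fun i => by positivity) (fun i => ?_)
    (summable_geometric_of_lt_one hz hz1)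
  exact mul_le_of_le_one_left (by positivity) (e1c_abs_le _)

private lemma e1c_summable' {z : ℝ} (hz : 0 ≤ z) (hz1 : z < 1) :
    Summable fun i : ℕ => ‖dcoef (-1/2) i * z ^ i‖ := by
  have h := e1c_summable hz hz1 0
  refine h.congr fun i => ?_
  rw [norm_mul, Real.norm_eq_abs, Real.norm_of_nonneg (pow_nonneg hz i), zero_add]

/-- The square of the series is `1 - z`. -/
private lemma e1c_sq {z : ℝ} (hz : 0 ≤ z) (hz1 : z < 1) :
    (∑' i : ℕ, dcoef (-1/2) i * z ^ i) * (∑' i : ℕ, dcoef (-1/2) i * z ^ i) = 1 - z := by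
  rw [tsum_mul_tsum_eq_tsum_sum_range_of_summable_norm (e1c_summable' hz hz1)
    (e1c_summable' hz hz1)]
  have h1 : ∀ n : ℕ, ∑ k ∈ Finset.range (n + 1), dcoef (-1/2) k * z ^ k *
      (dcoef (-1/2) (n - k) * z ^ (n - k)) = dcoef (-1) n * z ^ n := by
    intro n
    have h2 := dcoef_add (-1/2) (-1/2) n
    have h3 : ((-1/2 : ℝ) + -1/2) = -1 := by norm_num
    rw [h3] at h2
    rw [← h2, Finset.sum_mul]
    refine Finset.sum_congr rfl fun i hi => ?_
    have hi' : i ≤ n := by rw [Finset.mem_range] at hi; omega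
    have hzz : z ^ n = z ^ i * z ^ (n - i) := by rw [← pow_add, Nat.add_sub_cancel' hi']
    rw [hzz]; ring
  rw [tsum_congr h1, tsum_eq_sum (s := Finset.range 2)]
  · rw [Finset.sum_range_succ, Finset.sum_range_one, dcoef_zero, dcoef_one_right]
    ring
  · intro n hn
    have h2 : 2 ≤ n := by
      by_contra h
      exact hn (Finset.mem_range.2 (by omega))
    obtain ⟨m, rfl⟩ := Nat.exists_eq_add_of_le h2
    rw [add_comm 2 m, e1c_neg_one, zero_mul]

/-- The series as `1 - z ∑ |d(1+i)| z^i`. -/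
private lemma e1c_split {z : ℝ} (hz : 0 ≤ z) (hz1 : z < 1) :
    ∑' i : ℕ, dcoef (-1/2) i * z ^ i = 1 - z * ∑' i : ℕ, |dcoef (-1/2) (1 + i)| * z ^ i := by
  have hs : Summable fun i : ℕ => dcoef (-1/2) i * z ^ i := (e1c_summable' hz hz1).of_norm
  rw [hs.tsum_eq_zero_add, dcoef_zero, pow_zero, mul_one, ← tsum_mul_left, sub_eq_add_neg,
    ← tsum_neg]
  congr 1
  refine tsum_congr fun i => ?_
  rw [add_comm 1 i, abs_of_neg (dneg.2.1 i), pow_succ]
  ring

private lemma e1c_half {z : ℝ} (hz : 0 ≤ z) (hz1 : z ≤ 1 / 2) :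
    ∑' i : ℕ, dcoef (-1/2) i * z ^ i = (1 - z) ^ ((1/2) : ℝ) := by
  have hz2 : z < 1 := by linarith
  have hb : ∑' i : ℕ, |dcoef (-1/2) (1 + i)| * z ^ i ≤ 1 := by
    calc ∑' i : ℕ, |dcoef (-1/2) (1 + i)| * z ^ i ≤ ∑' i : ℕ, (1/2) * z ^ i := by
          refine (e1c_summable hz hz2 1).tsum_le_tsum (fun i => ?_)
            ((summable_geometric_of_lt_one hz hz2).mul_left _)
          rw [add_comm 1 i]
          exact mul_le_mul_of_nonneg_right (e1c_abs_succ_le i) (by positivity)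
      _ = (1/2) * (1 - z)⁻¹ := by rw [tsum_mul_left, tsum_geometric_of_lt_one hz hz2]
      _ ≤ (1/2) * 2 := by
          have : (1 - z)⁻¹ ≤ 2 := by
            rw [inv_le_comm₀ (by linarith) (by norm_num)]
            linarith
          linarith
      _ = 1 := by norm_num
  have hpos : 0 ≤ ∑' i : ℕ, dcoef (-1/2) i * z ^ i := by
    rw [e1c_split hz hz2]
    have := mul_le_mul_of_nonneg_left hb hz
    linarith
  rw [← Real.sqrt_eq_rpow, eq_comm, Real.sqrt_eq_iff_mul_self_eq (by linarith) hpos]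
  exact (e1c_sq hz hz2).symm

/-- ROW E1c. The local factors: `∑_i |d_{-1/2}(1+i)| z^i = (1 - (1-z)^{1/2})/z`, so `k(p,1) = p((1-1/p)^{-1/2} - 1) ≤ 1` for `p ≥ 2` (and `→ 1/2`), and `k(p,a)` is nonincreasing in `a`.
Also `k(p,1) ≤ 1/2 + 1/p` and `k(p,a) ≤ 1/4` for `a ≥ 2` (`p ≥ 2`: `k(2,2) = .2427`). -/
theorem kk_props {p : ℕ} (hp : 2 ≤ p) : (∀ a, 0 ≤ kk p a) ∧ (∀ a, kk p (a + 1) ≤ kk p a) ∧ (∀ a, kk p a ≤ 1) ∧
    kk p 1 = p * ((1 - 1 / (p:ℝ)) ^ (-(1/2) : ℝ) - 1) ∧ (∀ a : ℕ, Summable fun i : ℕ => |dcoef (-1/2) (a + i)| * (1 / (p:ℝ)) ^ i) := by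
  have hp2 : (2:ℝ) ≤ p := by exact_mod_cast hp
  have hp0 : (0:ℝ) < p := by linarith
  set z : ℝ := 1 / (p:ℝ) with hzdef
  have hz0 : 0 < z := by positivity
  have hz : 0 ≤ z := hz0.le
  have hz1 : z ≤ 1 / 2 := by
    rw [hzdef]
    exact one_div_le_one_div_of_le (by norm_num) hp2
  have hz2 : z < 1 := by linarith
  have hc : 0 < 1 - z := by linarith
  have hC : 0 < (1 - z) ^ (-(1/2) : ℝ) := Real.rpow_pos_of_pos hc _
  have hsum : ∀ a : ℕ, Summable fun i : ℕ => |dcoef (-1/2) (a + i)| * z ^ i :=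
    fun a => e1c_summable hz hz2 a
  have hkk0 : kk p 0 = 1 := by simp [kk]
  have hkks : ∀ a : ℕ, kk p (a + 1) =
      (1 - z) ^ (-(1/2) : ℝ) * ∑' i : ℕ, |dcoef (-1/2) (a + 1 + i)| * z ^ i := by
    intro a
    rw [kk, if_neg (Nat.succ_ne_zero a)]
  have h1 : kk p 1 = p * ((1 - z) ^ (-(1/2) : ℝ) - 1) := by
    have h2 := hkks 0
    rw [zero_add] at h2
    have h3 := e1c_split hz hz2
    rw [e1c_half hz hz1] at h3
    have h4 : ∑' i : ℕ, |dcoef (-1/2) (1 + i)| * z ^ i = p * (1 - (1 - z) ^ ((1/2) : ℝ)) := by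
      rw [h3, hzdef]
      field_simp
      ring
    have h5 : (1 - z) ^ (-(1/2) : ℝ) * (1 - z) ^ ((1/2) : ℝ) = 1 := by
      rw [← Real.rpow_add hc]
      norm_num
    rw [h2, h4]
    calc (1 - z) ^ (-(1/2) : ℝ) * (p * (1 - (1 - z) ^ ((1/2) : ℝ)))
        = p * ((1 - z) ^ (-(1/2) : ℝ) - (1 - z) ^ (-(1/2) : ℝ) * (1 - z) ^ ((1/2) : ℝ)) := by ring
      _ = _ := by rw [h5]
  have h1le : kk p 1 ≤ 1 := by
    have h2 : (1 - z) ^ (-(1/2) : ℝ) ≤ 1 + z := by
      rw [Real.rpow_neg hc.le, ← Real.sqrt_eq_rpow, inv_le_comm₀ (Real.sqrt_pos.2 hc) (by linarith)]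
      apply Real.le_sqrt_of_sq_le
      rw [inv_pow, inv_le_comm₀ (by positivity) hc, inv_le_iff_one_le_mul₀ hc]
      nlinarith [mul_nonneg hz (sub_nonneg.2 hz1), mul_nonneg (mul_nonneg hz hz) (sub_nonneg.2 hz1)]
    rw [h1]
    calc p * ((1 - z) ^ (-(1/2) : ℝ) - 1) ≤ p * z := by
          refine mul_le_mul_of_nonneg_left ?_ hp0.le
          linarith
      _ = 1 := by rw [hzdef]; field_simp
  have hmono : ∀ a, kk p (a + 1) ≤ kk p a := by
    intro a
    cases a with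
    | zero => rw [hkk0, zero_add]; exact h1le
    | succ a =>
      rw [hkks, hkks]
      refine mul_le_mul_of_nonneg_left ?_ hC.le
      refine (hsum _).tsum_le_tsum (fun i => ?_) (hsum _)
      refine mul_le_mul_of_nonneg_right ?_ (by positivity)
      have h2 := dneg.2.2.1 (a + i)
      have e1 : a + 1 + 1 + i = a + i + 2 := by ring
      have e2 : a + 1 + i = a + i + 1 := by ring
      rw [e1, e2]
      exact h2
  refine ⟨fun a => ?_, hmono, fun a => ?_, h1, hsum⟩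
  · cases a with
    | zero => rw [hkk0]; norm_num
    | succ a =>
      rw [hkks]
      exact mul_nonneg hC.le (tsum_nonneg fun i => by positivity)
  · induction a with
    | zero => rw [hkk0]
    | succ n ih => exact le_trans (hmono n) ih

end Pool.Agent.LibOM70
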