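import Pool.Agent.LibOM70B.Defs
import Pool.Agent.LibOM70B.E1a
import Pool.Agent.LibOM70B.E1c

/-! ODD MOMENTS, signed route, row E1d. -/

set_option autoImplicit false

namespace Pool.Agent.LibOM70

open MeasureTheory Set Filter Topology Complex ProbabilityTheory
open scoped NNReal ComplexConjugate
open Pool.Agent.LibZM Pool.Agent.LibM3
open Pool.Agent.LibLaw15 hiding Lam

lemma e1d_kk_zero (p : ℕ) : kk p 0 = 1 := by simp [kk]

lemma e1d_kap_eq (g : ℕ) : kap g = ∏ p ∈ g.primeFactors, kk p (g.factorization p) := by
  rw [kap, Finsupp.prod, Nat.support_factorization]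

lemma e1d_kk_anti {p : ℕ} (hp : 2 ≤ p) {a b : ℕ} (hab : a ≤ b) : kk p b ≤ kk p a := by
  have h := (kk_props hp).2.1
  exact antitone_nat_of_succ_le h hab

/-- ROW E1d. The multiplicative function `kap`. (`Nat.factorization` of a product; compare exponents prime by prime.) -/
theorem kap_props : (∀ g, 0 ≤ kap g) ∧ (∀ g, kap g ≤ 1) ∧ (∀ n g, 1 ≤ n → 1 ≤ g → kap (n * g) ≤ kap g) ∧
    (∀ m n, Nat.Coprime m n → kap (m * n) = kap m * kap n) ∧ (∀ p a, p.Prime → kap (p ^ a) = kk p a) := by
  refine ⟨fun g => ?_, fun g => ?_, fun n g hn hg => ?_, fun m n hmn => ?_, fun p a hp => ?_⟩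
  · rw [e1d_kap_eq]
    exact Finset.prod_nonneg fun p hp => (kk_props (Nat.prime_of_mem_primeFactors hp).two_le).1 _
  · rw [e1d_kap_eq]
    exact Finset.prod_le_one (fun p hp => (kk_props (Nat.prime_of_mem_primeFactors hp).two_le).1 _)
      fun p hp => (kk_props (Nat.prime_of_mem_primeFactors hp).two_le).2.2.1 _
  · have hn0 : n ≠ 0 := by omega
    have hg0 : g ≠ 0 := by omega
    have e : kap g = ∏ p ∈ (n * g).primeFactors, kk p (g.factorization p) := by
      rw [e1d_kap_eq]
      apply Finset.prod_subset
      · rw [Nat.primeFactors_mul hn0 hg0]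
        exact Finset.subset_union_right
      · intro p _ hp
        have : g.factorization p = 0 := by
          rw [← Nat.support_factorization] at hp
          exact Finsupp.notMem_support_iff.mp hp
        rw [this, e1d_kk_zero]
    rw [e, e1d_kap_eq]
    refine Finset.prod_le_prod (fun p hp => (kk_props (Nat.prime_of_mem_primeFactors hp).two_le).1 _) fun p hp => ?_
    apply e1d_kk_anti (Nat.prime_of_mem_primeFactors hp).two_le
    rw [Nat.factorization_mul hn0 hg0]
    simp
  · rcases Nat.eq_zero_or_pos m with hm | hm
    · subst hm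
      have : n = 1 := by simpa using hmn
      subst this
      simp [kap]
    rcases Nat.eq_zero_or_pos n with hn | hn
    · subst hn
      have : m = 1 := by simpa using hmn
      subst this
      simp [kap]
    rw [kap, kap, kap, Nat.factorization_mul hm.ne' hn.ne']
    apply Finsupp.prod_add_index_of_disjoint
    rw [Nat.support_factorization, Nat.support_factorization]
    exact hmn.disjoint_primeFactors
  · rw [kap, hp.factorization_pow, Finsupp.prod_single_index (e1d_kk_zero p)]

end Pool.Agent.LibOM70
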