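import Pool.Agent.LibOM70B.E1d

/-! ODD MOMENTS, signed route, row E2a. -/

set_option autoImplicit false

namespace Pool.Agent.LibOM70

open MeasureTheory Set Filter Topology Complex ProbabilityTheory
open scoped NNReal ComplexConjugate
open Pool.Agent.LibZM Pool.Agent.LibM3
open Pool.Agent.LibLaw15 hiding Lam

/-- ROW E2a. `τ_{-1/2} * ee q g = cq q g` (`tau_mul (-1/2) (1/2)`, `tau_zero_eq`). -/
theorem cq_eq (q g : ℕ) : tau (-1/2) * ee q g = cq q g := by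
  unfold ee
  rw [← mul_assoc, tau_mul, show ((-1:ℝ)/2 + 1/2) = 0 by norm_num, tau_zero_eq, one_mul]

theorem e2a_le {p a b x y : ℕ} (hp : p.Prime) (hx : ¬ p ∣ x) (hab : a ≤ b)
    (h : p ^ a * x = p ^ b * y) : a = b ∧ x = y := by
  obtain ⟨c, rfl⟩ := Nat.exists_eq_add_of_le hab
  rw [pow_add, mul_assoc] at h
  have h2 : x = p ^ c * y := Nat.eq_of_mul_eq_mul_left (pow_pos hp.pos a) h
  rcases Nat.eq_zero_or_pos c with hc | hc
  · subst hc; simpa using h2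
  · exfalso; apply hx; rw [h2]
    exact Dvd.dvd.mul_right (dvd_pow_self p hc.ne') y

theorem e2a_key {p a b x y : ℕ} (hp : p.Prime) (hx : ¬ p ∣ x) (hy : ¬ p ∣ y)
    (h : p ^ a * x = p ^ b * y) : a = b ∧ x = y := by
  rcases le_total a b with hab | hab
  · exact e2a_le hp hx hab h
  · have := e2a_le hp hy hab h.symm
    exact ⟨this.1.symm, this.2.symm⟩

/-- Divisor pairs of `p^i y`. -/
theorem e2a_sum {p : ℕ} (hp : p.Prime) {y : ℕ} (hy : ¬ p ∣ y) (i : ℕ) (f : ℕ → ℕ → ℝ) :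
    ∑ x ∈ Nat.divisorsAntidiagonal (p ^ i * y), f x.1 x.2 =
      ∑ l ∈ Finset.range (i + 1), ∑ x ∈ Nat.divisorsAntidiagonal y, f (p ^ (i - l) * x.1) (p ^ l * x.2) := by
  have hy0 : y ≠ 0 := by rintro rfl; exact hy (dvd_zero p)
  rw [← Finset.sum_product']
  symm
  apply Finset.sum_nbij (fun z : ℕ × (ℕ × ℕ) => (p ^ (i - z.1) * z.2.1, p ^ z.1 * z.2.2))
  · rintro ⟨l, a, b⟩ h
    simp only [Finset.mem_product, Finset.mem_range, Nat.mem_divisorsAntidiagonal] at h ⊢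
    obtain ⟨hl, hab, h0⟩ := h
    refine ⟨?_, mul_ne_zero (pow_ne_zero _ hp.ne_zero) hy0⟩
    have : p ^ i = p ^ (i - l) * p ^ l := by rw [← pow_add]; congr 1; omega
    rw [this, ← hab]; ring
  · rintro ⟨l, a, b⟩ h ⟨l', a', b'⟩ h' heq
    simp only [Finset.coe_product, Set.mem_prod, Finset.mem_coe, Finset.mem_range,
      Nat.mem_divisorsAntidiagonal] at h h'
    simp only [Prod.mk.injEq] at heq
    have hb : ¬ p ∣ b := fun hd => hy (h.2.1 ▸ hd.mul_left a)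
    have hb' : ¬ p ∣ b' := fun hd => hy (h'.2.1 ▸ hd.mul_left a')
    obtain ⟨h1, h2⟩ := e2a_key hp hb hb' heq.2
    subst h1 h2
    have h3 : a = a' := Nat.eq_of_mul_eq_mul_left (pow_pos hp.pos _) heq.1
    subst h3
    rfl
  · rintro ⟨a, b⟩ h
    simp only [Finset.mem_coe, Nat.mem_divisorsAntidiagonal] at h
    obtain ⟨hab, hne⟩ := h
    have ha0 : a ≠ 0 := by rintro rfl; exact hne (by rw [← hab]; simp)
    have hb0 : b ≠ 0 := by rintro rfl; exact hne (by rw [← hab]; simp)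
    obtain ⟨u, a', ha', rfl⟩ := Nat.exists_eq_pow_mul_and_not_dvd ha0 p hp.ne_one
    obtain ⟨l, b', hb', rfl⟩ := Nat.exists_eq_pow_mul_and_not_dvd hb0 p hp.ne_one
    have hnd : ¬ p ∣ a' * b' := fun hd => (hp.dvd_mul.1 hd).elim ha' hb'
    have h4 : p ^ (u + l) * (a' * b') = p ^ i * y := by rw [← hab, pow_add]; ring
    obtain ⟨h5, h6⟩ := e2a_key hp hnd hy h4
    refine ⟨(l, (a', b')), ?_, ?_⟩
    · simp only [Finset.coe_product, Set.mem_prod, Finset.mem_coe, Finset.mem_range,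
        Nat.mem_divisorsAntidiagonal]
      exact ⟨by omega, h6, hy0⟩
    · simp only [Prod.mk.injEq, and_true]
      have : i - l = u := by omega
      rw [this]
  · rintro ⟨l, a, b⟩ h
    rfl

theorem e2a_cop {p : ℕ} (hp : p.Prime) {x : ℕ} (hx : ¬ p ∣ x) (k : ℕ) : Nat.Coprime (p ^ k) x :=
  Nat.Coprime.pow_left k ((Nat.Prime.coprime_iff_not_dvd hp).2 hx)

theorem e2a_tau {p : ℕ} (hp : p.Prime) {x : ℕ} (hx : ¬ p ∣ x) (α : ℝ) (k : ℕ) :
    tau α (p ^ k * x) = dcoef α k * tau α x := by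
  rw [(tau_isMultiplicative α).map_mul_of_coprime (e2a_cop hp hx k), tau_prime_pow α hp]

/-- ROW E2b. Peeling a prime `p` of `g`: for `p ∤ g'`, `p ∤ q`, `p ∤ y'`, `a ≥ 1`:
`ee q (p^a g') (p^i y') = (∑_{l ≤ i} d_{1/2}(i-l) d_{-1/2}(a+l)) * ee q g' y'` (the divisor pairs of `p^i y'` are products; `cq q (p^a g') (p^l m) = d_{-1/2}(a+l) cq q g' m` for `p ∤ m`). The factor is `≤ 0`. -/
theorem ee_peel {p : ℕ} (hp : p.Prime) {q g y : ℕ} (hq : ¬ p ∣ q) (hg : ¬ p ∣ g) (hy : ¬ p ∣ y) (a i : ℕ) :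
    ee q (p ^ a * g) (p ^ i * y) = (∑ l ∈ Finset.range (i + 1), dcoef (1/2) (i - l) * dcoef (-1/2) (a + l)) * ee q g y := by
  unfold ee
  rw [ArithmeticFunction.mul_apply, ArithmeticFunction.mul_apply,
    e2a_sum hp hy i (fun u v => tau (1/2) u * cq q (p ^ a * g) v), Finset.sum_mul]
  apply Finset.sum_congr rfl
  intro l _
  rw [Finset.mul_sum]
  apply Finset.sum_congr rfl
  rintro ⟨u, v⟩ huv
  simp only [Nat.mem_divisorsAntidiagonal] at huv
  have hu : ¬ p ∣ u := fun hd => hy (huv.1 ▸ hd.mul_right v)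
  have hv : ¬ p ∣ v := fun hd => hy (huv.1 ▸ hd.mul_left u)
  have hv0 : v ≠ 0 := by rintro rfl; exact hv (dvd_zero p)
  have hgv : ¬ p ∣ g * v := fun hd => (hp.dvd_mul.1 hd).elim hg hv
  have h1 : cq q (p ^ a * g) (p ^ l * v) = dcoef (-1/2) (a + l) * cq q g v := by
    simp only [cq, ArithmeticFunction.coe_mk]
    have e1 : (p ^ l * v ≠ 0 ∧ Nat.Coprime (p ^ l * v) q) ↔ (v ≠ 0 ∧ Nat.Coprime v q) := by
      rw [Nat.coprime_mul_iff_left]
      constructor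
      · rintro ⟨_, _, h⟩; exact ⟨hv0, h⟩
      · rintro ⟨_, h⟩; exact ⟨mul_ne_zero (pow_ne_zero _ hp.ne_zero) hv0, e2a_cop hp hq l, h⟩
    by_cases hc : v ≠ 0 ∧ Nat.Coprime v q
    · rw [if_pos hc, if_pos (e1.2 hc), ← e2a_tau hp hgv (-1/2) (a + l)]
      congr 1
      rw [pow_add]; ring
    · rw [if_neg hc, if_neg (fun h => hc (e1.1 h)), mul_zero]
  simp only
  rw [h1, e2a_tau hp hu]
  ring

/-- ROW E2c. Peeling a prime of `q` (`p ∤ g`): the local factor is `d_{1/2}(i) ≥ 0`. -/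
theorem ee_peel_q {p : ℕ} (hp : p.Prime) {q g y : ℕ} (hq : ¬ p ∣ q) (hg : ¬ p ∣ g) (hy : ¬ p ∣ y) (b i : ℕ) (hb : 1 ≤ b) :
    ee (p ^ b * q) g (p ^ i * y) = dcoef (1/2) i * ee q g y := by
  unfold ee
  rw [ArithmeticFunction.mul_apply, ArithmeticFunction.mul_apply,
    e2a_sum hp hy i (fun u v => tau (1/2) u * cq (p ^ b * q) g v),
    Finset.sum_eq_single 0]
  · rw [Finset.mul_sum]
    apply Finset.sum_congr rfl
    rintro ⟨u, v⟩ huv
    simp only [Nat.mem_divisorsAntidiagonal] at huv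
    have hu : ¬ p ∣ u := fun hd => hy (huv.1 ▸ hd.mul_right v)
    have hv : ¬ p ∣ v := fun hd => hy (huv.1 ▸ hd.mul_left u)
    have h1 : cq (p ^ b * q) g (p ^ 0 * v) = cq q g v := by
      simp only [cq, ArithmeticFunction.coe_mk, pow_zero, one_mul]
      have e1 : (v ≠ 0 ∧ Nat.Coprime v (p ^ b * q)) ↔ (v ≠ 0 ∧ Nat.Coprime v q) := by
        rw [Nat.coprime_mul_iff_right]
        constructor
        · rintro ⟨h0, _, h⟩; exact ⟨h0, h⟩
        · rintro ⟨h0, h⟩; exact ⟨h0, (e2a_cop hp hv b).symm, h⟩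
      by_cases hc : v ≠ 0 ∧ Nat.Coprime v q
      · rw [if_pos hc, if_pos (e1.2 hc)]
      · rw [if_neg hc, if_neg (fun h => hc (e1.1 h))]
    simp only
    rw [h1, Nat.sub_zero, e2a_tau hp hu]
    ring
  · intro l _ hl
    apply Finset.sum_eq_zero
    rintro ⟨u, v⟩ _
    have h1 : cq (p ^ b * q) g (p ^ l * v) = 0 := by
      simp only [cq, ArithmeticFunction.coe_mk]
      rw [if_neg]
      rintro ⟨_, h⟩
      have h2 : Nat.Coprime (p ^ l) (p ^ b) :=
        (Nat.Coprime.coprime_mul_right (Nat.Coprime.coprime_mul_right_right h))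
      have h3 : p ∣ 1 := by
        rw [← h2.gcd_eq_one]
        exact Nat.dvd_gcd (dvd_pow_self p hl) (dvd_pow_self p (by omega))
      exact hp.one_lt.ne' (Nat.dvd_one.1 h3)
    simp only
    rw [h1, mul_zero]
  · intro h
    exact absurd (Finset.mem_range.2 (Nat.succ_pos i)) h

end Pool.Agent.LibOM70
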