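import Pool.Agent.LibOM70B.E1d
import Pool.Agent.LibOM70B.E2a

/-! ODD MOMENTS, signed route, row E2d. -/

set_option autoImplicit false

namespace Pool.Agent.LibOM70

open MeasureTheory Set Filter Topology Complex ProbabilityTheory
open scoped NNReal ComplexConjugate
open Pool.Agent.LibZM Pool.Agent.LibM3
open Pool.Agent.LibLaw15 hiding Lam

theorem e2d_cq_one : cq 1 1 = tau (-1/2) := by
  ext m
  simp only [cq, ArithmeticFunction.coe_mk, one_mul]
  by_cases hm : m = 0
  · subst hm; simp
  · rw [if_pos ⟨hm, Nat.coprime_one_right m⟩]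

theorem e2d_ee_one : ee 1 1 = 1 := by
  unfold ee
  rw [e2d_cq_one, tau_mul, show ((1:ℝ)/2 + -1/2) = 0 by norm_num, tau_zero_eq]

theorem e2d_factor_nonpos {a : ℕ} (ha : 1 ≤ a) (i : ℕ) :
    (∑ l ∈ Finset.range (i + 1), dcoef (1/2) (i - l) * dcoef (-1/2) (a + l)) ≤ 0 := by
  apply Finset.sum_nonpos
  intro l _
  apply mul_nonpos_of_nonneg_of_nonpos (dcoef_nonneg (by norm_num) _)
  obtain ⟨c, rfl⟩ := Nat.exists_eq_add_of_le ha
  have := dneg.2.1 (c + l)
  rw [show 1 + c + l = c + l + 1 by ring]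
  exact this.le

/-- Induction principle: peel one prime of `q` or of `g`. -/
theorem e2d_induction {P : ℕ → ℕ → Prop} (h1 : P 1 1)
    (hgp : ∀ p q g a, p.Prime → 1 ≤ a → 1 ≤ q → 1 ≤ g → ¬ p ∣ q → ¬ p ∣ g → Nat.Coprime g q → P q g → P q (p ^ a * g))
    (hqp : ∀ p q g b, p.Prime → 1 ≤ b → 1 ≤ q → 1 ≤ g → ¬ p ∣ q → ¬ p ∣ g → Nat.Coprime g q → P q g → P (p ^ b * q) g) :
    ∀ q g : ℕ, 1 ≤ q → 1 ≤ g → Nat.Coprime g q → P q g := by
  suffices H : ∀ n q g : ℕ, q * g = n → 1 ≤ q → 1 ≤ g → Nat.Coprime g q → P q g from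
    fun q g => H _ q g rfl
  intro n
  induction n using Nat.strong_induction_on with
  | _ n ih =>
    intro q g hn hq hg hgq
    by_cases hg1 : g = 1
    · subst hg1
      by_cases hq1 : q = 1
      · subst hq1; exact h1
      · obtain ⟨p, hp, hpq⟩ := Nat.exists_prime_and_dvd hq1
        obtain ⟨b, q', hq', rfl⟩ := Nat.exists_eq_pow_mul_and_not_dvd (by omega : q ≠ 0) p hp.ne_one
        have hb : 1 ≤ b := by
          rcases Nat.eq_zero_or_pos b with rfl | h
          · simp at hpq; exact absurd hpq hq'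
          · exact h
        have hq'1 : 1 ≤ q' := by
          rcases Nat.eq_zero_or_pos q' with rfl | h
          · simp at hq'
          · exact h
        refine hqp p q' 1 b hp hb hq'1 le_rfl hq' (fun h => hp.one_lt.ne' (Nat.dvd_one.1 h))
          (Nat.coprime_one_left q') (ih (q' * 1) ?_ q' 1 rfl hq'1 le_rfl (Nat.coprime_one_left q'))
        rw [← hn, mul_one, mul_one]
        have h2 : 2 ≤ p ^ b := le_trans hp.two_le (Nat.le_self_pow (by omega) p)
        nlinarith
    · obtain ⟨p, hp, hpg⟩ := Nat.exists_prime_and_dvd hg1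
      obtain ⟨a, g', hg', rfl⟩ := Nat.exists_eq_pow_mul_and_not_dvd (by omega : g ≠ 0) p hp.ne_one
      have ha : 1 ≤ a := by
        rcases Nat.eq_zero_or_pos a with rfl | h
        · simp at hpg; exact absurd hpg hg'
        · exact h
      have hg'1 : 1 ≤ g' := by
        rcases Nat.eq_zero_or_pos g' with rfl | h
        · simp at hg'
        · exact h
      have hcop : Nat.Coprime g' q := Nat.Coprime.coprime_mul_left hgq
      have hpq : ¬ p ∣ q := by
        intro h
        have : p ∣ 1 := by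
          rw [← hgq.gcd_eq_one]
          exact Nat.dvd_gcd hpg h
        exact hp.one_lt.ne' (Nat.dvd_one.1 this)
      refine hgp p q g' a hp ha hq hg'1 hpq hg' hcop (ih (q * g') ?_ q g' rfl hq hg'1 hcop)
      rw [← hn]
      have h2 : 2 ≤ p ^ a := le_trans hp.two_le (Nat.le_self_pow (by omega) p)
      have h3 : 1 ≤ q * g' := Nat.mul_pos hq hg'1
      have h4 : q * (p ^ a * g') = p ^ a * (q * g') := by ring
      rw [h4]
      nlinarith

/-- ROW E2d. Sign: constant in `y`. PROOF. Induction on the prime factors of `g` and of `q` (`Nat.recOnPosPrimePosCoprime` or strong induction) by `ee_peel`, `ee_peel_q`; if `g = q = 1` then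
`ee 1 1 = tau (1/2) * tau (-1/2) = 1`. -/
theorem ee_sign {q g : ℕ} (hq : 1 ≤ q) (hg : 1 ≤ g) (hgq : Nat.Coprime g q) (y : ℕ) : 0 ≤ (-1 : ℝ) ^ g.primeFactors.card * ee q g y := by
  refine e2d_induction (P := fun q g => ∀ y : ℕ, 0 ≤ (-1 : ℝ) ^ g.primeFactors.card * ee q g y) ?_ ?_ ?_ q g hq hg hgq y
  · intro y
    rw [e2d_ee_one, Nat.primeFactors_one, Finset.card_empty, pow_zero, one_mul, ArithmeticFunction.one_apply]
    split_ifs <;> norm_num
  · intro p q g a hp ha _ hg hpq hpg _ IH y
    by_cases hy : y = 0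
    · subst hy; simp
    · obtain ⟨i, y', hy', rfl⟩ := Nat.exists_eq_pow_mul_and_not_dvd hy p hp.ne_one
      rw [ee_peel hp hpq hpg hy' a i]
      have hcard : (p ^ a * g).primeFactors.card = g.primeFactors.card + 1 := by
        rw [Nat.primeFactors_mul (pow_ne_zero _ hp.ne_zero) (by omega), Nat.primeFactors_prime_pow (by omega) hp,
          Finset.card_union_of_disjoint, Finset.card_singleton, add_comm]
        rw [Finset.disjoint_singleton_left]
        intro h
        exact hpg (Nat.dvd_of_mem_primeFactors h)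
      rw [hcard, pow_succ]
      have h1 := e2d_factor_nonpos ha i
      have h2 := IH y'
      have : (-1 : ℝ) ^ g.primeFactors.card * -1 *
          ((∑ l ∈ Finset.range (i + 1), dcoef (1/2) (i - l) * dcoef (-1/2) (a + l)) * ee q g y') =
          (-(∑ l ∈ Finset.range (i + 1), dcoef (1/2) (i - l) * dcoef (-1/2) (a + l))) *
          ((-1 : ℝ) ^ g.primeFactors.card * ee q g y') := by ring
      rw [this]
      exact mul_nonneg (by linarith) h2
  · intro p q g b hp hb _ _ hpq hpg _ IH y
    by_cases hy : y = 0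
    · subst hy; simp
    · obtain ⟨i, y', hy', rfl⟩ := Nat.exists_eq_pow_mul_and_not_dvd hy p hp.ne_one
      rw [ee_peel_q hp hpq hpg hy' b i hb]
      have h2 := IH y'
      have : (-1 : ℝ) ^ g.primeFactors.card * (dcoef (1/2) i * ee q g y') =
          dcoef (1/2) i * ((-1 : ℝ) ^ g.primeFactors.card * ee q g y') := by ring
      rw [this]
      exact mul_nonneg (dcoef_nonneg (by norm_num) _) h2

end Pool.Agent.LibOM70
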