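import Pool.Agent.LibOM70B.E1d
import Pool.Agent.LibOM70B.E2a
import Pool.Agent.LibOM70B.E2d

/-! ODD MOMENTS, signed route, row E2e. -/

set_option autoImplicit false

namespace Pool.Agent.LibOM70

open MeasureTheory Set Filter Topology Complex ProbabilityTheory
open scoped NNReal ComplexConjugate
open Pool.Agent.LibZM Pool.Agent.LibM3
open Pool.Agent.LibLaw15 hiding Lam

lemma e2e_tri (A B : ℕ → ℝ) (hA : ∀ k, 0 ≤ A k) (hB : ∀ l, 0 ≤ B l) (N : ℕ) :
    ∑ i ∈ Finset.range N, ∑ l ∈ Finset.range (i + 1), A (i - l) * B l ≤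
      (∑ k ∈ Finset.range N, A k) * ∑ l ∈ Finset.range N, B l := by
  rw [Finset.sum_sigma', Finset.sum_mul_sum, ← Finset.sum_product']
  have hinj : Set.InjOn (fun x : (Σ _ : ℕ, ℕ) => ((x.1 - x.2, x.2) : ℕ × ℕ))
      ((Finset.range N).sigma fun i => Finset.range (i + 1) : Finset (Σ _ : ℕ, ℕ)) := by
    rintro ⟨i, l⟩ h ⟨j, m⟩ h' e
    simp only [Finset.coe_sigma, Finset.mem_coe, Set.mem_sigma_iff, Finset.mem_range, Prod.mk.injEq] at h h' e
    obtain ⟨e1, e2⟩ := e
    have : i = j := by omega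
    subst this
    subst e2
    rfl
  rw [← Finset.sum_image (f := fun z : ℕ × ℕ => A z.1 * B z.2) hinj]
  refine Finset.sum_le_sum_of_subset_of_nonneg ?_ fun z _ _ => mul_nonneg (hA _) (hB _)
  intro z hz
  rw [Finset.mem_image] at hz
  obtain ⟨⟨i, l⟩, h, rfl⟩ := hz
  simp only [Finset.mem_sigma, Finset.mem_range] at h
  simp only [Finset.mem_product, Finset.mem_range]
  omega

lemma e2e_peel {p : ℕ} (hp : p.Prime) (f f' c : ℕ → ℝ) (h : ∀ i y, ¬ p ∣ y → f (p ^ i * y) = c i * f' y) (M : ℕ) :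
    ∑ y ∈ Finset.Icc 1 M, |f y| / y ≤
      (∑ i ∈ Finset.range (M + 1), |c i| * (1 / (p:ℝ)) ^ i) * ∑ y ∈ Finset.Icc 1 M, |f' y| / y := by
  have key : ∀ y ∈ Finset.Icc 1 M, |f y| / y = (fun z : ℕ × ℕ => |c z.1| * (1 / (p:ℝ)) ^ z.1 * (|f' z.2| / (z.2:ℝ)))
      ((fun y : ℕ => ((y.factorization p, y / p ^ y.factorization p) : ℕ × ℕ)) y) := by
    intro y hy
    rw [Finset.mem_Icc] at hy
    have hy0 : y ≠ 0 := by omega
    have e := Nat.ordProj_mul_ordCompl_eq_self y p
    have hnd := Nat.not_dvd_ordCompl hp hy0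
    set i := y.factorization p with hi
    set y' := y / p ^ i with hy'
    have h1 := h i y' hnd
    rw [e] at h1
    show |f y| / (y:ℝ) = |c i| * (1 / (p:ℝ)) ^ i * (|f' y'| / (y':ℝ))
    rw [h1, abs_mul]
    have e2 : (y:ℝ) = (p:ℝ) ^ i * (y':ℝ) := by
      rw [← Nat.cast_pow, ← Nat.cast_mul, e]
    rw [e2, one_div, inv_pow]
    have hp0 : (p:ℝ) ^ i ≠ 0 := pow_ne_zero _ (by exact_mod_cast hp.ne_zero)
    have hy'0 : (y':ℝ) ≠ 0 := by
      intro h0
      have : y' = 0 := by exact_mod_cast h0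
      rw [this, mul_zero] at e
      exact hy0 e.symm
    field_simp
  rw [Finset.sum_congr rfl key, Finset.sum_mul_sum, ← Finset.sum_product']
  have hinj : Set.InjOn (fun y : ℕ => ((y.factorization p, y / p ^ y.factorization p) : ℕ × ℕ))
      (Finset.Icc 1 M : Finset ℕ) := by
    intro y _ y' _ e
    simp only [Prod.mk.injEq] at e
    rw [← Nat.ordProj_mul_ordCompl_eq_self y p, ← Nat.ordProj_mul_ordCompl_eq_self y' p, e.2, e.1]
  rw [← Finset.sum_image (f := fun z : ℕ × ℕ => |c z.1| * (1 / (p:ℝ)) ^ z.1 * (|f' z.2| / (z.2:ℝ))) hinj]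
  refine Finset.sum_le_sum_of_subset_of_nonneg ?_ fun z _ _ => by positivity
  intro z hz
  rw [Finset.mem_image] at hz
  obtain ⟨y, hy, rfl⟩ := hz
  rw [Finset.mem_Icc] at hy
  have hy0 : y ≠ 0 := by omega
  simp only [Finset.mem_product, Finset.mem_range, Finset.mem_Icc]
  refine ⟨?_, ?_, ?_⟩
  · have := Nat.factorization_lt p hy0
    omega
  · exact Nat.pos_of_ne_zero fun h0 => by
      have := Nat.ordProj_mul_ordCompl_eq_self y p
      rw [h0, mul_zero] at this
      exact hy0 this.symm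
  · exact (Nat.div_le_self _ _).trans hy.2

lemma e2e_z {p : ℕ} (hp : p.Prime) : 0 ≤ 1 / (p:ℝ) ∧ 1 / (p:ℝ) < 1 := by
  have h2 : (2:ℝ) ≤ p := by exact_mod_cast hp.two_le
  refine ⟨by positivity, ?_⟩
  rw [div_lt_one (by linarith)]
  linarith

lemma e2e_half {p : ℕ} (hp : p.Prime) (N : ℕ) :
    ∑ i ∈ Finset.range N, dcoef (1/2) i * (1 / (p:ℝ)) ^ i ≤ (1 - 1 / (p:ℝ)) ^ (-(1/2) : ℝ) := by
  obtain ⟨h0, h1⟩ := e2e_z hp
  have := partial_binomial_le' (α := 1/2) (by norm_num) N h0 h1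
  rwa [← Real.rpow_neg (by linarith)] at this

lemma e2e_local {p : ℕ} (hp : p.Prime) {a : ℕ} (ha : 1 ≤ a) (N : ℕ) :
    ∑ i ∈ Finset.range N, |∑ l ∈ Finset.range (i + 1), dcoef (1/2) (i - l) * dcoef (-1/2) (a + l)| * (1 / (p:ℝ)) ^ i ≤ kk p a := by
  obtain ⟨h0, h1⟩ := e2e_z hp
  have hd : ∀ k, 0 ≤ dcoef (1/2) k := fun k => dcoef_nonneg (by norm_num) k
  have step : ∑ i ∈ Finset.range N, |∑ l ∈ Finset.range (i + 1), dcoef (1/2) (i - l) * dcoef (-1/2) (a + l)| * (1 / (p:ℝ)) ^ i ≤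
      ∑ i ∈ Finset.range N, ∑ l ∈ Finset.range (i + 1), (dcoef (1/2) (i - l) * (1 / (p:ℝ)) ^ (i - l)) * (|dcoef (-1/2) (a + l)| * (1 / (p:ℝ)) ^ l) := by
    refine Finset.sum_le_sum fun i _ => ?_
    have h2 : |∑ l ∈ Finset.range (i + 1), dcoef (1/2) (i - l) * dcoef (-1/2) (a + l)| ≤
        ∑ l ∈ Finset.range (i + 1), dcoef (1/2) (i - l) * |dcoef (-1/2) (a + l)| := by
      refine (Finset.abs_sum_le_sum_abs _ _).trans (Finset.sum_le_sum fun l _ => ?_)
      rw [abs_mul, abs_of_nonneg (hd _)]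
    refine (mul_le_mul_of_nonneg_right h2 (pow_nonneg h0 _)).trans ?_
    rw [Finset.sum_mul]
    refine Finset.sum_le_sum fun l hl => le_of_eq ?_
    rw [Finset.mem_range] at hl
    have e : (1 / (p:ℝ)) ^ i = (1 / (p:ℝ)) ^ (i - l) * (1 / (p:ℝ)) ^ l := by
      rw [← pow_add]; congr 1; omega
    rw [e]; ring
  refine step.trans ((e2e_tri (fun k => dcoef (1/2) k * (1 / (p:ℝ)) ^ k) (fun l => |dcoef (-1/2) (a + l)| * (1 / (p:ℝ)) ^ l)
    (fun k => mul_nonneg (hd k) (pow_nonneg h0 _)) (fun l => mul_nonneg (abs_nonneg _) (pow_nonneg h0 _)) N).trans ?_)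
  rw [kk, if_neg (by omega : ¬ a = 0)]
  refine mul_le_mul (e2e_half hp N) ?_ (Finset.sum_nonneg fun l _ => mul_nonneg (abs_nonneg _) (pow_nonneg h0 _))
    (Real.rpow_nonneg (by linarith) _)
  exact ((kk_props hp.two_le).2.2.2.2 a).sum_le_tsum _ fun l _ => mul_nonneg (abs_nonneg _) (pow_nonneg h0 _)

lemma e2e_Cq {p : ℕ} (hp : p.Prime) {q : ℕ} (hq0 : q ≠ 0) (hq : ¬ p ∣ q) {b : ℕ} (hb : 1 ≤ b) :
    Cq (p ^ b * q) = (1 - 1 / (p:ℝ)) ^ (-(1/2) : ℝ) * Cq q := by
  rw [Cq, Cq, Nat.primeFactors_mul (pow_ne_zero _ hp.ne_zero) hq0, Nat.primeFactors_prime_pow (by omega) hp,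
    Finset.singleton_union, Finset.prod_insert]
  intro h
  exact hq (Nat.dvd_of_mem_primeFactors h)

lemma e2e_ee_one : ee 1 1 = 1 := by
  have : cq 1 1 = tau (-1/2) := by
    ext m
    simp only [cq, ArithmeticFunction.coe_mk, Nat.coprime_one_right_eq_true, and_true, one_mul]
    rcases Nat.eq_zero_or_pos m with rfl | hm
    · simp
    · rw [if_pos hm.ne']
  rw [ee, this, tau_mul, ← tau_zero_eq]
  congr 1
  norm_num

/-- ROW E2e. Total mass. PROOF. Same induction: splitting `y = p^i y'`, `∑_{y ≤ M} |ee q (p^a g) y|/y ≤ (∑_i |…|_i p^{-i}) ∑_{y' ≤ M} |ee q g y'|/y'`, and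
`∑_i |∑_{l ≤ i} d_{1/2}(i-l) d_{-1/2}(a+l)| p^{-i} = (1-1/p)^{-1/2} ∑_l |d_{-1/2}(a+l)| p^{-l} = kk p a` (Cauchy product, all `d_{-1/2}(a+l)` have the same sign for `a ≥ 1`, `∑ d_{1/2}(i) z^i = (1-z)^{-1/2}`:
`partial_binomial_le'` gives `≤`). For a prime of `q`: `∑ d_{1/2}(i) p^{-i} ≤ (1-1/p)^{-1/2}`. -/
theorem ee_sum {q g : ℕ} (hq : 1 ≤ q) (hg : 1 ≤ g) (hgq : Nat.Coprime g q) (M : ℕ) :
    ∑ y ∈ Finset.Icc 1 M, |ee q g y| / y ≤ Cq q * kap g := by
  induction g using Nat.strong_induction_on with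
  | _ g ihg =>
  rcases Nat.eq_or_lt_of_le hg with hg1 | hg1
  · -- g = 1
    subst hg1
    have hk1 : kap 1 = 1 := by simp [kap]
    rw [hk1, mul_one]
    clear ihg hg hgq
    induction q using Nat.strong_induction_on with
    | _ q ihq =>
    rcases Nat.eq_or_lt_of_le hq with hq1 | hq1
    · subst hq1
      rw [e2e_ee_one]
      have : Cq 1 = 1 := by simp [Cq]
      rw [this]
      calc ∑ y ∈ Finset.Icc 1 M, |(1 : ArithmeticFunction ℝ) y| / (y:ℝ)
          ≤ ∑ y ∈ Finset.Icc 1 M, if y = 1 then (1:ℝ) else 0 := by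
            refine Finset.sum_le_sum fun y _ => ?_
            rw [ArithmeticFunction.one_apply]
            split_ifs with h
            · subst h; simp
            · simp
        _ ≤ 1 := by
            rw [Finset.sum_ite_eq']
            split_ifs <;> norm_num
    · set p := q.minFac with hpdef
      have hp : p.Prime := Nat.minFac_prime (by omega)
      have hq0 : q ≠ 0 := by omega
      have e := Nat.ordProj_mul_ordCompl_eq_self q p
      have hnd := Nat.not_dvd_ordCompl hp hq0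
      have hb : 1 ≤ q.factorization p :=
        (hp.dvd_iff_one_le_factorization hq0).mp (Nat.minFac_dvd q)
      set b := q.factorization p with hbdef
      set q' := q / p ^ b with hq'
      have hq'0 : q' ≠ 0 := by
        intro h0
        rw [h0, mul_zero] at e
        exact hq0 e.symm
      have hlt : q' < q := Nat.div_lt_self (by omega) (Nat.one_lt_pow (by omega) hp.one_lt)
      have ih := ihq q' hlt (Nat.pos_of_ne_zero hq'0)
      have hpe := e2e_peel hp (fun y => ee q 1 y) (fun y => ee q' 1 y) (fun i => dcoef (1/2) i) (fun i y hy => by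
        have := ee_peel_q hp hnd (fun h => hp.one_lt.ne' (Nat.dvd_one.mp h)) hy b i hb (g := 1)
        rw [e] at this
        exact this) M
      refine hpe.trans ?_
      rw [← e, e2e_Cq hp hq'0 hnd hb]
      refine mul_le_mul ?_ ih (Finset.sum_nonneg fun y _ => by positivity)
        (Real.rpow_nonneg (by linarith [(e2e_z hp).2]) _)
      refine le_trans (le_of_eq (Finset.sum_congr rfl fun i _ => ?_)) (e2e_half hp (M + 1))
      rw [abs_of_nonneg (dcoef_nonneg (by norm_num) i)]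
  · set p := g.minFac with hpdef
    have hp : p.Prime := Nat.minFac_prime (by omega)
    have hg0 : g ≠ 0 := by omega
    have e := Nat.ordProj_mul_ordCompl_eq_self g p
    have hnd := Nat.not_dvd_ordCompl hp hg0
    have ha : 1 ≤ g.factorization p :=
      (hp.dvd_iff_one_le_factorization hg0).mp (Nat.minFac_dvd g)
    have hpg : p ∣ g := Nat.minFac_dvd g
    set a := g.factorization p with hadef
    set g' := g / p ^ a with hg'
    have hg'0 : g' ≠ 0 := by
      intro h0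
      rw [h0, mul_zero] at e
      exact hg0 e.symm
    have hlt : g' < g := Nat.div_lt_self (by omega) (Nat.one_lt_pow (by omega) hp.one_lt)
    have hcop' : Nat.Coprime g' q := Nat.Coprime.coprime_dvd_left ⟨p ^ a, by rw [mul_comm]; exact e.symm⟩ hgq
    have ih := ihg g' hlt (Nat.pos_of_ne_zero hg'0) hcop'
    have hpq : ¬ p ∣ q := fun h => hp.one_lt.ne' (Nat.eq_one_of_dvd_coprimes hgq hpg h)
    have hpe := e2e_peel hp (fun y => ee q g y) (fun y => ee q g' y)
      (fun i => ∑ l ∈ Finset.range (i + 1), dcoef (1/2) (i - l) * dcoef (-1/2) (a + l)) (fun i y hy => by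
        have := ee_peel hp hpq hnd hy a i
        rw [e] at this
        exact this) M
    refine hpe.trans ?_
    have hkap : kap g = kk p a * kap g' := by
      conv_lhs => rw [← e]
      rw [kap_props.2.2.2.1 _ _ ((Nat.coprime_pow_left_iff (by omega) _ _).mpr ((Nat.Prime.coprime_iff_not_dvd hp).mpr hnd)),
        kap_props.2.2.2.2 _ _ hp]
    rw [hkap]
    have h3 : Cq q * (kk p a * kap g') = kk p a * (Cq q * kap g') := by ring
    rw [h3]
    exact mul_le_mul (e2e_local hp ha (M + 1)) ih (Finset.sum_nonneg fun y _ => by positivity)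
      ((kk_props hp.two_le).1 a)

end Pool.Agent.LibOM70
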