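import Pool.Agent.LibOM70B.E1d
import Pool.Agent.LibOM70B.E2a
import Pool.Agent.LibOM70B.E2d
import Pool.Agent.LibOM70B.E2e

/-! ODD MOMENTS, signed route, row E2f. -/

set_option autoImplicit false

namespace Pool.Agent.LibOM70

open MeasureTheory Set Filter Topology Complex ProbabilityTheory
open scoped NNReal ComplexConjugate
open Pool.Agent.LibZM Pool.Agent.LibM3
open Pool.Agent.LibLaw15 hiding Lam

/-- Past the cutoff the logarithm exceeds `1 / δ`. -/
lemma e2f_log {δ : ℝ} (hδ : 0 < δ) {n : ℕ} (hn : MN δ < n) : 1 ≤ δ * Real.log n := by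
  have h1 : Real.exp (1 / δ) < n := (Nat.floor_lt (Real.exp_pos _).le).mp hn
  have h2 : 1 / δ ≤ Real.log n := by
    rw [← Real.log_exp (1 / δ)]
    exact Real.log_le_log (Real.exp_pos _) h1.le
  calc (1:ℝ) = δ * (1 / δ) := by field_simp
    _ ≤ δ * Real.log n := mul_le_mul_of_nonneg_left h2 hδ.le

/-- Dirichlet convolution against a function vanishing past `M`. -/
lemma e2f_conv (a b : ArithmeticFunction ℝ) (G : ℕ → ℝ) (M : ℕ) (hG : ∀ m, M < m → G m = 0) :
    ∑ y ∈ Finset.Icc 1 M, ∑ h ∈ Finset.Icc 1 M, a y * b h * G (y * h) = ∑ m ∈ Finset.Icc 1 M, (a * b) m * G m := by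
  rw [← Finset.sum_product' (f := fun y h => a y * b h * G (y * h))]
  have h1 : ∑ x ∈ Finset.Icc 1 M ×ˢ Finset.Icc 1 M, a x.1 * b x.2 * G (x.1 * x.2) =
      ∑ x ∈ (Finset.Icc 1 M ×ˢ Finset.Icc 1 M).filter (fun x => x.1 * x.2 ∈ Finset.Icc 1 M), a x.1 * b x.2 * G (x.1 * x.2) := by
    symm
    apply Finset.sum_filter_of_ne
    intro x hx hne
    rw [Finset.mem_product, Finset.mem_Icc, Finset.mem_Icc] at hx
    rw [Finset.mem_Icc]
    refine ⟨Nat.mul_pos (by omega) (by omega), ?_⟩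
    by_contra hlt
    exact hne (by rw [hG _ (by omega), mul_zero])
  rw [h1, ← Finset.sum_fiberwise_of_maps_to (g := fun x : ℕ × ℕ => x.1 * x.2) (t := Finset.Icc 1 M)
    (fun x hx => (Finset.mem_filter.mp hx).2)]
  refine Finset.sum_congr rfl fun m hm => ?_
  rw [Finset.mem_Icc] at hm
  rw [ArithmeticFunction.mul_apply, Finset.sum_mul]
  refine Finset.sum_congr ?_ fun x hx => ?_
  · ext ⟨u, v⟩
    simp only [Finset.mem_filter, Finset.mem_product, Finset.mem_Icc, Nat.mem_divisorsAntidiagonal]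
    constructor
    · rintro ⟨_, h⟩
      exact ⟨h, by omega⟩
    · rintro ⟨h, h0⟩
      have hu : 1 ≤ u := Nat.pos_of_ne_zero fun e => by subst e; simp at h; omega
      have hv : 1 ≤ v := Nat.pos_of_ne_zero fun e => by subst e; simp at h; omega
      have hu' : u ≤ m := by rw [← h]; exact Nat.le_mul_of_pos_right u hv
      have hv' : v ≤ m := by rw [← h]; exact Nat.le_mul_of_pos_left v hu
      exact ⟨⟨⟨⟨hu, by omega⟩, ⟨hv, by omega⟩⟩, by omega⟩, h⟩
  · rw [(Nat.mem_divisorsAntidiagonal.mp hx).1]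

/-- ROW E2f. The representation of the sum over multiples of `g`.
PROOF. `h = g m`, `m` coprime to `q`: `Uq = (1/g) ∑_{m ≤ MN δ} cq q g m/m φ(δ log g + δ log m)` (terms with `g m > MN δ` vanish since `φ = 0` on `[1,∞)`), `cq = τ_{-1/2} * ee` (`cq_eq`), and the sum over the cofactor is
`δ^{1/2} vv δ φ (δ log g + δ log y)`. -/
theorem Uq_rep {q g : ℕ} (hg : 1 ≤ g) (hgq : Nat.Coprime g q) {δ : ℝ} (hδ : 0 < δ) {φ : ℝ → ℝ} {B : ℝ} (hφ : Adm 1 B φ) :
    Uq q g (MN δ) δ φ = (1 / (g:ℝ)) * ∑ y ∈ Finset.Icc 1 (MN δ), ee q g y / y *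
      (δ ^ (1/2 : ℝ) * vv δ φ (δ * Real.log g + δ * Real.log y)) := by
  have hg0 : (g:ℝ) ≠ 0 := by exact_mod_cast (by omega : g ≠ 0)
  set M := MN δ with hM
  -- the function of the product
  set G : ℕ → ℝ := fun m => (1 / (m:ℝ)) * φ (δ * Real.log (g * m : ℕ)) with hGdef
  have hG : ∀ m, M < m → G m = 0 := by
    intro m hm
    simp only [hGdef]
    rw [hφ.zero, mul_zero]
    refine e2f_log hδ (lt_of_lt_of_le hm ?_)
    exact Nat.le_mul_of_pos_left m hg
  -- right side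
  have hR : ∀ y ∈ Finset.Icc 1 M, ee q g y / y * (δ ^ (1/2 : ℝ) * vv δ φ (δ * Real.log g + δ * Real.log y)) =
      ∑ h ∈ Finset.Icc 1 M, ee q g y * tau (-1/2) h * G (y * h) := by
    intro y hy
    rw [Finset.mem_Icc] at hy
    rw [vv, ← mul_assoc (δ ^ (1/2 : ℝ)), ← Real.rpow_add hδ]
    have : (1/2 : ℝ) + -(1/2) = 0 := by norm_num
    rw [this, Real.rpow_zero, one_mul, Finset.mul_sum]
    refine Finset.sum_congr rfl fun h hh => ?_
    rw [Finset.mem_Icc] at hh
    simp only [hGdef]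
    have hy0 : (y:ℝ) ≠ 0 := by exact_mod_cast (by omega : y ≠ 0)
    have hh0 : (h:ℝ) ≠ 0 := by exact_mod_cast (by omega : h ≠ 0)
    have e : δ * Real.log ((g * (y * h) : ℕ) : ℝ) = δ * Real.log g + δ * Real.log y + δ * Real.log h := by
      push_cast
      rw [Real.log_mul hg0 (mul_ne_zero hy0 hh0), Real.log_mul hy0 hh0]
      ring
    rw [e]
    push_cast
    field_simp
  rw [Finset.sum_congr rfl hR, e2f_conv _ _ G M hG, mul_comm (ee q g), cq_eq]
  -- left side
  have hL : Uq q g M δ φ = ∑ h ∈ (cs q M).filter (fun h => g ∣ h), tau (-1/2) h / h * φ (δ * Real.log h) := by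
    rw [Uq, Finset.sum_filter]
  set S := (Finset.Icc 1 M).filter (fun m => Nat.Coprime m q ∧ g * m ≤ M) with hS
  have himg : (cs q M).filter (fun h => g ∣ h) = S.image (fun m => g * m) := by
    ext h
    simp only [cs, Finset.mem_filter, Finset.mem_Icc, Finset.mem_image, hS]
    constructor
    · rintro ⟨⟨⟨h1, h2⟩, h3⟩, ⟨m, rfl⟩⟩
      have hm : 1 ≤ m := Nat.pos_of_ne_zero fun e => by subst e; simp at h1
      refine ⟨m, ⟨⟨hm, ?_⟩, ?_, h2⟩, rfl⟩
      · exact (Nat.le_mul_of_pos_left m hg).trans h2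
      · exact Nat.Coprime.coprime_mul_left h3
    · rintro ⟨m, ⟨⟨h1, h2⟩, h3, h4⟩, rfl⟩
      exact ⟨⟨⟨Nat.mul_pos hg h1, h4⟩, Nat.Coprime.mul_left hgq h3⟩, ⟨m, rfl⟩⟩
  rw [hL, himg, Finset.sum_image fun x _ y _ hxy => Nat.eq_of_mul_eq_mul_left hg hxy]
  rw [Finset.mul_sum, ← Finset.sum_subset (Finset.filter_subset _ _ : S ⊆ Finset.Icc 1 M)]
  · refine Finset.sum_congr rfl fun m hm => ?_
    rw [Finset.mem_filter, Finset.mem_Icc] at hm
    have hm0 : m ≠ 0 := by omega
    have hm0' : (m:ℝ) ≠ 0 := by exact_mod_cast hm0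
    have hc : cq q g m = tau (-1/2) (g * m) := by
      simp only [cq, ArithmeticFunction.coe_mk]
      rw [if_pos ⟨hm0, hm.2.1⟩]
    rw [hc]
    simp only [hGdef]
    push_cast
    field_simp
  · intro m hm hmS
    rw [Finset.mem_filter, not_and] at hmS
    have h2 := hmS hm
    by_cases hc : Nat.Coprime m q
    · have hlt : M < g * m := by
        by_contra hle
        exact h2 ⟨hc, by omega⟩
      simp only [hGdef]
      rw [hφ.zero _ (e2f_log hδ hlt)]
      simp
    · have : cq q g m = 0 := by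
        simp only [cq, ArithmeticFunction.coe_mk]
        rw [if_neg fun h => hc h.2]
      rw [this]
      simp

end Pool.Agent.LibOM70
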