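import Pool.Agent.LibOM70B.E1d
import Pool.Agent.LibLaw15.T4
import Pool.Agent.LibOM70.S6

/-! ODD MOMENTS, signed route, row E3. -/

set_option autoImplicit false

namespace Pool.Agent.LibOM70

open MeasureTheory Set Filter Topology Complex ProbabilityTheory
open scoped NNReal ComplexConjugate
open Pool.Agent.LibZM Pool.Agent.LibM3
open Pool.Agent.LibLaw15 hiding Lam

/-- `d_{-1/2}(a+1) = d_{1/2}(a+1) - d_{1/2}(a)`. -/
private lemma e3_diff (a : ℕ) : dcoef (-1/2) (a + 1) = dcoef (1/2) (a + 1) - dcoef (1/2) a := by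
  have key : ∀ n : ℕ, dcoef (-1/2) (n + 1) * (n + 1) = -(1/2) * dcoef (1/2) n := by
    intro n
    induction n with
    | zero =>
      simp only [zero_add, dcoef_one_right, dcoef_zero, Nat.cast_zero]
      norm_num
    | succ n ih =>
      have h1 := dcoef_succ (-1/2) (n + 1)
      have h2 := dcoef_succ (1/2) n
      have hn : ((n:ℝ) + 1) ≠ 0 := by positivity
      push_cast at h1 ⊢
      rw [h1]
      have h3 : dcoef (-1/2) (n + 1) = -(1/2) * dcoef (1/2) n / (n + 1) := by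
        rw [eq_div_iff hn]; exact ih
      have h4 : dcoef (1/2) (n + 1) = (1/2 + n) * dcoef (1/2) n / (n + 1) := by
        rw [eq_div_iff hn]; exact h2
      rw [h3, h4]
      field_simp
      ring
  have hn : ((a:ℝ) + 1) ≠ 0 := by positivity
  have h2 := dcoef_succ (1/2) a
  have h3 : dcoef (-1/2) (a + 1) = -(1/2) * dcoef (1/2) a / (a + 1) := by
    rw [eq_div_iff hn]; exact key a
  have h4 : dcoef (1/2) (a + 1) = (1/2 + a) * dcoef (1/2) a / (a + 1) := by
    rw [eq_div_iff hn]; exact h2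
  rw [h3, h4]
  field_simp
  ring

/-- ROW E3. The local identity. -/
theorem local_id {p : ℕ} (hp : p.Prime) : (Summable fun a : ℕ => (1 - 1 / (p:ℝ)) * (1 / (p:ℝ)) ^ (a + 1) * kk p (a + 1) ^ 2) ∧
    1 + ∑' a : ℕ, (1 - 1 / (p:ℝ)) * (1 / (p:ℝ)) ^ (a + 1) * kk p (a + 1) ^ 2 = Gsum (1/2) (1 / (p:ℝ)) := by
  obtain ⟨hk0, -, hk1, hk1', hks⟩ := kk_props hp.two_le
  have hp2 : (2:ℝ) ≤ p := by exact_mod_cast hp.two_le
  have hp0 : (0:ℝ) < p := by linarith
  set z : ℝ := 1 / (p:ℝ) with hz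
  have hz0 : 0 < z := by positivity
  have hz1 : z ≤ 1/2 := by
    rw [hz]; exact one_div_le_one_div_of_le (by norm_num) hp2
  have hzl : z < 1 := by linarith
  have h1z : 0 < 1 - z := by linarith
  have hD0 : ∀ n, 0 ≤ dcoef (1/2) n := fun n => (abs_nonneg _).trans (dneg.2.2.2.1 n)
  have hD1 : ∀ n, dcoef (1/2) n ≤ 1 := t2_half_le
  have hgeo : Summable fun a : ℕ => z ^ (a + 1) :=
    ((summable_geometric_of_lt_one hz0.le hzl).comp_injective (add_left_injective 1))
  -- summability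
  have hsum : Summable fun a : ℕ => (1 - z) * z ^ (a + 1) * kk p (a + 1) ^ 2 := by
    refine Summable.of_nonneg_of_le (fun a => by positivity) (fun a => ?_) hgeo
    have h2 : kk p (a + 1) ^ 2 ≤ 1 := pow_le_one₀ (hk0 _) (hk1 _)
    have h3 : 0 < z ^ (a + 1) := by positivity
    calc (1 - z) * z ^ (a + 1) * kk p (a + 1) ^ 2 ≤ 1 * z ^ (a + 1) * 1 := by
          gcongr
          linarith
      _ = z ^ (a + 1) := by ring
  refine ⟨hsum, ?_⟩
  -- the series `S`
  set S : ℕ → ℝ := fun a => ∑' i : ℕ, |dcoef (-1/2) (a + 1 + i)| * z ^ i with hS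
  have hkS : ∀ a, kk p (a + 1) = (1 - z) ^ (-(1/2) : ℝ) * S a := by
    intro a
    unfold kk
    rw [if_neg (Nat.succ_ne_zero a)]
  have hsq : ((1 - z) ^ (-(1/2) : ℝ)) ^ 2 * (1 - z) = 1 := by
    rw [← Real.rpow_natCast, ← Real.rpow_mul h1z.le]
    have : (-(1/2) : ℝ) * ((2:ℕ) : ℝ) = -1 := by norm_num
    rw [this, Real.rpow_neg_one]
    exact inv_mul_cancel₀ h1z.ne'
  have hterm : ∀ a, (1 - z) * z ^ (a + 1) * kk p (a + 1) ^ 2 = z ^ (a + 1) * S a ^ 2 := by
    intro a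
    rw [hkS]
    calc (1 - z) * z ^ (a + 1) * ((1 - z) ^ (-(1/2) : ℝ) * S a) ^ 2 =
        (((1 - z) ^ (-(1/2) : ℝ)) ^ 2 * (1 - z)) * (z ^ (a + 1) * S a ^ 2) := by ring
      _ = _ := by rw [hsq, one_mul]
  have hrec : ∀ a, S a = (dcoef (1/2) a - dcoef (1/2) (a + 1)) + z * S (a + 1) := by
    intro a
    have h1 := (hks (a + 1)).tsum_eq_zero_add
    have h2 : |dcoef (-1/2) (a + 1)| = dcoef (1/2) a - dcoef (1/2) (a + 1) := by
      rw [abs_of_neg (dneg.2.1 a), e3_diff]; ring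
    simp only [hS]
    rw [h1, add_zero, pow_zero, mul_one, h2, ← tsum_mul_left]
    congr 1
    refine tsum_congr fun i => ?_
    rw [pow_succ, show a + 1 + (i + 1) = a + 1 + 1 + i by ring]
    ring
  -- the start value
  have hS0 : 1 - 2 * S 0 + z * S 0 ^ 2 = 0 := by
    have h1 : (1 - z) ^ (-(1/2) : ℝ) * S 0 = p * ((1 - z) ^ (-(1/2) : ℝ) - 1) := by
      rw [← hkS 0, ← hk1']
    have hpz : (p:ℝ) * z = 1 := by rw [hz]; field_simp
    set q : ℝ := (1 - z) ^ (-(1/2) : ℝ) with hq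
    have hq0 : 0 < q := Real.rpow_pos_of_pos h1z _
    have h2 : z * (q * S 0) = q - 1 := by
      rw [h1, ← mul_assoc, mul_comm z, hpz, one_mul]
    -- q² (1 - 2 S + z S²) z = q² z - 2 q (q-1) + (q-1)² = q² z - q² + 1 = 0
    have h3 : q ^ 2 * z * (1 - 2 * S 0 + z * S 0 ^ 2) = 0 := by
      have e : q ^ 2 * z * (1 - 2 * S 0 + z * S 0 ^ 2) = q ^ 2 * z - 2 * q * (z * (q * S 0)) + (z * (q * S 0)) ^ 2 := by ring
      rw [e, h2]
      have : q ^ 2 * z - 2 * q * (q - 1) + (q - 1) ^ 2 = 1 - q ^ 2 * (1 - z) := by ring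
      rw [this, hsq]; ring
    have h4 : q ^ 2 * z ≠ 0 := by positivity
    exact (mul_eq_zero.mp h3).resolve_left h4
  set R : ℕ → ℝ := fun N => z ^ (N + 1) * (dcoef (1/2) N ^ 2 - 2 * dcoef (1/2) N * S N + z * S N ^ 2) with hR
  have htel : ∀ N, (1 - z) * ∑ a ∈ Finset.range N, z ^ (a + 1) * S a ^ 2 =
      (1 - z) * ∑ a ∈ Finset.range N, z ^ (a + 1) * dcoef (1/2) (a + 1) ^ 2 + R N := by
    intro N
    induction N with
    | zero =>
      simp only [Finset.range_zero, Finset.sum_empty, mul_zero, zero_add, hR]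
      rw [dcoef_zero]
      have : (1:ℝ) ^ 2 - 2 * 1 * S 0 + z * S 0 ^ 2 = 1 - 2 * S 0 + z * S 0 ^ 2 := by ring
      rw [this, hS0, mul_zero]
    | succ N ih =>
      rw [Finset.sum_range_succ, Finset.sum_range_succ, mul_add, mul_add, ih]
      have h1 : z * S (N + 1) = S N - (dcoef (1/2) N - dcoef (1/2) (N + 1)) := by rw [hrec N]; ring
      have h2 : R (N + 1) = z ^ (N + 1) * (z * dcoef (1/2) (N + 1) ^ 2 - 2 * dcoef (1/2) (N + 1) * (z * S (N + 1)) + (z * S (N + 1)) ^ 2) := by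
        simp only [hR]
        rw [pow_succ z (N + 1)]
        ring
      rw [h2, h1]
      simp only [hR]
      ring
  -- limits
  have hSb : ∀ a, 0 ≤ S a ∧ S a ≤ 2 := by
    intro a
    have h1 := hk1 (a + 1)
    have h0 := hk0 (a + 1)
    rw [hkS] at h1 h0
    have hq1 : 1 ≤ (1 - z) ^ (-(1/2) : ℝ) := Real.one_le_rpow_of_pos_of_le_one_of_nonpos h1z (by linarith) (by norm_num)
    have hS0' : 0 ≤ S a := by
      simp only [hS]
      exact tsum_nonneg fun i => by positivity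
    exact ⟨hS0', by nlinarith⟩
  have hR0 : Tendsto R atTop (𝓝 0) := by
    have hg : Tendsto (fun N : ℕ => z ^ (N + 1) * 10) atTop (𝓝 0) := by
      have := ((tendsto_pow_atTop_nhds_zero_of_lt_one hz0.le hzl).comp (tendsto_add_atTop_nat 1)).mul_const 10
      simpa using this
    refine squeeze_zero_norm (fun N => ?_) hg
    rw [Real.norm_eq_abs, abs_mul, abs_of_pos (by positivity : 0 < z ^ (N + 1))]
    refine mul_le_mul_of_nonneg_left ?_ (by positivity)
    obtain ⟨a1, a2⟩ := hSb N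
    have b1 := hD0 N
    have b2 := hD1 N
    have c1 : dcoef (1/2) N ^ 2 ≤ 1 := pow_le_one₀ b1 b2
    have c2 : dcoef (1/2) N * S N ≤ 1 * 2 := mul_le_mul b2 a2 a1 zero_le_one
    have c3 : 0 ≤ dcoef (1/2) N * S N := mul_nonneg b1 a1
    have c4 : S N ^ 2 ≤ 4 := by nlinarith
    have c5 : z * S N ^ 2 ≤ 1 * 4 := mul_le_mul hzl.le c4 (sq_nonneg _) zero_le_one
    have c6 : 0 ≤ z * S N ^ 2 := by positivity
    have c7 : 0 ≤ dcoef (1/2) N ^ 2 := sq_nonneg _
    rw [abs_le]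
    constructor <;> nlinarith
  have hsumV : Summable fun a : ℕ => z ^ (a + 1) * S a ^ 2 := hsum.congr fun a => hterm a
  have hsumG : Summable fun a : ℕ => dcoef (1/2) a ^ 2 * z ^ a := by
    refine Summable.of_nonneg_of_le (fun a => by positivity) (fun a => ?_) (summable_geometric_of_lt_one hz0.le hzl)
    calc dcoef (1/2) a ^ 2 * z ^ a ≤ 1 * z ^ a := by
          gcongr
          exact pow_le_one₀ (hD0 a) (hD1 a)
      _ = z ^ a := one_mul _
  have hsumG1 : Summable fun a : ℕ => z ^ (a + 1) * dcoef (1/2) (a + 1) ^ 2 := by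
    have := (summable_nat_add_iff 1).2 hsumG
    exact this.congr fun a => by ring
  have l1 := (hsumV.hasSum.tendsto_sum_nat).const_mul (1 - z)
  have l2 := ((hsumG1.hasSum.tendsto_sum_nat).const_mul (1 - z)).add hR0
  have heq := tendsto_nhds_unique l1 (l2.congr fun N => (htel N).symm)
  rw [add_zero] at heq
  have heq' := mul_left_cancel₀ h1z.ne' heq
  have hG : Gsum (1/2) z = 1 + ∑' a : ℕ, z ^ (a + 1) * dcoef (1/2) (a + 1) ^ 2 := by
    unfold Gsum
    rw [hsumG.tsum_eq_zero_add, dcoef_zero]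
    congr 1
    · norm_num
    · exact tsum_congr fun a => by ring
  rw [hG, ← heq']
  congr 1
  exact tsum_congr fun a => hterm a

end Pool.Agent.LibOM70
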