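import Pool.Agent.LibOM70B.E3
import Pool.Agent.LibZM.Asymp2

/-! ODD MOMENTS, signed route, row E4. -/

set_option autoImplicit false

namespace Pool.Agent.LibOM70

open MeasureTheory Set Filter Topology Complex ProbabilityTheory
open scoped NNReal ComplexConjugate
open Pool.Agent.LibZM Pool.Agent.LibM3
open Pool.Agent.LibLaw15 hiding Lam

/-- local coefficients of the weight -/
noncomputable def e4c (p a : ℕ) : ℝ := if a = 0 then 1 else (1 - 1 / (p:ℝ)) * kk p a ^ 2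

/-- local factor of the weight -/
noncomputable def e4W (p : ℕ) (x : ℝ) : ℝ := ∑' a : ℕ, e4c p a * x ^ a

lemma e4_inv {p : ℕ} (hp : 2 ≤ p) : 0 ≤ 1 - 1 / (p:ℝ) ∧ 1 - 1 / (p:ℝ) ≤ 1 ∧ 1 / (p:ℝ) ≤ 1 / 2 ∧
    0 < 1 / (p:ℝ) := by
  have hp2 : (2:ℝ) ≤ p := by exact_mod_cast hp
  have h1 : 1 / (p:ℝ) ≤ 1 / 2 := one_div_le_one_div_of_le (by norm_num) hp2
  have h2 : 0 < 1 / (p:ℝ) := by positivity
  exact ⟨by linarith, by linarith, h1, h2⟩

lemma e4c_nonneg {p : ℕ} (hp : 2 ≤ p) (a : ℕ) : 0 ≤ e4c p a := by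
  unfold e4c
  split_ifs
  · exact zero_le_one
  · exact mul_nonneg (e4_inv hp).1 (sq_nonneg _)

lemma e4c_le_one {p : ℕ} (hp : 2 ≤ p) (a : ℕ) : e4c p a ≤ 1 := by
  unfold e4c
  split_ifs
  · exact le_rfl
  · obtain ⟨h0, -, h1, -⟩ := kk_props hp
    have h2 : kk p a ^ 2 ≤ 1 := pow_le_one₀ (h0 a) (h1 a)
    exact mul_le_one₀ (e4_inv hp).2.1 (sq_nonneg _) h2

lemma e4c_summable {p : ℕ} (hp : 2 ≤ p) {x : ℝ} (h0 : 0 ≤ x) (h1 : x < 1) :
    Summable fun a : ℕ => e4c p a * x ^ a :=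
  Summable.of_nonneg_of_le (fun a => mul_nonneg (e4c_nonneg hp a) (pow_nonneg h0 a))
    (fun a => mul_le_of_le_one_left (pow_nonneg h0 a) (e4c_le_one hp a))
    (summable_geometric_of_lt_one h0 h1)

lemma e4W_one_le {p : ℕ} (hp : 2 ≤ p) {x : ℝ} (h0 : 0 ≤ x) (h1 : x < 1) : 1 ≤ e4W p x := by
  have h := (e4c_summable hp h0 h1).sum_le_tsum {0}
    (fun a _ => mul_nonneg (e4c_nonneg hp a) (pow_nonneg h0 a))
  rw [Finset.sum_singleton, pow_zero, mul_one] at h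
  unfold e4W
  have h2 : e4c p 0 = 1 := by unfold e4c; rw [if_pos rfl]
  rwa [h2] at h

lemma e4_d_le (a : ℕ) : 0 ≤ dcoef (1/2) a ^ 2 ∧ dcoef (1/2) a ^ 2 ≤ 1 := by
  refine ⟨sq_nonneg _, pow_le_one₀ (dcoef_nonneg (by norm_num) a) ?_⟩
  have := dcoef_mono (α := 1/2) (β := 1) (by norm_num) (by norm_num) a
  rwa [dcoef_one_left] at this

lemma e4_G_summable {x : ℝ} (h0 : 0 ≤ x) (h1 : x < 1) :
    Summable fun a : ℕ => dcoef (1/2) a ^ 2 * x ^ a :=
  Summable.of_nonneg_of_le (fun a => mul_nonneg (e4_d_le a).1 (pow_nonneg h0 a))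
    (fun a => mul_le_of_le_one_left (pow_nonneg h0 a) (e4_d_le a).2)
    (summable_geometric_of_lt_one h0 h1)

lemma e4_G_one_le {x : ℝ} (h0 : 0 ≤ x) (h1 : x < 1) : 1 ≤ Gsum (1/2) x := by
  have h := (e4_G_summable h0 h1).sum_le_tsum {0}
    (fun a _ => mul_nonneg (e4_d_le a).1 (pow_nonneg h0 a))
  rw [Finset.sum_singleton, pow_zero, mul_one] at h
  unfold Gsum
  have h2 : dcoef (1/2) 0 = 1 := by simp [dcoef]
  rwa [h2, one_pow] at h

/-- the first coefficient is `1/4 + O(1/p)` -/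
lemma e4c_one {p : ℕ} (hp : 2 ≤ p) : |e4c p 1 - 1 / 4| ≤ 1 / (p:ℝ) := by
  obtain ⟨i1, i2, i3, i4⟩ := e4_inv hp
  have hp0 : (0:ℝ) < p := by
    have : 0 < p := by omega
    exact_mod_cast this
  have hk := (kk_props hp).2.2.2.1
  obtain ⟨t, ht⟩ : ∃ t : ℝ, t = 1 - 1 / (p:ℝ) := ⟨_, rfl⟩
  have htpos : 0 < t := by rw [ht]; linarith
  obtain ⟨u, hu⟩ : ∃ u : ℝ, u = √t := ⟨_, rfl⟩
  have hupos : 0 < u := by rw [hu]; exact Real.sqrt_pos.2 htpos
  have huu : u * u = t := by rw [hu]; exact Real.mul_self_sqrt htpos.le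
  have hu1 : u ≤ 1 := by
    rw [hu, Real.sqrt_le_one]
    linarith
  have hrp : t ^ (-(1/2) : ℝ) = u⁻¹ := by
    rw [Real.rpow_neg htpos.le, ← Real.sqrt_eq_rpow, hu]
  have hpu : (p:ℝ) * (1 - u) * (1 + u) = 1 := by
    have h1 : (1 - u) * (1 + u) = 1 / (p:ℝ) := by
      have : (1 - u) * (1 + u) = 1 - u * u := by ring
      rw [this, huu, ht]; ring
    rw [mul_assoc, h1]
    field_simp
  have hval : e4c p 1 = 1 / (1 + u) ^ 2 := by
    unfold e4c
    rw [if_neg one_ne_zero, hk, ← ht, hrp, ← huu]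
    have h2 : (p:ℝ) * (u⁻¹ - 1) = p * (1 - u) / u := by field_simp
    rw [h2]
    have h3 : (p:ℝ) * (1 - u) = 1 / (1 + u) := by
      rw [eq_div_iff (by positivity)]
      exact hpu
    rw [h3]
    field_simp
  have hinv : 1 / (p:ℝ) = (1 - u) * (1 + u) := by
    have : (1 - u) * (1 + u) = 1 - u * u := by ring
    rw [this, huu, ht]; ring
  rw [hval, hinv]
  have h5 : 1 / (1 + u) ^ 2 - 1 / 4 = (1 - u) * (3 + u) / (4 * (1 + u) ^ 2) := by
    field_simp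
    ring
  rw [h5, abs_of_nonneg (div_nonneg (mul_nonneg (by linarith) (by linarith)) (by positivity)),
    div_le_iff₀ (by positivity)]
  have h6 : 3 + u ≤ (1 + u) * (4 * (1 + u) ^ 2) := by
    have h7 : 1 ≤ (1 + u) ^ 2 := one_le_pow₀ (by linarith)
    nlinarith
  have h8 : (1 - u) * (3 + u) ≤ (1 - u) * ((1 + u) * (4 * (1 + u) ^ 2)) :=
    mul_le_mul_of_nonneg_left h6 (by linarith)
  linarith

/-- comparison of the local factors -/
lemma e4_diff {p : ℕ} (hp : 2 ≤ p) {x : ℝ} (h0 : 0 ≤ x) (h1 : x ≤ 1 / 2) :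
    |e4W p x - Gsum (1/2) x| ≤ x / p + 2 * x ^ 2 := by
  have hx1 : x < 1 := by linarith
  have hs1 := e4c_summable hp h0 hx1
  have hs2 := e4_G_summable h0 hx1
  have hs : Summable fun a : ℕ => (e4c p a - dcoef (1/2) a ^ 2) * x ^ a := by
    refine (hs1.sub hs2).congr fun a => ?_
    ring
  have heq : e4W p x - Gsum (1/2) x = ∑' a : ℕ, (e4c p a - dcoef (1/2) a ^ 2) * x ^ a := by
    unfold e4W Gsum
    rw [← hs1.tsum_sub hs2]
    congr 1
    funext a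
    ring
  have hsplit := hs.sum_add_tsum_nat_add 2
  rw [heq, ← hsplit, Finset.sum_range_succ, Finset.sum_range_one]
  have hd0 : dcoef (1/2) 0 = 1 := by simp [dcoef]
  have hd1 : dcoef (1/2) 1 = 1 / 2 := by simp [dcoef]
  have hc0 : e4c p 0 = 1 := by unfold e4c; rw [if_pos rfl]
  rw [hd0, hd1, hc0]
  have hgeo : Summable fun a : ℕ => x ^ (a + 2) := by
    have := (summable_geometric_of_lt_one h0 hx1).mul_right (x ^ 2)
    refine this.congr fun a => ?_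
    rw [pow_add]
  have htail : |∑' a : ℕ, (e4c p (a + 2) - dcoef (1/2) (a + 2) ^ 2) * x ^ (a + 2)| ≤
      ∑' a : ℕ, x ^ (a + 2) := by
    rw [← Real.norm_eq_abs]
    refine tsum_of_norm_bounded hgeo.hasSum fun a => ?_
    rw [Real.norm_eq_abs, abs_mul, abs_of_nonneg (pow_nonneg h0 (a + 2))]
    refine mul_le_of_le_one_left (pow_nonneg h0 _) ?_
    have a1 := e4c_nonneg hp (a + 2)
    have a2 := e4c_le_one hp (a + 2)
    obtain ⟨a3, a4⟩ := e4_d_le (a + 2)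
    rw [abs_le]
    constructor <;> linarith
  have hgv : ∑' a : ℕ, x ^ (a + 2) ≤ 2 * x ^ 2 := by
    have e1 : ∑' a : ℕ, x ^ (a + 2) = (1 - x)⁻¹ * x ^ 2 := by
      rw [← tsum_geometric_of_lt_one h0 hx1, ← tsum_mul_right]
      congr 1
      funext a
      rw [pow_add]
    rw [e1]
    refine mul_le_mul_of_nonneg_right ?_ (sq_nonneg x)
    rw [inv_le_comm₀ (by linarith) (by norm_num)]
    linarith
  have hfirst : |(e4c p 1 - (1/2) ^ 2) * x ^ 1| ≤ x / p := by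
    rw [pow_one, abs_mul, abs_of_nonneg h0]
    have h2 := e4c_one hp
    have h3 : ((1:ℝ)/2) ^ 2 = 1 / 4 := by norm_num
    rw [h3]
    calc |e4c p 1 - 1 / 4| * x ≤ (1 / (p:ℝ)) * x := mul_le_mul_of_nonneg_right h2 h0
      _ = x / p := by ring
  calc |(1 - 1 ^ 2) * x ^ 0 + (e4c p 1 - (1/2) ^ 2) * x ^ 1 +
        ∑' a : ℕ, (e4c p (a + 2) - dcoef (1/2) (a + 2) ^ 2) * x ^ (a + 2)|
      = |(e4c p 1 - (1/2) ^ 2) * x ^ 1 +
        ∑' a : ℕ, (e4c p (a + 2) - dcoef (1/2) (a + 2) ^ 2) * x ^ (a + 2)| := by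
        congr 1
        ring
    _ ≤ |(e4c p 1 - (1/2) ^ 2) * x ^ 1| +
        |∑' a : ℕ, (e4c p (a + 2) - dcoef (1/2) (a + 2) ^ 2) * x ^ (a + 2)| := abs_add_le _ _
    _ ≤ x / p + 2 * x ^ 2 := add_le_add hfirst (htail.trans hgv)

lemma e4_log_diff {a b : ℝ} (ha : 1 ≤ a) (hb : 1 ≤ b) : |Real.log a - Real.log b| ≤ |a - b| := by
  have ha0 : 0 < a := by linarith
  have hb0 : 0 < b := by linarith
  have key : ∀ a b : ℝ, 1 ≤ a → 1 ≤ b → Real.log a - Real.log b ≤ |a - b| := by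
    intro a b ha hb
    have ha0 : 0 < a := by linarith
    have hb0 : 0 < b := by linarith
    rw [← Real.log_div ha0.ne' hb0.ne']
    have h1 := Real.log_le_sub_one_of_pos (div_pos ha0 hb0)
    have h2 : a / b - 1 = (a - b) / b := by field_simp
    have h3 : (a - b) / b ≤ |a - b| := by
      rw [div_le_iff₀ hb0]
      have h4 := le_abs_self (a - b)
      have h5 := abs_nonneg (a - b)
      nlinarith
    linarith
  rw [abs_le]
  constructor
  · have := key b a hb ha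
    rw [abs_sub_comm] at this
    linarith
  · exact key a b ha hb

lemma e4_log_bound {s : ℝ} (hs : 0 ≤ s) (p : Nat.Primes) :
    |Real.log (e4W p ((p:ℝ) ^ (-(1+s)))) - Real.log (Gsum (1/2) ((p:ℝ) ^ (-(1+s))))| ≤
      3 * (p:ℝ) ^ (-2:ℝ) := by
  obtain ⟨h0, h1, h2⟩ := prime_rpow_mem (by linarith : (1:ℝ) ≤ 1 + s) p
  have hp2 := p.prop.two_le
  refine (e4_log_diff (e4W_one_le hp2 h0.le (by linarith)) (e4_G_one_le h0.le (by linarith))).trans
    ((e4_diff hp2 h0.le h1).trans ?_)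
  have hp0 : (0:ℝ) < p := by exact_mod_cast p.prop.pos
  have e1 : (p:ℝ) ^ (-2:ℝ) = (1 / (p:ℝ)) ^ 2 := by
    rw [Real.rpow_neg hp0.le, one_div, inv_pow]
    congr 1
    exact_mod_cast Real.rpow_natCast (p:ℝ) 2
  have e2 : (p:ℝ) ^ (-(1:ℝ)) = 1 / (p:ℝ) := by rw [Real.rpow_neg_one, one_div]
  rw [e2] at h2
  rw [e1]
  have h3 : 0 < 1 / (p:ℝ) := by positivity
  calc (p:ℝ) ^ (-(1+s)) / p + 2 * ((p:ℝ) ^ (-(1+s))) ^ 2
      = (p:ℝ) ^ (-(1+s)) * (1 / (p:ℝ)) + 2 * ((p:ℝ) ^ (-(1+s))) ^ 2 := by ring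
    _ ≤ (1 / (p:ℝ)) * (1 / (p:ℝ)) + 2 * (1 / (p:ℝ)) ^ 2 := by
        refine add_le_add (mul_le_mul_of_nonneg_right h2 h3.le) ?_
        exact mul_le_mul_of_nonneg_left (pow_le_pow_left₀ h0.le h2 2) (by norm_num)
    _ = 3 * (1 / (p:ℝ)) ^ 2 := by ring

lemma e4W_cont {p : ℕ} (hp : 2 ≤ p) : ContinuousOn (e4W p) (Set.Icc 0 (1/2)) := by
  have hfun : e4W p = fun x => ∑' a : ℕ, e4c p a * x ^ a := rfl
  rw [hfun]
  refine continuousOn_tsum (u := fun a : ℕ => ((1:ℝ)/2) ^ a)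
    (fun a => (continuous_const.mul (continuous_pow a)).continuousOn)
    (summable_geometric_of_lt_one (by norm_num) (by norm_num)) (fun a x hx => ?_)
  rw [Real.norm_eq_abs, abs_mul, abs_of_nonneg (e4c_nonneg hp a), abs_of_nonneg (pow_nonneg hx.1 a)]
  calc e4c p a * x ^ a ≤ 1 * x ^ a :=
        mul_le_mul_of_nonneg_right (e4c_le_one hp a) (pow_nonneg hx.1 a)
    _ ≤ (1/2) ^ a := by rw [one_mul]; exact pow_le_pow_left₀ hx.1 hx.2 a

lemma e4W_zero {p : ℕ} (hp : p.Prime) : e4W p ((p:ℝ) ^ (-(1:ℝ))) = Gsum (1/2) ((p:ℝ) ^ (-(1:ℝ))) := by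
  have hp2 := hp.two_le
  obtain ⟨i1, i2, i3, i4⟩ := e4_inv hp2
  rw [Real.rpow_neg_one, ← one_div, ← (local_id hp).2]
  unfold e4W
  rw [(e4c_summable hp2 i4.le (by linarith)).tsum_eq_zero_add]
  have hc0 : e4c p 0 = 1 := by unfold e4c; rw [if_pos rfl]
  rw [hc0, pow_zero, one_mul]
  congr 1
  refine tsum_congr fun a => ?_
  unfold e4c
  rw [if_neg (Nat.succ_ne_zero a)]
  ring

lemma ww_one : ww 1 = 1 := by
  have h : kap 1 = 1 := by unfold kap; simp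
  unfold ww
  rw [h]
  simp

lemma ww_mul {m n : ℕ} (h : Nat.Coprime m n) : ww (m * n) = ww m * ww n := by
  unfold ww
  rw [kap_props.2.2.2.1 m n h, Nat.totient_mul h]
  push_cast
  by_cases hm : (m:ℝ) = 0
  · rw [hm]; simp
  by_cases hn : (n:ℝ) = 0
  · rw [hn]; simp
  field_simp

lemma ww_le (g : ℕ) (hg : 1 ≤ g) : ww g ≤ (g:ℝ) ^ (-(1:ℝ)) := by
  unfold ww
  have hg0 : (0:ℝ) < g := by exact_mod_cast hg
  have h1 := kap_props.1 g
  have h2 := kap_props.2.1 g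
  have h3 : (Nat.totient g : ℝ) ≤ g := by exact_mod_cast Nat.totient_le g
  have h4 : (kap g / g) ^ 2 ≤ (1 / (g:ℝ)) ^ 2 := by
    refine pow_le_pow_left₀ (div_nonneg h1 hg0.le) ?_ 2
    exact div_le_div_of_nonneg_right h2 hg0.le
  calc (Nat.totient g : ℝ) * (kap g / g) ^ 2 ≤ g * (1 / (g:ℝ)) ^ 2 :=
        mul_le_mul h3 h4 (sq_nonneg _) hg0.le
    _ = (g:ℝ) ^ (-(1:ℝ)) := by
      rw [Real.rpow_neg_one]
      field_simp

lemma ww_zero : ww 0 = 0 := by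
  unfold ww
  simp

lemma ww_nonneg (g : ℕ) : 0 ≤ ww g := by
  unfold ww
  exact mul_nonneg (Nat.cast_nonneg _) (sq_nonneg _)

lemma ww_prime_pow {p : ℕ} (hp : p.Prime) (a : ℕ) : ww (p ^ a) = e4c p a * (1 / (p:ℝ)) ^ a := by
  have hp0 : (0:ℝ) < p := by exact_mod_cast hp.pos
  rcases Nat.eq_zero_or_pos a with h | h
  · subst h
    have hc0 : e4c p 0 = 1 := by unfold e4c; rw [if_pos rfl]
    rw [pow_zero, ww_one, hc0]
    simp
  · have hphi : (Nat.totient (p ^ a) : ℝ) = (p:ℝ) ^ a * (1 - 1 / (p:ℝ)) := by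
      rw [Nat.totient_prime_pow hp h]
      have h1 : ((p - 1 : ℕ) : ℝ) = (p:ℝ) - 1 := by
        rw [Nat.cast_sub hp.one_le]; simp
      push_cast
      rw [h1]
      have h2 : (p:ℝ) ^ a = (p:ℝ) ^ (a - 1) * p := by
        rw [← pow_succ]; congr 1; omega
      rw [h2]
      field_simp
    unfold ww e4c
    rw [if_neg (by omega), kap_props.2.2.2.2 p a hp, hphi]
    push_cast
    rw [div_pow, one_div_pow]
    field_simp

lemma ww_summable {s : ℝ} (hs : 0 < s) : Summable fun g : ℕ => ww g * (g:ℝ) ^ (-s) := by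
  refine Summable.of_nonneg_of_le (fun g => mul_nonneg (ww_nonneg g) (by positivity)) (fun g => ?_)
    (summable_nat_rpow_neg (by linarith : 1 < 1 + s))
  rcases Nat.eq_zero_or_pos g with h | h
  · subst h
    rw [ww_zero, zero_mul]
    positivity
  · have hg0 : (0:ℝ) < g := by exact_mod_cast h
    calc ww g * (g:ℝ) ^ (-s) ≤ (g:ℝ) ^ (-(1:ℝ)) * (g:ℝ) ^ (-s) :=
          mul_le_mul_of_nonneg_right (ww_le g h) (by positivity)
      _ = (g:ℝ) ^ (-(1 + s)) := by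
        rw [← Real.rpow_add hg0]
        congr 1
        ring

/-- Euler product for the weight -/
lemma ww_hasProd {s : ℝ} (hs : 0 < s) :
    HasProd (fun p : Nat.Primes => e4W p ((p:ℝ) ^ (-(1+s)))) (∑' g : ℕ, ww g * (g:ℝ) ^ (-s)) := by
  have h := EulerProduct.eulerProduct_hasProd (R := ℝ) (f := fun g : ℕ => ww g * (g:ℝ) ^ (-s))
    (by simp [ww_one])
    (by
      intro m n hmn
      rw [ww_mul hmn]
      push_cast
      rw [Real.mul_rpow (Nat.cast_nonneg _) (Nat.cast_nonneg _)]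
      ring)
    (by
      have := ww_summable hs
      exact this.norm)
    (by simp [ww_zero])
  have e : (fun p : Nat.Primes => e4W p ((p:ℝ) ^ (-(1+s)))) =
      fun p : Nat.Primes => ∑' e : ℕ, ww ((p:ℕ) ^ e) * (((p:ℕ) ^ e : ℕ) : ℝ) ^ (-s) := by
    funext p
    have hp0 : (0:ℝ) < p := by exact_mod_cast p.prop.pos
    unfold e4W
    refine tsum_congr fun a => ?_
    rw [ww_prime_pow p.prop, mul_assoc]
    congr 1
    push_cast
    rw [← Real.rpow_natCast ((p:ℝ) ^ (-(1+s))) a, ← Real.rpow_mul hp0.le, one_div, ← Real.rpow_neg_one,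
      ← Real.rpow_natCast ((p:ℝ) ^ (-1:ℝ)) a, ← Real.rpow_mul hp0.le, ← Real.rpow_natCast (p:ℝ) a,
      ← Real.rpow_mul hp0.le, ← Real.rpow_add hp0]
    congr 1
    ring
  rw [e]
  exact h

lemma ww_eq_mul {s : ℝ} (hs : 0 < s) :
    ∑' g : ℕ, ww g * (g:ℝ) ^ (-s) = (∑' n : ℕ, tau (1/2) n ^ 2 * (n:ℝ) ^ (-(1+s))) *
      Real.exp (∑' p : Nat.Primes, (Real.log (e4W p ((p:ℝ) ^ (-(1+s)))) -
        Real.log (Gsum (1/2) ((p:ℝ) ^ (-(1+s)))))) := by
  have h1 := ww_hasProd hs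
  have h2 := hasProd_tau_sq (κ := 1/2) (by norm_num) (by linarith : (1:ℝ) < 1 + s)
  have hsumm : Summable fun p : Nat.Primes => 3 * (p:ℝ) ^ (-2:ℝ) :=
    (Nat.Primes.summable_rpow.mpr (by norm_num)).mul_left _
  have h3 : HasProd (fun p : Nat.Primes => e4W p ((p:ℝ) ^ (-(1+s))) / Gsum (1/2) ((p:ℝ) ^ (-(1+s))))
      (Real.exp (∑' p : Nat.Primes, (Real.log (e4W p ((p:ℝ) ^ (-(1+s)))) -
        Real.log (Gsum (1/2) ((p:ℝ) ^ (-(1+s))))))) := by
    have hlog : ∀ p : Nat.Primes,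
        Real.log (e4W p ((p:ℝ) ^ (-(1+s))) / Gsum (1/2) ((p:ℝ) ^ (-(1+s)))) =
        Real.log (e4W p ((p:ℝ) ^ (-(1+s)))) - Real.log (Gsum (1/2) ((p:ℝ) ^ (-(1+s)))) := by
      intro p
      obtain ⟨h0, h1, h2⟩ := prime_rpow_mem (by linarith : (1:ℝ) ≤ 1 + s) p
      have a1 := e4W_one_le p.prop.two_le h0.le (by linarith)
      have a2 := e4_G_one_le h0.le (by linarith : (p:ℝ) ^ (-(1+s)) < 1)
      exact Real.log_div (by linarith) (by linarith)
    apply Real.hasProd_of_hasSum_log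
    · intro p
      obtain ⟨h0, h1, h2⟩ := prime_rpow_mem (by linarith : (1:ℝ) ≤ 1 + s) p
      have a1 := e4W_one_le p.prop.two_le h0.le (by linarith)
      have a2 := e4_G_one_le h0.le (by linarith : (p:ℝ) ^ (-(1+s)) < 1)
      exact div_pos (by linarith) (by linarith)
    · have : (fun p : Nat.Primes => Real.log (e4W p ((p:ℝ) ^ (-(1+s))) /
          Gsum (1/2) ((p:ℝ) ^ (-(1+s))))) = fun p : Nat.Primes =>
          Real.log (e4W p ((p:ℝ) ^ (-(1+s)))) - Real.log (Gsum (1/2) ((p:ℝ) ^ (-(1+s)))) :=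
        funext hlog
      rw [this]
      refine Summable.hasSum (Summable.of_norm_bounded hsumm fun p => ?_)
      rw [Real.norm_eq_abs]
      exact e4_log_bound hs.le p
  have h4 := h2.mul h3
  have e : (fun p : Nat.Primes => Gsum (1/2) ((p:ℝ) ^ (-(1+s))) *
      (e4W p ((p:ℝ) ^ (-(1+s))) / Gsum (1/2) ((p:ℝ) ^ (-(1+s))))) =
      fun p : Nat.Primes => e4W p ((p:ℝ) ^ (-(1+s))) := by
    funext p
    obtain ⟨h0, h1, h2⟩ := prime_rpow_mem (by linarith : (1:ℝ) ≤ 1 + s) p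
    have a2 := e4_G_one_le h0.le (by linarith : (p:ℝ) ^ (-(1+s)) < 1)
    exact mul_div_cancel₀ _ (by linarith)
  rw [e] at h4
  exact h1.unique h4

/-- ROW E4. The Dirichlet series of the weight `ww g = φ(g) kap(g)²/g²`.
PROOF. `ww` is multiplicative (`kap_props`, totient). Local factor at `p` for `s > 0`: `W_p(s) = 1 + ∑_{a ≥ 1} (1-1/p) p^{-a(1+s)} kk p a ^ 2` (`φ(p^a) = p^a (1-1/p)`). Compare with `T_p(s) = Gsum (1/2) (p^{-(1+s)})`, the local factor of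
`∑ τ(n)² n^{-1-s}` (`hasProd_tau_sq`, `tendsto_tau_sq` in LibZM/Asymp2: `s^{1/4} ∑ τ(n)² n^{-(1+s)} → Aconst (1/2)`). Both are `1 + (1/4) p^{-1-s} + O(p^{-2})` uniformly in `s ≥ 0`: `(1-1/p) kk p 1 ^ 2 = p² (1 - (1-1/p)^{1/2})² = 1/4 + O(1/p)`
(`kk_props`), `kk p a ≤ 1`. So `|log W_p(s) - log T_p(s)| ≤ C p^{-2}`, and for each `p` it tends to `log W_p(0) - log T_p(0) = 0` (`local_id`; continuity in `s`). Dominated convergence for the sum over primes gives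
`∑ ww g g^{-s} / ∑ τ(n)² n^{-(1+s)} = exp (∑_p (log W_p - log T_p)) → 1`. Summability of `ww g g^{-s}`: `0 ≤ ww g ≤ …` via the Euler product (`Summable` from multiplicativity and `∑_{p,a} ww(p^a) p^{-as} < ∞`; Mathlib
`EulerProduct.summable_and_hasSum…` / `eulerProduct_hasProd`, used in `hasProd_tau_sq`), or from `ww (p^a) ≤ C_p τ(p^a)²/p^a`-type comparison. -/
theorem ww_series : (∀ g, 0 ≤ ww g) ∧ (∀ s : ℝ, 0 < s → Summable fun g : ℕ => ww g * (g:ℝ) ^ (-s)) ∧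
    Tendsto (fun s : ℝ => s ^ (1/4 : ℝ) * ∑' g : ℕ, ww g * (g:ℝ) ^ (-s)) (𝓝[>] 0) (𝓝 (Aconst (1/2))) := by
  refine ⟨ww_nonneg, fun s hs => ww_summable hs, ?_⟩
  have hE : Tendsto (fun s : ℝ => ∑' p : Nat.Primes, (Real.log (e4W p ((p:ℝ) ^ (-(1+s)))) -
        Real.log (Gsum (1/2) ((p:ℝ) ^ (-(1+s)))))) (𝓝[>] 0) (𝓝 (∑' _p : Nat.Primes, (0:ℝ))) := by
    have hsumm : Summable fun p : Nat.Primes => 3 * (p:ℝ) ^ (-2:ℝ) :=
      (Nat.Primes.summable_rpow.mpr (by norm_num)).mul_left _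
    apply tendsto_tsum_of_dominated_convergence hsumm
    · intro p
      have hp0 : (0:ℝ) < p := by exact_mod_cast p.prop.pos
      obtain ⟨h0, h1, _⟩ := prime_rpow_mem le_rfl p
      have ht : Tendsto (fun s : ℝ => (p:ℝ) ^ (-(1+s))) (𝓝[>] 0) (𝓝[Set.Icc 0 (1/2)] ((p:ℝ) ^ (-(1:ℝ)))) := by
        apply tendsto_nhdsWithin_of_tendsto_nhds_of_eventually_within
        · have : Tendsto (fun s : ℝ => (p:ℝ) ^ (-(1+s))) (𝓝 0) (𝓝 ((p:ℝ) ^ (-(1+(0:ℝ))))) := by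
            apply Continuous.tendsto
            exact Continuous.rpow continuous_const (by fun_prop) (fun _ => Or.inl hp0.ne')
          rw [add_zero] at this
          exact this.mono_left nhdsWithin_le_nhds
        · filter_upwards [self_mem_nhdsWithin] with s hs
          have hs' : (0:ℝ) < s := hs
          obtain ⟨h0, h1, _⟩ := prime_rpow_mem (by linarith : (1:ℝ) ≤ 1 + s) p
          exact ⟨h0.le, h1⟩
      have hW := ((e4W_cont p.prop.two_le) ((p:ℝ) ^ (-(1:ℝ))) ⟨h0.le, h1⟩).tendsto.comp ht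
      have hG := ((continuousOn_Gsum (κ := 1/2) (by norm_num)) ((p:ℝ) ^ (-(1:ℝ))) ⟨h0.le, h1⟩).tendsto.comp ht
      have a1 := e4W_one_le p.prop.two_le h0.le (by linarith)
      have a2 := e4_G_one_le h0.le (by linarith : (p:ℝ) ^ (-(1:ℝ)) < 1)
      have hW2 := hW.log (by linarith)
      have hG2 := hG.log (by linarith)
      have h5 := hW2.sub hG2
      rw [e4W_zero p.prop, sub_self] at h5
      exact h5
    · filter_upwards [self_mem_nhdsWithin] with s hs p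
      have hs' : (0:ℝ) < s := hs
      rw [Real.norm_eq_abs]
      exact e4_log_bound hs'.le p
  rw [tsum_zero] at hE
  have hT := tendsto_tau_sq (κ := 1/2) (by norm_num)
  have h := hT.mul ((Real.continuous_exp.tendsto _).comp hE)
  rw [Real.exp_zero, mul_one] at h
  refine h.congr' ?_
  filter_upwards [self_mem_nhdsWithin] with s hs
  have hs' : (0:ℝ) < s := hs
  simp only [Function.comp]
  rw [ww_eq_mul hs']
  have h4 : ((1:ℝ)/2) ^ 2 = 1/4 := by norm_num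
  rw [h4]
  ring

end Pool.Agent.LibOM70
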