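import Pool.Agent.LibOM70B.E4
import Pool.Agent.LibZM.HB4

/-! ODD MOMENTS, signed route, row E5. -/

set_option autoImplicit false

namespace Pool.Agent.LibOM70

open MeasureTheory Set Filter Topology Complex ProbabilityTheory
open scoped NNReal ComplexConjugate
open Pool.Agent.LibZM Pool.Agent.LibM3
open Pool.Agent.LibLaw15 hiding Lam

lemma e5_log_gt {δ : ℝ} (hδ : 0 < δ) {n : ℕ} (hn : MN δ < n) : 1 < δ * Real.log n := by
  have h1 : Real.exp (1 / δ) < n := by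
    unfold MN at hn
    exact (Nat.floor_lt (Real.exp_pos _).le).1 hn
  have h2 : 1 / δ < Real.log n := by
    rw [Real.lt_log_iff_exp_lt (lt_trans (Real.exp_pos _) h1)]
    exact h1
  rw [div_lt_iff₀ hδ] at h2
  linarith

lemma e5_log_le {δ : ℝ} (hδ : 0 < δ) {n : ℕ} (h1 : 1 ≤ n) (hn : n ≤ MN δ) : δ * Real.log n ≤ 1 := by
  have hn0 : (0:ℝ) < n := by exact_mod_cast h1
  have h2 : (n:ℝ) ≤ Real.exp (1 / δ) := by
    unfold MN at hn
    exact (Nat.le_floor_iff (Real.exp_pos _).le).1 hn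
  have h3 : Real.log n ≤ 1 / δ := by
    rw [Real.log_le_iff_le_exp hn0]
    exact h2
  rw [le_div_iff₀ hδ] at h3
  linarith

lemma e5_rpow {δ : ℝ} {n : ℕ} (h1 : 1 ≤ n) : (n:ℝ) ^ (-δ) = Real.exp (-(δ * Real.log n)) := by
  have hn0 : (0:ℝ) < n := by exact_mod_cast h1
  rw [Real.rpow_def_of_pos hn0]
  congr 1
  ring

/-- the Karamata test function -/
lemma e5_test {G : ℝ → ℝ} (hG : Continuous G) (h1 : ∀ x, 1 ≤ x → G x = 0) :
    ∃ F : ℝ → ℝ, Continuous F ∧ ∀ t : ℝ, Real.exp (-t) * F (Real.exp (-t)) = G t := by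
  refine ⟨fun y => G (-Real.log (max y (Real.exp (-1)))) / max y (Real.exp (-1)), ?_, ?_⟩
  · have hpos : ∀ y : ℝ, max y (Real.exp (-1)) ≠ 0 := fun y =>
      (lt_max_of_lt_right (Real.exp_pos _)).ne'
    have hm : Continuous (fun y : ℝ => max y (Real.exp (-1))) := continuous_id.max continuous_const
    exact (hG.comp (hm.log hpos).neg).div hm hpos
  · intro t
    simp only
    rcases le_or_gt t 1 with h | h
    · have h2 : max (Real.exp (-t)) (Real.exp (-1)) = Real.exp (-t) :=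
        max_eq_left (Real.exp_le_exp.2 (by linarith))
      rw [h2, Real.log_exp, neg_neg]
      exact mul_div_cancel₀ _ (Real.exp_pos _).ne'
    · have h2 : max (Real.exp (-t)) (Real.exp (-1)) = Real.exp (-1) :=
        max_eq_right (Real.exp_le_exp.2 (by linarith))
      rw [h2, Real.log_exp, neg_neg, h1 1 le_rfl, h1 t h.le]
      simp

/-- ROW E5a. Karamata for the weight (`karamata_cont`, LibZM/HB3, with `α = 1/4`, `A = Aconst (1/2)`, test function `F(y) = G(-log y)/y` for `y ≥ e^{-1}`, `0` below). -/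
theorem ww_lim {G : ℝ → ℝ} (hG : Continuous G) (h1 : ∀ x, 1 ≤ x → G x = 0) :
    Tendsto (fun δ : ℝ => δ ^ (1/4 : ℝ) * ∑ g ∈ Finset.Icc 1 (MN δ), ww g * G (δ * Real.log g)) (𝓝[>] 0)
      (𝓝 (Aconst (1/2) / Real.Gamma (1/4) * ∫ v in (0:ℝ)..1, v ^ (-(3/4) : ℝ) * G v)) := by
  obtain ⟨F, hF, hFG⟩ := e5_test hG h1
  obtain ⟨hw, hsum, hlim⟩ := ww_series
  have hk := karamata_cont hw (by norm_num : (0:ℝ) < 1/4) (Aconst_pos (κ := 1/2) (by norm_num)) hsum hlim hF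
  have hint : ∫ t in Set.Ioi (0:ℝ), t ^ ((1/4 : ℝ) - 1) * (Real.exp (-t) * F (Real.exp (-t))) =
      ∫ v in (0:ℝ)..1, v ^ (-(3/4) : ℝ) * G v := by
    have he : ((1/4 : ℝ) - 1) = -(3/4) := by norm_num
    rw [he, intervalIntegral.integral_of_le zero_le_one]
    simp_rw [hFG]
    have hsub : Set.Ioc (0:ℝ) 1 ⊆ Set.Ioi 0 := fun x hx => hx.1
    refine (setIntegral_eq_of_subset_of_forall_sdiff_eq_zero measurableSet_Ioi hsub (fun x hx => ?_))
    have h2 : 1 < x := by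
      by_contra h3
      exact hx.2 ⟨hx.1, not_lt.1 h3⟩
    rw [h1 x h2.le, mul_zero]
  rw [hint] at hk
  refine hk.congr' ?_
  filter_upwards [self_mem_nhdsWithin] with δ hδ
  have hδ' : (0:ℝ) < δ := hδ
  congr 1
  rw [tsum_eq_sum (s := Finset.Icc 1 (MN δ))]
  · refine Finset.sum_congr rfl fun n hn => ?_
    have hn1 := (Finset.mem_Icc.1 hn).1
    rw [e5_rpow hn1, hFG]
  · intro n hn
    rcases Nat.eq_zero_or_pos n with h | h
    · subst h
      rw [ww_zero, zero_mul]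
    · have hn2 : MN δ < n := by
        by_contra hcon
        exact hn (Finset.mem_Icc.2 ⟨h, not_lt.1 hcon⟩)
      rw [e5_rpow h, hFG, h1 _ (e5_log_gt hδ' hn2).le, mul_zero]

/-- ROW E5b. Boundedness for all `δ ∈ (0,1]` (Rankin: `g^{-δ} ≥ e^{-1}` for `g ≤ MN δ`; `s^{1/4} ∑ ww g g^{-s}` is bounded on `(0,1]`: limit at `0`, monotone in `s`). -/
theorem ww_bdd : ∃ C : ℝ, 0 < C ∧ ∀ δ : ℝ, 0 < δ → δ ≤ 1 → δ ^ (1/4 : ℝ) * ∑ g ∈ Finset.Icc 1 (MN δ), ww g ≤ C := by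
  obtain ⟨hw, hsum, hlim⟩ := ww_series
  have hA := Aconst_pos (κ := 1/2) (by norm_num)
  have hev := hlim.eventually_lt_const (show Aconst (1/2) < Aconst (1/2) + 1 by linarith)
  rw [eventually_nhdsWithin_iff, Metric.eventually_nhds_iff] at hev
  obtain ⟨ε, hε, hev⟩ := hev
  have hS : 0 ≤ ∑ g ∈ Finset.Icc 1 (MN (ε / 2)), ww g := Finset.sum_nonneg fun g _ => hw g
  refine ⟨Real.exp 1 * (Aconst (1/2) + 1) + ∑ g ∈ Finset.Icc 1 (MN (ε / 2)), ww g,
    by have := Real.exp_pos 1; positivity, fun δ hδ hδ1 => ?_⟩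
  rcases lt_or_ge δ ε with h | h
  · have h2 : δ ^ (1/4 : ℝ) * ∑' g : ℕ, ww g * (g:ℝ) ^ (-δ) < Aconst (1/2) + 1 := by
      refine hev ?_ hδ
      rw [Real.dist_eq, sub_zero, abs_of_pos hδ]
      exact h
    have h3 : ∑ g ∈ Finset.Icc 1 (MN δ), ww g ≤ Real.exp 1 * ∑' g : ℕ, ww g * (g:ℝ) ^ (-δ) := by
      have h4 : ∑ g ∈ Finset.Icc 1 (MN δ), ww g * (g:ℝ) ^ (-δ) ≤ ∑' g : ℕ, ww g * (g:ℝ) ^ (-δ) :=
        (hsum δ hδ).sum_le_tsum _ fun g _ => mul_nonneg (hw g) (by positivity)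
      refine le_trans ?_ (mul_le_mul_of_nonneg_left h4 (Real.exp_pos 1).le)
      rw [Finset.mul_sum]
      refine Finset.sum_le_sum fun g hg => ?_
      obtain ⟨hg1, hg2⟩ := Finset.mem_Icc.1 hg
      rw [e5_rpow hg1]
      have h5 : 1 ≤ Real.exp 1 * Real.exp (-(δ * Real.log g)) := by
        rw [← Real.exp_add]
        refine Real.one_le_exp ?_
        have := e5_log_le hδ hg1 hg2
        linarith
      calc ww g = ww g * 1 := (mul_one _).symm
        _ ≤ ww g * (Real.exp 1 * Real.exp (-(δ * Real.log g))) := mul_le_mul_of_nonneg_left h5 (hw g)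
        _ = Real.exp 1 * (ww g * Real.exp (-(δ * Real.log g))) := by ring
    have hd : 0 ≤ δ ^ (1/4 : ℝ) := by positivity
    calc δ ^ (1/4 : ℝ) * ∑ g ∈ Finset.Icc 1 (MN δ), ww g
        ≤ δ ^ (1/4 : ℝ) * (Real.exp 1 * ∑' g : ℕ, ww g * (g:ℝ) ^ (-δ)) := mul_le_mul_of_nonneg_left h3 hd
      _ = Real.exp 1 * (δ ^ (1/4 : ℝ) * ∑' g : ℕ, ww g * (g:ℝ) ^ (-δ)) := by ring
      _ ≤ Real.exp 1 * (Aconst (1/2) + 1) := mul_le_mul_of_nonneg_left h2.le (Real.exp_pos 1).le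
      _ ≤ _ := by linarith
  · have h2 : MN δ ≤ MN (ε / 2) := by
      unfold MN
      refine Nat.floor_le_floor (Real.exp_le_exp.2 ?_)
      exact one_div_le_one_div_of_le (by linarith) (by linarith)
    have h3 : ∑ g ∈ Finset.Icc 1 (MN δ), ww g ≤ ∑ g ∈ Finset.Icc 1 (MN (ε / 2)), ww g :=
      Finset.sum_le_sum_of_subset_of_nonneg (Finset.Icc_subset_Icc_right h2) fun g _ _ => hw g
    have h4 : δ ^ (1/4 : ℝ) ≤ 1 := Real.rpow_le_one hδ.le hδ1 (by norm_num)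
    have h5 : 0 ≤ ∑ g ∈ Finset.Icc 1 (MN δ), ww g := Finset.sum_nonneg fun g _ => hw g
    have h6 : 0 ≤ Real.exp 1 * (Aconst (1/2) + 1) := by positivity
    calc δ ^ (1/4 : ℝ) * ∑ g ∈ Finset.Icc 1 (MN δ), ww g ≤ 1 * ∑ g ∈ Finset.Icc 1 (MN δ), ww g :=
          mul_le_mul_of_nonneg_right h4 h5
      _ ≤ _ := by linarith

end Pool.Agent.LibOM70
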