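import Pool.Agent.LibOM70B.Defs
import Pool.Agent.LibOM70.N1

/-! ODD MOMENTS, signed route, row N3. -/

set_option autoImplicit false

namespace Pool.Agent.LibOM70

open MeasureTheory Set Filter Topology Complex ProbabilityTheory
open scoped NNReal ComplexConjugate
open Pool.Agent.LibZM Pool.Agent.LibM3
open Pool.Agent.LibLaw15 hiding Lam

private theorem n3_Gamma_add (n : ℕ) :
    Real.Gamma ((n:ℝ) + 1/4) = (∏ k ∈ Finset.range n, ((k:ℝ) + 1/4)) * Real.Gamma (1/4) := by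
  induction n with
  | zero => simp
  | succ n ih =>
    have h : ((n + 1 : ℕ) : ℝ) + 1/4 = ((n:ℝ) + 1/4) + 1 := by push_cast; ring
    rw [h, Real.Gamma_add_one (by positivity), ih, Finset.prod_range_succ]
    ring

private theorem n3_low {m : ℕ} (hm : 1 ≤ m) :
    ((Nat.factorial m : ℕ) : ℝ) * (m:ℝ) ^ (1/4 : ℝ) ≤
      (∏ k ∈ Finset.range (m + 1), ((k:ℝ) + 1/4)) * Real.Gamma (1/4) := by
  have hfeq : ∀ {y : ℝ}, 0 < y → (Real.log ∘ Real.Gamma) (y + 1) = (Real.log ∘ Real.Gamma) y + Real.log y := by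
    intro y hy
    simp only [Function.comp]
    rw [Real.Gamma_add_one hy.ne', Real.log_mul hy.ne' (Real.Gamma_pos_of_pos hy).ne']
    ring
  have h := Real.BohrMollerup.f_add_nat_ge (n := m + 1) (x := 1/4) Real.convexOn_log_Gamma hfeq (by omega) (by norm_num)
  simp only [Function.comp] at h
  have hpos : 0 < Real.Gamma (1/4) := Real.Gamma_pos_of_pos (by norm_num)
  have hm0 : (0:ℝ) < m := by exact_mod_cast hm
  have hf0 : (0:ℝ) < ((Nat.factorial m : ℕ) : ℝ) := by exact_mod_cast Nat.factorial_pos m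
  have hPpos : 0 < ∏ k ∈ Finset.range (m + 1), ((k:ℝ) + 1/4) :=
    Finset.prod_pos fun k _ => by positivity
  have e1 : ((m + 1 : ℕ) : ℝ) - 1 = (m : ℝ) := by push_cast; ring
  have e2 : Real.Gamma ((m + 1 : ℕ) : ℝ) = ((Nat.factorial m : ℕ) : ℝ) := by
    push_cast
    exact Real.Gamma_nat_eq_factorial m
  rw [e1, e2, n3_Gamma_add] at h
  rw [← Real.log_le_log_iff (by positivity) (by positivity),
    Real.log_mul hf0.ne' (by positivity), Real.log_rpow hm0]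
  linarith

private theorem n3_prod (m : ℕ) : (∏ k ∈ Finset.range m, ((k:ℝ) + 1/4)) * 4 ^ m =
    ((∏ k ∈ Finset.range m, (4 * k + 1) : ℕ) : ℝ) := by
  induction m with
  | zero => simp
  | succ m ih =>
    rw [Finset.prod_range_succ, Finset.prod_range_succ, Nat.cast_mul, ← ih, pow_succ]
    push_cast
    ring

private theorem n3_chk (N : ℕ) : ∀ m : ℕ,
    3623 * (∏ k ∈ Finset.range (m + 1), (4 * k + 1)) ≤ 1000 * (Nat.factorial m * N * 4 ^ (m + 1)) →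
    (m : ℝ) ^ (1/4 : ℝ) = N → 1 ≤ m → (3623/1000 : ℝ) ≤ Real.Gamma (1/4) := by
  intro m hnum hN hm
  have h := n3_low hm
  have h2 := n3_prod (m + 1)
  have h3 : (3623 : ℝ) * ((∏ k ∈ Finset.range (m + 1), (4 * k + 1) : ℕ) : ℝ) ≤
      1000 * (((Nat.factorial m : ℕ) : ℝ) * (N:ℝ) * 4 ^ (m + 1)) := by exact_mod_cast hnum
  rw [hN] at h
  rw [← h2] at h3
  have hPpos : 0 < ∏ k ∈ Finset.range (m + 1), ((k:ℝ) + 1/4) :=
    Finset.prod_pos fun k _ => by positivity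
  obtain ⟨P, hP⟩ : ∃ P, P = ∏ k ∈ Finset.range (m + 1), ((k:ℝ) + 1/4) := ⟨_, rfl⟩
  rw [← hP] at h h3 hPpos
  have h4 : (0:ℝ) < 4 ^ (m + 1) := by positivity
  have h5 : (3623 : ℝ) * P ≤ 1000 * (((Nat.factorial m : ℕ) : ℝ) * (N:ℝ)) := by
    have : (3623 : ℝ) * P * 4 ^ (m + 1) ≤ 1000 * (((Nat.factorial m : ℕ) : ℝ) * (N:ℝ)) * 4 ^ (m + 1) := by
      linarith
    exact le_of_mul_le_mul_right this h4
  have h6 : P * (3623/1000) ≤ P * Real.Gamma (1/4) := by linarith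
  exact le_of_mul_le_mul_left h6 hPpos

private theorem n3_Gamma_quarter : (3623/1000 : ℝ) ≤ Real.Gamma (1/4) := by
  refine n3_chk 4 256 (by decide +kernel) ?_ (by norm_num)
  have : ((256 : ℕ) : ℝ) = (4:ℝ) ^ (4:ℝ) := by
    have : (4:ℝ) ^ (4:ℝ) = (4:ℝ) ^ (4:ℕ) := by
      rw [← Real.rpow_natCast]; norm_num
    rw [this]; norm_num
  rw [this, ← Real.rpow_mul (by norm_num)]
  norm_num

private theorem n3_pow8 {z : ℝ} (h0 : 0 ≤ z) (h1 : z ≤ 1/2) :
    1 - z ≤ (1 - z/8 - 7*z^2/128) ^ 8 := by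
  obtain ⟨u, hu⟩ : ∃ u, u = z/8 + 7*z^2/128 := ⟨_, rfl⟩
  have hu0 : 0 ≤ u := by rw [hu]; positivity
  have hu1 : u ≤ 1 := by rw [hu]; nlinarith
  have h2 : (1 - z/8 - 7*z^2/128) ^ 8 = (1 - u) ^ 8 := by rw [hu]; ring
  have h3 : 1 - 8*u + 28*u^2 - 56*u^3 ≤ (1 - u) ^ 8 := by
    have h4 : 0 ≤ u^4 * (70 - 56*u + 28*u^2 - 8*u^3 + u^4) := by
      apply mul_nonneg (by positivity)
      have h5 : u^3 ≤ 1 := pow_le_one₀ hu0 hu1
      have h6 : 0 ≤ u^2 := by positivity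
      have h7 : 0 ≤ u^4 := by positivity
      linarith
    nlinarith
  have h4 : 1 - z ≤ 1 - 8*u + 28*u^2 - 56*u^3 := by
    have h5 : 1 - 8*u + 28*u^2 - 56*u^3 - (1 - z) =
        z^3 * (49/128 + (343/4096) * z - (7/64) * (1 + 7*z/16)^3) := by
      rw [hu]; ring
    have h6 : (1 + 7*z/16)^3 ≤ (39/32)^3 := by
      apply pow_le_pow_left₀ (by positivity)
      linarith
    have h7 : 0 ≤ z^3 * (49/128 + (343/4096) * z - (7/64) * (1 + 7*z/16)^3) := by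
      apply mul_nonneg (by positivity)
      have : (39/32 : ℝ)^3 ≤ 2 := by norm_num
      linarith
    linarith
  rw [h2]
  linarith

private theorem n3_bd {z : ℝ} (h0 : 0 ≤ z) (h1 : z ≤ 1/2) :
    (z * (1 - z)) ^ (1/8 : ℝ) ≤ z ^ (1/8 : ℝ) * (1 - z/8 - 7*z^2/128) := by
  rw [Real.mul_rpow h0 (by linarith)]
  apply mul_le_mul_of_nonneg_left _ (Real.rpow_nonneg h0 _)
  have hg : 0 ≤ 1 - z/8 - 7*z^2/128 := by nlinarith
  have h2 := Real.rpow_le_rpow (by linarith) (n3_pow8 h0 h1) (by norm_num : (0:ℝ) ≤ 1/8)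
  refine h2.trans (le_of_eq ?_)
  rw [← Real.rpow_natCast, ← Real.rpow_mul hg]
  norm_num

private theorem n3_cont : Continuous fun z : ℝ => (z * (1 - z)) ^ (1/8 : ℝ) :=
  (continuous_id.mul (continuous_const.sub continuous_id)).rpow_const fun _ => Or.inr (by norm_num)

private theorem n3_half : JB = 2 * ∫ z in (0:ℝ)..(1/2), (z * (1 - z)) ^ (1/8 : ℝ) := by
  unfold JB
  rw [← intervalIntegral.integral_add_adjacent_intervals (b := 1/2)
    (n3_cont.intervalIntegrable _ _) (n3_cont.intervalIntegrable _ _)]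
  have h1 : ∫ z in (1/2:ℝ)..1, (z * (1 - z)) ^ (1/8 : ℝ) =
      ∫ z in (0:ℝ)..(1/2), (z * (1 - z)) ^ (1/8 : ℝ) := by
    have h2 := intervalIntegral.integral_comp_sub_left (a := 0) (b := 1/2)
      (fun z : ℝ => (z * (1 - z)) ^ (1/8 : ℝ)) 1
    have h3 : (1:ℝ) - 1/2 = 1/2 := by norm_num
    rw [h3, sub_zero] at h2
    rw [← h2]
    congr 1
    funext z
    congr 1
    ring
  rw [h1]
  ring

private theorem n3_int : ∫ z in (0:ℝ)..(1/2), z ^ (1/8 : ℝ) * (1 - z/8 - 7*z^2/128) =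
    (1/2 : ℝ) ^ (1/8 : ℝ) * (4/9 - 1/68 - 7/3200) := by
  have h1 : ∀ z ∈ Set.uIcc (0:ℝ) (1/2), z ^ (1/8 : ℝ) * (1 - z/8 - 7*z^2/128) =
      (z ^ (1/8 : ℝ) - (1/8) * z ^ (9/8 : ℝ)) - (7/128) * z ^ (17/8 : ℝ) := by
    intro z hz
    rw [Set.uIcc_of_le (by norm_num)] at hz
    have hz0 := hz.1
    have e1 : z ^ (9/8 : ℝ) = z ^ (1/8 : ℝ) * z := by
      have : (9/8 : ℝ) = 1/8 + 1 := by norm_num
      rw [this, Real.rpow_add_of_nonneg hz0 (by norm_num) (by norm_num), Real.rpow_one]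
    have e2 : z ^ (17/8 : ℝ) = z ^ (1/8 : ℝ) * z ^ 2 := by
      have : (17/8 : ℝ) = 1/8 + 2 := by norm_num
      rw [this, Real.rpow_add_of_nonneg hz0 (by norm_num) (by norm_num), Real.rpow_two]
    rw [e1, e2]
    ring
  rw [intervalIntegral.integral_congr h1]
  have c1 : ∀ r : ℝ, 0 ≤ r → Continuous fun z : ℝ => z ^ r := fun r hr =>
    continuous_id.rpow_const fun _ => Or.inr hr
  rw [intervalIntegral.integral_sub, intervalIntegral.integral_sub,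
    intervalIntegral.integral_const_mul, intervalIntegral.integral_const_mul,
    integral_rpow (Or.inl (by norm_num)), integral_rpow (Or.inl (by norm_num)),
    integral_rpow (Or.inl (by norm_num))]
  · have e1 : (1/2 : ℝ) ^ ((1/8 : ℝ) + 1) = (1/2 : ℝ) ^ (1/8 : ℝ) * (1/2) := by
      rw [Real.rpow_add_of_nonneg (by norm_num) (by norm_num) (by norm_num), Real.rpow_one]
    have e2 : (1/2 : ℝ) ^ ((9/8 : ℝ) + 1) = (1/2 : ℝ) ^ (1/8 : ℝ) * (1/4) := by
      have : (9/8 : ℝ) + 1 = 1/8 + 2 := by norm_num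
      rw [this, Real.rpow_add_of_nonneg (by norm_num) (by norm_num) (by norm_num), Real.rpow_two]
      norm_num
    have e3 : (1/2 : ℝ) ^ ((17/8 : ℝ) + 1) = (1/2 : ℝ) ^ (1/8 : ℝ) * (1/8) := by
      have : (17/8 : ℝ) + 1 = 1/8 + ((3 : ℕ) : ℝ) := by norm_num
      rw [this, Real.rpow_add_of_nonneg (by norm_num) (by norm_num) (by norm_num),
        Real.rpow_natCast]
      norm_num
    rw [e1, e2, e3, Real.zero_rpow (by norm_num), Real.zero_rpow (by norm_num),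
      Real.zero_rpow (by norm_num)]
    ring
  · exact (c1 _ (by norm_num)).intervalIntegrable _ _
  · exact (continuous_const.mul (c1 _ (by norm_num))).intervalIntegrable _ _
  · exact ((c1 _ (by norm_num)).sub (continuous_const.mul (c1 _ (by norm_num)))).intervalIntegrable _ _
  · exact (continuous_const.mul (c1 _ (by norm_num))).intervalIntegrable _ _

private theorem n3_root : (1/2 : ℝ) ^ (1/8 : ℝ) ≤ 91701/100000 := by
  have h : ((1/2 : ℝ) ^ (1/8 : ℝ)) ^ 8 ≤ (91701/100000 : ℝ) ^ 8 := by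
    rw [← Real.rpow_natCast, ← Real.rpow_mul (by norm_num)]
    norm_num
  exact (pow_le_pow_iff_left₀ (Real.rpow_nonneg (by norm_num) _) (by norm_num) (by norm_num)).1 h

private theorem n3_JB : JB ≤ 7842/10000 := by
  rw [n3_half]
  have h1 : ∫ z in (0:ℝ)..(1/2), (z * (1 - z)) ^ (1/8 : ℝ) ≤
      ∫ z in (0:ℝ)..(1/2), z ^ (1/8 : ℝ) * (1 - z/8 - 7*z^2/128) := by
    apply intervalIntegral.integral_mono_on (by norm_num) (n3_cont.intervalIntegrable _ _)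
    · apply Continuous.intervalIntegrable
      exact (continuous_id.rpow_const fun _ => Or.inr (by norm_num)).mul (by fun_prop)
    · intro z hz
      exact n3_bd hz.1 hz.2
  rw [n3_int] at h1
  have h2 := n3_root
  nlinarith

private theorem n3_tan {z : ℝ} (h0 : 0 ≤ z) :
    √(1 + 4 * z / 5) ≤ √(6/5) * (1 + (z - 1/4) / 3) := by
  have h1 : 0 ≤ √(6/5 : ℝ) * (1 + (z - 1/4) / 3) :=
    mul_nonneg (Real.sqrt_nonneg _) (by linarith)
  rw [Real.sqrt_le_left h1, mul_pow, Real.sq_sqrt (by norm_num)]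
  nlinarith [sq_nonneg (z - 1/4)]

private theorem n3_c : Continuous fun z : ℝ => (z * (1/2 - z)) ^ (1/8 : ℝ) :=
  (continuous_id.mul (continuous_const.sub continuous_id)).rpow_const fun _ => Or.inr (by norm_num)

private theorem n3_sym : ∫ z in (0:ℝ)..(1/2), (z * (1/2 - z)) ^ (1/8 : ℝ) * (z - 1/4) = 0 := by
  have h2 := intervalIntegral.integral_comp_sub_left (a := 0) (b := 1/2)
    (fun z : ℝ => (z * (1/2 - z)) ^ (1/8 : ℝ) * (z - 1/4)) (1/2)
  rw [sub_self, sub_zero] at h2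
  have h3 : ∫ z in (0:ℝ)..(1/2), ((1/2 - z) * (1/2 - (1/2 - z))) ^ (1/8 : ℝ) * (1/2 - z - 1/4) =
      - ∫ z in (0:ℝ)..(1/2), (z * (1/2 - z)) ^ (1/8 : ℝ) * (z - 1/4) := by
    rw [← intervalIntegral.integral_neg]
    congr 1
    funext z
    have e : (1/2 - z) * (1/2 - (1/2 - z)) = z * (1/2 - z) := by ring
    rw [e]
    ring
  linarith

private theorem n3_scale : ∫ z in (0:ℝ)..(1/2), (z * (1/2 - z)) ^ (1/8 : ℝ) =
    (1/4 : ℝ) ^ (1/8 : ℝ) * (1/2) * JB := by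
  have h2 := intervalIntegral.integral_comp_mul_left (a := 0) (b := 1)
    (fun z : ℝ => (z * (1/2 - z)) ^ (1/8 : ℝ)) (c := 1/2) (by norm_num)
  rw [mul_zero, mul_one] at h2
  have h3 : ∫ x in (0:ℝ)..1, (1/2 * x * (1/2 - 1/2 * x)) ^ (1/8 : ℝ) =
      (1/4 : ℝ) ^ (1/8 : ℝ) * JB := by
    unfold JB
    rw [← intervalIntegral.integral_const_mul]
    refine intervalIntegral.integral_congr fun x hx => ?_
    rw [Set.uIcc_of_le (by norm_num)] at hx
    have e : 1/2 * x * (1/2 - 1/2 * x) = 1/4 * (x * (1 - x)) := by ring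
    rw [e, Real.mul_rpow (by norm_num) (mul_nonneg hx.1 (by linarith [hx.2]))]
  rw [h3] at h2
  simp only [smul_eq_mul] at h2
  have h4 : ∫ z in (0:ℝ)..(1/2), (z * (1/2 - z)) ^ (1/8 : ℝ) =
      (1/2) * ((1/2 : ℝ)⁻¹ * ∫ z in (0:ℝ)..(1/2), (z * (1/2 - z)) ^ (1/8 : ℝ)) := by
    ring
  rw [h4, ← h2]
  ring

private theorem n3_int2 : ∫ z in (0:ℝ)..(1/2), (z * (1/2 - z)) ^ (1/8 : ℝ) * √(1 + 4 * z / 5) ≤
    √(6/5) * ((1/4 : ℝ) ^ (1/8 : ℝ) * (1/2) * JB) := by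
  have hc1 : Continuous fun z : ℝ => (z * (1/2 - z)) ^ (1/8 : ℝ) * √(1 + 4 * z / 5) :=
    n3_c.mul (by fun_prop)
  have hc2 : Continuous fun z : ℝ => (z * (1/2 - z)) ^ (1/8 : ℝ) * (z - 1/4) :=
    n3_c.mul (by fun_prop)
  have hc3 : Continuous fun z : ℝ => √(6/5) * ((z * (1/2 - z)) ^ (1/8 : ℝ) +
      (1/3) * ((z * (1/2 - z)) ^ (1/8 : ℝ) * (z - 1/4))) :=
    continuous_const.mul (n3_c.add (continuous_const.mul hc2))
  have h1 : ∫ z in (0:ℝ)..(1/2), (z * (1/2 - z)) ^ (1/8 : ℝ) * √(1 + 4 * z / 5) ≤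
      ∫ z in (0:ℝ)..(1/2), √(6/5) * ((z * (1/2 - z)) ^ (1/8 : ℝ) +
        (1/3) * ((z * (1/2 - z)) ^ (1/8 : ℝ) * (z - 1/4))) := by
    refine intervalIntegral.integral_mono_on (by norm_num) (hc1.intervalIntegrable _ _)
      (hc3.intervalIntegrable _ _) fun z hz => ?_
    have h2 := n3_tan hz.1
    have h3 : 0 ≤ (z * (1/2 - z)) ^ (1/8 : ℝ) :=
      Real.rpow_nonneg (mul_nonneg hz.1 (by linarith [hz.2])) _
    have h4 := mul_le_mul_of_nonneg_left h2 h3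
    linarith
  refine h1.trans (le_of_eq ?_)
  have hi2 : IntervalIntegrable (fun z : ℝ => (1/3 : ℝ) * ((z * (1/2 - z)) ^ (1/8 : ℝ) * (z - 1/4)))
      volume 0 (1/2) := (continuous_const.mul hc2).intervalIntegrable _ _
  rw [intervalIntegral.integral_const_mul, intervalIntegral.integral_add
    (n3_c.intervalIntegrable _ _) hi2,
    intervalIntegral.integral_const_mul, n3_sym, n3_scale]
  ring

private theorem n3_a : (2:ℝ) ^ (3/2 : ℝ) * ((1/4 : ℝ) ^ (1/8 : ℝ) * (1/2)) ≤ 118921/100000 := by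
  have e1 : (2:ℝ) ^ (3/2 : ℝ) = 2 * (2:ℝ) ^ (1/2 : ℝ) := by
    rw [show (3/2 : ℝ) = 1 + 1/2 by norm_num, Real.rpow_add (by norm_num), Real.rpow_one]
  have e2 : (1/4 : ℝ) ^ (1/8 : ℝ) = (2:ℝ) ^ (-(1/4) : ℝ) := by
    have : (1/4 : ℝ) = (2:ℝ) ^ (-2 : ℝ) := by
      rw [Real.rpow_neg (by norm_num), Real.rpow_two]; norm_num
    rw [this, ← Real.rpow_mul (by norm_num)]
    norm_num
  have e3 : (2:ℝ) ^ (1/2 : ℝ) * (2:ℝ) ^ (-(1/4) : ℝ) = (2:ℝ) ^ (1/4 : ℝ) := by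
    rw [← Real.rpow_add (by norm_num)]; norm_num
  have e4 : (2:ℝ) ^ (3/2 : ℝ) * ((1/4 : ℝ) ^ (1/8 : ℝ) * (1/2)) = (2:ℝ) ^ (1/4 : ℝ) := by
    rw [e1, e2, ← e3]; ring
  rw [e4]
  have h : ((2 : ℝ) ^ (1/4 : ℝ)) ^ 4 ≤ (118921/100000 : ℝ) ^ 4 := by
    rw [← Real.rpow_natCast, ← Real.rpow_mul (by norm_num)]
    norm_num
  exact (pow_le_pow_iff_left₀ (Real.rpow_nonneg (by norm_num) _) (by norm_num) (by norm_num)).1 h

/-- ROW N3. Numerics: `CS1 = 1.4939`. PROOF. Tangent line at `z = 1/4` (concavity): `√(1 + 4z/5) ≤ √(6/5) (1 + (z - 1/4)/3)` (square both sides: `(6/5)(1 + (z-1/4)/3)² - (1 + 4z/5) = (6/5) (z-1/4)²/9 ≥ 0`). The weight `(z(1/2-z))^{1/8}` is symmetric about `1/4`, so the linear term integrates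
to zero: `∫ ≤ √(6/5) ∫_0^{1/2} (z(1/2-z))^{1/8} dz = √(6/5) 2^{-5/4} JB` (`z = x/2`). Bounds: `JB ≤ .7842` and `Γ(5/4) ≥ .9062` (see the proof of `CU1_le` in N1 for the method; `JB = .78395…`, `Γ(5/4) = .90640…`): total `≤ 1.4985 < 3/2`. Positivity: the integrand is
positive inside. -/
theorem CS1_le : 0 < CS1 ∧ CS1 ≤ 3 / 2 := by
  have hG3 : 0 < Real.Gamma (5/4) := Real.Gamma_pos_of_pos (by norm_num)
  have hpi : 0 < √Real.pi := Real.sqrt_pos.2 Real.pi_pos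
  have h2p : 0 < (2:ℝ) ^ (3/2 : ℝ) := Real.rpow_pos_of_pos (by norm_num) _
  have hc1 : Continuous fun z : ℝ => (z * (1/2 - z)) ^ (1/8 : ℝ) * √(1 + 4 * z / 5) :=
    n3_c.mul (by fun_prop)
  constructor
  · unfold CS1
    refine mul_pos (by positivity) ?_
    refine intervalIntegral.intervalIntegral_pos_of_pos_on (hc1.intervalIntegrable _ _) ?_
      (by norm_num)
    intro z hz
    refine mul_pos (Real.rpow_pos_of_pos (mul_pos hz.1 (by linarith [hz.2])) _) ?_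
    exact Real.sqrt_pos.2 (by linarith [hz.1])
  · have hG : Real.Gamma (5/4) = (1/4) * Real.Gamma (1/4) := by
      have h := Real.Gamma_add_one (s := 1/4) (by norm_num)
      have h2 : (1/4 : ℝ) + 1 = 5/4 := by norm_num
      rw [h2] at h
      exact h
    have h1 := n3_Gamma_quarter
    have h2 := n3_JB
    have h20 : 0 < JB := CU1_le.1
    have h3 := n3_a
    have h30 : 0 < (2:ℝ) ^ (3/2 : ℝ) * ((1/4 : ℝ) ^ (1/8 : ℝ) * (1/2)) := by positivity
    have h4 : √(6/5 : ℝ) ≤ 1095446/1000000 := by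
      rw [Real.sqrt_le_left (by norm_num)]; norm_num
    have h5 : √Real.pi ≤ 1772455/1000000 := by
      rw [Real.sqrt_le_left (by norm_num)]
      have := Real.pi_lt_d6
      norm_num at this ⊢
      linarith
    have h6 := n3_int2
    unfold CS1
    set I := ∫ z in (0:ℝ)..(1/2), (z * (1/2 - z)) ^ (1/8 : ℝ) * √(1 + 4 * z / 5)
    have h7 : (3/2) * (2:ℝ) ^ (3/2 : ℝ) * (√Real.pi / 2) / Real.Gamma (5/4) * I =
        (3/2) * ((2:ℝ) ^ (3/2 : ℝ) * (√Real.pi / 2) * I / Real.Gamma (5/4)) := by ring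
    rw [h7]
    have h8 : (2:ℝ) ^ (3/2 : ℝ) * (√Real.pi / 2) * I / Real.Gamma (5/4) ≤ 1 := by
      rw [div_le_one hG3, hG]
      have h9 : (2:ℝ) ^ (3/2 : ℝ) * (√Real.pi / 2) * I ≤
          (2:ℝ) ^ (3/2 : ℝ) * (√Real.pi / 2) * (√(6/5) * ((1/4 : ℝ) ^ (1/8 : ℝ) * (1/2) * JB)) :=
        mul_le_mul_of_nonneg_left h6 (by positivity)
      have h10 : (2:ℝ) ^ (3/2 : ℝ) * (√Real.pi / 2) * (√(6/5) * ((1/4 : ℝ) ^ (1/8 : ℝ) * (1/2) * JB)) =
          ((2:ℝ) ^ (3/2 : ℝ) * ((1/4 : ℝ) ^ (1/8 : ℝ) * (1/2))) * (√Real.pi * √(6/5)) * (JB / 2) := by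
        ring
      have h11 : √Real.pi * √(6/5) ≤ (1772455/1000000) * (1095446/1000000) :=
        mul_le_mul h5 h4 (Real.sqrt_nonneg _) (by norm_num)
      have h12 : ((2:ℝ) ^ (3/2 : ℝ) * ((1/4 : ℝ) ^ (1/8 : ℝ) * (1/2))) * (√Real.pi * √(6/5)) ≤
          (118921/100000) * ((1772455/1000000) * (1095446/1000000)) :=
        mul_le_mul h3 h11 (by positivity) (by norm_num)
      have h13 : ((2:ℝ) ^ (3/2 : ℝ) * ((1/4 : ℝ) ^ (1/8 : ℝ) * (1/2))) * (√Real.pi * √(6/5)) * (JB / 2) ≤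
          (118921/100000) * ((1772455/1000000) * (1095446/1000000)) * ((7842/10000) / 2) :=
        mul_le_mul h12 (by linarith) (by linarith) (by norm_num)
      rw [h10] at h9
      refine h9.trans (h13.trans ?_)
      refine le_trans ?_ (mul_le_mul_of_nonneg_left h1 (by norm_num))
      norm_num
    linarith

end Pool.Agent.LibOM70
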