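import Pool.Agent.LibOM70B.C6
import Pool.Agent.LibOM70B.N3
import Pool.Agent.LibOM70.H9b
import Pool.Agent.LibOM70.U8
import Pool.Agent.LibOM70.N2

/-! ODD MOMENTS, signed route, row Fin2. -/

set_option autoImplicit false

namespace Pool.Agent.LibOM70

open MeasureTheory Set Filter Topology Complex ProbabilityTheory
open scoped NNReal ComplexConjugate
open Pool.Agent.LibZM Pool.Agent.LibM3
open Pool.Agent.LibLaw15 hiding Lam

/-- ROW Fin2. Both bounds with the improved constant (copy `law1_main`, Fin1, with `window_upper2` and `CS1`; `transfer_upper1`, `law1_lower`). -/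
theorem law1_main2 {r : ℕ} {p : Fin r → ℕ} (hp : ∀ i, (p i).Prime) (hinj : Function.Injective p)
    {w : Tor r → ℝ} (hw : Continuous w) (hw0 : ∀ x, 0 ≤ w x) {ε : ℝ} (hε : 0 < ε) : ∀ᶠ T : ℝ in atTop,
      (cL1 * TM1 p w - ε) * (T * Lam T) ≤ ∫ t in Icc 0 T, ‖riemannZeta (crit t)‖ * w (xt p t) ∧
      ∫ t in Icc 0 T, ‖riemannZeta (crit t)‖ * w (xt p t) ≤ (CS1 * TM1 p w + ε) * (T * Lam T) := by
  have hCU : 0 ≤ CS1 := by
    unfold CS1
    refine mul_nonneg (div_nonneg (by positivity)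
      (Real.Gamma_pos_of_pos (by norm_num)).le) ?_
    refine intervalIntegral.integral_nonneg (by norm_num) fun z hz => ?_
    exact mul_nonneg (Real.rpow_nonneg (mul_nonneg hz.1 (by linarith [hz.2])) _)
      (Real.sqrt_nonneg _)
  have hMT : ∀ v : Tor r → ℝ, (∀ x, 0 ≤ v x) → 0 ≤ MT1 p v := fun v hv =>
    integral_nonneg fun x => mul_nonneg (hv x) ((ET_props hp).2 x).le
  have hTM : ∀ v : Tor r → ℝ, (∀ x, 0 ≤ v x) → 0 ≤ TM1 p v := fun v hv =>
    div_nonneg (hMT v hv) (hMT 1 fun _ => zero_le_one)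
  have hU : ∀ v : Tor r → ℝ, Continuous v → (∀ x, 0 ≤ v x) → ∀ δ : ℝ, 0 < δ →
      ∀ᶠ T : ℝ in atTop, ∫ t in Icc 0 T, ‖riemannZeta (crit t)‖ * v (xt p t) ≤
        (CS1 * TM1 p v + δ) * (T * Lam T) := by
    intro v hv hv0 δ hδ
    have h0 : 0 ≤ CS1 * TM1 p v := mul_nonneg hCU (hTM v hv0)
    exact transfer_upper1 (continuous_zeta_crit.norm.mul (hv.comp (xt_continuous p)))
      (fun t => mul_nonneg (norm_nonneg _) (hv0 _)) (c₀ := CS1 * TM1 p v + δ / 2)
      (by positivity) (by linarith)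
      (fun η hη => window_upper2 hη hp hinj hv hv0 (half_pos hδ))
  have hN := cL1_gt
  have hB0 : 0 < CS1 * TM1 p 1 + 1 := by
    have := mul_nonneg hCU (hTM 1 fun _ => zero_le_one)
    linarith
  have hB : ∀ᶠ T : ℝ in atTop, ∫ t in Icc 0 T, ‖riemannZeta (crit t)‖ ≤
      (CS1 * TM1 p 1 + 1) * (T * Lam T) := by
    have h1 := hU 1 continuous_one (fun _ => zero_le_one) 1 one_pos
    simpa only [Pi.one_apply, mul_one] using h1
  filter_upwards [law1_lower ⟨hN.1, hN.2.1⟩ hB0 hB hp hinj hw hw0 hε, hU w hw hw0 ε hε] with T h1 h2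
  exact ⟨h1, h2⟩

end Pool.Agent.LibOM70
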