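import Pool.Agent.LibOM70B.Defs2
import Pool.Agent.LibM3.Q2

/-! ODD MOMENTS, signed route, row G1. -/

set_option autoImplicit false

namespace Pool.Agent.LibOM70

open MeasureTheory Set Filter Topology Complex ProbabilityTheory
open scoped NNReal ComplexConjugate
open Pool.Agent.LibZM Pool.Agent.LibM3
open Pool.Agent.LibLaw15 hiding Lam

/-- ROW G1. The off-diagonal sum for short polynomials has a power saving.
PROOF. `Y = T^{1/2+θ}`, `H = Hw T = T/(log T)^{3/4}`: `lattice_off` (LibM3/Q2a) gives `C (Y/H (1+log Y)^{5/4} + Y (1+log Y)²/H²) = T^{θ-1/2} · (log T)^{O(1)}`, and `q2_reindex` (LibM3/Q2) applies as `T N² ≤ T^{1+2θ} = Y²`.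
Take `κ = (1/2 - θ)/2`. -/
theorem off_exact {θ : ℝ} (hθ0 : 0 < θ) (hθ : θ < 1/2) : ∃ κ : ℝ, 0 < κ ∧ ∀ᶠ T : ℝ in atTop, ∀ N : ℕ, (N:ℝ) ≤ T ^ θ →
    Summable (fun q : ℕ × ℕ => ∑ h ∈ Finset.Icc 1 N, ∑ k ∈ Finset.Icc 1 N, offw T q.1 q.2 h k) ∧
    ∑' q : ℕ × ℕ, ∑ h ∈ Finset.Icc 1 N, ∑ k ∈ Finset.Icc 1 N, offw T q.1 q.2 h k ≤ T ^ (-κ) := by
  obtain ⟨C, hC, hlat⟩ := lattice_off
  obtain ⟨κ, hκ⟩ : ∃ κ : ℝ, κ = (1/2 - θ) / 2 := ⟨_, rfl⟩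
  have hκ0 : 0 < κ := by rw [hκ]; linarith
  refine ⟨κ, hκ0, ?_⟩
  have hlog : Tendsto Real.log atTop atTop := Real.tendsto_log_atTop
  have h1 : ∀ᶠ T : ℝ in atTop, (Real.log T) ^ (3/4 : ℝ) ≤ T := by
    have := (isLittleO_log_rpow_rpow_atTop (3/4 : ℝ) (s := 1) one_pos).bound one_pos
    filter_upwards [this, eventually_ge_atTop 1] with T hT hT1
    rw [one_mul, Real.rpow_one, Real.norm_of_nonneg (by linarith : (0:ℝ) ≤ T)] at hT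
    exact le_trans (le_abs_self _) hT
  have h2 : ∀ᶠ T : ℝ in atTop, 8 * C * (Real.log T) ^ (3 : ℝ) ≤ T ^ κ := by
    have := (isLittleO_log_rpow_rpow_atTop (3 : ℝ) (s := κ) hκ0).bound
      (show (0:ℝ) < 1 / (8 * C) by positivity)
    filter_upwards [this, eventually_ge_atTop 1] with T hT hT1
    rw [Real.norm_of_nonneg (by positivity : (0:ℝ) ≤ T ^ κ)] at hT
    have h3 := le_trans (le_abs_self _) hT
    rw [div_mul_eq_mul_div, one_mul, le_div_iff₀ (by positivity)] at h3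
    linarith
  have hTθ : ∀ᶠ T : ℝ in atTop, (2:ℝ) ≤ T ^ (1/2 + θ) :=
    (tendsto_rpow_atTop (by linarith : (0:ℝ) < 1/2 + θ)).eventually_ge_atTop 2
  filter_upwards [h1, h2, hTθ, eventually_ge_atTop 1, hlog.eventually_ge_atTop 1] with T hT1 hT2 hY2 hTge hL N hN
  obtain ⟨L, hLdef⟩ : ∃ L : ℝ, L = Real.log T := ⟨_, rfl⟩
  obtain ⟨Y, hYdef⟩ : ∃ Y : ℝ, Y = T ^ (1/2 + θ) := ⟨_, rfl⟩
  rw [← hLdef] at hT1 hT2 hL
  rw [← hYdef] at hY2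
  have hT0 : 0 < T := by linarith
  have hL0 : 0 < L := by linarith
  have hHdef : Hw T = T / L ^ (3/4 : ℝ) := by rw [hLdef]; rfl
  have hH0 : 0 < Hw T := by rw [hHdef]; positivity
  have hH1 : 1 ≤ Hw T := by
    rw [hHdef, le_div_iff₀ (by positivity), one_mul]; exact hT1
  have hYY : T * (N:ℝ) ^ 2 ≤ Y ^ 2 := by
    have e : Y ^ 2 = T * (T ^ θ) ^ 2 := by
      rw [hYdef, ← Real.rpow_natCast, ← Real.rpow_mul hT0.le, ← Real.rpow_natCast (T ^ θ), ← Real.rpow_mul hT0.le]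
      conv_rhs => rw [show T * T ^ (θ * ((2:ℕ):ℝ)) = T ^ (1:ℝ) * T ^ (θ * ((2:ℕ):ℝ)) by rw [Real.rpow_one]]
      rw [← Real.rpow_add hT0]
      congr 1
      push_cast
      ring
    rw [e]
    exact mul_le_mul_of_nonneg_left (pow_le_pow_left₀ (Nat.cast_nonneg N) hN 2) hT0.le
  have hlogY : 1 + Real.log Y ≤ 2 * L := by
    rw [hYdef, Real.log_rpow hT0, ← hLdef]
    nlinarith
  have hlogY0 : 0 ≤ 1 + Real.log Y := by
    have := Real.log_nonneg (by linarith : (1:ℝ) ≤ Y)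
    linarith
  have hYH : Y / Hw T = T ^ (θ - 1/2) * L ^ (3/4 : ℝ) := by
    rw [hHdef, hYdef, div_div_eq_mul_div, mul_div_right_comm, ]
    congr 1
    rw [show (1/2 + θ) = (θ - 1/2) + 1 by ring, Real.rpow_add hT0, Real.rpow_one, mul_div_assoc, div_self hT0.ne', mul_one]
  obtain ⟨hs, hle⟩ := hlat Y (Hw T) hH1 hY2
  obtain ⟨hs', hle'⟩ := q2_reindex T Y (Hw T) N hT0 hYY rfl hs
  refine ⟨hs', hle'.trans (hle.trans ?_)⟩
  have hTn : 0 ≤ T ^ (θ - 1/2) := by positivity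
  have k0 : L ^ (2 : ℝ) ≤ L ^ (3 : ℝ) := Real.rpow_le_rpow_of_exponent_le hL (by norm_num)
  have k1 : Y / Hw T * (1 + Real.log Y) ^ (5/4 : ℝ) ≤ 4 * (T ^ (θ - 1/2) * L ^ (3 : ℝ)) := by
    have e1 : (1 + Real.log Y) ^ (5/4 : ℝ) ≤ 4 * L ^ (5/4 : ℝ) := by
      calc (1 + Real.log Y) ^ (5/4 : ℝ) ≤ (2 * L) ^ (5/4 : ℝ) := Real.rpow_le_rpow hlogY0 hlogY (by norm_num)
        _ = 2 ^ (5/4 : ℝ) * L ^ (5/4 : ℝ) := Real.mul_rpow (by norm_num) hL0.le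
        _ ≤ 4 * L ^ (5/4 : ℝ) := by
            refine mul_le_mul_of_nonneg_right ?_ (by positivity)
            calc (2:ℝ) ^ (5/4 : ℝ) ≤ 2 ^ (2 : ℝ) := Real.rpow_le_rpow_of_exponent_le (by norm_num) (by norm_num)
              _ = 4 := by norm_num
    calc Y / Hw T * (1 + Real.log Y) ^ (5/4 : ℝ) ≤ (T ^ (θ - 1/2) * L ^ (3/4 : ℝ)) * (4 * L ^ (5/4 : ℝ)) := by
          rw [hYH]; exact mul_le_mul_of_nonneg_left e1 (by positivity)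
      _ = 4 * (T ^ (θ - 1/2) * (L ^ (3/4 : ℝ) * L ^ (5/4 : ℝ))) := by ring
      _ = 4 * (T ^ (θ - 1/2) * L ^ (2 : ℝ)) := by rw [← Real.rpow_add hL0]; norm_num
      _ ≤ _ := by
          refine mul_le_mul_of_nonneg_left (mul_le_mul_of_nonneg_left k0 hTn) (by norm_num)
  have k2 : Y * (1 + Real.log Y) ^ 2 / Hw T ^ 2 ≤ 4 * (T ^ (θ - 1/2) * L ^ (3 : ℝ)) := by
    have e0 : Y * (1 + Real.log Y) ^ 2 / Hw T ^ 2 = (Y / Hw T) * ((1 + Real.log Y) ^ 2 / Hw T) := by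
      field_simp
    have e1 : (1 + Real.log Y) ^ 2 / Hw T ≤ 4 * L ^ (2 : ℝ) := by
      rw [div_le_iff₀ hH0]
      calc (1 + Real.log Y) ^ 2 ≤ (2 * L) ^ 2 := pow_le_pow_left₀ hlogY0 hlogY 2
        _ = 4 * L ^ (2:ℝ) * 1 := by rw [show L ^ (2:ℝ) = L ^ 2 by rw [← Real.rpow_natCast]; norm_num]; ring
        _ ≤ 4 * L ^ (2:ℝ) * Hw T := mul_le_mul_of_nonneg_left hH1 (by positivity)
    calc Y * (1 + Real.log Y) ^ 2 / Hw T ^ 2 ≤ (T ^ (θ - 1/2) * L ^ (3/4 : ℝ)) * (4 * L ^ (2 : ℝ)) := by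
          rw [e0, hYH]; exact mul_le_mul_of_nonneg_left e1 (by positivity)
      _ = 4 * (T ^ (θ - 1/2) * (L ^ (3/4 : ℝ) * L ^ (2 : ℝ))) := by ring
      _ = 4 * (T ^ (θ - 1/2) * L ^ (3/4 + 2 : ℝ)) := by rw [← Real.rpow_add hL0]
      _ ≤ _ := by
          refine mul_le_mul_of_nonneg_left (mul_le_mul_of_nonneg_left ?_ hTn) (by norm_num)
          exact Real.rpow_le_rpow_of_exponent_le hL (by norm_num)
  calc C * (Y / Hw T * (1 + Real.log Y) ^ (5/4 : ℝ) + Y * (1 + Real.log Y) ^ 2 / Hw T ^ 2)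
      ≤ C * (4 * (T ^ (θ - 1/2) * L ^ (3 : ℝ)) + 4 * (T ^ (θ - 1/2) * L ^ (3 : ℝ))) :=
        mul_le_mul_of_nonneg_left (add_le_add k1 k2) hC.le
    _ = T ^ (θ - 1/2) * (8 * C * L ^ (3 : ℝ)) := by ring
    _ ≤ T ^ (θ - 1/2) * T ^ κ := mul_le_mul_of_nonneg_left hT2 hTn
    _ = T ^ (-κ) := by
        rw [← Real.rpow_add hT0, hκ]; congr 1; ring

end Pool.Agent.LibOM70
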