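import Pool.Agent.LibOM70B.Defs2
import Pool.Agent.LibM3.Q3

/-! ODD MOMENTS, signed route, row G2a. -/

set_option autoImplicit false

namespace Pool.Agent.LibOM70

open MeasureTheory Set Filter Topology Complex ProbabilityTheory
open scoped NNReal ComplexConjugate
open Pool.Agent.LibZM Pool.Agent.LibM3
open Pool.Agent.LibLaw15 hiding Lam

/-- The density of `N(0,2)`. -/
noncomputable def g2a_r (x : ℝ) : ℝ := 1 / (2 * √Real.pi) * Real.exp (-x ^ 2 / 4)

theorem g2a_r_norm (x : ℝ) : ‖a1_g 0 x‖ = g2a_r x := by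
  rw [← a1_gR_eq, Complex.norm_real, Real.norm_of_nonneg (a1_gR_nonneg x)]
  rfl

theorem g2a_r_exp (A : ℝ) : Integrable (fun x : ℝ => g2a_r x * Real.exp (A * x)) := by
  refine (a1_norm_exp_int 0 A).congr (Eventually.of_forall fun x => ?_)
  simp only
  rw [g2a_r_norm]

theorem g2a_r_cont : Continuous g2a_r := by
  unfold g2a_r
  fun_prop

theorem g2a_r_id : Integrable (fun x : ℝ => g2a_r x * x) := by
  have h := (g2a_r_exp 1).add (g2a_r_exp (-1))
  refine h.mono' (g2a_r_cont.mul continuous_id).aestronglyMeasurable (Eventually.of_forall fun x => ?_)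
  have h0 : 0 ≤ g2a_r x := a1_gR_nonneg x
  simp only [Pi.add_apply]
  rw [norm_mul, Real.norm_of_nonneg h0, Real.norm_eq_abs, ← mul_add]
  apply mul_le_mul_of_nonneg_left _ h0
  rw [one_mul, neg_one_mul]
  rcases abs_cases x with ⟨h1, _⟩ | ⟨h1, _⟩
  · rw [h1]
    linarith [Real.add_one_le_exp x, Real.exp_pos (-x)]
  · rw [h1]
    linarith [Real.add_one_le_exp (-x), Real.exp_pos x]

theorem g2a_mean : ∫ x : ℝ, g2a_r x * x = 0 := by
  have h := integral_neg_eq_self (fun x : ℝ => g2a_r x * x) volume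
  have h2 : (fun x : ℝ => g2a_r (-x) * (-x)) = fun x => -(g2a_r x * x) := by
    funext x
    unfold g2a_r
    rw [neg_sq]
    ring
  rw [h2, integral_neg] at h
  linarith

theorem g2a_harm (n : ℕ) : (harmonic n : ℝ) = ∑ j ∈ Finset.Icc 1 n, (j:ℝ)⁻¹ := by
  induction n with
  | zero => simp
  | succ n ih =>
    rw [harmonic_succ, Finset.sum_Icc_succ_top (by omega), ← ih]
    push_cast
    ring

/-- Harmonic sum up to `exp (L/2)`. -/
theorem g2a_point (L : ℝ) :
    |(∑ j ∈ Finset.Icc 1 ⌊Real.exp (L / 2)⌋₊, (j:ℝ)⁻¹) - (L / 2 + Real.eulerMascheroniConstant)| ≤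
      2 * Real.exp (-(L / 4)) := by
  have hg1 := Real.one_half_lt_eulerMascheroniConstant
  have hg2 := Real.eulerMascheroniConstant_lt_two_thirds
  rw [← g2a_harm]
  have hJ : 0 < Real.exp (L / 2) := Real.exp_pos _
  rcases lt_or_ge L 0 with hL | hL
  · have h1 : ⌊Real.exp (L / 2)⌋₊ = 0 := by
      rw [Nat.floor_eq_zero]
      rw [Real.exp_lt_one_iff]
      linarith
    rw [h1, harmonic_zero]
    have h2 := Real.add_one_le_exp (-(L / 4))
    rw [abs_le]
    constructor <;> push_cast <;> linarith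
  · have hJ1 : 1 ≤ Real.exp (L / 2) := Real.one_le_exp (by linarith)
    set n := ⌊Real.exp (L / 2)⌋₊ with hn
    have hn1 : 1 ≤ n := Nat.le_floor (by exact_mod_cast hJ1)
    have hnJ : (n:ℝ) ≤ Real.exp (L / 2) := Nat.floor_le hJ.le
    have hJn : Real.exp (L / 2) < n + 1 := Nat.lt_floor_add_one _
    have hn0 : (0:ℝ) < n := by exact_mod_cast hn1
    have h3 := Real.eulerMascheroniSeq_lt_eulerMascheroniConstant n
    have h4 := Real.eulerMascheroniConstant_lt_eulerMascheroniSeq' n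
    rw [Real.eulerMascheroniSeq] at h3
    rw [Real.eulerMascheroniSeq', if_neg (by omega)] at h4
    have h5 : Real.log ((n:ℝ) + 1) - Real.log n ≤ 1 / n := by
      rw [← Real.log_div (by positivity) hn0.ne']
      have : ((n:ℝ) + 1) / n = 1 + 1 / n := by field_simp
      rw [this]
      have := Real.log_le_sub_one_of_pos (show (0:ℝ) < 1 + 1 / n by positivity)
      linarith
    have h6 : Real.log n ≤ L / 2 := by
      have := Real.log_le_log hn0 hnJ
      rwa [Real.log_exp] at this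
    have h7 : L / 2 ≤ Real.log ((n:ℝ) + 1) := by
      have := Real.log_le_log hJ hJn.le
      rwa [Real.log_exp] at this
    have h8 : 1 / (n:ℝ) ≤ 2 * Real.exp (-(L / 4)) := by
      have h9 : Real.exp (L / 2) ≤ 2 * n := by
        have : (1:ℝ) ≤ n := by exact_mod_cast hn1
        linarith
      have h10 : 1 / (n:ℝ) ≤ 2 * Real.exp (-(L / 2)) := by
        rw [Real.exp_neg, div_le_iff₀ hn0]
        have : 1 = (Real.exp (L / 2))⁻¹ * Real.exp (L / 2) := by field_simp
        have h11 : (Real.exp (L / 2))⁻¹ * Real.exp (L / 2) ≤ (Real.exp (L / 2))⁻¹ * (2 * n) :=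
          mul_le_mul_of_nonneg_left h9 (by positivity)
        linarith
      have h12 : Real.exp (-(L / 2)) ≤ Real.exp (-(L / 4)) := Real.exp_le_exp.2 (by linarith)
      linarith
    rw [abs_le]
    constructor <;> linarith

/-- ROW G2a. The exact diagonal sum.
PROOF. `PhR l = P(X ≤ l)`, `X ~ N(0,2)`, so `∑_j j⁻¹ PhR (log z - 2 log j) = E[H(J)]`, `J = exp ((log z - X)/2)`, `H(J) = ∑_{1 ≤ j ≤ J} 1/j` (`= log J + γ + O(1/J)` for `J ≥ 1`, `0` for `J < 1`; Mathlib: `harmonic`,
`Real.eulerMascheroniConstant`, e.g. `|harmonic n - log n - γ| ≤ 1/n`, then `log` of the floor). `E (log z - X)/2 = (log z)/2`; the event `J < 1` is `X > log z`: `E[(|log J| + 1) 1_{X > log z}] ≤ C z^{-1/2}`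
(`1_{X > log z} ≤ exp ((X - log z)/2)`), and `E[1/J] = z^{-1/2} E e^{X/2} = z^{-1/2} e^{1/4}`. The interchange of sum and integral: nonnegative terms (`q3_point` in LibM3/Q3 gives the summability). -/
theorem diag_point : ∃ C : ℝ, 0 < C ∧ ∀ z : ℝ, 1 ≤ z →
    |2 * ∑' j : ℕ, (j:ℝ)⁻¹ * PhR (Real.log z - 2 * Real.log j) - Real.log z - 2 * Real.eulerMascheroniConstant| ≤ C * z ^ (-(1/4) : ℝ) := by
  obtain ⟨C0, hC0, hPh⟩ := q3_PhR
  have hint0 : 0 ≤ ∫ x : ℝ, g2a_r x * Real.exp (1/4 * x) :=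
    integral_nonneg fun x => mul_nonneg (a1_gR_nonneg x) (Real.exp_pos _).le
  refine ⟨4 * (∫ x : ℝ, g2a_r x * Real.exp (1/4 * x)) + 1, by positivity, ?_⟩
  intro z hz
  have hz0 : 0 < z := by linarith
  have hr0 : ∀ x, 0 ≤ g2a_r x := fun x => a1_gR_nonneg x
  have hrint : Integrable g2a_r := a1_gR_int
  set F : ℕ → ℝ → ℝ := fun j x => (j:ℝ)⁻¹ * (Iic (Real.log z - 2 * Real.log j)).indicator g2a_r x with hF
  have hF0 : ∀ j x, 0 ≤ F j x := fun j x =>
    mul_nonneg (by positivity) (indicator_nonneg (fun y _ => hr0 y) x)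
  have hFint : ∀ j, Integrable (F j) := fun j => (hrint.indicator measurableSet_Iic).const_mul _
  have hFI : ∀ j, ∫ x, F j x = (j:ℝ)⁻¹ * PhR (Real.log z - 2 * Real.log j) := by
    intro j
    rw [hF]
    simp only
    rw [integral_const_mul, integral_indicator measurableSet_Iic]
    rfl
  have hsum : Summable (fun j : ℕ => ∫ x, ‖F j x‖) := by
    have e : (fun j : ℕ => ∫ x, ‖F j x‖) = fun j : ℕ => (j:ℝ)⁻¹ * PhR (Real.log z - 2 * Real.log j) := by
      funext j
      rw [← hFI j]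
      apply integral_congr_ae
      exact Eventually.of_forall fun x => Real.norm_of_nonneg (hF0 j x)
    rw [e]
    have hs : Summable (fun j : ℕ => (C0 * z) * (1 / (j:ℝ) ^ 2)) :=
      (Real.summable_one_div_nat_pow.2 (by norm_num)).mul_left _
    refine Summable.of_nonneg_of_le (fun j => mul_nonneg (by positivity) (PhR_mem _).1) (fun j => ?_) hs
    rcases Nat.eq_zero_or_pos j with hj | hj
    · subst hj
      simp
    · have hj0 : (0:ℝ) < j := by exact_mod_cast hj
      have hj1 : (1:ℝ) ≤ j := by exact_mod_cast hj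
      have h1 := (hPh (Real.log z - 2 * Real.log j)).1
      have h2 : Real.exp (Real.log z - 2 * Real.log j) = z / (j:ℝ) ^ 2 := by
        rw [Real.exp_sub, Real.exp_log hz0, two_mul, Real.exp_add, Real.exp_log hj0, pow_two]
      rw [h2] at h1
      have h3 : (j:ℝ)⁻¹ ≤ 1 := inv_le_one_of_one_le₀ hj1
      calc (j:ℝ)⁻¹ * PhR (Real.log z - 2 * Real.log j) ≤ 1 * (C0 * (z / (j:ℝ) ^ 2)) :=
            mul_le_mul h3 h1 (PhR_mem _).1 zero_le_one
        _ = C0 * z * (1 / (j:ℝ) ^ 2) := by ring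
  have hHS := hasSum_integral_of_summable_integral_norm hFint hsum
  have htsum : ∑' j : ℕ, (j:ℝ)⁻¹ * PhR (Real.log z - 2 * Real.log j) = ∫ x, ∑' j, F j x := by
    rw [← hHS.tsum_eq]
    exact tsum_congr fun j => (hFI j).symm
  have hpt : ∀ x, ∑' j, F j x = g2a_r x * ∑ j ∈ Finset.Icc 1 ⌊Real.exp ((Real.log z - x) / 2)⌋₊, (j:ℝ)⁻¹ := by
    intro x
    rw [tsum_eq_sum (s := Finset.Icc 1 ⌊Real.exp ((Real.log z - x) / 2)⌋₊), Finset.mul_sum]
    · apply Finset.sum_congr rfl
      intro j hj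
      rw [Finset.mem_Icc] at hj
      have hj0 : (0:ℝ) < j := by exact_mod_cast hj.1
      have h1 : (j:ℝ) ≤ Real.exp ((Real.log z - x) / 2) := (Nat.le_floor_iff (Real.exp_pos _).le).1 hj.2
      have h2 : Real.log j ≤ (Real.log z - x) / 2 := by
        have := Real.log_le_log hj0 h1
        rwa [Real.log_exp] at this
      have h3 : x ∈ Iic (Real.log z - 2 * Real.log j) := by
        show x ≤ _
        linarith
      rw [hF]
      simp only
      rw [indicator_of_mem h3, mul_comm]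
    · intro j hj
      rw [Finset.mem_Icc, not_and_or] at hj
      rw [hF]
      simp only
      rcases Nat.eq_zero_or_pos j with h0 | h0
      · subst h0
        simp
      · have hj0 : (0:ℝ) < j := by exact_mod_cast h0
        rw [indicator_of_notMem, mul_zero]
        intro hx
        have hx' : x ≤ Real.log z - 2 * Real.log j := hx
        rcases hj with hj | hj
        · omega
        · apply hj
          apply Nat.le_floor
          rw [← Real.log_le_iff_le_exp hj0]
          linarith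
  have hlin : Integrable (fun x => g2a_r x * ((Real.log z - x) / 2 + Real.eulerMascheroniConstant)) := by
    have h1 := (hrint.mul_const (Real.log z / 2 + Real.eulerMascheroniConstant)).sub (g2a_r_id.div_const 2)
    refine h1.congr (Eventually.of_forall fun x => ?_)
    simp only [Pi.sub_apply]
    ring
  have hlinI : ∫ x, g2a_r x * ((Real.log z - x) / 2 + Real.eulerMascheroniConstant) =
      Real.log z / 2 + Real.eulerMascheroniConstant := by
    have e : (fun x => g2a_r x * ((Real.log z - x) / 2 + Real.eulerMascheroniConstant)) =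
        fun x => g2a_r x * (Real.log z / 2 + Real.eulerMascheroniConstant) - (g2a_r x * x) / 2 := by
      funext x
      ring
    rw [e, integral_sub (hrint.mul_const _) (g2a_r_id.div_const 2), integral_mul_const, integral_div, g2a_mean]
    have h1 : ∫ x : ℝ, g2a_r x = 1 := a1_gR_total
    rw [h1]
    ring
  have hz4 : z ^ (-(1/4) : ℝ) = Real.exp (-(Real.log z / 4)) := by
    rw [Real.rpow_def_of_pos hz0]
    congr 1
    ring
  have hdom : ∀ x, g2a_r x * |(∑ j ∈ Finset.Icc 1 ⌊Real.exp ((Real.log z - x) / 2)⌋₊, (j:ℝ)⁻¹) -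
      ((Real.log z - x) / 2 + Real.eulerMascheroniConstant)| ≤ g2a_r x * Real.exp (1/4 * x) * (2 * z ^ (-(1/4) : ℝ)) := by
    intro x
    rw [mul_assoc]
    apply mul_le_mul_of_nonneg_left _ (hr0 x)
    have h1 := g2a_point (Real.log z - x)
    have h2 : Real.exp (-((Real.log z - x) / 4)) = Real.exp (1/4 * x) * z ^ (-(1/4) : ℝ) := by
      rw [hz4, ← Real.exp_add]
      congr 1
      ring
    rw [h2] at h1
    linarith
  have hmain : Integrable (fun x => g2a_r x * ∑ j ∈ Finset.Icc 1 ⌊Real.exp ((Real.log z - x) / 2)⌋₊, (j:ℝ)⁻¹) := by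
    have hb := hlin.norm.add ((g2a_r_exp (1/4)).mul_const (2 * z ^ (-(1/4) : ℝ)))
    have hmeas : Measurable (fun x => ∑ j ∈ Finset.Icc 1 ⌊Real.exp ((Real.log z - x) / 2)⌋₊, (j:ℝ)⁻¹) := by
      have h1 : Measurable (fun x : ℝ => ⌊Real.exp ((Real.log z - x) / 2)⌋₊) :=
        Nat.measurable_floor.comp (by fun_prop)
      exact (measurable_from_top (f := fun n : ℕ => ∑ j ∈ Finset.Icc 1 n, (j:ℝ)⁻¹)).comp h1
    refine hb.mono' (g2a_r_cont.measurable.mul hmeas).aestronglyMeasurable (Eventually.of_forall fun x => ?_)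
    simp only [Pi.add_apply]
    have h1 := hdom x
    have h2 : g2a_r x * ∑ j ∈ Finset.Icc 1 ⌊Real.exp ((Real.log z - x) / 2)⌋₊, (j:ℝ)⁻¹ =
        g2a_r x * ((Real.log z - x) / 2 + Real.eulerMascheroniConstant) +
        g2a_r x * ((∑ j ∈ Finset.Icc 1 ⌊Real.exp ((Real.log z - x) / 2)⌋₊, (j:ℝ)⁻¹) -
          ((Real.log z - x) / 2 + Real.eulerMascheroniConstant)) := by ring
    rw [h2]
    refine (norm_add_le _ _).trans (add_le_add le_rfl ?_)
    rw [norm_mul, Real.norm_of_nonneg (hr0 x), Real.norm_eq_abs]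
    exact h1
  have hdiff : |(∫ x, ∑' j, F j x) - (Real.log z / 2 + Real.eulerMascheroniConstant)| ≤
      2 * (∫ x : ℝ, g2a_r x * Real.exp (1/4 * x)) * z ^ (-(1/4) : ℝ) := by
    have e1 : (∫ x, ∑' j, F j x) = ∫ x, g2a_r x * ∑ j ∈ Finset.Icc 1 ⌊Real.exp ((Real.log z - x) / 2)⌋₊, (j:ℝ)⁻¹ :=
      integral_congr_ae (Eventually.of_forall hpt)
    rw [e1, ← hlinI, ← integral_sub hmain hlin, ← Real.norm_eq_abs]
    have e2 : 2 * (∫ x : ℝ, g2a_r x * Real.exp (1/4 * x)) * z ^ (-(1/4) : ℝ) =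
        ∫ x : ℝ, (g2a_r x * Real.exp (1/4 * x)) * (2 * z ^ (-(1/4) : ℝ)) := by
      rw [integral_mul_const]
      ring
    rw [e2]
    apply norm_integral_le_of_norm_le ((g2a_r_exp (1/4)).mul_const _)
    refine Eventually.of_forall fun x => ?_
    rw [← mul_sub, norm_mul, Real.norm_of_nonneg (hr0 x), Real.norm_eq_abs]
    exact hdom x
  have hzpos : 0 < z ^ (-(1/4) : ℝ) := Real.rpow_pos_of_pos hz0 _
  rw [htsum]
  have h3 : 2 * (∫ x, ∑' j, F j x) - Real.log z - 2 * Real.eulerMascheroniConstant =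
      2 * ((∫ x, ∑' j, F j x) - (Real.log z / 2 + Real.eulerMascheroniConstant)) := by ring
  rw [h3, abs_mul, abs_two]
  nlinarith

end Pool.Agent.LibOM70
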