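import Pool.Agent.LibOM70B.Defs2
import Pool.Agent.LibM3.Q1

/-! ODD MOMENTS, signed route, row G2b. -/

set_option autoImplicit false

namespace Pool.Agent.LibOM70

open MeasureTheory Set Filter Topology Complex ProbabilityTheory
open scoped NNReal ComplexConjugate
open Pool.Agent.LibZM Pool.Agent.LibM3
open Pool.Agent.LibLaw15 hiding Lam

/-- Chernoff bound for the complement of the window. -/
private lemma g2b_tail {u : ℝ} (hu : 0 < u) {v : ℝ≥0} (hv : 0 < (v:ℝ)) :
    ((gaussianReal u v) (win u)ᶜ).toReal ≤ 2 * Real.exp (-(u / 2) ^ 2 / (2 * v)) := by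
  set R : ℝ := u / 2 with hR
  have hR0 : 0 < R := by positivity
  have h1 : (gaussianReal u v).real {x | u + R ≤ id x} ≤ Real.exp (-R ^ 2 / (2 * v)) := by
    refine (measure_ge_le_exp_mul_mgf (X := id) (t := R / v) (u + R) (by positivity)
      (integrable_exp_mul_gaussianReal _)).trans (le_of_eq ?_)
    rw [mgf_id_gaussianReal]
    simp only
    rw [← Real.exp_add]
    congr 1
    field_simp
    ring
  have h2 : (gaussianReal u v).real {x | id x ≤ u - R} ≤ Real.exp (-R ^ 2 / (2 * v)) := by
    refine (measure_le_le_exp_mul_mgf (X := id) (t := -(R / v)) (u - R)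
      (neg_nonpos.2 (by positivity)) (integrable_exp_mul_gaussianReal _)).trans (le_of_eq ?_)
    rw [mgf_id_gaussianReal]
    simp only
    rw [← Real.exp_add]
    congr 1
    field_simp
    ring
  have hsub : (win u)ᶜ ⊆ {x | u + R ≤ id x} ∪ {x | id x ≤ u - R} := by
    intro x hx
    rw [win, mem_compl_iff, mem_Icc, not_and_or, not_le, not_le] at hx
    rcases hx with h | h
    · right
      change x ≤ u - R
      linarith
    · left
      change u + R ≤ x
      linarith
  have h3 : (gaussianReal u v).real (win u)ᶜ ≤ (gaussianReal u v).real {x | u + R ≤ id x} +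
      (gaussianReal u v).real {x | id x ≤ u - R} :=
    (measureReal_mono hsub).trans (measureReal_union_le _ _)
  change (gaussianReal u v).real (win u)ᶜ ≤ _
  linarith

private lemma g2b_ev {a : ℝ} (ha : 0 < a) : ∀ᶠ L : ℝ in atTop,
    2 * Real.exp (-(a * L ^ (3/2 : ℝ))) ≤ Real.exp (-L) := by
  filter_upwards [eventually_ge_atTop (1:ℝ),
    (tendsto_rpow_atTop (by norm_num : (0:ℝ) < 1/2)).eventually_ge_atTop (2 / a)] with L hL hL2
  have hL0 : 0 < L := by linarith
  have e1 : L ^ (3/2 : ℝ) = L ^ (1/2 : ℝ) * L := by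
    nth_rewrite 3 [← Real.rpow_one L]
    rw [← Real.rpow_add hL0]
    norm_num
  have e2 : 2 * L ≤ a * L ^ (3/2 : ℝ) := by
    rw [e1, ← mul_assoc]
    refine mul_le_mul_of_nonneg_right ?_ hL0.le
    rw [div_le_iff₀ ha] at hL2
    linarith
  have e3 : (2:ℝ) ≤ Real.exp L := by
    have := Real.add_one_le_exp L
    linarith
  calc 2 * Real.exp (-(a * L ^ (3/2 : ℝ))) ≤ Real.exp L * Real.exp (-(2 * L)) := by
        refine mul_le_mul e3 (Real.exp_le_exp.2 (by linarith)) (Real.exp_pos _).le
          (Real.exp_pos _).le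
    _ = Real.exp (-L) := by rw [← Real.exp_add]; congr 1; ring

/-- ROW G2b. The mass outside the window is negligible (Gaussian tail `2 exp (-u²/(8 Hw²))`, `u ≥ η T`, `Hw T = T/(log T)^{3/4}`: `u²/(8 Hw²) ≥ (η²/8) (log T)^{3/2}`). Also a bound for `mW`. -/
theorem mass_exact {η : ℝ} (hη : 0 < η) : ∃ C : ℝ, 0 < C ∧ ∀ᶠ P : ℝ × ℝ in Fl η,
    1 - ((gaussianReal P.2 (vw P.1)) (win P.2)).toReal ≤ P.1 ^ (-1 : ℝ) ∧ |mW P - Real.log P.1| ≤ C := by
  set C0 : ℝ := |Real.log (η / (4 * Real.pi))| + |Real.log (1 / Real.pi)| +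
    2 * |Real.eulerMascheroniConstant| with hC0
  have hC00 : 0 ≤ C0 := by positivity
  refine ⟨C0 + 1, by positivity, ?_⟩
  rw [Fl_iff]
  have hlog : Tendsto Real.log atTop atTop := Real.tendsto_log_atTop
  filter_upwards [eventually_gt_atTop 1, hlog.eventually_ge_atTop 1,
    hlog.eventually (g2b_ev (a := η ^ 2 / 8) (by positivity))] with T hT hL hL2 u hu1 hu2
  have hT0 : 0 < T := by linarith
  have hL0 : 0 < Real.log T := by linarith
  have hu0 : 0 < u := lt_of_lt_of_le (by positivity) hu1
  have hH0 : 0 < Hw T := by unfold Hw; positivity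
  have hvr : ((vw T : ℝ≥0) : ℝ) = Hw T ^ 2 := by rw [vw, Real.coe_toNNReal _ (by positivity)]
  have hv0 : 0 < ((vw T : ℝ≥0) : ℝ) := by rw [hvr]; positivity
  have hm : MeasurableSet (win u) := measurableSet_Icc
  have h3 : ((gaussianReal u (vw T)) (win u)ᶜ).toReal = 1 - ((gaussianReal u (vw T)) (win u)).toReal := by
    rw [measure_compl hm (measure_ne_top _ _), measure_univ, ENNReal.toReal_sub_of_le prob_le_one ENNReal.one_ne_top]
    simp
  have hTinv : T ^ (-1 : ℝ) = Real.exp (-Real.log T) := by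
    rw [Real.rpow_def_of_pos hT0]; congr 1; ring
  have hmass : 1 - ((gaussianReal u (vw T)) (win u)).toReal ≤ T ^ (-1 : ℝ) := by
    rw [← h3, hTinv]
    refine (g2b_tail hu0 hv0).trans (le_trans ?_ hL2)
    refine mul_le_mul_of_nonneg_left (Real.exp_le_exp.2 ?_) (by norm_num)
    rw [neg_div, neg_le_neg_iff, hvr]
    have e2 : Hw T ^ 2 = T ^ 2 / Real.log T ^ (3/2 : ℝ) := by
      unfold Hw
      have e5 : (Real.log T ^ (3/4 : ℝ)) ^ 2 = Real.log T ^ (3/2 : ℝ) := by
        rw [← Real.rpow_natCast, ← Real.rpow_mul hL0.le]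
        norm_num
      rw [div_pow, e5]
    have e3 : η ^ 2 / 8 * Real.log T ^ (3/2 : ℝ) * (2 * Hw T ^ 2) = (η * T / 2) ^ 2 := by
      rw [e2]
      have : (0:ℝ) < Real.log T ^ (3/2 : ℝ) := by positivity
      field_simp
      ring
    rw [le_div_iff₀ (by positivity), e3]
    exact pow_le_pow_left₀ (by positivity) (by linarith) 2
  refine ⟨hmass, ?_⟩
  change |mW (T, u) - Real.log T| ≤ C0 + 1
  set μ := gaussianReal u (vw T) with hμ
  have hpi := Real.pi_pos
  set f : ℝ → ℝ := fun t => Real.log (t / (2 * Real.pi)) + 2 * Real.eulerMascheroniConstant with hf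
  have hfc : ContinuousOn f (win u) := by
    intro t ht
    have ht0 : 0 < t := lt_of_lt_of_le (by positivity) ht.1
    refine ContinuousAt.continuousWithinAt ?_
    refine ContinuousAt.add (ContinuousAt.log ?_ (by positivity)) continuousAt_const
    fun_prop
  have hfi : IntegrableOn f (win u) μ := hfc.integrableOn_compact isCompact_Icc
  have hpt : ∀ t ∈ win u, ‖f t - Real.log T‖ ≤ C0 := by
    intro t ht
    have ht1 : u / 2 ≤ t := ht.1
    have ht2 : t ≤ 2 * u := ht.2
    have ht0 : 0 < t := lt_of_lt_of_le (by positivity) ht1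
    have e1 : Real.log (t / (2 * Real.pi)) - Real.log T = Real.log (t / (2 * Real.pi) / T) :=
      (Real.log_div (by positivity) (by positivity)).symm
    have e2 : η / (4 * Real.pi) ≤ t / (2 * Real.pi) / T := by
      rw [div_div, div_le_div_iff₀ (by positivity) (by positivity)]
      nlinarith
    have e3 : t / (2 * Real.pi) / T ≤ 1 / Real.pi := by
      rw [div_div, div_le_div_iff₀ (by positivity) (by positivity)]
      nlinarith
    have e4 := Real.log_le_log (by positivity) e2
    have e5 := Real.log_le_log (by positivity) e3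
    have e6 := neg_abs_le (Real.log (η / (4 * Real.pi)))
    have e7 := le_abs_self (Real.log (1 / Real.pi))
    have e8 := neg_abs_le Real.eulerMascheroniConstant
    have e9 := le_abs_self Real.eulerMascheroniConstant
    have e10 : f t - Real.log T = Real.log (t / (2 * Real.pi) / T) + 2 * Real.eulerMascheroniConstant := by
      rw [← e1, hf]; ring
    have e11 := abs_nonneg (Real.log (1 / Real.pi))
    have e12 := abs_nonneg (Real.log (η / (4 * Real.pi)))
    rw [Real.norm_eq_abs, e10, abs_le]
    constructor <;> rw [hC0] <;> linarith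
  have h4 : ‖∫ t in win u, (f t - Real.log T) ∂μ‖ ≤ C0 * μ.real (win u) :=
    norm_setIntegral_le_of_norm_le_const (measure_lt_top _ _) hpt
  have h5 : μ.real (win u) ≤ 1 := by
    have h := measureReal_mono (μ := μ) (subset_univ (win u))
    rwa [probReal_univ] at h
  have h6 : ∫ t in win u, (f t - Real.log T) ∂μ = mW (T, u) - μ.real (win u) * Real.log T := by
    rw [integral_sub hfi (integrable_const _), setIntegral_const, smul_eq_mul]
    rfl
  rw [h6] at h4
  have h7 : |mW (T, u) - μ.real (win u) * Real.log T| ≤ C0 := by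
    rw [← Real.norm_eq_abs]
    refine h4.trans ?_
    calc C0 * μ.real (win u) ≤ C0 * 1 := mul_le_mul_of_nonneg_left h5 hC00
      _ = C0 := mul_one _
  have h8 : 1 - μ.real (win u) ≤ T ^ (-1 : ℝ) := hmass
  have h9 : T ^ (-1 : ℝ) * Real.log T ≤ 1 := by
    rw [Real.rpow_neg_one]
    have := Real.log_le_self hT0.le
    calc T⁻¹ * Real.log T ≤ T⁻¹ * T := mul_le_mul_of_nonneg_left this (by positivity)
      _ = 1 := by field_simp
  have h10 : (1 - μ.real (win u)) * Real.log T ≤ 1 :=
    (mul_le_mul_of_nonneg_right h8 hL0.le).trans h9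
  have h11 : 0 ≤ (1 - μ.real (win u)) * Real.log T := mul_nonneg (by linarith) hL0.le
  have h12 : mW (T, u) - Real.log T =
      (mW (T, u) - μ.real (win u) * Real.log T) - (1 - μ.real (win u)) * Real.log T := by ring
  rw [h12, abs_le]
  rw [abs_le] at h7
  constructor <;> linarith [h7.1, h7.2]

end Pool.Agent.LibOM70
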