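import Pool.Agent.LibOM70B.G2a
import Pool.Agent.LibOM70B.G2b
import Pool.Agent.LibM3.Q4

/-! ODD MOMENTS, signed route, row G2c. -/

set_option autoImplicit false

namespace Pool.Agent.LibOM70

open MeasureTheory Set Filter Topology Complex ProbabilityTheory
open scoped NNReal ComplexConjugate
open Pool.Agent.LibZM Pool.Agent.LibM3
open Pool.Agent.LibLaw15 hiding Lam

/-- ROW G2c. The diagonal sum over the window: average `diag_point` with `z = t/(2π x)` over the window (`t ≥ η T/2`, `x ≤ T^{2θ}`, so `z ≥ T^{(1-2θ)/2}` for large `T`); interchange of `∑_j` and `∫` by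
nonnegativity (`diag_sum` in LibM3/Q3 has the summability); `log x` times the missing mass is negligible (`mass_exact`). -/
theorem diag_exact {η : ℝ} (hη : 0 < η) {θ : ℝ} (hθ0 : 0 < θ) (hθ : θ < 1/2) : ∃ C κ : ℝ, 0 < C ∧ 0 < κ ∧ ∀ᶠ P : ℝ × ℝ in Fl η, ∀ x : ℝ, 1 ≤ x → x ≤ P.1 ^ (2 * θ) →
    Summable (fun j : ℕ => (j:ℝ)⁻¹ * q4_Jr P.1 P.2 ((j:ℝ) ^ 2 * x)) ∧
    |2 * ∑' j : ℕ, (j:ℝ)⁻¹ * q4_Jr P.1 P.2 ((j:ℝ) ^ 2 * x) - (mW P - Real.log x)| ≤ C * P.1 ^ (-κ) := by
  obtain ⟨C₀, hC₀, hPh⟩ := q3_PhR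
  obtain ⟨C₁, hC₁, hdp⟩ := diag_point
  obtain ⟨C₂, hC₂, hmass⟩ := mass_exact hη
  obtain ⟨C₃, hC₃, hpt⟩ := q3_point
  set κ : ℝ := (1 - 2 * θ) / 4 with hκ
  have hκ0 : 0 < κ := by rw [hκ]; linarith
  have hκ1 : κ < 1 / 4 := by rw [hκ]; linarith
  have hpi : 0 < Real.pi := Real.pi_pos
  set E : ℝ := (η / (4 * Real.pi)) ^ (-(1/4) : ℝ) with hE
  have hE0 : 0 < E := by rw [hE]; positivity
  refine ⟨C₁ * E + 1, κ, by positivity, hκ0, ?_⟩
  rw [Fl_iff] at hmass ⊢
  have hlog : Tendsto Real.log atTop atTop := Real.tendsto_log_atTop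
  have hlo : ∀ᶠ T : ℝ in atTop, Real.log T ≤ T ^ (1 - κ) := by
    have h1 := (isLittleO_log_rpow_atTop (by linarith : (0:ℝ) < 1 - κ)).bound (one_pos)
    filter_upwards [h1, eventually_ge_atTop 1] with T hT hT1
    rw [Real.norm_eq_abs, Real.norm_eq_abs, one_mul, abs_of_nonneg (Real.log_nonneg hT1), abs_of_nonneg (by positivity)] at hT
    exact hT
  have hbig : ∀ᶠ T : ℝ in atTop, 4 * Real.pi / η ≤ T ^ (1 - 2 * θ) :=
    (tendsto_rpow_atTop (by linarith : (0:ℝ) < 1 - 2 * θ)).eventually_ge_atTop _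
  filter_upwards [hmass, eventually_gt_atTop 1, hlog.eventually_ge_atTop 1, hlo, hbig] with T hm hT hL hlT hbT u hu1 hu2 x hx hxT
  have hm' := (hm u hu1 hu2).1
  clear hm hmass
  have hT0 : 0 < T := by linarith
  have hL0 : 0 < Real.log T := by linarith
  have hu0 : 0 < u := lt_of_lt_of_le (by positivity) hu1
  have hx0 : 0 < x := by linarith
  set γ := gaussianReal u (vw T) with hγ
  set μ := γ.restrict (win u) with hμ
  have hwm : MeasurableSet (win u) := measurableSet_Icc
  have hwin : ∀ t ∈ win u, 0 < t := by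
    intro t ht
    rw [win, mem_Icc] at ht
    linarith [ht.1]
  set g : ℕ → ℝ → ℝ := fun j t => (j:ℝ)⁻¹ * PhR (Real.log (t / (2 * Real.pi)) - Real.log ((j:ℝ) ^ 2 * x)) with hg
  have hgz : ∀ j, ∀ t, 0 < t → g j t = (j:ℝ)⁻¹ * PhR (Real.log (t / (2 * Real.pi * x)) - 2 * Real.log j) := by
    intro j t ht
    rcases Nat.eq_zero_or_pos j with rfl | hj
    · simp [hg]
    have hj0 : (0:ℝ) < j := by exact_mod_cast hj
    simp only [hg]
    congr 2
    rw [Real.log_mul (by positivity) hx0.ne', Real.log_pow, Real.log_div ht.ne' (by positivity), Real.log_div ht.ne' (by positivity),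
      Real.log_mul (by positivity) hx0.ne']
    push_cast; ring
  have hg0 : ∀ j t, 0 ≤ g j t := fun j t => mul_nonneg (by positivity) (PhR_mem _).1
  have hPm : Measurable PhR := PhR_mono.measurable
  have hgm : ∀ j, Measurable (g j) := by
    intro j
    refine Measurable.const_mul (hPm.comp ?_) _
    exact (Real.measurable_log.comp (measurable_id.div_const _)).sub_const _
  have hgle : ∀ j, ∀ t ∈ win u, g j t ≤ C₀ * u * ((j:ℝ) ^ 2)⁻¹ := by
    intro j t ht
    rcases Nat.eq_zero_or_pos j with rfl | hj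
    · simp [hg]
    have hj0 : (0:ℝ) < j := by exact_mod_cast hj
    have hj1 : (1:ℝ) ≤ j := by exact_mod_cast hj
    have ht0 := hwin t ht
    rw [hgz j t ht0]
    have h1 := (hPh (Real.log (t / (2 * Real.pi * x)) - 2 * Real.log j)).1
    have e1 : Real.exp (Real.log (t / (2 * Real.pi * x)) - 2 * Real.log j) = (t / (2 * Real.pi * x)) * ((j:ℝ) ^ 2)⁻¹ := by
      have e0 : Real.exp (2 * Real.log j) = (j:ℝ) ^ 2 := by
        rw [mul_comm, Real.exp_mul, Real.exp_log hj0]; norm_num
      rw [Real.exp_sub, Real.exp_log (by positivity), e0, div_eq_mul_inv]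
    rw [e1] at h1
    have h2 : t / (2 * Real.pi * x) ≤ u := by
      rw [win, mem_Icc] at ht
      rw [div_le_iff₀ (by positivity)]
      have : 1 ≤ Real.pi := by linarith [Real.pi_gt_three]
      nlinarith [ht.2, mul_pos hu0 hpi, mul_le_mul this hx zero_le_one (by positivity)]
    calc (j:ℝ)⁻¹ * PhR _ ≤ 1 * PhR _ := mul_le_mul_of_nonneg_right (inv_le_one_of_one_le₀ hj1) (PhR_mem _).1
      _ ≤ C₀ * (t / (2 * Real.pi * x) * ((j:ℝ) ^ 2)⁻¹) := by rw [one_mul]; exact h1
      _ ≤ C₀ * (u * ((j:ℝ) ^ 2)⁻¹) := by gcongr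
      _ = _ := by ring
  have hμfin : IsFiniteMeasure μ := by rw [hμ]; infer_instance
  have hμle : (μ univ).toReal ≤ 1 := by
    rw [hμ, Measure.restrict_apply_univ]
    exact ENNReal.toReal_le_of_le_ofReal zero_le_one (by rw [ENNReal.ofReal_one]; exact prob_le_one)
  have hgint : ∀ j, Integrable (g j) μ := by
    intro j
    refine Integrable.of_bound (hgm j).aestronglyMeasurable (C₀ * u * ((j:ℝ) ^ 2)⁻¹) ?_
    rw [hμ, ae_restrict_iff' hwm]
    refine Filter.Eventually.of_forall fun t ht => ?_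
    rw [Real.norm_of_nonneg (hg0 j t)]
    exact hgle j t ht
  have hgis : Summable fun j => ∫ t, ‖g j t‖ ∂μ := by
    refine Summable.of_nonneg_of_le (fun j => integral_nonneg fun t => norm_nonneg _) (fun j => ?_)
      ((Real.summable_nat_pow_inv.2 (by norm_num : 1 < 2)).mul_left (C₀ * u))
    have h1 : ∫ t, ‖g j t‖ ∂μ ≤ ∫ t, C₀ * u * ((j:ℝ) ^ 2)⁻¹ ∂μ := by
      refine integral_mono_ae (hgint j).norm (integrable_const _) ?_
      rw [Filter.EventuallyLE, hμ, ae_restrict_iff' hwm]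
      refine Filter.Eventually.of_forall fun t ht => ?_
      rw [Real.norm_of_nonneg (hg0 j t)]
      exact hgle j t ht
    rw [integral_const, smul_eq_mul, Measure.real] at h1
    refine h1.trans ?_
    have : (0:ℝ) ≤ C₀ * u * ((j:ℝ) ^ 2)⁻¹ := by positivity
    nlinarith
  have hHS := hasSum_integral_of_summable_integral_norm hgint hgis
  have hconv : ∀ j : ℕ, (j:ℝ)⁻¹ * q4_Jr T u ((j:ℝ) ^ 2 * x) = ∫ t, g j t ∂μ := by
    intro j
    rw [hg, q4_Jr, integral_const_mul]
  have hconv' : (fun j : ℕ => (j:ℝ)⁻¹ * q4_Jr T u ((j:ℝ) ^ 2 * x)) = fun j => ∫ t, g j t ∂μ := funext hconv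
  change Summable (fun j : ℕ => (j:ℝ)⁻¹ * q4_Jr T u ((j:ℝ) ^ 2 * x)) ∧
    |2 * (∑' j : ℕ, (j:ℝ)⁻¹ * q4_Jr T u ((j:ℝ) ^ 2 * x)) - (mW (T, u) - Real.log x)| ≤ (C₁ * E + 1) * T ^ (-κ)
  rw [hconv']
  refine ⟨hHS.summable, ?_⟩
  rw [hHS.tsum_eq]
  set S : ℝ → ℝ := fun t => ∑' j, g j t with hS
  set G : ℝ → ℝ := fun t => Real.log (t / (2 * Real.pi)) + 2 * Real.eulerMascheroniConstant with hG
  have hSsum : ∀ t ∈ win u, Summable fun j => g j t := by
    intro t ht
    have ht0 := hwin t ht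
    have := (hpt (t / (2 * Real.pi * x)) (by positivity)).1
    simpa only [hgz _ t ht0] using this
  have hSb : ∀ t ∈ win u, |2 * S t - (G t - Real.log x)| ≤ C₁ * E * T ^ (-κ) := by
    intro t ht
    have ht0 := hwin t ht
    have htl : η * T / 2 ≤ t := by
      rw [win, mem_Icc] at ht
      linarith [ht.1]
    have hTT : T ^ (1 - 2 * θ) * T ^ (2 * θ) = T := by
      rw [← Real.rpow_add hT0]
      norm_num
    have hz1 : η / (4 * Real.pi) * T ^ (1 - 2 * θ) ≤ t / (2 * Real.pi * x) := by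
      rw [le_div_iff₀ (by positivity)]
      have h1 : η / (4 * Real.pi) * T ^ (1 - 2 * θ) * (2 * Real.pi * x) = η / 2 * (T ^ (1 - 2 * θ) * x) := by
        field_simp
        ring
      rw [h1]
      have h2 : T ^ (1 - 2 * θ) * x ≤ T := by
        calc T ^ (1 - 2 * θ) * x ≤ T ^ (1 - 2 * θ) * T ^ (2 * θ) := mul_le_mul_of_nonneg_left hxT (by positivity)
          _ = T := hTT
      nlinarith
    have hz2 : 1 ≤ η / (4 * Real.pi) * T ^ (1 - 2 * θ) := by
      rw [div_le_iff₀ hη] at hbT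
      rw [div_mul_eq_mul_div, le_div_iff₀ (by positivity)]
      linarith
    have h1 := hdp (t / (2 * Real.pi * x)) (hz2.trans hz1)
    have e1 : S t = ∑' j : ℕ, (j:ℝ)⁻¹ * PhR (Real.log (t / (2 * Real.pi * x)) - 2 * Real.log j) := by
      simp only [hS, hgz _ t ht0]
    rw [← e1] at h1
    have e2 : 2 * S t - (G t - Real.log x) = 2 * S t - Real.log (t / (2 * Real.pi * x)) - 2 * Real.eulerMascheroniConstant := by
      simp only [hG]
      rw [Real.log_div ht0.ne' (by positivity), Real.log_div ht0.ne' (by positivity), Real.log_mul (by positivity) hx0.ne']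
      ring
    rw [e2]
    refine h1.trans ?_
    rw [mul_assoc C₁ E]
    refine mul_le_mul_of_nonneg_left ?_ hC₁.le
    calc (t / (2 * Real.pi * x)) ^ (-(1/4) : ℝ) ≤ (η / (4 * Real.pi) * T ^ (1 - 2 * θ)) ^ (-(1/4) : ℝ) :=
          Real.rpow_le_rpow_of_nonpos (by positivity) hz1 (by norm_num)
      _ = E * T ^ (-κ) := by
          rw [Real.mul_rpow (by positivity) (by positivity), ← Real.rpow_mul hT0.le, hE, hκ]
          congr 2
          ring
  have hSm : AEStronglyMeasurable S μ := by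
    refine aestronglyMeasurable_of_tendsto_ae atTop (f := fun (n : ℕ) t => ∑ j ∈ Finset.range n, g j t) (fun n => ?_) ?_
    · exact (Finset.measurable_fun_sum _ fun j _ => hgm j).aestronglyMeasurable
    · rw [hμ, ae_restrict_iff' hwm]
      refine Filter.Eventually.of_forall fun t ht => ?_
      exact (hSsum t ht).hasSum.tendsto_sum_nat
  have hGm : Measurable G := by
    simp only [hG]
    exact (Real.measurable_log.comp (measurable_id.div_const _)).add_const _
  have hGint : Integrable G μ := by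
    refine Integrable.of_bound hGm.aestronglyMeasurable
      (|Real.log (u / 2 / (2 * Real.pi))| + |Real.log (2 * u / (2 * Real.pi))| + |2 * Real.eulerMascheroniConstant|) ?_
    rw [hμ, ae_restrict_iff' hwm]
    refine Filter.Eventually.of_forall fun t ht => ?_
    have ht0 := hwin t ht
    rw [win, mem_Icc] at ht
    rw [Real.norm_eq_abs]
    have h1 : |Real.log (t / (2 * Real.pi))| ≤ |Real.log (u / 2 / (2 * Real.pi))| + |Real.log (2 * u / (2 * Real.pi))| := by
      have m1 := Real.log_le_log (by positivity : 0 < u / 2 / (2 * Real.pi)) (div_le_div_of_nonneg_right ht.1 (by positivity : 0 ≤ 2 * Real.pi))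
      have m2 := Real.log_le_log (by positivity : 0 < t / (2 * Real.pi)) (div_le_div_of_nonneg_right ht.2 (by positivity : 0 ≤ 2 * Real.pi))
      have n1 := neg_abs_le (Real.log (u / 2 / (2 * Real.pi)))
      have n2 := le_abs_self (Real.log (2 * u / (2 * Real.pi)))
      have n3 := abs_nonneg (Real.log (u / 2 / (2 * Real.pi)))
      have n4 := abs_nonneg (Real.log (2 * u / (2 * Real.pi)))
      rw [abs_le]
      constructor <;> linarith
    simp only [hG]
    exact (abs_add_le _ _).trans (by linarith)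
  have hSint : Integrable S μ := by
    have h1 : Integrable (fun t => 2 * S t - (G t - Real.log x)) μ := by
      refine Integrable.of_bound ((hSm.const_mul 2).sub (hGm.sub_const _).aestronglyMeasurable) (C₁ * E * T ^ (-κ)) ?_
      rw [hμ, ae_restrict_iff' hwm]
      refine Filter.Eventually.of_forall fun t ht => ?_
      rw [Real.norm_eq_abs]
      exact hSb t ht
    have h2 : Integrable (fun t => (1/2) * ((2 * S t - (G t - Real.log x)) + (G t - Real.log x))) μ :=
      (h1.add (hGint.sub (integrable_const _))).const_mul _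
    refine h2.congr (Filter.Eventually.of_forall fun t => ?_)
    ring
  have hI : |∫ t, (2 * S t - (G t - Real.log x)) ∂μ| ≤ (C₁ * E * T ^ (-κ)) * (μ univ).toReal := by
    have := norm_integral_le_of_norm_le_const (μ := μ) (f := fun t => 2 * S t - (G t - Real.log x)) (C := C₁ * E * T ^ (-κ)) (by
      rw [hμ, ae_restrict_iff' hwm]
      exact Filter.Eventually.of_forall fun t ht => hSb t ht)
    exact this
  have hI2 : ∫ t, (2 * S t - (G t - Real.log x)) ∂μ = 2 * ∫ t, S t ∂μ - (mW (T, u) - Real.log x * (μ univ).toReal) := by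
    have a1 : ∫ t, (2 * S t - (G t - Real.log x)) ∂μ = ∫ t, 2 * S t ∂μ - ∫ t, (G t - Real.log x) ∂μ :=
      integral_sub (hSint.const_mul 2) (hGint.sub (integrable_const _))
    have a2 : ∫ t, (G t - Real.log x) ∂μ = ∫ t, G t ∂μ - ∫ _t, Real.log x ∂μ := integral_sub hGint (integrable_const _)
    rw [a1, a2, integral_const_mul, integral_const, smul_eq_mul, Measure.real, mul_comm (Real.log x)]
    rfl
  have hμuniv : (μ univ).toReal = (γ (win u)).toReal := by rw [hμ, Measure.restrict_apply_univ]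
  have hlx0 : 0 ≤ Real.log x := Real.log_nonneg hx
  have hlx1 : Real.log x ≤ Real.log T := by
    refine Real.log_le_log hx0 (hxT.trans ?_)
    calc T ^ (2 * θ) ≤ T ^ (1:ℝ) := Real.rpow_le_rpow_of_exponent_le hT.le (by linarith)
      _ = T := Real.rpow_one T
  have h6 : Real.log x * (1 - (μ univ).toReal) ≤ T ^ (-κ) := by
    rw [hμuniv]
    calc Real.log x * (1 - (γ (win u)).toReal) ≤ Real.log x * T ^ (-1:ℝ) := mul_le_mul_of_nonneg_left hm' hlx0
      _ ≤ T ^ (1 - κ) * T ^ (-1:ℝ) := mul_le_mul_of_nonneg_right (hlx1.trans hlT) (by positivity)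
      _ = T ^ (-κ) := by rw [← Real.rpow_add hT0]; congr 1; ring
  have h7 : 0 ≤ Real.log x * (1 - (μ univ).toReal) := mul_nonneg hlx0 (by linarith)
  have h8 : (C₁ * E * T ^ (-κ)) * (μ univ).toReal ≤ C₁ * E * T ^ (-κ) := by
    have : 0 ≤ C₁ * E * T ^ (-κ) := by positivity
    nlinarith
  have h9 := hI.trans h8
  rw [hI2] at h9
  have e5 : 2 * ∫ t, S t ∂μ - (mW (T, u) - Real.log x) =
      (2 * ∫ t, S t ∂μ - (mW (T, u) - Real.log x * (μ univ).toReal)) + Real.log x * (1 - (μ univ).toReal) := by ring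
  change |2 * ∫ t, S t ∂μ - (mW (T, u) - Real.log x)| ≤ (C₁ * E + 1) * T ^ (-κ)
  rw [e5]
  calc _ ≤ |2 * ∫ t, S t ∂μ - (mW (T, u) - Real.log x * (μ univ).toReal)| + |Real.log x * (1 - (μ univ).toReal)| := abs_add_le _ _
    _ ≤ C₁ * E * T ^ (-κ) + T ^ (-κ) := by rw [abs_of_nonneg h7]; linarith
    _ = _ := by ring

end Pool.Agent.LibOM70
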