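import Pool.Agent.LibOM70B.G1
import Pool.Agent.LibOM70B.G2c
import Pool.Agent.LibM3.Q4

/-! ODD MOMENTS, signed route, row G3. -/

set_option autoImplicit false

namespace Pool.Agent.LibOM70

open MeasureTheory Set Filter Topology Complex ProbabilityTheory
open scoped NNReal ComplexConjugate
open Pool.Agent.LibZM Pool.Agent.LibM3
open Pool.Agent.LibLaw15 hiding Lam

/-- ROW G3. Exact mean values for short polynomials. PROOF. Copy `qform_mean` (LibM3/Q4) with `off_exact` in place of `offdiag_sum` and `diag_exact` in place of `diag_sum` (`x = hk/gcd² ∈ [1, N²]`); the error of the approximate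
functional equation (`q4_err`) times `‖QForm‖ ≤ 4 N K0` (`q4_norm_QForm_le`) is `≤ T^{θ-1/2} (log T)^{O(1)}`; `∑ gk ≤ C (1 + log N)^{5/4}` or trivially `≤ (1 + log N)^3`. -/
theorem qform_exact {η : ℝ} (hη : 0 < η) {θ : ℝ} (hθ0 : 0 < θ) (hθ : θ < 1/2) : ∃ C κ : ℝ, 0 < C ∧ 0 < κ ∧ ∀ᶠ P : ℝ × ℝ in Fl η, ∀ N : ℕ, (N:ℝ) ≤ P.1 ^ θ →
    ∀ K : ℕ → ℕ → ℂ, ∀ K0 : ℝ, (∀ h k, ‖K h k‖ ≤ K0) →
    ‖(∫ t in win P.2, ((‖riemannZeta (crit t)‖ ^ 2 : ℝ) : ℂ) * QForm N K t ∂(gaussianReal P.2 (vw P.1))) -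
      ∑ h ∈ Finset.Icc 1 N, ∑ k ∈ Finset.Icc 1 N, K h k * ((gk h k * (mW P - Real.log h - Real.log k + 2 * Real.log (Nat.gcd h k)) : ℝ) : ℂ)‖ ≤
      C * K0 * P.1 ^ (-κ) := by
  obtain ⟨C1, t0, hC1, -, hzeta⟩ := zeta_sq_approx
  obtain ⟨C2, hC2, hosc⟩ := osc hη
  obtain ⟨κ1, hκ1, hoff⟩ := off_exact hθ0 hθ
  obtain ⟨C4, κ2, hC4, hκ2, hdiag⟩ := diag_exact hη hθ0 hθ
  obtain ⟨C5, hC5, hgk⟩ := sum_gk_le
  set B1 : ℝ := C1 * (Real.exp 1 * (η / 2) ^ (-(1/2) : ℝ)) with hB1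
  have hB10 : 0 < B1 := by positivity
  set κ0 : ℝ := (1/2 - θ) / 2 with hκ0
  have hκ0p : 0 < κ0 := by rw [hκ0]; linarith
  set κ : ℝ := min κ0 (min κ1 (κ2 / 2)) with hκ
  have hκp : 0 < κ := lt_min hκ0p (lt_min hκ1 (by linarith))
  have hκa : κ ≤ κ0 := min_le_left _ _
  have hκb : κ ≤ κ1 := (min_le_right _ _).trans (min_le_left _ _)
  have hκc : κ ≤ κ2 / 2 := (min_le_right _ _).trans (min_le_right _ _)
  refine ⟨4 * B1 + 2 * C2 + C4 * C5, κ, by positivity, hκp, ?_⟩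
  have hT1 : ∀ᶠ p : ℝ × ℝ in Fl η, Real.exp 2 ≤ p.1 :=
    (Fl_fst η).eventually (eventually_ge_atTop _)
  have hT2 : ∀ᶠ p : ℝ × ℝ in Fl η, 2 * t0 / η ≤ p.1 :=
    (Fl_fst η).eventually (eventually_ge_atTop _)
  have hlogpow : ∀ (s : ℝ) (a : ℝ), 0 < s → ∀ᶠ p : ℝ × ℝ in Fl η, (Real.log p.1) ^ a ≤ p.1 ^ s := by
    intro s a hs
    suffices h0 : ∀ᶠ T : ℝ in atTop, (Real.log T) ^ a ≤ T ^ s from (Fl_fst η).eventually h0
    have h1 := (isLittleO_log_rpow_rpow_atTop a hs).def (show (0:ℝ) < 1 by norm_num)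
    filter_upwards [h1, eventually_ge_atTop (Real.exp 1)] with T hT hT1
    have hT0 : 0 < T := (Real.exp_pos 1).trans_le hT1
    have hL : 0 ≤ Real.log T := Real.log_nonneg ((Real.one_le_exp (by norm_num)).trans hT1)
    rw [one_mul, Real.norm_of_nonneg (Real.rpow_nonneg hL _), Real.norm_of_nonneg (Real.rpow_nonneg hT0.le _)] at hT
    exact hT
  have hT3 := hlogpow κ0 2 hκ0p
  have hT4 := hlogpow (κ2 / 2 / 2) (5/4) (by linarith)
  have hT5 : ∀ᶠ p : ℝ × ℝ in Fl η, (2:ℝ) ^ (5/4 : ℝ) ≤ p.1 ^ (κ2 / 2 / 2) :=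
    (Fl_fst η).eventually ((tendsto_rpow_atTop (by linarith)).eventually_ge_atTop _)
  filter_upwards [hT1, hT2, Fl_range η, hosc, (Fl_fst η).eventually hoff, hdiag, hT3, hT4, hT5] with p hT ht0 hr
    hosc hoff hdiag hT3 hT4 hT5 N hNle K K0 hK
  obtain ⟨T, u⟩ := p
  simp only at hT ht0 hr hosc hoff hdiag hT3 hT4 hT5 hNle ⊢
  obtain ⟨hr1, hr2⟩ := hr
  have hoff := hoff N hNle
  have hK0 : 0 ≤ K0 := (norm_nonneg _).trans (hK 0 0)
  have hT0 : 0 < T := (Real.exp_pos 2).trans_le hT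
  have hT1' : 1 ≤ T := (Real.one_le_exp (by norm_num)).trans hT
  have hu : 0 < u := (mul_pos hη hT0).trans_le hr1
  have hL : 2 ≤ Real.log T := by
    rw [Real.le_log_iff_exp_le hT0]
    exact hT
  have hL0 : 0 < Real.log T := by linarith
  have ht0' : t0 ≤ η * T / 2 := by
    rw [div_le_iff₀ hη] at ht0
    linarith
  have hmono : ∀ a b : ℝ, b ≤ a → T ^ (-a) ≤ T ^ (-b) := fun a b hab =>
    Real.rpow_le_rpow_of_exponent_le hT1' (by linarith)
  set μ := gaussianReal u (vw T) with hμ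
  -- the approximate functional equation
  have hi1 : IntegrableOn (fun t => ((‖riemannZeta (crit t)‖ ^ 2 : ℝ) : ℂ) * QForm N K t)
      (win u) μ := by
    refine q4_intOn (Continuous.continuousOn ?_)
    exact (Complex.continuous_ofReal.comp (continuous_zeta_crit.norm.pow 2)).mul
      (q4_continuous_QForm N K)
  have hi2 : IntegrableOn (fun t => (∑' p : ℕ × ℕ, W2 t p) * QForm N K t) (win u) μ :=
    q4_intOn ((q4_contOn_tsum hu hr2).mul (q4_continuous_QForm N K).continuousOn)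
  have hE : ‖(∫ t in win u, ((‖riemannZeta (crit t)‖ ^ 2 : ℝ) : ℂ) * QForm N K t ∂μ) -
      2 * ∫ t in win u, (∑' p : ℕ × ℕ, W2 t p) * QForm N K t ∂μ‖ ≤
      4 * B1 * K0 * T ^ (-κ) := by
    rw [← integral_const_mul, ← integral_sub hi1 (hi2.const_mul 2)]
    have hB : 0 ≤ (B1 * (T ^ (-(1/2) : ℝ) * (Real.log T) ^ 2)) * (K0 * (4 * N)) := by positivity
    have h3 := q4_norm_int_le (T := T) (u := u)
      (f := fun t => ((‖riemannZeta (crit t)‖ ^ 2 : ℝ) : ℂ) * QForm N K t -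
        2 * ((∑' p : ℕ × ℕ, W2 t p) * QForm N K t)) hB (fun t ht => by
        have e : ((‖riemannZeta (crit t)‖ ^ 2 : ℝ) : ℂ) * QForm N K t -
            2 * ((∑' p : ℕ × ℕ, W2 t p) * QForm N K t) =
            (((‖riemannZeta (crit t)‖ ^ 2 : ℝ) : ℂ) - 2 * ∑' p : ℕ × ℕ, W2 t p) *
              QForm N K t := by ring
        rw [e, norm_mul]
        exact mul_le_mul (q4_err hη hC1 hzeta hT ht0' hr1 hr2 ht) (q4_norm_QForm_le hK t)
          (norm_nonneg _) (by positivity))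
    refine h3.trans ?_
    have h4 : T ^ (-(1/2) : ℝ) * (N:ℝ) ≤ T ^ (-(2 * κ0)) := by
      calc T ^ (-(1/2) : ℝ) * (N:ℝ) ≤ T ^ (-(1/2) : ℝ) * T ^ θ :=
            mul_le_mul_of_nonneg_left hNle (by positivity)
        _ = T ^ (-(2 * κ0)) := by
            rw [← Real.rpow_add hT0]
            congr 1
            rw [hκ0]
            ring
    have h5 : (Real.log T) ^ 2 * T ^ (-(2 * κ0)) ≤ T ^ (-κ) := by
      have h6 : (Real.log T) ^ 2 ≤ T ^ κ0 := by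
        rw [← Real.rpow_natCast]
        exact_mod_cast hT3
      calc (Real.log T) ^ 2 * T ^ (-(2 * κ0)) ≤ T ^ κ0 * T ^ (-(2 * κ0)) :=
            mul_le_mul_of_nonneg_right h6 (by positivity)
        _ = T ^ (-κ0) := by
            rw [← Real.rpow_add hT0]
            congr 1
            ring
        _ ≤ T ^ (-κ) := hmono _ _ hκa
    calc (B1 * (T ^ (-(1/2) : ℝ) * (Real.log T) ^ 2)) * (K0 * (4 * N))
        = 4 * B1 * K0 * ((Real.log T) ^ 2 * (T ^ (-(1/2) : ℝ) * (N:ℝ))) := by ring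
      _ ≤ 4 * B1 * K0 * ((Real.log T) ^ 2 * T ^ (-(2 * κ0))) := by
          refine mul_le_mul_of_nonneg_left ?_ (by positivity)
          exact mul_le_mul_of_nonneg_left h4 (by positivity)
      _ ≤ 4 * B1 * K0 * T ^ (-κ) :=
          mul_le_mul_of_nonneg_left h5 (by positivity)
  -- the sum
  have hsum := q4_hasSum hu hr2 N hK
  have hosc' : ∀ x : ℝ, 1 ≤ x → ∀ l : ℝ, l ≠ 0 → ‖q4_J T u x l‖ ≤
      C2 * min 1 ((T / x) ^ 4) * min 1 ((Hw T)⁻¹ ^ 2 * (1 + (l ^ 2)⁻¹)) := hosc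
  set fd : ℕ × ℕ → ℂ := fun p => ∑ h ∈ Finset.Icc 1 N, ∑ k ∈ Finset.Icc 1 N,
    if p.1 * h = p.2 * k then q4_co K p.1 p.2 h k *
      q4_J T u ((p.1:ℝ) * p.2) (Real.log (((p.1:ℝ) * h) / ((p.2:ℝ) * k))) else 0 with hfd
  set fo : ℕ × ℕ → ℂ := fun p => ∑ h ∈ Finset.Icc 1 N, ∑ k ∈ Finset.Icc 1 N,
    if p.1 * h = p.2 * k then 0 else q4_co K p.1 p.2 h k *
      q4_J T u ((p.1:ℝ) * p.2) (Real.log (((p.1:ℝ) * h) / ((p.2:ℝ) * k))) with hfo
  have hsplit : ∀ p : ℕ × ℕ, ∫ t in win u, W2 t p * QForm N K t ∂μ = fd p + fo p := by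
    rintro ⟨a, b⟩
    rw [hμ, q4_term hu N K a b, hfd, hfo]
    simp only
    rw [← Finset.sum_add_distrib]
    refine Finset.sum_congr rfl fun h _ => ?_
    rw [← Finset.sum_add_distrib]
    refine Finset.sum_congr rfl fun k _ => ?_
    split_ifs
    · rw [add_zero]
    · rw [zero_add]
  -- the diagonal
  set S : ℕ → ℕ → ℝ := fun h k => ∑' j : ℕ, (j:ℝ)⁻¹ *
    q4_Jr T u ((j:ℝ) ^ 2 * (((h:ℝ) * k) / (Nat.gcd h k : ℝ) ^ 2)) with hS
  have hx : ∀ h k : ℕ, 1 ≤ h → 1 ≤ k → (1:ℝ) ≤ ((h:ℝ) * k) / (Nat.gcd h k : ℝ) ^ 2 := by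
    intro h k hh hk
    have hg0 : 0 < Nat.gcd h k := Nat.gcd_pos_of_pos_left k hh
    have hgr : (0:ℝ) < (Nat.gcd h k : ℝ) := by exact_mod_cast hg0
    rw [le_div_iff₀ (by positivity), one_mul, sq]
    have e1 : (Nat.gcd h k : ℝ) ≤ h := by exact_mod_cast Nat.gcd_le_left k hh
    have e2 : (Nat.gcd h k : ℝ) ≤ k := by exact_mod_cast Nat.gcd_le_right h hk
    exact mul_le_mul e1 e2 hgr.le (by positivity)
  have hx2 : ∀ h ∈ Finset.Icc 1 N, ∀ k ∈ Finset.Icc 1 N, ((h:ℝ) * k) / (Nat.gcd h k : ℝ) ^ 2 ≤ T ^ (2 * θ) := by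
    intro h hh k hk
    have hh1 := (Finset.mem_Icc.1 hh)
    have hk1 := (Finset.mem_Icc.1 hk)
    have hg0 : 1 ≤ Nat.gcd h k := Nat.gcd_pos_of_pos_left k hh1.1
    have hgr : (1:ℝ) ≤ (Nat.gcd h k : ℝ) := by exact_mod_cast hg0
    have hhr : (h:ℝ) ≤ T ^ θ := le_trans (by exact_mod_cast hh1.2) hNle
    have hkr : (k:ℝ) ≤ T ^ θ := le_trans (by exact_mod_cast hk1.2) hNle
    have hTθ : T ^ (2 * θ) = T ^ θ * T ^ θ := by
      rw [← Real.rpow_add hT0]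
      congr 1
      ring
    rw [hTθ]
    refine (div_le_self (by positivity) (one_le_pow₀ hgr)).trans ?_
    exact mul_le_mul hhr hkr (by positivity) (by positivity)
  have hDsum : HasSum fd (∑ h ∈ Finset.Icc 1 N, ∑ k ∈ Finset.Icc 1 N,
      K h k * ((gk h k * S h k : ℝ) : ℂ)) := by
    refine hasSum_sum fun h hh => hasSum_sum fun k hk => ?_
    have hh1 := (Finset.mem_Icc.1 hh).1
    have hk1 := (Finset.mem_Icc.1 hk).1
    exact q4_diag hh1 hk1 K (hdiag _ (hx h k hh1 hk1) (hx2 h hh k hk)).1.hasSum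
  -- the off-diagonal
  have hfo_le : ∀ p : ℕ × ℕ, ‖fo p‖ ≤ K0 * C2 * ∑ h ∈ Finset.Icc 1 N, ∑ k ∈ Finset.Icc 1 N,
      offw T p.1 p.2 h k := by
    intro p
    rw [Finset.mul_sum]
    refine (norm_sum_le _ _).trans (Finset.sum_le_sum fun h hh => ?_)
    rw [Finset.mul_sum]
    refine (norm_sum_le _ _).trans (Finset.sum_le_sum fun k hk => ?_)
    exact q4_off_le hC2 hosc' hK p.1 p.2 (Finset.mem_Icc.1 hh).1 (Finset.mem_Icc.1 hk).1
  have hoffs := hoff.1.hasSum.mul_left (K0 * C2)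
  have hfos : Summable fo := Summable.of_norm_bounded hoffs.summable hfo_le
  have hfo_norm : ‖∑' p, fo p‖ ≤ K0 * C2 * T ^ (-κ) :=
    (tsum_of_norm_bounded hoffs hfo_le).trans
      (mul_le_mul_of_nonneg_left (hoff.2.trans (hmono _ _ hκb)) (by positivity))
  have htot : (∫ t in win u, (∑' p : ℕ × ℕ, W2 t p) * QForm N K t ∂μ) =
      (∑ h ∈ Finset.Icc 1 N, ∑ k ∈ Finset.Icc 1 N, K h k * ((gk h k * S h k : ℝ) : ℂ)) +
        ∑' p, fo p := by
    have h1 := hDsum.add hfos.hasSum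
    have h2 : (fun p : ℕ × ℕ => ∫ t in win u, W2 t p * QForm N K t ∂μ) =
        fun p => fd p + fo p := funext hsplit
    rw [h2] at hsum
    exact hsum.unique h1
  -- the comparison with the exact value
  have hgk0 : ∀ h k : ℕ, 0 ≤ gk h k := fun h k => by
    have h1 := q4_tau_nonneg h
    have h2 := q4_tau_nonneg k
    unfold gk
    positivity
  set el : ℕ → ℕ → ℝ := fun h k => mW (T, u) - Real.log h - Real.log k + 2 * Real.log (Nat.gcd h k) with hel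
  have hD : ‖2 * (∑ h ∈ Finset.Icc 1 N, ∑ k ∈ Finset.Icc 1 N,
      K h k * ((gk h k * S h k : ℝ) : ℂ)) -
      ∑ h ∈ Finset.Icc 1 N, ∑ k ∈ Finset.Icc 1 N, K h k * ((gk h k * el h k : ℝ) : ℂ)‖ ≤
      C4 * C5 * K0 * T ^ (-κ) := by
    have e1 : 2 * (∑ h ∈ Finset.Icc 1 N, ∑ k ∈ Finset.Icc 1 N,
        K h k * ((gk h k * S h k : ℝ) : ℂ)) -
        ∑ h ∈ Finset.Icc 1 N, ∑ k ∈ Finset.Icc 1 N, K h k * ((gk h k * el h k : ℝ) : ℂ) =
        ∑ h ∈ Finset.Icc 1 N, ∑ k ∈ Finset.Icc 1 N,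
          K h k * ((gk h k * (2 * S h k - el h k) : ℝ) : ℂ) := by
      rw [Finset.mul_sum, ← Finset.sum_sub_distrib]
      refine Finset.sum_congr rfl fun h _ => ?_
      rw [Finset.mul_sum, ← Finset.sum_sub_distrib]
      refine Finset.sum_congr rfl fun k _ => ?_
      push_cast
      ring
    rw [e1]
    have e2 : ∀ h ∈ Finset.Icc 1 N, ∀ k ∈ Finset.Icc 1 N,
        ‖K h k * ((gk h k * (2 * S h k - el h k) : ℝ) : ℂ)‖ ≤ K0 * (C4 * T ^ (-κ2)) * gk h k := by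
      intro h hh k hk
      have hh1 := (Finset.mem_Icc.1 hh).1
      have hk1 := (Finset.mem_Icc.1 hk).1
      have h1 := (hdiag _ (hx h k hh1 hk1) (hx2 h hh k hk)).2
      have hhr : (0:ℝ) < h := by exact_mod_cast hh1
      have hkr : (0:ℝ) < k := by exact_mod_cast hk1
      have hgr : (0:ℝ) < (Nat.gcd h k : ℝ) := by exact_mod_cast Nat.gcd_pos_of_pos_left k hh1
      have h2 : Real.log (((h:ℝ) * k) / (Nat.gcd h k : ℝ) ^ 2) = Real.log h + Real.log k - 2 * Real.log (Nat.gcd h k) := by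
        rw [Real.log_div (by positivity) (by positivity), Real.log_mul hhr.ne' hkr.ne', Real.log_pow]
        push_cast
        ring
      rw [h2] at h1
      have h3 : |2 * S h k - el h k| ≤ C4 * T ^ (-κ2) := by
        have e : el h k = mW (T, u) - (Real.log h + Real.log k - 2 * Real.log (Nat.gcd h k)) := by
          rw [hel]
          ring
        rw [e]
        exact h1
      rw [norm_mul, Complex.norm_real, Real.norm_eq_abs, abs_mul, abs_of_nonneg (hgk0 h k)]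
      calc ‖K h k‖ * (gk h k * |2 * S h k - el h k|) ≤ K0 * (gk h k * (C4 * T ^ (-κ2))) :=
            mul_le_mul (hK h k) (mul_le_mul_of_nonneg_left h3 (hgk0 h k))
              (mul_nonneg (hgk0 h k) (abs_nonneg _)) hK0
        _ = K0 * (C4 * T ^ (-κ2)) * gk h k := by ring
    have e3 : ‖∑ h ∈ Finset.Icc 1 N, ∑ k ∈ Finset.Icc 1 N,
        K h k * ((gk h k * (2 * S h k - el h k) : ℝ) : ℂ)‖ ≤
        K0 * (C4 * T ^ (-κ2)) * ∑ h ∈ Finset.Icc 1 N, ∑ k ∈ Finset.Icc 1 N, gk h k := by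
      rw [Finset.mul_sum]
      refine (norm_sum_le _ _).trans (Finset.sum_le_sum fun h hh => ?_)
      rw [Finset.mul_sum]
      exact (norm_sum_le _ _).trans (Finset.sum_le_sum fun k hk => e2 h hh k hk)
    refine e3.trans ?_
    have e5 : ∑ h ∈ Finset.Icc 1 N, ∑ k ∈ Finset.Icc 1 N, gk h k ≤ C5 * T ^ (κ2 / 2) := by
      rcases Nat.eq_zero_or_pos N with h0 | h0
      · rw [h0]
        simp
        positivity
      · refine (hgk N h0).trans (mul_le_mul_of_nonneg_left ?_ hC5.le)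
        have h1 : (1:ℝ) ≤ N := by exact_mod_cast h0
        have h2 : 0 ≤ Real.log (N:ℝ) := Real.log_natCast_nonneg N
        have h3 : Real.log (N:ℝ) ≤ Real.log T := by
          refine Real.log_le_log (by linarith) (hNle.trans ?_)
          calc T ^ θ ≤ T ^ (1:ℝ) := Real.rpow_le_rpow_of_exponent_le hT1' (by linarith)
            _ = T := Real.rpow_one T
        calc (1 + Real.log (N:ℝ)) ^ (5/4 : ℝ) ≤ (2 * Real.log T) ^ (5/4 : ℝ) :=
              Real.rpow_le_rpow (by linarith) (by linarith) (by norm_num)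
          _ = (2:ℝ) ^ (5/4 : ℝ) * (Real.log T) ^ (5/4 : ℝ) :=
              Real.mul_rpow (by norm_num) hL0.le
          _ ≤ T ^ (κ2 / 2 / 2) * T ^ (κ2 / 2 / 2) :=
              mul_le_mul hT5 hT4 (by positivity) (by positivity)
          _ = T ^ (κ2 / 2) := by
              rw [← Real.rpow_add hT0]
              congr 1
              ring
    calc K0 * (C4 * T ^ (-κ2)) * ∑ h ∈ Finset.Icc 1 N, ∑ k ∈ Finset.Icc 1 N, gk h k
        ≤ K0 * (C4 * T ^ (-κ2)) * (C5 * T ^ (κ2 / 2)) :=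
          mul_le_mul_of_nonneg_left e5 (by positivity)
      _ = C4 * C5 * K0 * (T ^ (-κ2) * T ^ (κ2 / 2)) := by ring
      _ = C4 * C5 * K0 * T ^ (-(κ2 / 2)) := by
          rw [← Real.rpow_add hT0]
          congr 2
          ring
      _ ≤ C4 * C5 * K0 * T ^ (-κ) :=
          mul_le_mul_of_nonneg_left (hmono _ _ hκc) (by positivity)
  -- conclusion
  rw [htot] at hE
  set E := (∫ t in win u, ((‖riemannZeta (crit t)‖ ^ 2 : ℝ) : ℂ) * QForm N K t ∂μ)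
  set D := ∑ h ∈ Finset.Icc 1 N, ∑ k ∈ Finset.Icc 1 N, K h k * ((gk h k * S h k : ℝ) : ℂ)
  change ‖E - ∑ h ∈ Finset.Icc 1 N, ∑ k ∈ Finset.Icc 1 N, K h k * ((gk h k * el h k : ℝ) : ℂ)‖ ≤ _
  set F := ∑ h ∈ Finset.Icc 1 N, ∑ k ∈ Finset.Icc 1 N, K h k * ((gk h k * el h k : ℝ) : ℂ)
  have e5 : E - F = (E - 2 * (D + ∑' p, fo p)) + 2 * (∑' p, fo p) + (2 * D - F) := by ring
  rw [e5]
  refine (norm_add_le _ _).trans ?_
  have e6 := norm_add_le (E - 2 * (D + ∑' p, fo p)) (2 * (∑' p, fo p))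
  have e7 : ‖2 * (∑' p, fo p)‖ = 2 * ‖∑' p, fo p‖ := by
    rw [norm_mul]
    norm_num
  rw [e7] at e6
  have e8 : (4 * B1 + 2 * C2 + C4 * C5) * K0 * T ^ (-κ) = 4 * B1 * K0 * T ^ (-κ) +
      2 * (K0 * C2 * T ^ (-κ)) + C4 * C5 * K0 * T ^ (-κ) := by ring
  rw [e8]
  linarith

end Pool.Agent.LibOM70
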