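import Pool.Agent.LibOM70B.G3
import Pool.Agent.LibOM70B.E1d
import Pool.Agent.LibLaw15.Q4
import Pool.Agent.LibLaw15.Q5

/-! ODD MOMENTS, signed route, row G4. -/

set_option autoImplicit false

namespace Pool.Agent.LibOM70

open MeasureTheory Set Filter Topology Complex ProbabilityTheory
open scoped NNReal ComplexConjugate
open Pool.Agent.LibZM Pool.Agent.LibM3
open Pool.Agent.LibLaw15 hiding Lam

/-- The coefficient. -/
private noncomputable def g4_a (δ : ℝ) (φ : ℝ → ℝ) (h : ℕ) : ℝ := tau (-1/2) h * φ (δ * Real.log h)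

private noncomputable def g4_E (m n : ℕ) (δ : ℝ) (φ : ℝ → ℝ) (H K : ℕ) : ℂ :=
  ((√((m:ℝ) * n) * (g4_a δ φ (H / n) * g4_a δ φ (K / m)) / (tau (1/2) H * tau (1/2) K) : ℝ) : ℂ)

private noncomputable def g4_K (q N m n : ℕ) (δ : ℝ) (φ : ℝ → ℝ) (H K : ℕ) : ℂ :=
  if n ∣ H ∧ H / n ∈ cs q N then (if m ∣ K ∧ K / m ∈ cs q N then g4_E m n δ φ H K else 0) else 0

private lemma g4_sum2 {q N m n M : ℕ} (hm : 1 ≤ m) (hn : 1 ≤ n) (hnM : n * N ≤ M) (hmM : m * N ≤ M) (δ : ℝ) (φ : ℝ → ℝ)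
    (G : ℕ → ℕ → ℂ) : ∑ H ∈ Finset.Icc 1 M, ∑ K ∈ Finset.Icc 1 M, g4_K q N m n δ φ H K * G H K =
      ∑ h ∈ cs q N, ∑ k ∈ cs q N, g4_E m n δ φ (n * h) (m * k) * G (n * h) (m * k) := by
  rw [← q4_sum hn hnM (fun H => ∑ k ∈ cs q N, g4_E m n δ φ H (m * k) * G H (m * k))]
  refine Finset.sum_congr rfl fun H _ => ?_
  rw [← q4_sum hm hmM (fun K => g4_E m n δ φ H K * G H K)]
  unfold g4_K
  split_ifs with h1
  · refine Finset.sum_congr rfl fun K _ => ?_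
    split_ifs
    · rfl
    · rw [zero_mul]
  · refine Finset.sum_eq_zero fun K _ => ?_
    rw [zero_mul]

private lemma g4_a_abs {δ B : ℝ} {φ : ℝ → ℝ} (hδ : 0 ≤ δ) (hφ : ∀ x, 0 ≤ x → |φ x| ≤ B) (h : ℕ) :
    |g4_a δ φ h| ≤ B * tau (1/2) h := by
  unfold g4_a
  rw [abs_mul, mul_comm B]
  have h1 := hφ (δ * Real.log h) (mul_nonneg hδ (Real.log_natCast_nonneg h))
  exact mul_le_mul (tneg_le h) h1 (abs_nonneg _) ((abs_nonneg _).trans (tneg_le h))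

private lemma g4_K_norm {q N m n : ℕ} (hm : 1 ≤ m) (hn : 1 ≤ n) {δ B : ℝ} {φ : ℝ → ℝ} (hδ : 0 ≤ δ)
    (hφ : ∀ x, 0 ≤ x → |φ x| ≤ B) (H K : ℕ) :
    ‖g4_K q N m n δ φ H K‖ ≤ √((m:ℝ) * n) / (tau (1/2) n * tau (1/2) m) * B ^ 2 := by
  have h1 := q4_tau_pos hn
  have h2 := q4_tau_pos hm
  have h0 : 0 ≤ √((m:ℝ) * n) / (tau (1/2) n * tau (1/2) m) * B ^ 2 := by positivity
  unfold g4_K
  split_ifs with hH hK
  · obtain ⟨hH1, hH2⟩ := hH
    obtain ⟨hK1, hK2⟩ := hK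
    unfold cs at hH2 hK2
    rw [Finset.mem_filter, Finset.mem_Icc] at hH2 hK2
    have e1 : n * (H / n) = H := Nat.mul_div_cancel' hH1
    have e2 : m * (K / m) = K := Nat.mul_div_cancel' hK1
    have s1 := tau_super n (H / n)
    have s2 := tau_super m (K / m)
    rw [e1] at s1
    rw [e2] at s2
    have p1 := q4_tau_pos hH2.1.1
    have p2 := q4_tau_pos hK2.1.1
    have p3 : 0 < tau (1/2) H := lt_of_lt_of_le (mul_pos h1 p1) s1
    have p4 : 0 < tau (1/2) K := lt_of_lt_of_le (mul_pos h2 p2) s2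
    have a1 := g4_a_abs hδ hφ (H / n)
    have a2 := g4_a_abs hδ hφ (K / m)
    have hB : 0 ≤ B := (abs_nonneg _).trans (hφ 0 le_rfl)
    unfold g4_E
    rw [Complex.norm_real, Real.norm_eq_abs, abs_div, abs_mul, abs_mul, abs_of_nonneg (Real.sqrt_nonneg _),
      abs_of_pos (mul_pos p3 p4), div_mul_eq_mul_div, div_le_div_iff₀ (by positivity) (by positivity), mul_assoc (√((m:ℝ) * n)), mul_assoc (√((m:ℝ) * n))]
    apply mul_le_mul_of_nonneg_left _ (Real.sqrt_nonneg _)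
    calc |g4_a δ φ (H / n)| * |g4_a δ φ (K / m)| * (tau (1/2) n * tau (1/2) m)
        ≤ (B * tau (1/2) (H / n)) * (B * tau (1/2) (K / m)) * (tau (1/2) n * tau (1/2) m) := by
          refine mul_le_mul_of_nonneg_right ?_ (by positivity)
          exact mul_le_mul a1 a2 (abs_nonneg _) (by positivity)
      _ = B ^ 2 * ((tau (1/2) n * tau (1/2) (H / n)) * (tau (1/2) m * tau (1/2) (K / m))) := by ring
      _ ≤ B ^ 2 * (tau (1/2) H * tau (1/2) K) := by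
          refine mul_le_mul_of_nonneg_left ?_ (by positivity)
          exact mul_le_mul s1 s2 (by positivity) p3.le
  · rw [norm_zero]
    exact h0
  · rw [norm_zero]
    exact h0

private lemma g4_AA (q N : ℕ) (δ : ℝ) (φ : ℝ → ℝ) (s : ℂ) :
    AA q N δ φ s = ∑ h ∈ cs q N, ((g4_a δ φ h : ℝ) : ℂ) * (h:ℂ) ^ (-s) := rfl

private lemma g4_AA_sq {q N m n : ℕ} (hm : 1 ≤ m) (hn : 1 ≤ n) (δ : ℝ) (φ : ℝ → ℝ) (t : ℝ) :
    ((‖AA q N δ φ (crit t)‖ ^ 2 : ℝ) : ℂ) * chr m n t =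
      ∑ h ∈ cs q N, ∑ k ∈ cs q N, ((√((m:ℝ) * n) * (g4_a δ φ h * g4_a δ φ k) : ℝ) : ℂ) *
        (((n * h : ℕ) : ℂ) ^ (-crit t) * ((m * k : ℕ) : ℂ) ^ (-(1 - crit t))) := by
  have h1 : ((‖AA q N δ φ (crit t)‖ ^ 2 : ℝ) : ℂ) = AA q N δ φ (crit t) * conj (AA q N δ φ (crit t)) := by
    rw [Complex.mul_conj, Complex.normSq_eq_norm_sq]
  rw [h1, g4_AA, map_sum, Finset.sum_mul_sum, Finset.sum_mul]
  refine Finset.sum_congr rfl fun h hh => ?_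
  rw [Finset.sum_mul]
  refine Finset.sum_congr rfl fun k hk => ?_
  have hk1 : 1 ≤ k := (Finset.mem_Icc.1 (Finset.mem_filter.1 hk).1).1
  have hkarg : (k:ℂ).arg ≠ Real.pi := by
    rw [show (k:ℂ) = ((k:ℝ):ℂ) by simp, Complex.arg_ofReal_of_nonneg (by positivity)]
    exact Real.pi_pos.ne
  have ec : conj ((k:ℂ) ^ (-crit t)) = (k:ℂ) ^ (-(1 - crit t)) := by
    rw [← q3_conj_crit t]
    have := Complex.cpow_conj (k:ℂ) (-(crit t)) hkarg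
    rw [Complex.conj_natCast, map_neg] at this
    exact this.symm
  have e4 : ((n * h : ℕ) : ℂ) ^ (-crit t) = (n:ℂ) ^ (-crit t) * (h:ℂ) ^ (-crit t) := by
    rw [Nat.cast_mul, Complex.natCast_mul_natCast_cpow]
  have e5 : ((m * k : ℕ) : ℂ) ^ (-(1 - crit t)) = (m:ℂ) ^ (-(1 - crit t)) * (k:ℂ) ^ (-(1 - crit t)) := by
    rw [Nat.cast_mul, Complex.natCast_mul_natCast_cpow]
  rw [map_mul, conj_ofReal, ec, q3_chr hm hn t, e4, e5, Complex.ofReal_mul (√((m:ℝ) * n)), Complex.ofReal_mul (g4_a δ φ h)]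
  ring

private lemma g4_form {q N m n M : ℕ} (hm : 1 ≤ m) (hn : 1 ≤ n) (hnM : n * N ≤ M) (hmM : m * N ≤ M) (δ : ℝ) (φ : ℝ → ℝ)
    (t : ℝ) : ((‖AA q N δ φ (crit t)‖ ^ 2 : ℝ) : ℂ) * chr m n t = QForm M (g4_K q N m n δ φ) t := by
  unfold QForm
  have e : ∀ h k : ℕ, g4_K q N m n δ φ h k * ((tau (1/2) h * tau (1/2) k : ℝ) : ℂ) *
      ((h:ℂ) ^ (-crit t) * (k:ℂ) ^ (-(1 - crit t))) = g4_K q N m n δ φ h k *
      (((tau (1/2) h * tau (1/2) k : ℝ) : ℂ) * ((h:ℂ) ^ (-crit t) * (k:ℂ) ^ (-(1 - crit t)))) :=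
    fun h k => mul_assoc _ _ _
  simp_rw [e]
  rw [g4_AA_sq hm hn, g4_sum2 hm hn hnM hmM δ φ (fun H K => (((tau (1/2) H * tau (1/2) K : ℝ) : ℂ) *
    ((H:ℂ) ^ (-crit t) * (K:ℂ) ^ (-(1 - crit t)))))]
  refine Finset.sum_congr rfl fun h hh => Finset.sum_congr rfl fun k hk => ?_
  unfold cs at hh hk
  rw [Finset.mem_filter, Finset.mem_Icc] at hh hk
  unfold g4_E
  rw [Nat.mul_div_cancel_left _ (by omega), Nat.mul_div_cancel_left _ (by omega)]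
  have p1 := q4_tau_pos (n := n * h) (Nat.mul_pos (by omega) (by omega))
  have p2 := q4_tau_pos (n := m * k) (Nat.mul_pos (by omega) (by omega))
  have e2 : √((m:ℝ) * n) * (g4_a δ φ h * g4_a δ φ k) =
      √((m:ℝ) * n) * (g4_a δ φ h * g4_a δ φ k) / (tau (1/2) (n * h) * tau (1/2) (m * k)) *
        (tau (1/2) (n * h) * tau (1/2) (m * k)) := by
    field_simp
  conv_lhs => rw [e2, Complex.ofReal_mul (_ / _)]
  ring

private lemma g4_gcd {m n h k : ℕ} (hmn : Nat.Coprime m n) (hh : Nat.Coprime h m ∧ Nat.Coprime h n)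
    (hk : Nat.Coprime k m ∧ Nat.Coprime k n) : Nat.gcd (n * h) (m * k) = Nat.gcd h k := by
  rw [Nat.Coprime.gcd_mul _ (hk.1.symm)]
  have e1 : Nat.gcd (n * h) m = 1 := Nat.Coprime.mul_left hmn.symm hh.1
  have e2 : Nat.gcd (n * h) k = Nat.gcd h k := Nat.Coprime.gcd_mul_left_cancel h hk.2.symm
  rw [e1, e2, one_mul]

private lemma g4_diag {q N m n M : ℕ} (hm : 1 ≤ m) (hn : 1 ≤ n) (hmn : Nat.Coprime m n)
    (hq : ∀ h : ℕ, Nat.Coprime h q → Nat.Coprime h m ∧ Nat.Coprime h n) (hnM : n * N ≤ M) (hmM : m * N ≤ M) (w δ : ℝ)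
    (φ : ℝ → ℝ) :
    ∑ H ∈ Finset.Icc 1 M, ∑ K ∈ Finset.Icc 1 M, g4_K q N m n δ φ H K *
      ((gk H K * (w - Real.log H - Real.log K + 2 * Real.log (Nat.gcd H K)) : ℝ) : ℂ) =
      ((((m:ℝ) * n) ^ (-(1/2) : ℝ) * ZZ (w - Real.log ((m:ℝ) * n)) q N δ φ : ℝ) : ℂ) := by
  rw [g4_sum2 hm hn hnM hmM δ φ (fun H K => ((gk H K * (w - Real.log H - Real.log K + 2 * Real.log (Nat.gcd H K)) : ℝ) : ℂ))]
  unfold ZZ
  rw [Finset.mul_sum, Complex.ofReal_sum]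
  refine Finset.sum_congr rfl fun h hh => ?_
  rw [Finset.mul_sum, Complex.ofReal_sum]
  refine Finset.sum_congr rfl fun k hk => ?_
  unfold cs at hh hk
  rw [Finset.mem_filter, Finset.mem_Icc] at hh hk
  unfold g4_E g4_a
  rw [Nat.mul_div_cancel_left _ (by omega), Nat.mul_div_cancel_left _ (by omega), ← Complex.ofReal_mul]
  congr 1
  have p1 := q4_tau_pos (n := n * h) (Nat.mul_pos (by omega) (by omega))
  have p2 := q4_tau_pos (n := m * k) (Nat.mul_pos (by omega) (by omega))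
  have n0 : (0:ℝ) < n := by exact_mod_cast hn
  have m0 : (0:ℝ) < m := by exact_mod_cast hm
  have h0 : (0:ℝ) < h := by exact_mod_cast hh.1.1
  have k0 : (0:ℝ) < k := by exact_mod_cast hk.1.1
  unfold gk
  rw [g4_gcd hmn (hq h hh.2) (hq k hk.2)]
  have e1 : ((m:ℝ) * n) ^ (-(1/2) : ℝ) = √((m:ℝ) * n) / ((n:ℝ) * m) := by
    rw [Real.rpow_neg (by positivity), ← Real.sqrt_eq_rpow, inv_eq_one_div, div_eq_div_iff (by positivity) (by positivity),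
      Real.mul_self_sqrt (by positivity)]
    ring
  have e2 : Real.log ((n * h : ℕ) : ℝ) = Real.log n + Real.log h := by
    rw [Nat.cast_mul, Real.log_mul n0.ne' h0.ne']
  have e3 : Real.log ((m * k : ℕ) : ℝ) = Real.log m + Real.log k := by
    rw [Nat.cast_mul, Real.log_mul m0.ne' k0.ne']
  have e4 : Real.log ((m:ℝ) * n) = Real.log m + Real.log n := Real.log_mul m0.ne' n0.ne'
  rw [e1, e2, e3, e4, Nat.cast_mul, Nat.cast_mul]
  field_simp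
  ring

/-- ROW G4. Exact mean values of `|ζ|² |A|²` against a character. PROOF. As `twisted_mean` (LibLaw15/Q4): `chr m n t = √(mn) n^{-crit t} m^{-(1 - crit t)}` (LibLaw15/Q3), so `|A|² chr = QForm M K t` with `M = max m n * N` and
`K H L = √(mn) τ_{-1/2}(H/n) φ τ_{-1/2}(L/m) φ / (τ_{1/2}(H) τ_{1/2}(L))` if `n ∣ H, H/n ∈ cs q N, m ∣ L, L/m ∈ cs q N`, else `0`; `‖K‖ ≤ √(mn) B²/(τ(n) τ(m))` by `tneg_le` and `tau_super` (LibLaw15/Q5). Apply `qform_exact` with `θ = (c + 1/2)/2`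
(`M ≤ P.1^θ` for large `P.1`). `gcd(nh, mk) = gcd(h,k)` as `(m,n) = 1` and `h, k` are coprime to `m, n`. -/
theorem AA_mean {η : ℝ} (hη : 0 < η) {c : ℝ} (hc0 : 0 < c) (hc : c < 1/2) (q : ℕ) {m n : ℕ} (hm : 1 ≤ m) (hn : 1 ≤ n) (hmn : Nat.Coprime m n)
    (hq : ∀ h : ℕ, Nat.Coprime h q → Nat.Coprime h m ∧ Nat.Coprime h n) : ∃ C κ : ℝ, 0 < C ∧ 0 < κ ∧ ∀ᶠ P : ℝ × ℝ in Fl η, ∀ N : ℕ, (N:ℝ) ≤ P.1 ^ c →
      ∀ (δ : ℝ) (φ : ℝ → ℝ) (B : ℝ), 0 ≤ δ → (∀ x, 0 ≤ x → |φ x| ≤ B) →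
      ‖(∫ t in win P.2, ((‖riemannZeta (crit t)‖ ^ 2 : ℝ) : ℂ) * (((‖AA q N δ φ (crit t)‖ ^ 2 : ℝ) : ℂ) * chr m n t) ∂(gaussianReal P.2 (vw P.1))) -
        ((((m:ℝ) * n) ^ (-(1/2) : ℝ) * ZZ (mW P - Real.log ((m:ℝ) * n)) q N δ φ : ℝ) : ℂ)‖ ≤ C * B ^ 2 * P.1 ^ (-κ) := by
  have hθ0 : (0:ℝ) < (c + 1/2) / 2 := by linarith
  have hθ1 : (c + 1/2) / 2 < (1:ℝ) / 2 := by linarith
  obtain ⟨C, κ, hC, hκ, hQ⟩ := qform_exact hη hθ0 hθ1
  set K0 : ℝ := √((m:ℝ) * n) / (tau (1/2) n * tau (1/2) m) with hK0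
  have hK0p : 0 < K0 := by
    have h1 := q4_tau_pos hn
    have h2 := q4_tau_pos hm
    have h3 : (0:ℝ) < m := by exact_mod_cast hm
    have h4 : (0:ℝ) < n := by exact_mod_cast hn
    rw [hK0]
    positivity
  refine ⟨C * K0, κ, by positivity, hκ, ?_⟩
  have hT : Tendsto (fun p : ℝ × ℝ => p.1 ^ ((1/2 - c) / 2)) (Fl η) atTop :=
    (tendsto_rpow_atTop (by linarith)).comp (Fl_fst η)
  filter_upwards [hQ, hT.eventually_ge_atTop ((max m n : ℕ) : ℝ), (Fl_fst η).eventually (eventually_ge_atTop (1:ℝ))]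
    with p hp hDp hT1 N hN δ φ B hδ hφ
  have hT0 : 0 < p.1 := by linarith
  have hnM : n * N ≤ max m n * N := Nat.mul_le_mul_right N (le_max_right m n)
  have hmM : m * N ≤ max m n * N := Nat.mul_le_mul_right N (le_max_left m n)
  simp_rw [g4_form (q := q) hm hn hnM hmM δ φ]
  rw [← g4_diag hm hn hmn hq hnM hmM (mW p) δ φ]
  have h1 := hp (max m n * N) ?_ (g4_K q N m n δ φ) (K0 * B ^ 2) (fun h k => g4_K_norm hm hn hδ hφ h k)
  · calc _ ≤ C * (K0 * B ^ 2) * p.1 ^ (-κ) := h1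
      _ = C * K0 * B ^ 2 * p.1 ^ (-κ) := by ring
  · rw [Nat.cast_mul]
    calc ((max m n : ℕ) : ℝ) * N ≤ p.1 ^ ((1/2 - c) / 2) * p.1 ^ c :=
          mul_le_mul hDp hN (Nat.cast_nonneg _) (by positivity)
      _ = p.1 ^ ((c + 1/2) / 2) := by
          rw [← Real.rpow_add hT0]
          congr 1
          ring

end Pool.Agent.LibOM70
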