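import Pool.Agent.LibOM70B.Defs

/-! ODD MOMENTS, signed route, row M1a. -/

set_option autoImplicit false

namespace Pool.Agent.LibOM70

open MeasureTheory Set Filter Topology Complex ProbabilityTheory
open scoped NNReal ComplexConjugate
open Pool.Agent.LibZM Pool.Agent.LibM3
open Pool.Agent.LibLaw15 hiding Lam

private noncomputable def m1aH (N : ℕ) : ℝ := ∑ n ∈ Finset.Icc 1 N, (1 / (n:ℝ))

private theorem m1aH_succ (N : ℕ) : m1aH (N + 1) = m1aH N + 1 / ((N:ℝ) + 1) := by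
  rw [m1aH, m1aH, Finset.sum_Icc_succ_top (by omega)]
  push_cast
  rfl

private theorem m1aH_harmonic (N : ℕ) : m1aH N = (harmonic N : ℝ) := by
  induction N with
  | zero => simp [m1aH]
  | succ n ih =>
    rw [m1aH_succ, ih, harmonic_succ]
    push_cast
    rw [one_div]

private theorem m1a_log (N : ℕ) (hN : 1 ≤ N) (x : ℝ) (h1 : (N:ℝ) ≤ x) (h2 : x ≤ N + 1) :
    0 ≤ Real.log x - Real.log N ∧ Real.log x - Real.log N ≤ 1 / N := by
  have hN' : (1:ℝ) ≤ N := by exact_mod_cast hN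
  have h0 : (0:ℝ) < N := by linarith
  have hx : 0 < x := by linarith
  constructor
  · have := Real.log_le_log h0 h1
    linarith
  · rw [← Real.log_div hx.ne' h0.ne']
    have h3 := Real.log_le_sub_one_of_pos (x := x / N) (by positivity)
    refine h3.trans ?_
    rw [div_sub_one h0.ne', div_le_div_iff_of_pos_right h0]
    linarith

private theorem m1a_gam (N : ℕ) (hN : 1 ≤ N) :
    0 ≤ m1aH N - Real.log N - Real.eulerMascheroniConstant ∧
      m1aH N - Real.log N - Real.eulerMascheroniConstant ≤ 1 / N := by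
  have h1 := Real.eulerMascheroniSeq_lt_eulerMascheroniConstant N
  have h2 := Real.eulerMascheroniConstant_lt_eulerMascheroniSeq' N
  rw [Real.eulerMascheroniSeq, ← m1aH_harmonic] at h1
  rw [Real.eulerMascheroniSeq', if_neg (by omega), ← m1aH_harmonic] at h2
  have h3 := (m1a_log N hN (N + 1) (by linarith) le_rfl).2
  constructor <;> linarith

private noncomputable def m1aB (N : ℕ) : ℝ :=
  ∑ n ∈ Finset.Icc 1 N, (1 / (n:ℝ)) * Real.log (N / n) - (1/2) * Real.log N ^ 2 -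
    Real.eulerMascheroniConstant * Real.log N

private theorem m1a_shift (N : ℕ) (hN : 1 ≤ N) (x : ℝ) (hx : 0 < x) :
    ∑ n ∈ Finset.Icc 1 N, (1 / (n:ℝ)) * Real.log (x / n) =
      ∑ n ∈ Finset.Icc 1 N, (1 / (n:ℝ)) * Real.log (N / n) +
        m1aH N * (Real.log x - Real.log N) := by
  rw [m1aH, Finset.sum_mul, ← Finset.sum_add_distrib]
  refine Finset.sum_congr rfl fun n hn => ?_
  have hn1 : 1 ≤ n := (Finset.mem_Icc.1 hn).1
  have h1 : (n:ℝ) ≠ 0 := by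
    have : n ≠ 0 := by omega
    exact_mod_cast this
  have h2 : (N:ℝ) ≠ 0 := by
    have : N ≠ 0 := by omega
    exact_mod_cast this
  rw [Real.log_div hx.ne' h1, Real.log_div h2 h1]
  ring

private theorem m1a_main (N : ℕ) (hN : 1 ≤ N) (x : ℝ) (h1 : (N:ℝ) ≤ x) (h2 : x ≤ N + 1) :
    |∑ n ∈ Finset.Icc 1 N, (1 / (n:ℝ)) * Real.log (x / n) - (1/2) * Real.log x ^ 2 -
      Real.eulerMascheroniConstant * Real.log x - m1aB N| ≤ 1 / (N:ℝ) * (1 / N) := by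
  have hN' : (1:ℝ) ≤ N := by exact_mod_cast hN
  have hx : 0 < x := by linarith
  obtain ⟨a1, a2⟩ := m1a_log N hN x h1 h2
  obtain ⟨b1, b2⟩ := m1a_gam N hN
  have h3 : ∑ n ∈ Finset.Icc 1 N, (1 / (n:ℝ)) * Real.log (x / n) - (1/2) * Real.log x ^ 2 -
      Real.eulerMascheroniConstant * Real.log x - m1aB N =
      (Real.log x - Real.log N) * ((m1aH N - Real.log N - Real.eulerMascheroniConstant) -
        (Real.log x - Real.log N) / 2) := by
    rw [m1a_shift N hN x hx, m1aB]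
    ring
  rw [h3, abs_mul]
  refine mul_le_mul ?_ ?_ (abs_nonneg _) (by positivity)
  · rw [abs_of_nonneg a1]
    exact a2
  · rw [abs_le]
    constructor <;> linarith

private theorem m1a_step (N : ℕ) (hN : 1 ≤ N) : |m1aB (N + 1) - m1aB N| ≤ 1 / (N:ℝ) * (1 / N) := by
  have h1 := m1a_main N hN ((N:ℝ) + 1) (by linarith) le_rfl
  have h2 : ∑ n ∈ Finset.Icc 1 (N + 1), (1 / (n:ℝ)) * Real.log (((N + 1 : ℕ) : ℝ) / n) =
      ∑ n ∈ Finset.Icc 1 N, (1 / (n:ℝ)) * Real.log (((N:ℝ) + 1) / n) := by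
    rw [Finset.sum_Icc_succ_top (by omega)]
    have h3 : (((N + 1 : ℕ) : ℝ)) ≠ 0 := by positivity
    rw [div_self h3, Real.log_one, mul_zero, add_zero]
    push_cast
    rfl
  have h4 : m1aB (N + 1) = ∑ n ∈ Finset.Icc 1 N, (1 / (n:ℝ)) * Real.log (((N:ℝ) + 1) / n) -
      (1/2) * Real.log ((N:ℝ) + 1) ^ 2 - Real.eulerMascheroniConstant * Real.log ((N:ℝ) + 1) := by
    rw [m1aB, h2]
    push_cast
    rfl
  rw [h4]
  exact h1

private theorem m1a_lim : ∃ c : ℝ, ∀ N : ℕ, 1 ≤ N → |m1aB N - c| ≤ 2 / N := by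
  have hd : ∀ n : ℕ, 1 / (((n + 1 : ℕ)):ℝ) * (1 / ((n + 1 : ℕ):ℝ)) ≤
      2 / ((n + 1 : ℕ):ℝ) - 2 / ((n + 1 + 1 : ℕ):ℝ) := by
    intro n
    push_cast
    have h1 : (0:ℝ) < (n:ℝ) + 1 := by positivity
    have h2 : (0:ℝ) < (n:ℝ) + 1 + 1 := by positivity
    rw [div_sub_div _ _ h1.ne' h2.ne', div_mul_div_comm, div_le_div_iff₀ (by positivity)
      (by positivity)]
    have : (0:ℝ) ≤ n := Nat.cast_nonneg n
    nlinarith
  have hl : Monotone fun n : ℕ => m1aB (n + 1) - 2 / ((n + 1 : ℕ):ℝ) := by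
    refine monotone_nat_of_le_succ fun n => ?_
    have h1 := (abs_le.1 (m1a_step (n + 1) (by omega))).1
    have h2 := hd n
    linarith
  have hu : Antitone fun n : ℕ => m1aB (n + 1) + 2 / ((n + 1 : ℕ):ℝ) := by
    refine antitone_nat_of_succ_le fun n => ?_
    have h1 := (abs_le.1 (m1a_step (n + 1) (by omega))).2
    have h2 := hd n
    linarith
  have hlu : ∀ m n : ℕ, m1aB (m + 1) - 2 / ((m + 1 : ℕ):ℝ) ≤
      m1aB (n + 1) + 2 / ((n + 1 : ℕ):ℝ) := by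
    intro m n
    have h1 := hl (le_max_left m n)
    have h2 := hu (le_max_right m n)
    simp only at h1 h2
    have h3 : (0:ℝ) ≤ 2 / ((max m n + 1 : ℕ):ℝ) := by positivity
    linarith
  refine ⟨⨆ n : ℕ, (m1aB (n + 1) - 2 / ((n + 1 : ℕ):ℝ)), fun N hN => ?_⟩
  obtain ⟨n, rfl⟩ : ∃ n, N = n + 1 := ⟨N - 1, by omega⟩
  have hb : BddAbove (Set.range fun n : ℕ => m1aB (n + 1) - 2 / ((n + 1 : ℕ):ℝ)) := by
    refine ⟨m1aB (0 + 1) + 2 / ((0 + 1 : ℕ):ℝ), ?_⟩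
    rintro _ ⟨m, rfl⟩
    exact hlu m 0
  have h1 := le_ciSup hb n
  have h2 : (⨆ n : ℕ, (m1aB (n + 1) - 2 / ((n + 1 : ℕ):ℝ))) ≤
      m1aB (n + 1) + 2 / ((n + 1 : ℕ):ℝ) := ciSup_le fun m => hlu m n
  rw [abs_le]
  constructor <;> linarith

/-- ROW M1a. `∑_{n ≤ x} (1/n) log (x/n) = (1/2) log² x + γ log x + c₂ + O(x^{-1/2})`, in the form: there are constants `γ, c₂, C`.
PROOF. Abel summation / Euler-Maclaurin from `∑_{n ≤ x} 1/n = log x + γ + O(1/x)` (Mathlib: `Real.eulerMascheroniConstant` and the bounds on `harmonic n - log n`,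
or prove `∑_{n≤x} 1/n - log x - γ = O(1/x)` directly): `∑_{n ≤ x} (1/n) log (x/n) = ∫_1^x (∑_{n ≤ t} 1/n) dt/t`. -/
theorem harm_log : ∃ γ c₂ C : ℝ, 0 < C ∧ ∀ x : ℝ, 1 ≤ x →
    |∑ n ∈ Finset.Icc 1 ⌊x⌋₊, (1 / (n:ℝ)) - Real.log x - γ| ≤ C * x ^ (-(1/2) : ℝ) ∧
    |∑ n ∈ Finset.Icc 1 ⌊x⌋₊, (1 / (n:ℝ)) * Real.log (x / n) - (1/2) * Real.log x ^ 2 - γ * Real.log x - c₂| ≤ C * x ^ (-(1/2) : ℝ) := by
  obtain ⟨c, hc⟩ := m1a_lim
  refine ⟨Real.eulerMascheroniConstant, c, 8, by norm_num, fun x hx => ?_⟩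
  have hN : 1 ≤ ⌊x⌋₊ := Nat.one_le_floor_iff x |>.2 hx
  have h1 : (⌊x⌋₊ : ℝ) ≤ x := Nat.floor_le (by linarith)
  have h2 : x ≤ ⌊x⌋₊ + 1 := (Nat.lt_floor_add_one x).le
  generalize ⌊x⌋₊ = N at hN h1 h2
  have hN' : (1:ℝ) ≤ N := by exact_mod_cast hN
  have hx0 : 0 < x := by linarith
  have hinv : 1 / (N:ℝ) ≤ 2 / x := by
    rw [div_le_div_iff₀ (by linarith) hx0]
    linarith
  have hpow : 1 / x ≤ x ^ (-(1/2) : ℝ) := by
    rw [one_div, ← Real.rpow_neg_one]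
    exact Real.rpow_le_rpow_of_exponent_le hx (by norm_num)
  have hN1 : 1 / (N:ℝ) ≤ 1 := by
    rw [div_le_one (by linarith)]
    exact hN'
  have h2x : 2 / x = 2 * (1 / x) := by ring
  have hN0 : 0 < 1 / (N:ℝ) := by positivity
  constructor
  · obtain ⟨a1, a2⟩ := m1a_log N hN x h1 h2
    obtain ⟨b1, b2⟩ := m1a_gam N hN
    rw [← m1aH, abs_le]
    constructor <;> linarith
  · have h3 := m1a_main N hN x h1 h2
    have h4 := hc N hN
    have h5 : 1 / (N:ℝ) * (1 / N) ≤ 1 / N := by nlinarith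
    have h6 : 2 / (N:ℝ) = 2 * (1 / N) := by ring
    rw [abs_le] at h3 h4 ⊢
    constructor <;> linarith

end Pool.Agent.LibOM70
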