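import Pool.Agent.LibOM70B.Defs
import Pool.Agent.LibOM70B.M1a

/-! ODD MOMENTS, signed route, row M1b. -/

set_option autoImplicit false

namespace Pool.Agent.LibOM70

open MeasureTheory Set Filter Topology Complex ProbabilityTheory
open scoped NNReal ComplexConjugate
open Pool.Agent.LibZM Pool.Agent.LibM3
open Pool.Agent.LibLaw15 hiding Lam

private theorem m1b_dcoef (a : ℕ) : |dcoef (-1) a| ≤ 1 := by
  rw [dcoef, Finset.abs_prod]
  refine Finset.prod_le_one (fun i _ => abs_nonneg _) fun i _ => ?_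
  have hi : (0:ℝ) ≤ i := Nat.cast_nonneg i
  rw [abs_div, abs_of_pos (by linarith : (0:ℝ) < (i:ℝ) + 1), div_le_one (by linarith), abs_le]
  constructor <;> linarith

private theorem m1b_le (n : ℕ) : |tau (-1) n| ≤ 1 := by
  rcases eq_or_ne n 0 with rfl | hn
  · simp
  · rw [tau_apply hn, Finsupp.prod, Finset.abs_prod]
    exact Finset.prod_le_one (fun i _ => abs_nonneg _) fun i _ => m1b_dcoef _

private theorem m1b_mul : tau (-1) * tau 1 = 1 := by
  rw [tau_mul, show (-1 + 1 : ℝ) = 0 by norm_num, tau_zero_eq]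

private theorem m1b_sum (N : ℕ) (hN : 1 ≤ N) :
    ∑ n ∈ Finset.Icc 1 N, tau (-1) n * ((N / n : ℕ) : ℝ) = 1 := by
  have h1 := ArithmeticFunction.sum_Ioc_mul_eq_sum_sum (tau (-1)) (tau 1) N
  rw [m1b_mul] at h1
  have h2 : ∑ n ∈ Finset.Ioc 0 N, (1 : ArithmeticFunction ℝ) n = 1 := by
    rw [Finset.sum_eq_single 1]
    · rw [ArithmeticFunction.one_apply, if_pos rfl]
    · intro b _ hb
      rw [ArithmeticFunction.one_apply, if_neg hb]
    · intro h
      exact absurd (Finset.mem_Ioc.2 ⟨by omega, hN⟩) h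
  rw [h2] at h1
  have h3 : Finset.Icc 1 N = Finset.Ioc 0 N := by
    ext a
    simp only [Finset.mem_Icc, Finset.mem_Ioc]
    omega
  rw [h3]
  refine Eq.trans ?_ h1.symm
  refine Finset.sum_congr rfl fun n _ => ?_
  congr 1
  rw [Finset.sum_congr rfl fun m hm => tau_one_apply (n := m)
    (by have := (Finset.mem_Ioc.1 hm).1; omega)]
  rw [Finset.sum_const, Nat.card_Ioc, Nat.sub_zero, nsmul_eq_mul, mul_one]

private theorem m1b_bound (N : ℕ) (hN : 1 ≤ N) :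
    |∑ n ∈ Finset.Icc 1 N, tau (-1) n / n| ≤ 2 := by
  have hN' : (1:ℝ) ≤ N := by exact_mod_cast hN
  have h0 : (0:ℝ) < N := by linarith
  have h1 : (N:ℝ) * ∑ n ∈ Finset.Icc 1 N, tau (-1) n / n =
      1 + ∑ n ∈ Finset.Icc 1 N, tau (-1) n * ((N:ℝ) / n - ((N / n : ℕ) : ℝ)) := by
    have h9 := m1b_sum N hN
    have h10 : (N:ℝ) * ∑ n ∈ Finset.Icc 1 N, tau (-1) n / n =
        ∑ n ∈ Finset.Icc 1 N, tau (-1) n * ((N / n : ℕ) : ℝ) +
        ∑ n ∈ Finset.Icc 1 N, tau (-1) n * ((N:ℝ) / n - ((N / n : ℕ) : ℝ)) := by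
      rw [Finset.mul_sum, ← Finset.sum_add_distrib]
      refine Finset.sum_congr rfl fun n _ => ?_
      ring
    rw [h10, h9]
  have h2 : |∑ n ∈ Finset.Icc 1 N, tau (-1) n * ((N:ℝ) / n - ((N / n : ℕ) : ℝ))| ≤ N := by
    refine (Finset.abs_sum_le_sum_abs _ _).trans ?_
    have h3 : ∀ n ∈ Finset.Icc 1 N, |tau (-1) n * ((N:ℝ) / n - ((N / n : ℕ) : ℝ))| ≤ 1 := by
      intro n hn
      have hn1 : 1 ≤ n := (Finset.mem_Icc.1 hn).1
      have hn0 : (0:ℝ) < n := by exact_mod_cast hn1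
      rw [abs_mul]
      refine mul_le_one₀ (m1b_le n) (abs_nonneg _) ?_
      have h4 : ((N / n : ℕ) : ℝ) ≤ (N:ℝ) / n := Nat.cast_div_le
      have h5 : (N:ℝ) / n ≤ ((N / n : ℕ) : ℝ) + 1 := by
        rw [div_le_iff₀ hn0]
        have h6 : N < n * (N / n + 1) := Nat.lt_mul_div_succ N (by omega)
        have h7 : (N:ℝ) ≤ ((n * (N / n + 1) : ℕ) : ℝ) := by exact_mod_cast h6.le
        rw [Nat.cast_mul] at h7
        push_cast at h7 ⊢
        linarith
      rw [abs_le]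
      constructor <;> linarith
    refine (Finset.sum_le_sum h3).trans ?_
    rw [Finset.sum_const, Nat.card_Icc, nsmul_eq_mul, mul_one]
    simp
  have h8 : |(N:ℝ) * ∑ n ∈ Finset.Icc 1 N, tau (-1) n / n| ≤ 1 + N := by
    rw [h1]
    refine (abs_add_le _ _).trans ?_
    rw [abs_one]
    linarith
  rw [abs_mul, abs_of_pos h0] at h8
  by_contra hlt
  push Not at hlt
  nlinarith

/-- ROW M1b. `tau (-1)` is the Moebius function: `tau (-1) * tau 1 = 1` (`tau_mul`, `tau_zero_eq`), `|tau (-1) n| ≤ 1` (`dcoef (-1) 0 = 1, dcoef (-1) 1 = -1`, then `0`), and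
`|∑_{n ≤ x} tau (-1) n / n| ≤ 2` (from `∑_{n ≤ x} tau (-1) n ⌊x/n⌋ = 1`). -/
theorem mob_basic : (∀ n : ℕ, |tau (-1) n| ≤ 1) ∧ tau (-1) * tau 1 = 1 ∧
    ∀ x : ℝ, 1 ≤ x → |∑ n ∈ Finset.Icc 1 ⌊x⌋₊, tau (-1) n / n| ≤ 2 :=
  ⟨m1b_le, m1b_mul, fun x hx => m1b_bound _ ((Nat.one_le_floor_iff x).2 hx)⟩

end Pool.Agent.LibOM70
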