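import Pool.Agent.LibOM70B.Defs
import Pool.Agent.LibOM70B.M1a
import Pool.Agent.LibOM70B.M1b

/-! ODD MOMENTS, signed route, row M1c. -/

set_option autoImplicit false

namespace Pool.Agent.LibOM70

open MeasureTheory Set Filter Topology Complex ProbabilityTheory
open scoped NNReal ComplexConjugate
open Pool.Agent.LibZM Pool.Agent.LibM3
open Pool.Agent.LibLaw15 hiding Lam

private theorem m1c_dsum (f g : ArithmeticFunction ℝ) (Φ : ℕ → ℝ) (N : ℕ) :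
    ∑ k ∈ Finset.Icc 1 N, (f * g) k * Φ k =
      ∑ n ∈ Finset.Icc 1 N, f n * ∑ m ∈ Finset.Icc 1 (N / n), g m * Φ (n * m) := by
  simp_rw [ArithmeticFunction.mul_apply, Finset.sum_mul, Finset.mul_sum]
  rw [Finset.sum_sigma', Finset.sum_sigma']
  refine Finset.sum_nbij' (fun x => ⟨x.2.1, x.2.2⟩) (fun y => ⟨y.1 * y.2, (y.1, y.2)⟩) ?_ ?_ ?_ ?_ ?_
  · rintro ⟨k, a, b⟩ h
    simp only [Finset.mem_sigma, Finset.mem_Icc, Nat.mem_divisorsAntidiagonal] at h ⊢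
    obtain ⟨⟨h1, h2⟩, h3, h4⟩ := h
    have ha : 0 < a := by
      rcases Nat.eq_zero_or_pos a with h | h
      · rw [h, zero_mul] at h3
        exact absurd h3.symm h4
      · exact h
    have hb : 0 < b := by
      rcases Nat.eq_zero_or_pos b with h | h
      · rw [h, mul_zero] at h3
        exact absurd h3.symm h4
      · exact h
    refine ⟨⟨ha, ?_⟩, hb, ?_⟩
    · exact le_trans (Nat.le_mul_of_pos_right a hb) (h3 ▸ h2)
    · rw [Nat.le_div_iff_mul_le ha, mul_comm]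
      exact h3 ▸ h2
  · rintro ⟨a, b⟩ h
    simp only [Finset.mem_sigma, Finset.mem_Icc, Nat.mem_divisorsAntidiagonal] at h ⊢
    obtain ⟨⟨h1, h2⟩, h3, h4⟩ := h
    rw [Nat.le_div_iff_mul_le h1, mul_comm] at h4
    exact ⟨⟨Nat.mul_pos h1 h3, h4⟩, trivial, (Nat.mul_pos h1 h3).ne'⟩
  · rintro ⟨k, a, b⟩ h
    simp only [Finset.mem_sigma, Nat.mem_divisorsAntidiagonal] at h
    obtain ⟨_, h3, _⟩ := h
    subst h3
    rfl
  · rintro ⟨a, b⟩ _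
    rfl
  · rintro ⟨k, a, b⟩ h
    simp only [Finset.mem_sigma, Nat.mem_divisorsAntidiagonal] at h
    obtain ⟨_, h3, _⟩ := h
    subst h3
    change f a * g b * Φ (a * b) = f a * (g b * Φ (a * b))
    ring

/-- ROW M1c. The elementary estimate `∑_{n ≤ x} μ(n)/n log²(x/n) = 2 log x + O(1)` (numerically the difference tends to `-2γ`).
PROOF. Put `H(x) = 2 log x - 2γ` for `x ≥ 1` and `G(x) = ∑_{n ≤ x} (1/n) H(x/n)`. By `harm_log` `G(x) = log² x + 2γ log x + 2c₂ - 2γ log x - 2γ² + O(x^{-1/2}) = log² x + c₃ + E(x)`,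
`|E(x)| ≤ 4(1+|γ|) C x^{-1/2}`. Moebius inversion (`∑_{ab = n} μ(a) = [n = 1]`): `H(x) = ∑_{n ≤ x} (μ(n)/n) G(x/n)`. So `∑ μ(n)/n log²(x/n) = 2 log x - 2γ - c₃ ∑ μ(n)/n - ∑ μ(n)/n E(x/n)`;
`|∑ μ(n)/n| ≤ 2` and `∑_{n ≤ x} (1/n) (n/x)^{1/2} ≤ 2 + …` is bounded (`∑_{n ≤ x} n^{-1/2} ≤ 2 √x`, `q4_sum_half` in LibM3/Q4). -/
theorem mob_log2 : ∃ C : ℝ, 0 < C ∧ ∀ x : ℝ, 1 ≤ x →
    |∑ n ∈ Finset.Icc 1 ⌊x⌋₊, tau (-1) n / n * Real.log (x / n) ^ 2 - 2 * Real.log x| ≤ C := by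
  obtain ⟨γ, c₂, C, hC, hH⟩ := harm_log
  obtain ⟨hmu, hinv, hsum⟩ := mob_basic
  set c₃ : ℝ := 2 * c₂ - 2 * γ ^ 2 with hc₃
  set C' : ℝ := 2 * C + 2 * |γ| * C with hC'
  have hC'0 : 0 ≤ C' := by positivity
  let G : ℝ → ℝ := fun y => ∑ m ∈ Finset.Icc 1 ⌊y⌋₊, (1 / (m:ℝ)) * (2 * Real.log (y / m) - 2 * γ)
  have hG : ∀ y : ℝ, 1 ≤ y → |G y - Real.log y ^ 2 - c₃| ≤ C' * y ^ (-(1/2) : ℝ) := by
    intro y hy
    obtain ⟨h1, h2⟩ := hH y hy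
    have h3 : G y = 2 * ∑ n ∈ Finset.Icc 1 ⌊y⌋₊, (1 / (n:ℝ)) * Real.log (y / n) -
        2 * γ * ∑ n ∈ Finset.Icc 1 ⌊y⌋₊, (1 / (n:ℝ)) := by
      change ∑ m ∈ Finset.Icc 1 ⌊y⌋₊, (1 / (m:ℝ)) * (2 * Real.log (y / m) - 2 * γ) = _
      rw [Finset.mul_sum, Finset.mul_sum, ← Finset.sum_sub_distrib]
      refine Finset.sum_congr rfl fun n _ => ?_
      ring
    have h4 : G y - Real.log y ^ 2 - c₃ =
        2 * (∑ n ∈ Finset.Icc 1 ⌊y⌋₊, (1 / (n:ℝ)) * Real.log (y / n) - (1/2) * Real.log y ^ 2 -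
          γ * Real.log y - c₂) -
        2 * γ * (∑ n ∈ Finset.Icc 1 ⌊y⌋₊, (1 / (n:ℝ)) - Real.log y - γ) := by
      rw [h3, hc₃]
      ring
    rw [h4]
    refine (abs_sub _ _).trans ?_
    rw [abs_mul, abs_mul, abs_mul, abs_two]
    have h5 : 2 * |γ| * |∑ n ∈ Finset.Icc 1 ⌊y⌋₊, (1 / (n:ℝ)) - Real.log y - γ| ≤
        2 * |γ| * (C * y ^ (-(1/2) : ℝ)) := mul_le_mul_of_nonneg_left h1 (by positivity)
    rw [hC']
    linarith
  refine ⟨2 * |γ| + |c₃| * 2 + 2 * C' + 1, by positivity, fun x hx => ?_⟩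
  have hx0 : 0 < x := by linarith
  set N := ⌊x⌋₊ with hN
  have hN1 : 1 ≤ N := by
    rw [hN, Nat.one_le_floor_iff]
    exact hx
  -- Moebius inversion
  have hmain := m1c_dsum (tau (-1)) (tau 1) (fun k => (1 / (k:ℝ)) * (2 * Real.log (x / k) - 2 * γ)) N
  rw [hinv] at hmain
  have hL : ∑ k ∈ Finset.Icc 1 N, (1 : ArithmeticFunction ℝ) k *
      ((1 / (k:ℝ)) * (2 * Real.log (x / k) - 2 * γ)) = 2 * Real.log x - 2 * γ := by
    rw [Finset.sum_eq_single 1]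
    · simp
    · intro b _ hb
      rw [ArithmeticFunction.one_apply_ne hb, zero_mul]
    · intro h
      exact absurd (Finset.mem_Icc.2 ⟨le_refl 1, hN1⟩) h
  rw [hL] at hmain
  have hR : ∀ n ∈ Finset.Icc 1 N, tau (-1) n * ∑ m ∈ Finset.Icc 1 (N / n), tau 1 m *
      ((1 / ((n * m : ℕ):ℝ)) * (2 * Real.log (x / ((n * m : ℕ):ℝ)) - 2 * γ)) =
      tau (-1) n / n * G (x / n) := by
    intro n hn
    rw [Finset.mem_Icc] at hn
    have hn0 : (0:ℝ) < n := by exact_mod_cast hn.1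
    have h1 : ⌊x / (n:ℝ)⌋₊ = N / n := by
      rw [Nat.floor_div_natCast]
    change _ = tau (-1) n / n * ∑ m ∈ Finset.Icc 1 ⌊x / (n:ℝ)⌋₊, (1 / (m:ℝ)) *
      (2 * Real.log (x / (n:ℝ) / m) - 2 * γ)
    rw [h1, Finset.mul_sum, Finset.mul_sum]
    refine Finset.sum_congr rfl fun m hm => ?_
    rw [Finset.mem_Icc] at hm
    have hm0 : (0:ℝ) < m := by exact_mod_cast hm.1
    rw [tau_one_apply (by omega)]
    push_cast
    rw [div_div]
    field_simp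
  rw [Finset.sum_congr rfl hR] at hmain
  have hfin : ∑ n ∈ Finset.Icc 1 N, tau (-1) n / n * Real.log (x / n) ^ 2 - 2 * Real.log x =
      -2 * γ - c₃ * ∑ n ∈ Finset.Icc 1 N, tau (-1) n / n -
        ∑ n ∈ Finset.Icc 1 N, tau (-1) n / n * (G (x / n) - Real.log (x / n) ^ 2 - c₃) := by
    have h1 : ∑ n ∈ Finset.Icc 1 N, tau (-1) n / n * (G (x / n) - Real.log (x / n) ^ 2 - c₃) =
        ∑ n ∈ Finset.Icc 1 N, tau (-1) n / n * G (x / n) -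
        ∑ n ∈ Finset.Icc 1 N, tau (-1) n / n * Real.log (x / n) ^ 2 -
        c₃ * ∑ n ∈ Finset.Icc 1 N, tau (-1) n / n := by
      rw [Finset.mul_sum, ← Finset.sum_sub_distrib, ← Finset.sum_sub_distrib]
      refine Finset.sum_congr rfl fun n _ => ?_
      ring
    rw [h1, ← hmain]
    ring
  rw [hfin]
  have hb1 : |c₃ * ∑ n ∈ Finset.Icc 1 N, tau (-1) n / n| ≤ |c₃| * 2 := by
    rw [abs_mul]
    exact mul_le_mul_of_nonneg_left (hsum x hx) (abs_nonneg _)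
  have hb2 : |∑ n ∈ Finset.Icc 1 N, tau (-1) n / n * (G (x / n) - Real.log (x / n) ^ 2 - c₃)| ≤
      2 * C' := by
    refine (Finset.abs_sum_le_sum_abs _ _).trans ?_
    have h1 : ∀ n ∈ Finset.Icc 1 N, |tau (-1) n / n * (G (x / n) - Real.log (x / n) ^ 2 - c₃)| ≤
        C' * x ^ (-(1/2) : ℝ) * (n:ℝ) ^ (-(1/2) : ℝ) := by
      intro n hn
      rw [Finset.mem_Icc] at hn
      have hn0 : (0:ℝ) < n := by exact_mod_cast hn.1
      have h2 : (1:ℝ) ≤ x / n := by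
        rw [le_div_iff₀ hn0, one_mul]
        exact (Nat.le_floor_iff hx0.le).1 hn.2
      rw [abs_mul, abs_div, Nat.abs_cast]
      have h3 : |tau (-1) n| / (n:ℝ) ≤ 1 / n := div_le_div_of_nonneg_right (hmu n) hn0.le
      refine (mul_le_mul h3 (hG _ h2) (abs_nonneg _) (by positivity)).trans (le_of_eq ?_)
      rw [Real.div_rpow hx0.le hn0.le]
      have h4 : (n:ℝ) ^ (-(1/2) : ℝ) * (n:ℝ) ^ (-(1/2) : ℝ) = 1 / n := by
        rw [← Real.rpow_add hn0, show (-(1/2) : ℝ) + (-(1/2)) = -1 by norm_num, Real.rpow_neg_one,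
          one_div]
      have h5 : (n:ℝ) ^ (-(1/2) : ℝ) ≠ 0 := (Real.rpow_pos_of_pos hn0 _).ne'
      rw [← h4]
      field_simp
    refine (Finset.sum_le_sum h1).trans ?_
    rw [← Finset.mul_sum]
    have h2 := q4_sum_half N
    have h3 : √(N:ℝ) ≤ √x := Real.sqrt_le_sqrt (Nat.floor_le hx0.le)
    have h4 : x ^ (-(1/2) : ℝ) = 1 / √x := by
      rw [Real.rpow_neg hx0.le, ← Real.sqrt_eq_rpow, one_div]
    have h5 : 0 < √x := Real.sqrt_pos.2 hx0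
    calc C' * x ^ (-(1/2) : ℝ) * ∑ n ∈ Finset.Icc 1 N, (n:ℝ) ^ (-(1/2) : ℝ)
        ≤ C' * x ^ (-(1/2) : ℝ) * (2 * √x) :=
          mul_le_mul_of_nonneg_left (h2.trans (by linarith)) (by positivity)
      _ = 2 * C' := by
          rw [h4]
          field_simp
  have hb3 : |(-2) * γ| = 2 * |γ| := by rw [abs_mul, abs_neg, abs_two]
  calc |-2 * γ - c₃ * ∑ n ∈ Finset.Icc 1 N, tau (-1) n / n -
        ∑ n ∈ Finset.Icc 1 N, tau (-1) n / n * (G (x / n) - Real.log (x / n) ^ 2 - c₃)|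
      ≤ |-2 * γ - c₃ * ∑ n ∈ Finset.Icc 1 N, tau (-1) n / n| +
        |∑ n ∈ Finset.Icc 1 N, tau (-1) n / n * (G (x / n) - Real.log (x / n) ^ 2 - c₃)| :=
          abs_sub _ _
    _ ≤ (|(-2) * γ| + |c₃ * ∑ n ∈ Finset.Icc 1 N, tau (-1) n / n|) + 2 * C' :=
          add_le_add (abs_sub _ _) hb2
    _ ≤ 2 * |γ| + |c₃| * 2 + 2 * C' + 1 := by rw [hb3]; linarith

end Pool.Agent.LibOM70
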