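import Pool.Agent.LibOM70B.M1c

/-! ODD MOMENTS, signed route, row M2. -/

set_option autoImplicit false

namespace Pool.Agent.LibOM70

open MeasureTheory Set Filter Topology Complex ProbabilityTheory
open scoped NNReal ComplexConjugate
open Pool.Agent.LibZM Pool.Agent.LibM3
open Pool.Agent.LibLaw15 hiding Lam

theorem m2_zero {c B : ℝ} {φ : ℝ → ℝ} (h : Adm c B φ) {k : ℕ} (hk : k ≤ 3) {x : ℝ} (hx : c ≤ x) : iteratedDeriv k φ x = 0 := by
  have hc : Continuous (iteratedDeriv k φ) := h.smooth.continuous_iteratedDeriv k (by exact_mod_cast hk)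
  have h1 : Set.Ioi c ⊆ {y | iteratedDeriv k φ y = 0} := fun y hy => by
    have h2 : φ =ᶠ[𝓝 y] (fun _ => (0:ℝ)) := by
      filter_upwards [lt_mem_nhds (show c < y from hy)] with z hz
      exact h.zero z hz.le
    show iteratedDeriv k φ y = 0
    rw [h2.iteratedDeriv_eq k]
    simp
  have h3 : IsClosed {y | iteratedDeriv k φ y = 0} := isClosed_eq hc continuous_const
  have h4 : Set.Ici c ⊆ {y | iteratedDeriv k φ y = 0} := by
    rw [← closure_Ioi]
    exact closure_minimal h1 h3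
  exact h4 hx

theorem m2_hasDeriv {c B : ℝ} {φ : ℝ → ℝ} (h : Adm c B φ) {k : ℕ} (hk : k < 3) (x : ℝ) :
    HasDerivAt (iteratedDeriv k φ) (iteratedDeriv (k + 1) φ x) x := by
  rw [iteratedDeriv_succ]
  exact ((h.smooth.differentiable_iteratedDeriv k (by exact_mod_cast hk)) x).hasDerivAt

theorem m2_B_nonneg {c B : ℝ} {φ : ℝ → ℝ} (h : Adm c B φ) : 0 ≤ B :=
  (abs_nonneg _).trans (h.bound 0 (by norm_num) 0 le_rfl)

private lemma m2_cont3 {c B : ℝ} {φ : ℝ → ℝ} (h : Adm c B φ) : Continuous (iteratedDeriv 3 φ) :=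
  h.smooth.continuous_iteratedDeriv 3 le_rfl

/-- Taylor formula for the function. -/
private lemma m2_taylor {B : ℝ} {φ : ℝ → ℝ} (h : Adm 1 B φ) (y : ℝ) :
    ∫ u in y..1, iteratedDeriv 3 φ u * (u - y) ^ 2 = -(2 * φ y) := by
  have hd : ∀ u ∈ Set.uIcc y 1, HasDerivAt (fun u => iteratedDeriv 2 φ u * (u - y) ^ 2 - 2 * (iteratedDeriv 1 φ u * (u - y)) + 2 * iteratedDeriv 0 φ u)
      (iteratedDeriv 3 φ u * (u - y) ^ 2) u := by
    intro u _
    have d0 := m2_hasDeriv h (k := 0) (by norm_num) u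
    have d1 := m2_hasDeriv h (k := 1) (by norm_num) u
    have d2 := m2_hasDeriv h (k := 2) (by norm_num) u
    have hl : HasDerivAt (fun u : ℝ => u - y) 1 u := (hasDerivAt_id u).sub_const y
    have := ((d2.mul (hl.pow 2)).sub ((d1.mul hl).const_mul 2)).add (d0.const_mul 2)
    refine this.congr_deriv ?_
    simp
    ring
  have hc : Continuous fun u => iteratedDeriv 3 φ u * (u - y) ^ 2 := (m2_cont3 h).mul (by fun_prop)
  rw [intervalIntegral.integral_eq_sub_of_hasDerivAt hd (hc.intervalIntegrable _ _), m2_zero h (k := 2) (by norm_num) le_rfl,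
    m2_zero h (k := 1) (by norm_num) le_rfl, m2_zero h (k := 0) (by norm_num) le_rfl, iteratedDeriv_zero]
  ring

/-- Taylor formula for the derivative. -/
private lemma m2_taylor' {B : ℝ} {φ : ℝ → ℝ} (h : Adm 1 B φ) (y : ℝ) :
    ∫ u in y..1, iteratedDeriv 3 φ u * (u - y) = deriv φ y := by
  have hd : ∀ u ∈ Set.uIcc y 1, HasDerivAt (fun u => iteratedDeriv 2 φ u * (u - y) - iteratedDeriv 1 φ u)
      (iteratedDeriv 3 φ u * (u - y)) u := by
    intro u _
    have d1 := m2_hasDeriv h (k := 1) (by norm_num) u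
    have d2 := m2_hasDeriv h (k := 2) (by norm_num) u
    have hl : HasDerivAt (fun u : ℝ => u - y) 1 u := (hasDerivAt_id u).sub_const y
    have := (d2.mul hl).sub d1
    refine this.congr_deriv ?_
    simp
  have hc : Continuous fun u => iteratedDeriv 3 φ u * (u - y) := (m2_cont3 h).mul (by fun_prop)
  rw [intervalIntegral.integral_eq_sub_of_hasDerivAt hd (hc.intervalIntegrable _ _), m2_zero h (k := 2) (by norm_num) le_rfl,
    m2_zero h (k := 1) (by norm_num) le_rfl, iteratedDeriv_one]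
  ring

/-- Taylor formula with the positive part. -/
private lemma m2_pos {B : ℝ} {φ : ℝ → ℝ} (h : Adm 1 B φ) {x l : ℝ} (hx1 : x ≤ 1) (hl : 0 ≤ l) :
    φ (x + l) = -(1/2) * ∫ u in x..1, iteratedDeriv 3 φ u * (max 0 (u - x - l)) ^ 2 := by
  have hc : Continuous fun u => iteratedDeriv 3 φ u * (max 0 (u - x - l)) ^ 2 :=
    (m2_cont3 h).mul ((continuous_const.max (by fun_prop)).pow 2)
  rcases le_or_gt (x + l) 1 with h1 | h1
  · have e : ∫ u in x..1, iteratedDeriv 3 φ u * (max 0 (u - x - l)) ^ 2 =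
        (∫ u in x..(x + l), iteratedDeriv 3 φ u * (max 0 (u - x - l)) ^ 2) + ∫ u in (x + l)..1, iteratedDeriv 3 φ u * (max 0 (u - x - l)) ^ 2 :=
      (intervalIntegral.integral_add_adjacent_intervals (hc.intervalIntegrable _ _) (hc.intervalIntegrable _ _)).symm
    have e1 : ∫ u in x..(x + l), iteratedDeriv 3 φ u * (max 0 (u - x - l)) ^ 2 = ∫ u in x..(x + l), (0:ℝ) := by
      apply intervalIntegral.integral_congr
      intro u hu
      rw [Set.uIcc_of_le (by linarith)] at hu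
      show iteratedDeriv 3 φ u * (max 0 (u - x - l)) ^ 2 = 0
      rw [max_eq_left (by linarith [hu.2])]
      ring
    have e2 : ∫ u in (x + l)..1, iteratedDeriv 3 φ u * (max 0 (u - x - l)) ^ 2 = ∫ u in (x + l)..1, iteratedDeriv 3 φ u * (u - (x + l)) ^ 2 := by
      apply intervalIntegral.integral_congr
      intro u hu
      rw [Set.uIcc_of_le h1] at hu
      show iteratedDeriv 3 φ u * (max 0 (u - x - l)) ^ 2 = iteratedDeriv 3 φ u * (u - (x + l)) ^ 2
      rw [max_eq_right (by linarith [hu.1])]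
      ring
    rw [e, e1, e2, m2_taylor h]
    simp
  · have e1 : ∫ u in x..1, iteratedDeriv 3 φ u * (max 0 (u - x - l)) ^ 2 = ∫ u in x..1, (0:ℝ) := by
      apply intervalIntegral.integral_congr
      intro u hu
      rw [Set.uIcc_of_le hx1] at hu
      show iteratedDeriv 3 φ u * (max 0 (u - x - l)) ^ 2 = 0
      rw [max_eq_left (by linarith [hu.2])]
      ring
    rw [e1, h.zero _ h1.le]
    simp

/-- The sum over `a` at a point `u`. -/
private lemma m2_inner {C : ℝ} (hC : ∀ x : ℝ, 1 ≤ x → |∑ n ∈ Finset.Icc 1 ⌊x⌋₊, tau (-1) n / n * Real.log (x / n) ^ 2 - 2 * Real.log x| ≤ C)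
    {δ : ℝ} (hδ : 0 < δ) {v : ℝ} (hv : 0 ≤ v) (hv1 : v ≤ 1) :
    |∑ a ∈ Finset.Icc 1 (MN δ), tau (-1) a / a * (max 0 (v - δ * Real.log a)) ^ 2 - 2 * δ * v| ≤ C * δ ^ 2 := by
  obtain ⟨X, hX⟩ : ∃ X : ℝ, X = Real.exp (v / δ) := ⟨_, rfl⟩
  have hX0 : 0 < X := by rw [hX]; exact Real.exp_pos _
  have hX1 : 1 ≤ X := by rw [hX]; apply Real.one_le_exp; positivity
  have hlX : Real.log X = v / δ := by rw [hX, Real.log_exp]
  have hsub : Finset.Icc 1 ⌊X⌋₊ ⊆ Finset.Icc 1 (MN δ) := by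
    apply Finset.Icc_subset_Icc_right
    unfold MN
    apply Nat.floor_le_floor
    rw [hX]
    apply Real.exp_le_exp.mpr
    gcongr
  have e1 : ∑ a ∈ Finset.Icc 1 (MN δ), tau (-1) a / a * (max 0 (v - δ * Real.log a)) ^ 2 =
      ∑ a ∈ Finset.Icc 1 ⌊X⌋₊, tau (-1) a / a * (max 0 (v - δ * Real.log a)) ^ 2 := by
    symm
    apply Finset.sum_subset hsub
    intro a ha hna
    rw [Finset.mem_Icc] at ha
    have ha0 : (0:ℝ) < a := by exact_mod_cast ha.1
    have h1 : X < a := by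
      have : ⌊X⌋₊ < a := by
        by_contra hcon
        exact hna (Finset.mem_Icc.mpr ⟨ha.1, not_lt.mp hcon⟩)
      exact (Nat.floor_lt hX0.le).mp this
    have h2 : v / δ < Real.log a := by
      rw [← hlX]; exact Real.log_lt_log hX0 h1
    rw [div_lt_iff₀ hδ] at h2
    rw [max_eq_left (by linarith)]
    ring
  have e2 : ∑ a ∈ Finset.Icc 1 ⌊X⌋₊, tau (-1) a / a * (max 0 (v - δ * Real.log a)) ^ 2 =
      δ ^ 2 * ∑ a ∈ Finset.Icc 1 ⌊X⌋₊, tau (-1) a / a * Real.log (X / a) ^ 2 := by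
    rw [Finset.mul_sum]
    refine Finset.sum_congr rfl fun a ha => ?_
    rw [Finset.mem_Icc] at ha
    have ha0 : (0:ℝ) < a := by exact_mod_cast ha.1
    have h1 : (a:ℝ) ≤ X := (Nat.le_floor_iff hX0.le).mp ha.2
    have h2 : Real.log a ≤ v / δ := by
      rw [← hlX]; exact Real.log_le_log ha0 h1
    rw [le_div_iff₀ hδ] at h2
    rw [max_eq_right (by linarith), Real.log_div hX0.ne' ha0.ne', hlX]
    field_simp
  have e3 : 2 * δ * v = δ ^ 2 * (2 * Real.log X) := by
    rw [hlX]; field_simp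
  rw [e1, e2, e3, ← mul_sub, abs_mul, abs_of_nonneg (sq_nonneg δ), mul_comm]
  exact mul_le_mul_of_nonneg_right (hC X hX1) (sq_nonneg δ)

/-- ROW M2. Smooth sums of the Moebius function.
PROOF. Taylor at `1` (all derivatives of order `≤ 2` vanish there: `φ` is `C³` and zero on `[1,∞)`): for `0 ≤ y ≤ 1`, `φ(y) = -(1/2) ∫_y^1 φ'''(u) (u-y)² du`, and `φ'(x) = ∫_x^1 φ'''(u)(u-x) du`.
So, for `0 ≤ x ≤ 1`, with `X_u = exp((u-x)/δ)`: `∑_a μ(a)/a φ(x + δ log a) = -(1/2) ∫_x^1 φ'''(u) δ² ∑_{a ≤ X_u} μ(a)/a log²(X_u/a) du = -(1/2) ∫_x^1 φ'''(u) δ² (2(u-x)/δ + O(1)) du`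
(`mob_log2`) `= -δ φ'(x) + O(δ² B)`. For `x ≥ 1` both sides vanish. The terms with `a > MN δ = ⌊exp (1/δ)⌋` vanish since `δ log a > 1`. -/
theorem mob_smooth : ∃ C : ℝ, 0 < C ∧ ∀ δ : ℝ, 0 < δ → δ ≤ 1 → ∀ (φ : ℝ → ℝ) (B : ℝ), Adm 1 B φ → ∀ x : ℝ, 0 ≤ x →
    |(1 / δ) * ∑ a ∈ Finset.Icc 1 (MN δ), tau (-1) a / a * φ (x + δ * Real.log a) + deriv φ x| ≤ C * B * δ := by
  obtain ⟨C, hC0, hC⟩ := mob_log2
  refine ⟨C, hC0, fun δ hδ hδ1 φ B h x hx => ?_⟩
  have hB := m2_B_nonneg h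
  rcases le_or_gt x 1 with hx1 | hx1
  · have hc3 := m2_cont3 h
    have hci : ∀ l : ℝ, Continuous fun u => iteratedDeriv 3 φ u * (max 0 (u - x - l)) ^ 2 := fun l =>
      hc3.mul ((continuous_const.max (by fun_prop)).pow 2)
    have e1 : ∑ a ∈ Finset.Icc 1 (MN δ), tau (-1) a / a * φ (x + δ * Real.log a) =
        -(1/2) * ∫ u in x..1, iteratedDeriv 3 φ u * ∑ a ∈ Finset.Icc 1 (MN δ), tau (-1) a / a * (max 0 (u - x - δ * Real.log a)) ^ 2 := by
      have e2 : ∀ u : ℝ, iteratedDeriv 3 φ u * ∑ a ∈ Finset.Icc 1 (MN δ), tau (-1) a / a * (max 0 (u - x - δ * Real.log a)) ^ 2 =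
          ∑ a ∈ Finset.Icc 1 (MN δ), tau (-1) a / a * (iteratedDeriv 3 φ u * (max 0 (u - x - δ * Real.log a)) ^ 2) := by
        intro u
        rw [Finset.mul_sum]
        refine Finset.sum_congr rfl fun a _ => ?_
        ring
      simp_rw [e2]
      have hii : ∀ a ∈ Finset.Icc 1 (MN δ), IntervalIntegrable (fun u : ℝ => tau (-1) a / a * (iteratedDeriv 3 φ u * (max 0 (u - x - δ * Real.log a)) ^ 2)) volume x 1 :=
        fun a _ => (continuous_const.mul (hci (δ * Real.log a))).intervalIntegrable _ _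
      rw [intervalIntegral.integral_finsetSum hii, Finset.mul_sum]
      refine Finset.sum_congr rfl fun a _ => ?_
      rw [intervalIntegral.integral_const_mul, m2_pos h hx1 (mul_nonneg hδ.le (Real.log_natCast_nonneg a))]
      ring
    obtain ⟨W, hW⟩ : ∃ W : ℝ → ℝ, W = fun u => ∑ a ∈ Finset.Icc 1 (MN δ), tau (-1) a / a * (max 0 (u - x - δ * Real.log a)) ^ 2 := ⟨_, rfl⟩
    have hWc : Continuous W := by
      rw [hW]
      exact continuous_finsetSum _ fun a _ => continuous_const.mul ((continuous_const.max (by fun_prop)).pow 2)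
    have hWb : ∀ u ∈ Set.Icc x 1, |W u - 2 * δ * (u - x)| ≤ C * δ ^ 2 := fun u hu => by
      rw [hW]
      exact m2_inner hC hδ (by linarith [hu.1]) (by linarith [hu.2])
    have e3 : ∑ a ∈ Finset.Icc 1 (MN δ), tau (-1) a / a * φ (x + δ * Real.log a) = -(1/2) * ∫ u in x..1, iteratedDeriv 3 φ u * W u := by
      rw [e1, hW]
    have e4 : deriv φ x = (1 / δ) * ((1/2) * ∫ u in x..1, iteratedDeriv 3 φ u * (2 * δ * (u - x))) := by
      have : ∀ u : ℝ, iteratedDeriv 3 φ u * (2 * δ * (u - x)) = 2 * δ * (iteratedDeriv 3 φ u * (u - x)) := fun u => by ring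
      simp_rw [this]
      rw [intervalIntegral.integral_const_mul, m2_taylor' h]
      field_simp
    have i1 : IntervalIntegrable (fun u => iteratedDeriv 3 φ u * W u) volume x 1 := (hc3.mul hWc).intervalIntegrable _ _
    have i2 : IntervalIntegrable (fun u => iteratedDeriv 3 φ u * (2 * δ * (u - x))) volume x 1 :=
      (hc3.mul (by fun_prop : Continuous fun u : ℝ => 2 * δ * (u - x))).intervalIntegrable _ _
    have e5 : (1 / δ) * ∑ a ∈ Finset.Icc 1 (MN δ), tau (-1) a / a * φ (x + δ * Real.log a) + deriv φ x =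
        -(1 / (2 * δ)) * ∫ u in x..1, (iteratedDeriv 3 φ u * W u - iteratedDeriv 3 φ u * (2 * δ * (u - x))) := by
      rw [intervalIntegral.integral_sub i1 i2, e3, e4]
      field_simp
      ring
    rw [e5, abs_mul, abs_neg, abs_of_pos (by positivity : 0 < 1 / (2 * δ))]
    have h6 : |∫ u in x..1, (iteratedDeriv 3 φ u * W u - iteratedDeriv 3 φ u * (2 * δ * (u - x)))| ≤ (B * (C * δ ^ 2)) * |1 - x| := by
      rw [← Real.norm_eq_abs]
      refine intervalIntegral.norm_integral_le_of_norm_le_const fun u hu => ?_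
      rw [Set.uIoc_of_le hx1] at hu
      have hu' : u ∈ Set.Icc x 1 := ⟨hu.1.le, hu.2⟩
      rw [← mul_sub, norm_mul, Real.norm_eq_abs, Real.norm_eq_abs]
      exact mul_le_mul (h.bound 3 le_rfl u (by linarith [hu.1])) (hWb u hu') (abs_nonneg _) hB
    have h7 : |1 - x| ≤ 1 := by rw [abs_of_nonneg (by linarith)]; linarith
    calc 1 / (2 * δ) * |∫ u in x..1, (iteratedDeriv 3 φ u * W u - iteratedDeriv 3 φ u * (2 * δ * (u - x)))| 
        ≤ 1 / (2 * δ) * ((B * (C * δ ^ 2)) * 1) := by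
          have h8 : (B * (C * δ ^ 2)) * |1 - x| ≤ (B * (C * δ ^ 2)) * 1 := by gcongr
          have h9 := h6.trans h8
          gcongr
      _ = C * B * δ / 2 := by field_simp
      _ ≤ C * B * δ := by
          have : 0 ≤ C * B * δ := by positivity
          linarith
  · have e1 : ∑ a ∈ Finset.Icc 1 (MN δ), tau (-1) a / a * φ (x + δ * Real.log a) = 0 := by
      apply Finset.sum_eq_zero
      intro a _
      rw [h.zero _ (by have := mul_nonneg hδ.le (Real.log_natCast_nonneg a); linarith), mul_zero]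
    have e2 : deriv φ x = 0 := by
      rw [← iteratedDeriv_one]
      exact m2_zero h (by norm_num) hx1.le
    rw [e1, e2, mul_zero, add_zero, abs_zero]
    positivity

end Pool.Agent.LibOM70
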