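import Pool.Agent.LibOM70B.Defs
import Pool.Agent.LibZM.HB4

/-! ODD MOMENTS, signed route, row M3. -/

set_option autoImplicit false

namespace Pool.Agent.LibOM70

open MeasureTheory Set Filter Topology Complex ProbabilityTheory
open scoped NNReal ComplexConjugate
open Pool.Agent.LibZM Pool.Agent.LibM3
open Pool.Agent.LibLaw15 hiding Lam

private lemma m3_lhs {f : ℕ → ℝ} {σ : ℝ} (hσ : 1 < σ) (hs : Summable fun n : ℕ => f n * (n:ℝ) ^ (-σ)) :
    LSeriesHasSum (fun n => ((f n : ℝ) : ℂ)) (σ : ℂ) (((∑' n : ℕ, f n * (n:ℝ) ^ (-σ) : ℝ)) : ℂ) := by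
  unfold LSeriesHasSum
  have e : LSeries.term (fun n => ((f n : ℝ) : ℂ)) (σ : ℂ) = fun n : ℕ => ((f n * (n:ℝ) ^ (-σ) : ℝ) : ℂ) := by
    funext n
    rw [LSeries.term_def]
    by_cases h0 : n = 0
    · subst h0
      rw [if_pos rfl, Nat.cast_zero, Real.zero_rpow (by linarith), mul_zero, ofReal_zero]
    · rw [if_neg h0, div_eq_mul_inv, ← Complex.cpow_neg]
      push_cast
      rw [Complex.ofReal_cpow (Nat.cast_nonneg n)]
      push_cast
      rfl
  rw [e]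
  exact Complex.hasSum_ofReal.mpr hs.hasSum

private lemma m3_sq {σ : ℝ} (hσ : 1 < σ) :
    (∑' n : ℕ, tau (1/2) n * (n:ℝ) ^ (-σ)) ^ 2 = ∑' n : ℕ, 1 / (n:ℝ) ^ σ := by
  have h1 := m3_lhs hσ (summable_tau (α := 1/2) (by norm_num) hσ)
  have h2 := m3_lhs hσ (summable_tau (α := 1) (by norm_num) hσ)
  have h3 := h1.convolution h1
  have h4 : LSeriesHasSum (fun n => ((tau 1 n : ℝ) : ℂ)) (σ : ℂ)
      ((((∑' n : ℕ, tau (1/2) n * (n:ℝ) ^ (-σ) : ℝ)) : ℂ) * (((∑' n : ℕ, tau (1/2) n * (n:ℝ) ^ (-σ) : ℝ)) : ℂ)) := by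
    refine (LSeriesHasSum_congr _ _ fun {n} hn => ?_).mpr h3
    rw [LSeries.convolution_def]
    have e : tau 1 = tau (1/2) * tau (1/2) := by rw [tau_mul]; norm_num
    rw [e, ArithmeticFunction.mul_apply]
    push_cast
    rfl
  have h5 := h4.unique h2
  have h6 : (∑' n : ℕ, tau (1/2) n * (n:ℝ) ^ (-σ)) * (∑' n : ℕ, tau (1/2) n * (n:ℝ) ^ (-σ)) = ∑' n : ℕ, tau 1 n * (n:ℝ) ^ (-σ) := by
    exact_mod_cast h5
  rw [sq, h6]
  congr 1
  funext n
  rcases eq_or_ne n 0 with rfl | hn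
  · simp [Real.zero_rpow (by linarith : σ ≠ 0)]
  · rw [tau_one_apply hn, one_mul, Real.rpow_neg (Nat.cast_nonneg _), one_div]

private lemma m3_term (n : ℕ) (s : ℝ) : tau (1/2) n / n * (n:ℝ) ^ (-s) = tau (1/2) n * (n:ℝ) ^ (-(1 + s)) := by
  rcases eq_or_ne n 0 with rfl | hn
  · simp
  · have hn0 : (0:ℝ) < n := by exact_mod_cast Nat.pos_of_ne_zero hn
    have : (n:ℝ) ^ (-(1 + s)) = (n:ℝ)⁻¹ * (n:ℝ) ^ (-s) := by
      rw [neg_add, Real.rpow_add hn0, Real.rpow_neg_one]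
    rw [this]; ring

/-- ROW M3a. `s^{1/2} ∑ τ(n) n^{-1-s} → 1`: `∑ τ_{1/2}(n) n^{-σ} = ζ(σ)^{1/2}` for `σ > 1` (square it: `tau_mul`, `tau_one_apply`, product of absolutely convergent Dirichlet series),
and `s ζ(1+s) → 1` (`tendsto_zeta_shift`). -/
theorem tau_series : (∀ s : ℝ, 0 < s → Summable fun n : ℕ => tau (1/2) n / n * (n:ℝ) ^ (-s)) ∧
    Tendsto (fun s : ℝ => s ^ (1/2 : ℝ) * ∑' n : ℕ, tau (1/2) n / n * (n:ℝ) ^ (-s)) (𝓝[>] 0) (𝓝 1) := by
  constructor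
  · intro s hs
    refine (summable_tau (α := 1/2) (σ := 1 + s) (by norm_num) (by linarith)).congr fun n => ?_
    exact (m3_term n s).symm
  · have h := tendsto_zeta_shift.rpow_const (p := (1/2 : ℝ)) (Or.inl one_ne_zero)
    rw [Real.one_rpow] at h
    refine h.congr' ?_
    filter_upwards [self_mem_nhdsWithin] with s hs
    have hs0 : (0:ℝ) < s := hs
    have hZ : 0 ≤ ∑' n : ℕ, tau (1/2) n * (n:ℝ) ^ (-(1 + s)) := tsum_nonneg fun n => by
      have := tau_nonneg (α := 1/2) (by norm_num) n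
      positivity
    simp_rw [m3_term]
    rw [← m3_sq (by linarith : 1 < 1 + s), Real.mul_rpow hs0.le (sq_nonneg _), ← Real.rpow_natCast, ← Real.rpow_mul hZ]
    norm_num

/-- ROW M3b. Boundedness (Rankin: `n^{-δ} ≥ e^{-1}` for `n ≤ MN δ`). -/
theorem tau_sum_bdd : ∃ C : ℝ, 0 < C ∧ ∀ δ : ℝ, 0 < δ → δ ≤ 1 →
    δ ^ (1/2 : ℝ) * ∑ m ∈ Finset.Icc 1 (MN δ), tau (1/2) m / m ≤ C := by
  obtain ⟨hsum, hlim⟩ := tau_series
  have hev := hlim.eventually_lt_const (show (1:ℝ) < 2 by norm_num)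
  obtain ⟨δ0, hδ0, hδ⟩ : ∃ δ0 : ℝ, 0 < δ0 ∧ ∀ s, 0 < s → s < δ0 →
      s ^ (1/2 : ℝ) * ∑' n : ℕ, tau (1/2) n / n * (n:ℝ) ^ (-s) < 2 := by
    rw [eventually_nhdsWithin_iff, Metric.eventually_nhds_iff] at hev
    obtain ⟨r, hr, h⟩ := hev
    refine ⟨r, hr, fun s hs hsr => h ?_ hs⟩
    rw [Real.dist_eq, sub_zero, abs_of_pos hs]; exact hsr
  have hterm : ∀ (s : ℝ) (n : ℕ), 0 ≤ tau (1/2) n / n * (n:ℝ) ^ (-s) := fun s n => by
    have := tau_nonneg (α := 1/2) (by norm_num) n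
    positivity
  have hZ0 : 0 ≤ ∑' n : ℕ, tau (1/2) n / n * (n:ℝ) ^ (-δ0) := tsum_nonneg (hterm δ0)
  refine ⟨Real.exp 1 * (2 + ∑' n : ℕ, tau (1/2) n / n * (n:ℝ) ^ (-δ0)), by positivity, fun δ hδp hδ1 => ?_⟩
  have h1 : ∑ m ∈ Finset.Icc 1 (MN δ), tau (1/2) m / m ≤ Real.exp 1 * ∑' n : ℕ, tau (1/2) n / n * (n:ℝ) ^ (-δ) := by
    calc ∑ m ∈ Finset.Icc 1 (MN δ), tau (1/2) m / m ≤ ∑ m ∈ Finset.Icc 1 (MN δ), Real.exp 1 * (tau (1/2) m / m * (m:ℝ) ^ (-δ)) := by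
          refine Finset.sum_le_sum fun m hm => ?_
          rw [Finset.mem_Icc] at hm
          have hm0 : (0:ℝ) < m := by exact_mod_cast hm.1
          have hτ := tau_nonneg (α := 1/2) (by norm_num) m
          have hlog : Real.log m ≤ 1 / δ := by
            have h2 : (m:ℝ) ≤ Real.exp (1 / δ) := by
              have h3 : (m:ℝ) ≤ (MN δ : ℝ) := by exact_mod_cast hm.2
              exact h3.trans (Nat.floor_le (Real.exp_pos _).le)
            rw [← Real.log_exp (1 / δ)]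
            exact Real.log_le_log hm0 h2
          have h4 : 1 ≤ Real.exp 1 * (m:ℝ) ^ (-δ) := by
            rw [Real.rpow_def_of_pos hm0, ← Real.exp_add]
            apply Real.one_le_exp
            have : δ * Real.log m ≤ 1 := by
              rw [le_div_iff₀ hδp] at hlog; linarith
            linarith
          have h5 : 0 ≤ tau (1/2) m / m := by positivity
          calc tau (1/2) m / m = tau (1/2) m / m * 1 := (mul_one _).symm
            _ ≤ tau (1/2) m / m * (Real.exp 1 * (m:ℝ) ^ (-δ)) := by gcongr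
            _ = _ := by ring
      _ = Real.exp 1 * ∑ m ∈ Finset.Icc 1 (MN δ), tau (1/2) m / m * (m:ℝ) ^ (-δ) := by rw [Finset.mul_sum]
      _ ≤ _ := by
          apply mul_le_mul_of_nonneg_left _ (Real.exp_pos 1).le
          exact (hsum δ hδp).sum_le_tsum _ (fun n _ => hterm δ n)
  have hδh : 0 ≤ δ ^ (1/2 : ℝ) := by positivity
  have hδh1 : δ ^ (1/2 : ℝ) ≤ 1 := Real.rpow_le_one hδp.le hδ1 (by norm_num)
  have h6 : δ ^ (1/2 : ℝ) * ∑' n : ℕ, tau (1/2) n / n * (n:ℝ) ^ (-δ) ≤ 2 + ∑' n : ℕ, tau (1/2) n / n * (n:ℝ) ^ (-δ0) := by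
    rcases lt_or_ge δ δ0 with h | h
    · have := hδ δ hδp h
      linarith
    · have h7 : ∑' n : ℕ, tau (1/2) n / n * (n:ℝ) ^ (-δ) ≤ ∑' n : ℕ, tau (1/2) n / n * (n:ℝ) ^ (-δ0) := by
        refine (hsum δ hδp).tsum_le_tsum (fun n => ?_) (hsum δ0 hδ0)
        rcases Nat.eq_zero_or_pos n with rfl | hn
        · simp
        · have hn1 : (1:ℝ) ≤ n := by exact_mod_cast hn
          have hτ := tau_nonneg (α := 1/2) (by norm_num) n
          have h8 : (n:ℝ) ^ (-δ) ≤ (n:ℝ) ^ (-δ0) := Real.rpow_le_rpow_of_exponent_le hn1 (by linarith)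
          have h5 : 0 ≤ tau (1/2) n / n := by positivity
          exact mul_le_mul_of_nonneg_left h8 h5
      have h9 : 0 ≤ ∑' n : ℕ, tau (1/2) n / n * (n:ℝ) ^ (-δ) := tsum_nonneg (hterm δ)
      nlinarith
  calc δ ^ (1/2 : ℝ) * ∑ m ∈ Finset.Icc 1 (MN δ), tau (1/2) m / m 
      ≤ δ ^ (1/2 : ℝ) * (Real.exp 1 * ∑' n : ℕ, tau (1/2) n / n * (n:ℝ) ^ (-δ)) := by gcongr
    _ = Real.exp 1 * (δ ^ (1/2 : ℝ) * ∑' n : ℕ, tau (1/2) n / n * (n:ℝ) ^ (-δ)) := by ring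
    _ ≤ _ := by gcongr

private lemma m3_exp_F {G : ℝ → ℝ} (h1 : ∀ x, 1 ≤ x → G x = 0) {x : ℝ} (hx : 0 ≤ x) {t : ℝ} :
    Real.exp (-t) * (G (x - Real.log (max (Real.exp (-t)) (Real.exp (-1)))) / max (Real.exp (-t)) (Real.exp (-1))) = G (x + t) ∨ t < 0 := by
  rcases lt_or_ge t 0 with ht0 | ht0
  · right; exact ht0
  left
  rcases le_or_gt t 1 with h | h
  · rw [max_eq_left (Real.exp_le_exp.mpr (by linarith)), Real.log_exp, sub_neg_eq_add]
    field_simp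
  · rw [max_eq_right (Real.exp_le_exp.mpr (by linarith)), Real.log_exp, sub_neg_eq_add, h1 (x + 1) (by linarith), h1 (x + t) (by linarith)]
    simp

private lemma m3_fixed {G : ℝ → ℝ} (hG : Continuous G) (h1 : ∀ x, 1 ≤ x → G x = 0) {x : ℝ} (hx : 0 ≤ x) :
    Tendsto (fun δ : ℝ => δ ^ (1/2 : ℝ) * ∑ m ∈ Finset.Icc 1 (MN δ), tau (1/2) m / m * G (x + δ * Real.log m)) (𝓝[>] 0) (𝓝 (HI G x)) := by
  obtain ⟨hsum, hlim⟩ := tau_series
  obtain ⟨F, hF⟩ : ∃ F : ℝ → ℝ, F = fun y => G (x - Real.log (max y (Real.exp (-1)))) / max y (Real.exp (-1)) := ⟨_, rfl⟩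
  have hmax : ∀ y : ℝ, 0 < max y (Real.exp (-1)) := fun y => lt_max_of_lt_right (Real.exp_pos _)
  have hFc : Continuous F := by
    rw [hF]
    have hm : Continuous fun y : ℝ => max y (Real.exp (-1)) := continuous_id.max continuous_const
    exact (hG.comp (continuous_const.sub (hm.log fun y => (hmax y).ne'))).div hm fun y => (hmax y).ne'
  have hFe : ∀ t : ℝ, 0 ≤ t → Real.exp (-t) * F (Real.exp (-t)) = G (x + t) := by
    intro t ht
    rw [hF]
    rcases m3_exp_F h1 hx (t := t) with h | h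
    · exact h
    · linarith
  have hk := karamata_cont (w := fun n => tau (1/2) n / n) (fun n => by
    have := tau_nonneg (α := 1/2) (by norm_num) n
    positivity) (by norm_num : (0:ℝ) < 1/2) one_pos hsum hlim hFc
  have hint : 1 / Real.Gamma (1/2) * ∫ t in Set.Ioi (0:ℝ), t ^ ((1/2:ℝ) - 1) * (Real.exp (-t) * F (Real.exp (-t))) = HI G x := by
    unfold HI
    rw [Real.Gamma_one_half_eq]
    congr 1
    rw [intervalIntegral.integral_of_le zero_le_one]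
    have e1 : ∫ t in Set.Ioi (0:ℝ), t ^ ((1/2:ℝ) - 1) * (Real.exp (-t) * F (Real.exp (-t))) =
        ∫ t in Set.Ioi (0:ℝ), t ^ (-(1/2) : ℝ) * G (x + t) := by
      refine setIntegral_congr_fun measurableSet_Ioi fun t ht => ?_
      have ht0 : (0:ℝ) < t := ht
      show t ^ ((1/2:ℝ) - 1) * (Real.exp (-t) * F (Real.exp (-t))) = t ^ (-(1/2) : ℝ) * G (x + t)
      rw [hFe t ht0.le]
      norm_num
    rw [e1]
    refine setIntegral_eq_of_subset_of_forall_sdiff_eq_zero measurableSet_Ioi Set.Ioc_subset_Ioi_self fun t ht => ?_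
    have ht0 : (0:ℝ) < t := ht.1
    have ht1 : 1 < t := by
      by_contra hcon
      exact ht.2 ⟨ht0, not_lt.mp hcon⟩
    rw [h1 (x + t) (by linarith), mul_zero]
  rw [hint] at hk
  refine hk.congr' ?_
  filter_upwards [self_mem_nhdsWithin] with s hs
  have hs0 : (0:ℝ) < s := hs
  congr 1
  have hterm : ∀ n : ℕ, 1 ≤ n → (n:ℝ) ^ (-s) * F ((n:ℝ) ^ (-s)) = G (x + s * Real.log n) := by
    intro n hn
    have hn0 : (0:ℝ) < n := by exact_mod_cast hn
    have e : (n:ℝ) ^ (-s) = Real.exp (-(s * Real.log n)) := by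
      rw [Real.rpow_def_of_pos hn0]; congr 1; ring
    rw [e]
    exact hFe _ (mul_nonneg hs0.le (Real.log_natCast_nonneg n))
  rw [tsum_eq_sum (s := Finset.Icc 1 (MN s))]
  · refine Finset.sum_congr rfl fun n hn => ?_
    rw [hterm n (Finset.mem_Icc.mp hn).1]
  · intro n hn
    rcases Nat.eq_zero_or_pos n with rfl | hn1
    · simp
    · have hn2 : MN s < n := by
        by_contra hcon
        exact hn (Finset.mem_Icc.mpr ⟨hn1, not_lt.mp hcon⟩)
      have h3 : Real.exp (1 / s) < n := by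
        unfold MN at hn2
        exact (Nat.floor_lt (Real.exp_pos _).le).mp hn2
      have h4 : 1 / s < Real.log n := by
        rw [← Real.log_exp (1 / s)]
        exact Real.log_lt_log (Real.exp_pos _) h3
      rw [div_lt_iff₀ hs0] at h4
      rw [hterm n hn1, h1 _ (by linarith), mul_zero]

private lemma m3_unif {G : ℝ → ℝ} (hG : Continuous G) (h1 : ∀ x, 1 ≤ x → G x = 0) {η : ℝ} (hη : 0 < η) :
    ∃ r : ℝ, 0 < r ∧ ∀ u v : ℝ, 0 ≤ u → 0 ≤ v → |u - v| < r → |G u - G v| ≤ η := by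
  have hu := (isCompact_Icc (a := (0:ℝ)) (b := 2)).uniformContinuousOn_of_continuous hG.continuousOn
  rw [Metric.uniformContinuousOn_iff] at hu
  obtain ⟨r, hr, h⟩ := hu η hη
  refine ⟨min r 1, by positivity, fun u v hu0 hv0 huv => ?_⟩
  have k1 : |u - v| < r := lt_of_lt_of_le huv (min_le_left _ _)
  have k2 : |u - v| < 1 := lt_of_lt_of_le huv (min_le_right _ _)
  rw [abs_lt] at k2
  by_cases hc : u ≤ 2 ∧ v ≤ 2
  · have := h u ⟨hu0, hc.1⟩ v ⟨hv0, hc.2⟩ (by rw [Real.dist_eq]; exact k1)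
    rw [Real.dist_eq] at this
    exact this.le
  · have hu1 : 1 ≤ u ∧ 1 ≤ v := by
      rw [not_and_or, not_le, not_le] at hc
      rcases hc with hc | hc
      · constructor <;> linarith
      · constructor <;> linarith
    rw [h1 u hu1.1, h1 v hu1.2, sub_zero, abs_zero]
    exact hη.le

private lemma m3_HI_near {G : ℝ → ℝ} (hG : Continuous G) {η x y : ℝ} (h : ∀ t, 0 ≤ t → t ≤ 1 → |G (x + t) - G (y + t)| ≤ η) (_hη : 0 ≤ η) :
    |HI G x - HI G y| ≤ 2 * η := by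
  have hi0 : IntervalIntegrable (fun h : ℝ => h ^ (-(1/2) : ℝ)) volume 0 1 := intervalIntegral.intervalIntegrable_rpow' (by norm_num)
  have hi : ∀ z : ℝ, IntervalIntegrable (fun h : ℝ => h ^ (-(1/2) : ℝ) * G (z + h)) volume 0 1 := fun z =>
    hi0.mul_continuousOn (by fun_prop)
  unfold HI
  rw [← mul_sub, ← intervalIntegral.integral_sub (hi x) (hi y), abs_mul]
  have hpi : (1:ℝ) ≤ √Real.pi := by
    rw [Real.one_le_sqrt]; linarith [Real.pi_gt_three]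
  have h2 : |1 / √Real.pi| ≤ 1 := by
    rw [abs_of_pos (by positivity), div_le_one (by linarith)]; exact hpi
  have h3 : |∫ h in (0:ℝ)..1, (h ^ (-(1/2) : ℝ) * G (x + h) - h ^ (-(1/2) : ℝ) * G (y + h))| ≤ 2 * η := by
    have h4 : ∫ h in (0:ℝ)..1, h ^ (-(1/2) : ℝ) * η = 2 * η := by
      rw [intervalIntegral.integral_mul_const, integral_rpow (Or.inl (by norm_num))]
      norm_num
    rw [← h4, ← Real.norm_eq_abs]
    refine intervalIntegral.norm_integral_le_of_norm_le zero_le_one ?_ (hi0.mul_const η)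
    refine Eventually.of_forall fun t ht => ?_
    have ht0 : 0 < t := ht.1
    have ht1 : t ≤ 1 := ht.2
    rw [← mul_sub, norm_mul, Real.norm_eq_abs, Real.norm_eq_abs, abs_of_nonneg (Real.rpow_nonneg ht0.le _)]
    exact mul_le_mul_of_nonneg_left (h t ht0.le ht1) (Real.rpow_nonneg ht0.le _)
  calc |1 / √Real.pi| * |∫ h in (0:ℝ)..1, (h ^ (-(1/2) : ℝ) * G (x + h) - h ^ (-(1/2) : ℝ) * G (y + h))| ≤ 1 * (2 * η) := by
        gcongr
    _ = 2 * η := one_mul _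

/-- ROW M3c. Karamata with translations, uniformly.
PROOF. For fixed `x`: `karamata_cont` (LibZM/HB3) with `w n = τ(n)/n`, `α = 1/2`, `A = 1`, applied to `F(y) = G(x - log y)/y` for `y ≥ e^{-1}`, `0` below (continuous since `G = 0` on `[1,∞)`);
`Γ(1/2) = √π`. Uniformity: `G` is uniformly continuous on `[0,1]` and zero beyond, so the sums and the integrals for `x, x'` close differ by `≤ ω · C` (`tau_sum_bdd`); finitely many `x` suffice. -/
theorem kar_half {G : ℝ → ℝ} (hG : Continuous G) (h1 : ∀ x, 1 ≤ x → G x = 0) {ε : ℝ} (hε : 0 < ε) : ∀ᶠ δ : ℝ in 𝓝[>] 0, ∀ x : ℝ, 0 ≤ x →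
    |δ ^ (1/2 : ℝ) * ∑ m ∈ Finset.Icc 1 (MN δ), tau (1/2) m / m * G (x + δ * Real.log m) - HI G x| ≤ ε := by
  obtain ⟨C, hC, hCb⟩ := tau_sum_bdd
  obtain ⟨η, hη⟩ : ∃ η : ℝ, η = ε / (3 * (C + 2)) := ⟨_, rfl⟩
  have hη0 : 0 < η := by rw [hη]; positivity
  have hη1 : η * (C + 2) = ε / 3 := by rw [hη]; field_simp
  have hη2 : η * C ≤ ε / 3 := by nlinarith
  have hη3 : 2 * η ≤ ε / 3 := by nlinarith
  obtain ⟨r, hr, hu⟩ := m3_unif hG h1 hη0
  obtain ⟨K, hK⟩ := exists_nat_gt (2 / r)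
  have hev : ∀ᶠ δ : ℝ in 𝓝[>] 0, ∀ k ∈ Finset.range (K + 1),
      |δ ^ (1/2 : ℝ) * ∑ m ∈ Finset.Icc 1 (MN δ), tau (1/2) m / m * G ((k:ℝ) * (r / 2) + δ * Real.log m) - HI G ((k:ℝ) * (r / 2))| ≤ ε / 3 := by
    rw [Filter.eventually_all_finset]
    intro k _
    have := m3_fixed hG h1 (x := (k:ℝ) * (r / 2)) (by positivity)
    have h2 := Metric.tendsto_nhds.mp this (ε / 3) (by positivity)
    filter_upwards [h2] with δ hδ
    rw [Real.dist_eq] at hδ
    exact hδ.le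
  filter_upwards [hev, Ioc_mem_nhdsGT (show (0:ℝ) < 1 by norm_num)] with δ hδ hδ1 x hx
  have hδ0 : 0 < δ := hδ1.1
  rcases le_or_gt 1 x with hx1 | hx1
  · have e1 : ∑ m ∈ Finset.Icc 1 (MN δ), tau (1/2) m / m * G (x + δ * Real.log m) = 0 := by
      apply Finset.sum_eq_zero
      intro m _
      rw [h1 _ (by have := mul_nonneg hδ0.le (Real.log_natCast_nonneg m); linarith), mul_zero]
    have e2 : HI G x = 0 := by
      unfold HI
      have : ∫ h in (0:ℝ)..1, h ^ (-(1/2) : ℝ) * G (x + h) = ∫ h in (0:ℝ)..1, (0:ℝ) := by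
        apply intervalIntegral.integral_congr
        intro h hh
        rw [Set.uIcc_of_le zero_le_one] at hh
        show h ^ (-(1/2) : ℝ) * G (x + h) = 0
        rw [h1 _ (by linarith [hh.1]), mul_zero]
      rw [this]; simp
    rw [e1, e2, mul_zero, sub_zero, abs_zero]
    exact hε.le
  · obtain ⟨k, hk⟩ : ∃ k : ℕ, k = ⌊x / (r / 2)⌋₊ := ⟨_, rfl⟩
    have hxr : 0 ≤ x / (r / 2) := by positivity
    have k1 : (k:ℝ) ≤ x / (r / 2) := by rw [hk]; exact Nat.floor_le hxr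
    have k2 : x / (r / 2) < k + 1 := by rw [hk]; exact Nat.lt_floor_add_one _
    rw [le_div_iff₀ (by positivity)] at k1
    rw [div_lt_iff₀ (by positivity)] at k2
    have hkK : k ∈ Finset.range (K + 1) := by
      rw [Finset.mem_range]
      have h3 : (k:ℝ) < K := by
        refine lt_of_le_of_lt ?_ hK
        rw [le_div_iff₀ hr]
        linarith
      have : k < K := by exact_mod_cast h3
      omega
    have h4 := hδ k hkK
    have hnear : |x - (k:ℝ) * (r / 2)| < r := by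
      rw [abs_of_nonneg (by linarith)]; linarith
    have hk0 : 0 ≤ (k:ℝ) * (r / 2) := by positivity
    have hG2 : ∀ t : ℝ, 0 ≤ t → |G (x + t) - G ((k:ℝ) * (r / 2) + t)| ≤ η := fun t ht =>
      hu _ _ (by linarith) (by linarith) (by rw [add_sub_add_right_eq_sub]; exact hnear)
    have h5 := m3_HI_near hG (x := x) (y := (k:ℝ) * (r / 2)) (fun t ht _ => hG2 t ht) hη0.le
    have h6 : |δ ^ (1/2 : ℝ) * ∑ m ∈ Finset.Icc 1 (MN δ), tau (1/2) m / m * G (x + δ * Real.log m) -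
        δ ^ (1/2 : ℝ) * ∑ m ∈ Finset.Icc 1 (MN δ), tau (1/2) m / m * G ((k:ℝ) * (r / 2) + δ * Real.log m)| ≤ η * C := by
      rw [← mul_sub, ← Finset.sum_sub_distrib, abs_mul, abs_of_nonneg (Real.rpow_nonneg hδ0.le _)]
      have h7 : |∑ m ∈ Finset.Icc 1 (MN δ), (tau (1/2) m / m * G (x + δ * Real.log m) - tau (1/2) m / m * G ((k:ℝ) * (r / 2) + δ * Real.log m))| ≤
          (∑ m ∈ Finset.Icc 1 (MN δ), tau (1/2) m / m) * η := by
        rw [Finset.sum_mul]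
        refine (Finset.abs_sum_le_sum_abs _ _).trans (Finset.sum_le_sum fun m _ => ?_)
        have hτ := tau_nonneg (α := 1/2) (by norm_num) m
        have h8 : 0 ≤ tau (1/2) m / m := by positivity
        rw [← mul_sub, abs_mul, abs_of_nonneg h8]
        exact mul_le_mul_of_nonneg_left (hG2 _ (mul_nonneg hδ0.le (Real.log_natCast_nonneg m))) h8
      calc _ ≤ δ ^ (1/2 : ℝ) * ((∑ m ∈ Finset.Icc 1 (MN δ), tau (1/2) m / m) * η) := by gcongr
        _ = η * (δ ^ (1/2 : ℝ) * ∑ m ∈ Finset.Icc 1 (MN δ), tau (1/2) m / m) := by ring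
        _ ≤ η * C := by
            apply mul_le_mul_of_nonneg_left (hCb δ hδ0 hδ1.2) hη0.le
    obtain ⟨a, ha⟩ : ∃ a : ℝ, a = δ ^ (1/2 : ℝ) * ∑ m ∈ Finset.Icc 1 (MN δ), tau (1/2) m / m * G (x + δ * Real.log m) := ⟨_, rfl⟩
    obtain ⟨b, hb⟩ : ∃ b : ℝ, b = δ ^ (1/2 : ℝ) * ∑ m ∈ Finset.Icc 1 (MN δ), tau (1/2) m / m * G ((k:ℝ) * (r / 2) + δ * Real.log m) := ⟨_, rfl⟩
    rw [← ha, ← hb] at h6
    rw [← hb] at h4
    rw [← ha]
    have h9 := abs_sub_le a b (HI G x)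
    have h10 := abs_sub_le b (HI G ((k:ℝ) * (r / 2))) (HI G x)
    rw [abs_sub_comm (HI G ((k:ℝ) * (r / 2))) (HI G x)] at h10
    linarith

end Pool.Agent.LibOM70
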