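import Pool.Agent.LibOM70B.M3a

/-! The rows M3b and M3c are in M3a. -/
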