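import Pool.Agent.LibOM70B.M2
import Pool.Agent.LibOM70B.M3c

/-! ODD MOMENTS, signed route, row M4. -/

set_option autoImplicit false

namespace Pool.Agent.LibOM70

open MeasureTheory Set Filter Topology Complex ProbabilityTheory
open scoped NNReal ComplexConjugate
open Pool.Agent.LibZM Pool.Agent.LibM3
open Pool.Agent.LibLaw15 hiding Lam

private lemma m4_reindex (M : ℕ) (K : ℕ → ℕ → ℝ) (hK : ∀ a m, 1 ≤ a → 1 ≤ m → M < a * m → K a m = 0) :
    ∑ m ∈ Finset.Icc 1 M, ∑ a ∈ Finset.Icc 1 M, K a m = ∑ h ∈ Finset.Icc 1 M, ∑ p ∈ h.divisorsAntidiagonal, K p.1 p.2 := by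
  rw [Finset.sum_comm, ← Finset.sum_product' (f := fun a m => K a m)]
  rw [← Finset.sum_filter_add_sum_filter_not (Finset.Icc 1 M ×ˢ Finset.Icc 1 M) (fun p => p.1 * p.2 ≤ M)]
  have h0 : ∑ p ∈ (Finset.Icc 1 M ×ˢ Finset.Icc 1 M).filter (fun p => ¬ p.1 * p.2 ≤ M), K p.1 p.2 = 0 := by
    apply Finset.sum_eq_zero
    rintro ⟨a, m⟩ hp
    simp only [Finset.mem_filter, Finset.mem_product, Finset.mem_Icc, not_le] at hp
    exact hK a m hp.1.1.1 hp.1.2.1 hp.2
  rw [h0, add_zero]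
  have hmaps : ∀ p ∈ (Finset.Icc 1 M ×ˢ Finset.Icc 1 M).filter (fun p => p.1 * p.2 ≤ M), p.1 * p.2 ∈ Finset.Icc 1 M := by
    rintro ⟨a, b⟩ hp
    simp only [Finset.mem_filter, Finset.mem_product, Finset.mem_Icc] at hp ⊢
    exact ⟨Nat.mul_pos hp.1.1.1 hp.1.2.1, hp.2⟩
  rw [← Finset.sum_fiberwise_of_maps_to hmaps]
  refine Finset.sum_congr rfl fun n hn => ?_
  rw [Finset.mem_Icc] at hn
  refine Finset.sum_congr ?_ fun _ _ => rfl
  ext ⟨a, b⟩
  simp only [Finset.mem_filter, Finset.mem_product, Finset.mem_Icc, Nat.mem_divisorsAntidiagonal]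
  constructor
  · rintro ⟨_, h⟩
    exact ⟨h, by omega⟩
  · rintro ⟨h, _⟩
    have ha : 1 ≤ a := by
      rcases Nat.eq_zero_or_pos a with rfl | h'
      · simp at h; omega
      · exact h'
    have hb : 1 ≤ b := by
      rcases Nat.eq_zero_or_pos b with rfl | h'
      · simp at h; omega
      · exact h'
    have h1 : a ≤ a * b := Nat.le_mul_of_pos_right a hb
    have h2 : b ≤ a * b := Nat.le_mul_of_pos_left b ha
    exact ⟨⟨⟨⟨ha, by omega⟩, hb, by omega⟩, by omega⟩, h⟩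

/-- ROW M4a. Factorisation: `tau (-1/2) = tau (-1) * tau (1/2)` (`tau_mul`), so for `φ = 0` on `[1,∞)`, `x ≥ 0`:
`∑_h tau (-1/2) h/h φ(x + δ log h) = ∑_m τ(m)/m ∑_a tau (-1) a/a φ(x + δ log m + δ log a)` (all sums over `Icc 1 (MN δ)`; terms with `am > MN δ` vanish). -/
theorem vv_factor {δ : ℝ} (hδ : 0 < δ) {φ : ℝ → ℝ} {B : ℝ} (hφ : Adm 1 B φ) {x : ℝ} (hx : 0 ≤ x) :
    vv δ φ x = δ ^ (1/2 : ℝ) * ∑ m ∈ Finset.Icc 1 (MN δ), tau (1/2) m / m *
      ((1 / δ) * ∑ a ∈ Finset.Icc 1 (MN δ), tau (-1) a / a * φ (x + δ * Real.log m + δ * Real.log a)) := by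
  have hK : ∀ a m : ℕ, 1 ≤ a → 1 ≤ m → MN δ < a * m →
      tau (1/2) m / m * (tau (-1) a / a * φ (x + δ * Real.log m + δ * Real.log a)) = 0 := by
    intro a m ha hm h
    have ha0 : (0:ℝ) < a := by exact_mod_cast ha
    have hm0 : (0:ℝ) < m := by exact_mod_cast hm
    have h3 : Real.exp (1 / δ) < ((a * m : ℕ) : ℝ) := by
      unfold MN at h
      exact (Nat.floor_lt (Real.exp_pos _).le).mp h
    have h4 : 1 / δ < Real.log a + Real.log m := by
      rw [← Real.log_exp (1 / δ), ← Real.log_mul ha0.ne' hm0.ne']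
      apply Real.log_lt_log (Real.exp_pos _)
      push_cast at h3
      exact h3
    rw [div_lt_iff₀ hδ] at h4
    rw [hφ.zero _ (by linarith), mul_zero, mul_zero]
  have hre := m4_reindex (MN δ) (fun a m => tau (1/2) m / m * (tau (-1) a / a * φ (x + δ * Real.log m + δ * Real.log a))) hK
  have e1 : ∑ m ∈ Finset.Icc 1 (MN δ), tau (1/2) m / m *
      ((1 / δ) * ∑ a ∈ Finset.Icc 1 (MN δ), tau (-1) a / a * φ (x + δ * Real.log m + δ * Real.log a)) =
      (1 / δ) * ∑ m ∈ Finset.Icc 1 (MN δ), ∑ a ∈ Finset.Icc 1 (MN δ), tau (1/2) m / m * (tau (-1) a / a * φ (x + δ * Real.log m + δ * Real.log a)) := by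
    rw [Finset.mul_sum]
    refine Finset.sum_congr rfl fun m _ => ?_
    rw [← Finset.mul_sum]
    ring
  have e2 : ∀ h ∈ Finset.Icc 1 (MN δ), ∑ p ∈ h.divisorsAntidiagonal, tau (1/2) p.2 / (p.2 : ℝ) * (tau (-1) p.1 / (p.1 : ℝ) * φ (x + δ * Real.log p.2 + δ * Real.log p.1)) =
      tau (-1/2) h / h * φ (x + δ * Real.log h) := by
    intro h hh
    have hh1 := (Finset.mem_Icc.mp hh).1
    have e3 : tau (-1/2) h = ∑ p ∈ h.divisorsAntidiagonal, tau (-1) p.1 * tau (1/2) p.2 := by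
      rw [← ArithmeticFunction.mul_apply, tau_mul]
      norm_num
    rw [e3, Finset.sum_div, Finset.sum_mul]
    refine Finset.sum_congr rfl fun p hp => ?_
    rw [Nat.mem_divisorsAntidiagonal] at hp
    have hp1 : p.1 ≠ 0 := by
      intro h0; rw [h0, zero_mul] at hp; omega
    have hp2 : p.2 ≠ 0 := by
      intro h0; rw [h0, mul_zero] at hp; omega
    have hp1' : (p.1:ℝ) ≠ 0 := by exact_mod_cast hp1
    have hp2' : (p.2:ℝ) ≠ 0 := by exact_mod_cast hp2
    have hlog : Real.log (h:ℝ) = Real.log p.1 + Real.log p.2 := by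
      rw [← hp.1]
      push_cast
      exact Real.log_mul hp1' hp2'
    have hcast : (h:ℝ) = p.1 * p.2 := by
      rw [← hp.1]; push_cast; rfl
    have harg : x + δ * Real.log (h:ℝ) = x + δ * Real.log p.2 + δ * Real.log p.1 := by rw [hlog]; ring
    rw [harg, hcast]
    field_simp
  rw [e1, hre, Finset.sum_congr rfl e2]
  unfold vv
  have e4 : δ ^ (-(1/2) : ℝ) = δ ^ (1/2 : ℝ) * (1 / δ) := by
    have : (-(1/2) : ℝ) = 1/2 + (-1) := by norm_num
    rw [this, Real.rpow_add hδ, Real.rpow_neg_one, one_div δ]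
  rw [e4]
  ring

/-- ROW M4b. Uniform bound (`mob_smooth`, `tau_sum_bdd`, `|φ'| ≤ B`). -/
theorem vv_bdd : ∃ C : ℝ, 0 < C ∧ ∀ δ : ℝ, 0 < δ → δ ≤ 1 → ∀ (φ : ℝ → ℝ) (B : ℝ), Adm 1 B φ → ∀ x : ℝ, 0 ≤ x → |vv δ φ x| ≤ C * B := by
  obtain ⟨C, hC, hCb⟩ := mob_smooth
  obtain ⟨K, hK, hKb⟩ := tau_sum_bdd
  refine ⟨K * (C + 1), by positivity, fun δ hδ hδ1 φ B hφ x hx => ?_⟩
  have hB := m2_B_nonneg hφ
  rw [vv_factor hδ hφ hx, abs_mul, abs_of_nonneg (Real.rpow_nonneg hδ.le _)]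
  have h1 : ∀ m ∈ Finset.Icc 1 (MN δ), |tau (1/2) m / m * ((1 / δ) * ∑ a ∈ Finset.Icc 1 (MN δ), tau (-1) a / a * φ (x + δ * Real.log m + δ * Real.log a))| ≤
      tau (1/2) m / m * ((C + 1) * B) := by
    intro m _
    have hτ := tau_nonneg (α := 1/2) (by norm_num) m
    have h8 : 0 ≤ tau (1/2) m / m := by positivity
    rw [abs_mul, abs_of_nonneg h8]
    apply mul_le_mul_of_nonneg_left _ h8
    have hx' : 0 ≤ x + δ * Real.log m := by
      have := mul_nonneg hδ.le (Real.log_natCast_nonneg m)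
      linarith
    have h2 := hCb δ hδ hδ1 φ B hφ _ hx'
    have h3 : |deriv φ (x + δ * Real.log m)| ≤ B := by
      rw [← iteratedDeriv_one]
      exact hφ.bound 1 (by norm_num) _ hx'
    have h4 : C * B * δ ≤ C * B := by
      have : 0 ≤ C * B := by positivity
      nlinarith
    obtain ⟨A, hA⟩ : ∃ A : ℝ, A = (1 / δ) * ∑ a ∈ Finset.Icc 1 (MN δ), tau (-1) a / a * φ (x + δ * Real.log m + δ * Real.log a) := ⟨_, rfl⟩
    rw [← hA] at h2 ⊢
    have h5 : |A| ≤ |A + deriv φ (x + δ * Real.log m)| + |deriv φ (x + δ * Real.log m)| := by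
      have := abs_sub (A + deriv φ (x + δ * Real.log m)) (deriv φ (x + δ * Real.log m))
      rwa [add_sub_cancel_right] at this
    linarith
  calc δ ^ (1/2 : ℝ) * |∑ m ∈ Finset.Icc 1 (MN δ), tau (1/2) m / m * ((1 / δ) * ∑ a ∈ Finset.Icc 1 (MN δ), tau (-1) a / a * φ (x + δ * Real.log m + δ * Real.log a))|
      ≤ δ ^ (1/2 : ℝ) * ∑ m ∈ Finset.Icc 1 (MN δ), tau (1/2) m / m * ((C + 1) * B) := by
        apply mul_le_mul_of_nonneg_left _ (Real.rpow_nonneg hδ.le _)
        exact (Finset.abs_sum_le_sum_abs _ _).trans (Finset.sum_le_sum h1)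
    _ = (δ ^ (1/2 : ℝ) * ∑ m ∈ Finset.Icc 1 (MN δ), tau (1/2) m / m) * ((C + 1) * B) := by
        rw [← Finset.sum_mul]; ring
    _ ≤ K * ((C + 1) * B) := by
        apply mul_le_mul_of_nonneg_right (hKb δ hδ hδ1)
        positivity
    _ = _ := by ring

/-- ROW M4c. Limit, uniformly in `x ≥ 0` (`kar_half` with `G = -φ'`, `mob_smooth`). -/
theorem vv_lim {φ : ℝ → ℝ} {B : ℝ} (hφ : Adm 1 B φ) {ε : ℝ} (hε : 0 < ε) : ∀ᶠ δ : ℝ in 𝓝[>] 0, ∀ x : ℝ, 0 ≤ x →
    |vv δ φ x - HI (fun y => -deriv φ y) x| ≤ ε := by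
  obtain ⟨C, hC, hCb⟩ := mob_smooth
  obtain ⟨K, hK, hKb⟩ := tau_sum_bdd
  have hB := m2_B_nonneg hφ
  have hG : Continuous fun y => -deriv φ y := (hφ.smooth.continuous_deriv (by norm_num)).neg
  have hG1 : ∀ y, 1 ≤ y → -deriv φ y = 0 := fun y hy => by
    rw [← iteratedDeriv_one, m2_zero hφ (by norm_num) hy, neg_zero]
  have hk := kar_half hG hG1 (half_pos hε)
  have hsmall : ∀ᶠ δ : ℝ in 𝓝[>] 0, K * (C * B) * δ ≤ ε / 2 := by
    have h1 : Tendsto (fun δ : ℝ => K * (C * B) * δ) (𝓝 0) (𝓝 (K * (C * B) * 0)) := (continuous_const.mul continuous_id).tendsto 0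
    rw [mul_zero] at h1
    have h3 : Tendsto (fun δ : ℝ => K * (C * B) * δ) (𝓝[>] 0) (𝓝 0) := h1.mono_left nhdsWithin_le_nhds
    have h2 := h3.eventually_lt_const (half_pos hε)
    filter_upwards [h2] with δ hδ using hδ.le
  filter_upwards [hk, hsmall, Ioc_mem_nhdsGT (show (0:ℝ) < 1 by norm_num)] with δ h1 h2 hδ1 x hx
  have hδ : 0 < δ := hδ1.1
  have h3 := h1 x hx
  have h4 : |vv δ φ x - δ ^ (1/2 : ℝ) * ∑ m ∈ Finset.Icc 1 (MN δ), tau (1/2) m / m * (-deriv φ (x + δ * Real.log m))| ≤ K * (C * B) * δ := by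
    rw [vv_factor hδ hφ hx, ← mul_sub, ← Finset.sum_sub_distrib, abs_mul, abs_of_nonneg (Real.rpow_nonneg hδ.le _)]
    have h5 : ∀ m ∈ Finset.Icc 1 (MN δ), |tau (1/2) m / m * ((1 / δ) * ∑ a ∈ Finset.Icc 1 (MN δ), tau (-1) a / a * φ (x + δ * Real.log m + δ * Real.log a)) -
        tau (1/2) m / m * (-deriv φ (x + δ * Real.log m))| ≤ tau (1/2) m / m * (C * B * δ) := by
      intro m _
      have hτ := tau_nonneg (α := 1/2) (by norm_num) m
      have h8 : 0 ≤ tau (1/2) m / m := by positivity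
      rw [← mul_sub, abs_mul, abs_of_nonneg h8, sub_neg_eq_add]
      apply mul_le_mul_of_nonneg_left _ h8
      have hx' : 0 ≤ x + δ * Real.log m := by
        have := mul_nonneg hδ.le (Real.log_natCast_nonneg m)
        linarith
      exact hCb δ hδ hδ1.2 φ B hφ _ hx'
    calc _ ≤ δ ^ (1/2 : ℝ) * ∑ m ∈ Finset.Icc 1 (MN δ), tau (1/2) m / m * (C * B * δ) := by
          apply mul_le_mul_of_nonneg_left _ (Real.rpow_nonneg hδ.le _)
          exact (Finset.abs_sum_le_sum_abs _ _).trans (Finset.sum_le_sum h5)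
      _ = (δ ^ (1/2 : ℝ) * ∑ m ∈ Finset.Icc 1 (MN δ), tau (1/2) m / m) * (C * B * δ) := by
          rw [← Finset.sum_mul]; ring
      _ ≤ K * (C * B * δ) := by
          apply mul_le_mul_of_nonneg_right (hKb δ hδ hδ1.2)
          positivity
      _ = _ := by ring
  obtain ⟨b, hb⟩ : ∃ b : ℝ, b = δ ^ (1/2 : ℝ) * ∑ m ∈ Finset.Icc 1 (MN δ), tau (1/2) m / m * (-deriv φ (x + δ * Real.log m)) := ⟨_, rfl⟩
  rw [← hb] at h3 h4
  have h6 := abs_sub_le (vv δ φ x) b (HI (fun y => -deriv φ y) x)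
  linarith

private lemma m4_iter {c B : ℝ} {φ : ℝ → ℝ} (hφ : Adm c B φ) (k : ℕ) (hk : k ≤ 3) :
    iteratedDeriv k (fun x => x * φ x) = fun x => x * iteratedDeriv k φ x + k * iteratedDeriv (k - 1) φ x := by
  induction k with
  | zero => funext x; simp
  | succ k ih =>
    rw [iteratedDeriv_succ, ih (by omega)]
    funext x
    have d1 := m2_hasDeriv hφ (k := k) (by omega) x
    have h1 : HasDerivAt (fun x : ℝ => x * iteratedDeriv k φ x) (1 * iteratedDeriv k φ x + x * iteratedDeriv (k + 1) φ x) x := (hasDerivAt_id x).mul d1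
    have h2 : HasDerivAt (fun x : ℝ => (k:ℝ) * iteratedDeriv (k - 1) φ x) ((k:ℝ) * iteratedDeriv k φ x) x := by
      rcases Nat.eq_zero_or_pos k with rfl | hk1
      · simp only [Nat.cast_zero, zero_mul]
        exact hasDerivAt_const x (0:ℝ)
      · have d2 := m2_hasDeriv hφ (k := k - 1) (by omega) x
        have e : k - 1 + 1 = k := by omega
        rw [e] at d2
        exact d2.const_mul _
    have h3 : HasDerivAt (fun x : ℝ => x * iteratedDeriv k φ x + (k:ℝ) * iteratedDeriv (k - 1) φ x)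
        ((1 * iteratedDeriv k φ x + x * iteratedDeriv (k + 1) φ x) + (k:ℝ) * iteratedDeriv k φ x) x := h1.add h2
    rw [h3.deriv]
    push_cast
    ring

/-- ROW M4d. Multiplication by `x`: `HI (-(xφ)') = x HI (-φ') - (1/2) HI φ` (integration by parts: `∫_0^1 h^{1/2} (-φ'(x+h)) dh = (1/2) ∫_0^1 h^{-1/2} φ(x+h) dh`, the boundary terms vanish as `φ(x+1) = 0`),
and `x φ` is admissible with bound `4B` when `c ≤ 1`. -/
theorem HI_mul {c B : ℝ} (hc : c ≤ 1) {φ : ℝ → ℝ} (hφ : Adm c B φ) : Adm c (4 * B) (fun x => x * φ x) ∧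
    ∀ x : ℝ, 0 ≤ x → HI (fun y => -deriv (fun u => u * φ u) y) x = x * HI (fun y => -deriv φ y) x - (1/2) * HI φ x := by
  have hB := m2_B_nonneg hφ
  constructor
  · refine ⟨contDiff_id.mul hφ.smooth, fun x hx => by rw [hφ.zero x hx, mul_zero], fun k hk x hx => ?_⟩
    rw [m4_iter hφ k hk]
    show |x * iteratedDeriv k φ x + k * iteratedDeriv (k - 1) φ x| ≤ 4 * B
    rcases le_or_gt c x with hcx | hcx
    · rw [m2_zero hφ hk hcx, m2_zero hφ (k := k - 1) (by omega) hcx]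
      simp
      exact hB
    · have h1 := hφ.bound k hk x hx
      have h2 := hφ.bound (k - 1) (by omega) x hx
      have h3 : (k:ℝ) ≤ 3 := by exact_mod_cast hk
      have h4 : |x * iteratedDeriv k φ x| ≤ 1 * B := by
        rw [abs_mul, abs_of_nonneg hx]
        exact mul_le_mul (by linarith) h1 (abs_nonneg _) (by norm_num)
      have h5 : |(k:ℝ) * iteratedDeriv (k - 1) φ x| ≤ 3 * B := by
        rw [abs_mul, abs_of_nonneg (Nat.cast_nonneg k)]
        exact mul_le_mul h3 h2 (abs_nonneg _) (by norm_num)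
      have h6 := abs_add_le (x * iteratedDeriv k φ x) ((k:ℝ) * iteratedDeriv (k - 1) φ x)
      linarith
  · intro x hx
    have hφc : Continuous φ := hφ.smooth.continuous
    have hφd : Continuous (deriv φ) := hφ.smooth.continuous_deriv (by norm_num)
    have hφD : ∀ y, HasDerivAt φ (deriv φ y) y := fun y => ((hφ.smooth.differentiable (by norm_num)) y).hasDerivAt
    have hd : ∀ y, deriv (fun u => u * φ u) y = φ y + y * deriv φ y := by
      intro y
      have h1 : HasDerivAt (fun u : ℝ => u * φ u) (1 * φ y + y * deriv φ y) y := (hasDerivAt_id y).mul (hφD y)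
      rw [h1.deriv, one_mul]
    have hi0 : IntervalIntegrable (fun h : ℝ => h ^ (-(1/2) : ℝ)) volume 0 1 := intervalIntegral.intervalIntegrable_rpow' (by norm_num)
    have hi1 : IntervalIntegrable (fun h : ℝ => h ^ (-(1/2) : ℝ) * φ (x + h)) volume 0 1 := hi0.mul_continuousOn (by fun_prop)
    have hi2 : IntervalIntegrable (fun h : ℝ => h ^ (-(1/2) : ℝ) * (-deriv φ (x + h))) volume 0 1 := hi0.mul_continuousOn (by fun_prop)
    have hi3 : IntervalIntegrable (fun h : ℝ => h ^ (1/2 : ℝ) * deriv φ (x + h)) volume 0 1 := by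
      apply ContinuousOn.intervalIntegrable
      have : Continuous fun h : ℝ => h ^ (1/2 : ℝ) := Real.continuous_rpow_const (by norm_num)
      fun_prop
    -- integration by parts
    have hparts : ∫ h in (0:ℝ)..1, ((1/2) * (h ^ (-(1/2) : ℝ) * φ (x + h)) + h ^ (1/2 : ℝ) * deriv φ (x + h)) = 0 := by
      have hderiv : ∀ h ∈ Set.Ioo (0:ℝ) 1, HasDerivAt (fun h : ℝ => h ^ (1/2 : ℝ) * φ (x + h))
          ((1/2) * (h ^ (-(1/2) : ℝ) * φ (x + h)) + h ^ (1/2 : ℝ) * deriv φ (x + h)) h := by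
        intro h hh
        have h1 : HasDerivAt (fun h : ℝ => h ^ (1/2 : ℝ)) ((1/2) * h ^ (-(1/2) : ℝ)) h := by
          have := Real.hasDerivAt_rpow_const (x := h) (p := (1/2 : ℝ)) (Or.inl hh.1.ne')
          convert this using 2
          norm_num
        have h2 : HasDerivAt (fun h : ℝ => φ (x + h)) (deriv φ (x + h)) h := by
          have h3 : HasDerivAt (fun h : ℝ => x + h) 1 h := (hasDerivAt_id h).const_add x
          have h4 : HasDerivAt (fun h : ℝ => φ (x + h)) (deriv φ (x + h) * 1) h := (hφD (x + h)).comp h h3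
          rwa [mul_one] at h4
        refine (h1.mul h2).congr_deriv ?_
        ring
      have hcont : ContinuousOn (fun h : ℝ => h ^ (1/2 : ℝ) * φ (x + h)) (Set.Icc 0 1) := by
        have : Continuous fun h : ℝ => h ^ (1/2 : ℝ) := Real.continuous_rpow_const (by norm_num)
        fun_prop
      rw [intervalIntegral.integral_eq_sub_of_hasDerivAt_of_le zero_le_one hcont hderiv ((hi1.const_mul _).add hi3)]
      rw [hφ.zero (x + 1) (by linarith), Real.zero_rpow (by norm_num)]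
      simp
    rw [intervalIntegral.integral_add (hi1.const_mul _) hi3, intervalIntegral.integral_const_mul] at hparts
    unfold HI
    have e1 : ∫ h in (0:ℝ)..1, h ^ (-(1/2) : ℝ) * -deriv (fun u => u * φ u) (x + h) =
        ∫ h in (0:ℝ)..1, (x * (h ^ (-(1/2) : ℝ) * (-deriv φ (x + h))) - h ^ (-(1/2) : ℝ) * φ (x + h) - h ^ (1/2 : ℝ) * deriv φ (x + h)) := by
      apply intervalIntegral.integral_congr_ae
      refine Eventually.of_forall fun h hh => ?_
      rw [Set.uIoc_of_le zero_le_one] at hh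
      have hh0 : 0 < h := hh.1
      have e2 : h ^ (1/2 : ℝ) = h ^ (-(1/2) : ℝ) * h := by
        have : (1/2 : ℝ) = -(1/2) + 1 := by norm_num
        nth_rewrite 1 [this]
        rw [Real.rpow_add hh0, Real.rpow_one]
      show h ^ (-(1/2) : ℝ) * -deriv (fun u => u * φ u) (x + h) = _
      rw [hd, e2]
      ring
    rw [e1, intervalIntegral.integral_sub ((hi2.const_mul x).sub hi1) hi3, intervalIntegral.integral_sub (hi2.const_mul x) hi1, intervalIntegral.integral_const_mul]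
    have h9 : ∫ h in (0:ℝ)..1, h ^ (1/2 : ℝ) * deriv φ (x + h) = -(1/2) * ∫ h in (0:ℝ)..1, h ^ (-(1/2) : ℝ) * φ (x + h) := by linarith
    rw [h9]
    ring

end Pool.Agent.LibOM70
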