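import Pool.Agent.LibOM70B.G4
import Pool.Agent.LibOM70B.D4b

/-! ODD MOMENTS, signed route, row P0. -/

set_option autoImplicit false

namespace Pool.Agent.LibOM70

open MeasureTheory Set Filter Topology Complex ProbabilityTheory
open scoped NNReal ComplexConjugate
open Pool.Agent.LibZM Pool.Agent.LibM3
open Pool.Agent.LibLaw15 hiding Lam

/-- Sums over two sets of indices. -/
private theorem p0_sum {s t : Finset ℕ} (hst : s ⊆ t) (F : ℕ → ℕ → ℝ)
    (h1 : ∀ h ∈ t, h ∉ s → ∀ k, F h k = 0) (h2 : ∀ k ∈ t, k ∉ s → ∀ h, F h k = 0) :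
    ∑ h ∈ s, ∑ k ∈ s, F h k = ∑ h ∈ t, ∑ k ∈ t, F h k := by
  have e1 : ∑ h ∈ s, ∑ k ∈ t, F h k = ∑ h ∈ t, ∑ k ∈ t, F h k :=
    Finset.sum_subset hst fun h hh hs => Finset.sum_eq_zero fun k _ => h1 h hh hs k
  rw [← e1]
  exact Finset.sum_congr rfl fun h _ => Finset.sum_subset hst fun k hk hs => h2 k hk hs h

private theorem p0_sub {c : ℝ} (hc : c ≤ 1) {T : ℝ} (hT : Real.exp 1 ≤ T) (q : ℕ) :
    cs q (NT c T) ⊆ cs q (MN (1 / Real.log T)) ∧
    ∀ h ∈ cs q (MN (1 / Real.log T)), h ∉ cs q (NT c T) → c ≤ 1 / Real.log T * Real.log h := by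
  have hT0 : 0 < T := (Real.exp_pos 1).trans_le hT
  have hT1 : 1 ≤ T := (Real.one_le_exp zero_le_one).trans hT
  have hL : 1 ≤ Real.log T := by
    rw [Real.le_log_iff_exp_le hT0]
    exact hT
  have hMN : MN (1 / Real.log T) = ⌊T⌋₊ := by
    unfold MN
    rw [one_div_one_div, Real.exp_log hT0]
  have hTc : T ^ c ≤ T := by
    calc T ^ c ≤ T ^ (1 : ℝ) := Real.rpow_le_rpow_of_exponent_le hT1 hc
      _ = T := Real.rpow_one T
  rw [hMN]
  constructor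
  · intro h hh
    unfold cs at hh ⊢
    rw [Finset.mem_filter, Finset.mem_Icc] at hh ⊢
    refine ⟨⟨hh.1.1, hh.1.2.trans ?_⟩, hh.2⟩
    unfold NT
    exact Nat.floor_mono hTc
  · intro h hh hs
    unfold cs at hh hs
    rw [Finset.mem_filter, Finset.mem_Icc] at hh hs
    have h1 : ¬ h ≤ NT c T := fun h2 => hs ⟨⟨hh.1.1, h2⟩, hh.2⟩
    have h2 : T ^ c < h := by
      have h3 : ⌊T ^ c⌋₊ < h := not_le.1 h1
      exact (Nat.floor_lt (Real.rpow_nonneg hT0.le c)).1 h3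
    have h3 : c * Real.log T ≤ Real.log h := by
      rw [← Real.log_rpow hT0]
      exact Real.log_le_log (Real.rpow_pos_of_pos hT0 c) h2.le
    rw [one_div_mul_eq_div, le_div_iff₀ (by linarith)]
    exact h3

private theorem p0_chr (t : ℝ) : chr 1 1 t = 1 := by
  unfold chr
  simp

/-- ROW P0a. The sums over `Icc 1 (NT c T)` and `Icc 1 (MN (1/log T))` agree for `φ = 0` on `[c, ∞)` (`h > T^c` gives `log h / log T ≥ c`). -/
theorem ZZ_len {c B : ℝ} (hc : c ≤ 1) {φ : ℝ → ℝ} (hφ : Adm c B φ) (m : ℝ) (q : ℕ) {T : ℝ} (hT : Real.exp 1 ≤ T) :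
    ZZ m q (NT c T) (1 / Real.log T) φ = ZZ m q (MN (1 / Real.log T)) (1 / Real.log T) φ ∧
    SS q (NT c T) (1 / Real.log T) φ φ = SS q (MN (1 / Real.log T)) (1 / Real.log T) φ φ := by
  obtain ⟨hsub, hz⟩ := p0_sub hc hT q
  have hφ0 : ∀ h ∈ cs q (MN (1 / Real.log T)), h ∉ cs q (NT c T) →
      φ (1 / Real.log T * Real.log h) = 0 := fun h hh hs => hφ.zero _ (hz h hh hs)
  constructor
  · unfold ZZ
    refine p0_sum hsub (fun h k => tau (-1/2) h * tau (-1/2) k *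
      (φ (1 / Real.log T * Real.log h) * φ (1 / Real.log T * Real.log k)) *
      ((Nat.gcd h k : ℝ) / ((h:ℝ) * k)) *
      (m - Real.log h - Real.log k + 2 * Real.log (Nat.gcd h k))) ?_ ?_
    · intro h hh hs k
      show _ = (0 : ℝ)
      rw [hφ0 h hh hs]
      ring
    · intro k hk hs h
      show _ = (0 : ℝ)
      rw [hφ0 k hk hs]
      ring
  · unfold SS
    refine p0_sum hsub (fun h k => tau (-1/2) h * tau (-1/2) k *
      (φ (1 / Real.log T * Real.log h) * φ (1 / Real.log T * Real.log k)) *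
      ((Nat.gcd h k : ℝ) / ((h:ℝ) * k))) ?_ ?_
    · intro h hh hs k
      show _ = (0 : ℝ)
      rw [hφ0 h hh hs]
      ring
    · intro k hk hs h
      show _ = (0 : ℝ)
      rw [hφ0 k hk hs]
      ring

/-- ROW P0b. Uniform bound for the second moment (`AA_mean` with `m = n = 1`, `ZZ_le`, `mass_exact`: `|mW P| / log P.1` is bounded). -/
theorem XX_le {η : ℝ} (hη : 0 < η) {c : ℝ} (hc0 : 0 < c) (hc : c < 1/2) {q : ℕ} (hq : 1 ≤ q) : ∃ C : ℝ, 0 < C ∧ ∀ᶠ P : ℝ × ℝ in Fl η, ∀ (φ : ℝ → ℝ) (B : ℝ), Adm c B φ →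
    XX q c P φ ≤ C * B ^ 2 * Lam P.1 := by
  obtain ⟨C0, κ, hC0, hκ, hmean⟩ := AA_mean hη hc0 hc q (m := 1) (n := 1) le_rfl le_rfl
    (Nat.coprime_one_left 1) (fun h _ => ⟨Nat.coprime_one_right h, Nat.coprime_one_right h⟩)
  obtain ⟨C1, hC1, hmass⟩ := mass_exact hη
  obtain ⟨C2, hC2, hZ⟩ := ZZ_le
  have hA : 0 < Aconst (1/2) := Aconst_pos (by norm_num)
  refine ⟨(C2 * Cq q ^ 2 * (2 + C1) + C0) / Aconst (1/2), by positivity, ?_⟩
  filter_upwards [hmean, hmass, (Fl_fst η).eventually (eventually_ge_atTop (Real.exp 1))]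
    with P hP1 hP2 hP3
  intro φ B hφ
  have hT0 : 0 < P.1 := (Real.exp_pos 1).trans_le hP3
  have hT1 : 1 ≤ P.1 := (Real.one_le_exp zero_le_one).trans hP3
  obtain ⟨L, hLdef⟩ : ∃ L : ℝ, L = Real.log P.1 := ⟨_, rfl⟩
  have hL : 1 ≤ L := by
    rw [hLdef, Real.le_log_iff_exp_le hT0]
    exact hP3
  have hL0 : 0 < L := by linarith
  have hN : (NT c P.1 : ℝ) ≤ P.1 ^ c := Nat.floor_le (Real.rpow_nonneg hT0.le c)
  have h1 := hP1 (NT c P.1) hN (1 / Real.log P.1) φ B (by rw [← hLdef]; positivity)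
    (fun x hx => by
      have h2 := hφ.bound 0 (by norm_num) x hx
      rwa [iteratedDeriv_zero] at h2)
  have e1 : (∫ t in win P.2, ((‖riemannZeta (crit t)‖ ^ 2 : ℝ) : ℂ) *
      (((‖AA q (NT c P.1) (1 / Real.log P.1) φ (crit t)‖ ^ 2 : ℝ) : ℂ) * chr 1 1 t)
      ∂(gaussianReal P.2 (vw P.1))) = ((XX q c P φ : ℝ) : ℂ) := by
    unfold XX
    rw [← integral_complex_ofReal]
    refine integral_congr_ae (Eventually.of_forall fun t => ?_)
    show ((‖riemannZeta (crit t)‖ ^ 2 : ℝ) : ℂ) *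
      (((‖AA q (NT c P.1) (1 / Real.log P.1) φ (crit t)‖ ^ 2 : ℝ) : ℂ) * chr 1 1 t) =
      ((‖riemannZeta (crit t)‖ ^ 2 *
        ‖AA q (NT c P.1) (1 / Real.log P.1) φ (crit t)‖ ^ 2 : ℝ) : ℂ)
    rw [p0_chr, mul_one, Complex.ofReal_mul]
  have e2 : ((((1:ℕ):ℝ) * ((1:ℕ):ℝ)) ^ (-(1/2) : ℝ) *
      ZZ (mW P - Real.log (((1:ℕ):ℝ) * ((1:ℕ):ℝ))) q (NT c P.1) (1 / Real.log P.1) φ : ℝ) =
      ZZ (mW P) q (NT c P.1) (1 / Real.log P.1) φ := by
    rw [Nat.cast_one, mul_one, Real.one_rpow, one_mul, Real.log_one, sub_zero]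
  rw [e1, e2, ← Complex.ofReal_sub, Complex.norm_real, Real.norm_eq_abs] at h1
  have hφ1 : Adm 1 B φ := ⟨hφ.smooth, fun x hx => hφ.zero x (by linarith), hφ.bound⟩
  have hδ : 0 < 1 / Real.log P.1 := by
    rw [← hLdef]
    positivity
  have hδ1 : 1 / Real.log P.1 ≤ 1 := by
    rw [← hLdef, div_le_one hL0]
    exact hL
  have h3 := hZ q hq (1 / Real.log P.1) hδ hδ1 (mW P) φ B hφ1
  rw [← (ZZ_len (by linarith) hφ (mW P) q hP3).1] at h3
  have h4 : |mW P| * (1 / Real.log P.1) ≤ 1 + C1 := by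
    have h5 : |mW P| ≤ L + C1 := by
      have h6 := hP2.2
      rw [← hLdef] at h6
      have h7 := abs_sub_abs_le_abs_sub (mW P) L
      rw [abs_of_pos hL0] at h7
      linarith
    rw [← hLdef]
    calc |mW P| * (1 / L) ≤ (L + C1) * (1 / L) := by gcongr
      _ = 1 + C1 * (1 / L) := by
        field_simp
      _ ≤ 1 + C1 * 1 := by
        have h8 : 1 / L ≤ 1 := by
          rw [div_le_one hL0]
          exact hL
        gcongr
      _ = 1 + C1 := by ring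
  have h5 : (1 / Real.log P.1) ^ (-(1/4) : ℝ) = L ^ (1/4 : ℝ) := by
    rw [← hLdef, one_div, Real.inv_rpow hL0.le, Real.rpow_neg hL0.le, inv_inv]
  have h6 : P.1 ^ (-κ) ≤ 1 := Real.rpow_le_one_of_one_le_of_nonpos hT1 (by linarith)
  have h7 : 1 ≤ L ^ (1/4 : ℝ) := Real.one_le_rpow hL (by norm_num)
  rw [h5] at h3
  have h8 : XX q c P φ ≤ C2 * Cq q ^ 2 * B ^ 2 * (1 + |mW P| * (1 / Real.log P.1)) *
      L ^ (1/4 : ℝ) + C0 * B ^ 2 * P.1 ^ (-κ) := by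
    have h9 := (abs_le.1 h1).2
    have h10 := (le_abs_self _).trans h3
    linarith
  refine h8.trans ?_
  have e3 : (C2 * Cq q ^ 2 * (2 + C1) + C0) / Aconst (1/2) * B ^ 2 * Lam P.1 =
      C2 * Cq q ^ 2 * B ^ 2 * (2 + C1) * L ^ (1/4 : ℝ) + C0 * B ^ 2 * L ^ (1/4 : ℝ) := by
    unfold LibZM.Lam
    rw [← hLdef]
    field_simp
  rw [e3]
  refine add_le_add ?_ ?_
  · exact mul_le_mul_of_nonneg_right (mul_le_mul_of_nonneg_left (by linarith) (by positivity))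
      (by positivity)
  · exact mul_le_mul_of_nonneg_left (by linarith) (by positivity)

end Pool.Agent.LibOM70
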