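import Pool.Agent.LibOM70B.Defs2
import Pool.Agent.LibLaw15.A2

/-! ODD MOMENTS, signed route, row P1. -/

set_option autoImplicit false

namespace Pool.Agent.LibOM70

open MeasureTheory Set Filter Topology Complex ProbabilityTheory
open scoped NNReal ComplexConjugate
open Pool.Agent.LibZM Pool.Agent.LibM3
open Pool.Agent.LibLaw15 hiding Lam

private lemma p1_log {p : ℕ} (hp : p.Prime) (e : ℕ) {h : ℕ} (hh : 1 ≤ h) (δ : ℝ) :
    δ * Real.log ((p ^ e * h : ℕ) : ℝ) = δ * Real.log h + e * (δ * Real.log p) := by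
  have h1 : (0:ℝ) < h := by exact_mod_cast hh
  have h2 : (0:ℝ) < p := by exact_mod_cast hp.pos
  rw [Nat.cast_mul, Nat.cast_pow, Real.log_mul (by positivity) h1.ne', Real.log_pow]
  ring

/-- ROW P1. Peeling a prime (`split_cs` in LibLaw15/A2; `tau (-1/2) (p^e h) = dcoef (-1/2) e * tau (-1/2) h`, `log (p^e h) = e log p + log h`; the terms with `p^e h > N` of the right side vanish by `h0`). -/
theorem AA_peel {p : ℕ} (hp : p.Prime) {q : ℕ} (hq : ¬ p ∣ q) {N : ℕ} {δ : ℝ} {φ : ℝ → ℝ} (h0 : ∀ h : ℕ, N < h → φ (δ * Real.log h) = 0) (s : ℂ) :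
    AA q N δ φ s = ∑ e ∈ Finset.range (N + 1), ((dcoef (-1/2) e : ℝ) : ℂ) * ((p:ℂ) ^ (-s)) ^ e *
      AA (q * p) N δ (fun x => φ (x + e * (δ * Real.log p))) s := by
  unfold AA
  rw [split_cs hp hq]
  refine Finset.sum_congr rfl fun e _ => ?_
  have hsub : cs (q * p) (N / p ^ e) ⊆ cs (q * p) N := by
    intro h hh
    simp only [cs, Finset.mem_filter, Finset.mem_Icc] at hh ⊢
    exact ⟨⟨hh.1.1, hh.1.2.trans (Nat.div_le_self _ _)⟩, hh.2⟩
  rw [Finset.mul_sum]
  refine (Finset.sum_congr rfl ?_).trans (Finset.sum_subset hsub ?_)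
  · intro h hh
    simp only [cs, Finset.mem_filter, Finset.mem_Icc] at hh
    obtain ⟨⟨h1, h2⟩, h3⟩ := hh
    have hcop : Nat.Coprime (p ^ e) h := by
      have h4 : Nat.Coprime h p := Nat.Coprime.coprime_dvd_right (Dvd.intro_left _ rfl) h3
      exact Nat.Coprime.pow_left e h4.symm
    have htau : tau (-1/2) (p ^ e * h) = dcoef (-1/2) e * tau (-1/2) h := by
      rw [(tau_isMultiplicative (-1/2)).map_mul_of_coprime hcop, tau_prime_pow _ hp]
    have hpow : (((p ^ e * h : ℕ) : ℂ)) ^ (-s) = ((p:ℂ) ^ (-s)) ^ e * (h:ℂ) ^ (-s) := by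
      rw [Nat.cast_mul, Complex.natCast_mul_natCast_cpow, Nat.cast_pow,
        ← Complex.natCast_cpow_natCast_mul]
      congr 1
      rw [← Complex.cpow_nat_mul]
    rw [htau, p1_log hp e h1, hpow]
    push_cast
    ring
  · intro h hh hn
    simp only [cs, Finset.mem_filter, Finset.mem_Icc] at hh hn
    obtain ⟨⟨h1, h2⟩, h3⟩ := hh
    have hlt : N / p ^ e < h := by
      by_contra hcon
      exact hn ⟨⟨h1, not_lt.1 hcon⟩, h3⟩
    have hlt2 : N < p ^ e * h := by
      have h5 := (Nat.div_lt_iff_lt_mul (pow_pos hp.pos e)).1 hlt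
      rwa [mul_comm] at h5
    have h6 := h0 _ hlt2
    rw [p1_log hp e h1] at h6
    simp only
    rw [h6]
    simp

end Pool.Agent.LibOM70
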