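import Pool.Agent.LibOM70B.E1d
import Pool.Agent.LibLaw15.T2
import Pool.Agent.LibLaw15.T7
import Pool.Agent.LibLaw15.T9

/-! ODD MOMENTS, signed route, row P2. -/

set_option autoImplicit false

namespace Pool.Agent.LibOM70

open MeasureTheory Set Filter Topology Complex ProbabilityTheory
open scoped NNReal ComplexConjugate
open Pool.Agent.LibZM Pool.Agent.LibM3
open Pool.Agent.LibLaw15 hiding Lam

private lemma p2_dabs (e : ℕ) : |dcoef (-1/2) e| ≤ 1 := by
  unfold dcoef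
  rw [Finset.abs_prod]
  apply Finset.prod_le_one
  · intro i _
    exact abs_nonneg _
  · intro i _
    have h0 : (0:ℝ) ≤ i := Nat.cast_nonneg i
    rw [abs_div, abs_of_pos (by positivity : (0:ℝ) < (i:ℝ) + 1), div_le_one (by positivity), abs_le]
    constructor <;> linarith

private lemma p2_dneg (e : ℕ) : dcoef (-1) (e + 2) = 0 := by
  unfold dcoef
  apply Finset.prod_eq_zero (i := 1)
  · rw [Finset.mem_range]
    omega
  · norm_num

private lemma p2_z {q : ℕ} (hq : q.Prime) (t : ℝ) :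
    ((q:ℂ) ^ (-(crit t))) = (rp q : ℂ) *
      conj (fourier 1 ((t * Real.log q / (2 * Real.pi) : ℝ) : UnitAddCircle) : ℂ) := by
  have hq0 : (0:ℝ) < q := by exact_mod_cast hq.pos
  have hqc : (q:ℂ) ≠ 0 := by exact_mod_cast hq.ne_zero
  have h1 : (fourier 1 ((t * Real.log q / (2 * Real.pi) : ℝ) : UnitAddCircle) : ℂ) =
      cexp (((t * Real.log q : ℝ) : ℂ) * I) := by
    rw [fourier_coe_apply]
    congr 1
    push_cast
    have hpi : (Real.pi : ℂ) ≠ 0 := by exact_mod_cast Real.pi_ne_zero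
    field_simp
  have h2 : (rp q : ℂ) = cexp (((-(1/2) * Real.log q : ℝ) : ℂ)) := by
    rw [← Complex.ofReal_exp]
    congr 1
    unfold rp
    rw [Real.sqrt_eq_rpow, Real.rpow_def_of_pos hq0, ← Real.exp_neg]
    congr 1
    ring
  rw [h1, h2, ← Complex.exp_conj, ← Complex.exp_add, Complex.cpow_def_of_ne_zero hqc]
  congr 1
  rw [map_mul, Complex.conj_ofReal, Complex.conj_I, ← Complex.natCast_log]
  unfold crit
  push_cast
  ring

private lemma p2_norm {q : ℕ} (hq : q.Prime) (t : ℝ) : ‖(q:ℂ) ^ (-(crit t))‖ = rp q := by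
  rw [p2_z hq, norm_mul, Complex.norm_real, Real.norm_of_nonneg (rp_mem hq).1.le, RCLike.norm_conj]
  have h : ‖(fourier 1 ((t * Real.log q / (2 * Real.pi) : ℝ) : UnitAddCircle) : ℂ)‖ = 1 := by
    rw [fourier_apply]
    exact Circle.norm_coe _
  rw [h, mul_one]

private lemma p2_summ {q : ℕ} (hq : q.Prime) : Summable fun e : ℕ => |dcoef (-1/2) e| * rp q ^ e := by
  refine Summable.of_nonneg_of_le (fun e => ?_) (fun e => ?_)
    (summable_geometric_of_lt_one (rp_mem hq).1.le (rp_mem hq).2.1)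
  · exact mul_nonneg (abs_nonneg _) (pow_nonneg (rp_mem hq).1.le _)
  · exact mul_le_of_le_one_left (pow_nonneg (rp_mem hq).1.le _) (p2_dabs e)

private lemma p2_term {q : ℕ} (hq : q.Prime) (t : ℝ) (e : ℕ) :
    ‖((dcoef (-1/2) e : ℝ) : ℂ) * ((q:ℂ) ^ (-(crit t))) ^ e‖ = |dcoef (-1/2) e| * rp q ^ e := by
  rw [norm_mul, norm_pow, p2_norm hq, Complex.norm_real, Real.norm_eq_abs]

private lemma p2_sq {q : ℕ} (hq : q.Prime) (t : ℝ) :
    Hp q (crit t) ^ 2 = 1 - (q:ℂ) ^ (-(crit t)) := by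
  have hs : Summable fun e : ℕ => ‖((dcoef (-1/2) e : ℝ) : ℂ) * ((q:ℂ) ^ (-(crit t))) ^ e‖ := by
    simp only [p2_term hq]
    exact p2_summ hq
  unfold Hp
  rw [pow_two, t2_cauchy _ hs hs]
  have h1 : (-1/2 + -1/2 : ℝ) = -1 := by norm_num
  rw [h1, tsum_eq_sum (s := Finset.range 2)]
  · rw [Finset.sum_range_succ, Finset.sum_range_one, dcoef_zero, dcoef_one_right]
    push_cast
    ring
  · intro e he
    rw [Finset.mem_range, not_lt] at he
    obtain ⟨m, rfl⟩ := Nat.exists_eq_add_of_le he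
    rw [add_comm 2 m, p2_dneg]
    push_cast
    ring

private lemma p2_ab {q : ℕ} (hq : q.Prime) (t : ℝ) : ‖Hp q (crit t)‖ ^ 2 =
    (ab (rp q) ((t * Real.log q / (2 * Real.pi) : ℝ) : UnitAddCircle))⁻¹ := by
  rw [← norm_pow, p2_sq hq, p2_z hq]
  unfold ab
  rw [inv_inv]
  have h1 : (1 : ℂ) - (rp q : ℂ) * conj (fourier 1 ((t * Real.log q / (2 * Real.pi) : ℝ) : UnitAddCircle) : ℂ)
      = conj (1 - (rp q : ℂ) * (fourier 1 ((t * Real.log q / (2 * Real.pi) : ℝ) : UnitAddCircle) : ℂ)) := by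
    rw [map_sub, map_one, map_mul, Complex.conj_ofReal]
  rw [h1, RCLike.norm_conj]

/-- ROW P2. The local factors `Hp`: `z = p^{-crit t}`, `‖z‖ = rp p < 1`; `|d_{-1/2}(e)| ≤ 1`, so the series converges absolutely; `Hp² = 1 - z` (`t2_cauchy` with `κ = ρ = -1/2`, `dcoef (-1) = 1, -1, 0, …`), hence `‖Hp‖² = ‖1 - z‖ = (ab (rp p) x)⁻¹` at
`x = t log p/(2π)` (`‖1 - z‖ = ‖conj (1 - z)‖`). -/
theorem Hp_props {r : ℕ} {p : Fin r → ℕ} (hp : ∀ i, (p i).Prime) :
    (∀ i, Summable fun e : ℕ => |dcoef (-1/2) e| * rp (p i) ^ e) ∧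
    (∀ i (t : ℝ), ‖Hp (p i) (crit t)‖ ≤ 2) ∧ (∀ i, Continuous fun t : ℝ => Hp (p i) (crit t)) ∧
    ∀ t : ℝ, ∏ i, ‖Hp (p i) (crit t)‖ ^ 2 = (ET p (xt p t))⁻¹ := by
  refine ⟨fun i => p2_summ (hp i), fun i t => ?_, fun i => ?_, fun t => ?_⟩
  · have h1 : ‖Hp (p i) (crit t)‖ ^ 2 ≤ 2 := by
      rw [← norm_pow, p2_sq (hp i)]
      have h2 := norm_sub_le (1:ℂ) ((p i:ℂ) ^ (-(crit t)))
      rw [norm_one, p2_norm (hp i)] at h2
      have h3 := (rp_mem (hp i)).2.1
      linarith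
    have h4 := norm_nonneg (Hp (p i) (crit t))
    nlinarith
  · unfold Hp
    refine continuous_tsum (fun e => ?_) (p2_summ (hp i)) (fun e t => (p2_term (hp i) t e).le)
    refine continuous_const.mul (Continuous.pow ?_ e)
    have hne : (p i : ℂ) ≠ 0 := by exact_mod_cast (hp i).ne_zero
    have h1 : Continuous fun t : ℝ => -(crit t) := by
      unfold crit
      fun_prop
    exact h1.const_cpow (Or.inl hne)
  · unfold ET xt
    rw [← Finset.prod_inv_distrib]
    exact Finset.prod_congr rfl fun i _ => p2_ab (hp i) t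

end Pool.Agent.LibOM70
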