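import Pool.Agent.LibOM70B.P0
import Pool.Agent.LibOM70B.P1
import Pool.Agent.LibOM70B.P2

/-! ODD MOMENTS, signed route, row P3. -/

set_option autoImplicit false

namespace Pool.Agent.LibOM70

open MeasureTheory Set Filter Topology Complex ProbabilityTheory
open scoped NNReal ComplexConjugate
open Pool.Agent.LibZM Pool.Agent.LibM3
open Pool.Agent.LibLaw15 hiding Lam

private theorem p3_iter {φ : ℝ → ℝ} (hs : ContDiff ℝ 3 φ) (y : ℝ) {k : ℕ} (hk : k ≤ 3) (x : ℝ) :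
    iteratedDeriv k (fun x => φ (x + y) - φ x) x = iteratedDeriv k φ (x + y) - iteratedDeriv k φ x := by
  have hk' : ((k : ℕ) : WithTop ℕ∞) ≤ 3 := by exact_mod_cast hk
  have h1 : ContDiffAt ℝ k (fun x => φ (x + y)) x :=
    ((hs.of_le hk').comp (contDiff_id.add contDiff_const)).contDiffAt
  have h2 : ContDiffAt ℝ k φ x := (hs.of_le hk').contDiffAt
  rw [iteratedDeriv_fun_sub h1 h2, iteratedDeriv_comp_add_const]

private theorem p3_zero {c : ℝ} {φ : ℝ → ℝ} (hz : ∀ x, c ≤ x → φ x = 0) (k : ℕ) {x : ℝ} (hx : c < x) :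
    iteratedDeriv k φ x = 0 := by
  have h1 : φ =ᶠ[𝓝 x] fun _ => (0:ℝ) := by
    filter_upwards [Ioi_mem_nhds hx] with z hz' using hz z (le_of_lt hz')
  rw [h1.iteratedDeriv_eq k]
  simp

private theorem p3_unif {c : ℝ} {φ : ℝ → ℝ} (hs : ContDiff ℝ 3 φ) (hz : ∀ x, c ≤ x → φ x = 0)
    {k : ℕ} (hk : k ≤ 3) {ε : ℝ} (hε : 0 < ε) :
    ∀ᶠ y in 𝓝[≥] (0:ℝ), ∀ x, 0 ≤ x → |iteratedDeriv k φ (x + y) - iteratedDeriv k φ x| ≤ ε := by
  have hk' : ((k : ℕ) : WithTop ℕ∞) ≤ 3 := by exact_mod_cast hk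
  have hcont : Continuous (iteratedDeriv k φ) := hs.continuous_iteratedDeriv k hk'
  have huc : UniformContinuousOn (iteratedDeriv k φ) (Icc 0 (c + 1)) :=
    isCompact_Icc.uniformContinuousOn_of_continuous hcont.continuousOn
  rw [Metric.uniformContinuousOn_iff] at huc
  obtain ⟨d, hd, hd'⟩ := huc ε hε
  have h1 : ∀ᶠ y in 𝓝[≥] (0:ℝ), y < min d 1 :=
    nhdsWithin_le_nhds (Iio_mem_nhds (lt_min hd one_pos))
  filter_upwards [h1, self_mem_nhdsWithin] with y hy hy0 x hx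
  have hy0 : 0 ≤ y := hy0
  by_cases hxc : x ≤ c
  · have h2 := hd' (x + y) ⟨by linarith, by linarith [hy.le.trans (min_le_right _ _)]⟩ x
      ⟨hx, by linarith⟩ (by
        rw [Real.dist_eq, add_sub_cancel_left, abs_of_nonneg hy0]
        exact lt_of_lt_of_le hy (min_le_left _ _))
    rw [Real.dist_eq] at h2
    exact h2.le
  · push Not at hxc
    rw [p3_zero hz k hxc, p3_zero hz k (by linarith), sub_self, abs_zero]
    exact hε.le

/-- ROW P3a. Shifts of an admissible function: `φ(·+y) - φ` is admissible with a bound that tends to `0` with `y` (uniform continuity of `φ, φ', φ'', φ'''` on `[0, ∞)`, `φ = 0` on `[c, ∞)`) and is always `≤ 2B`. -/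
theorem adm_shift {c B : ℝ} {φ : ℝ → ℝ} (hφ : Adm c B φ) : ∃ ω : ℝ → ℝ, (∀ y, 0 ≤ y → 0 ≤ ω y ∧ ω y ≤ 2 * B) ∧ Tendsto ω (𝓝[≥] 0) (𝓝 0) ∧
    ∀ y, 0 ≤ y → Adm c (ω y) (fun x => φ (x + y) - φ x) := by
  let F : ℝ → Fin 4 × {x : ℝ // 0 ≤ x} → ℝ := fun y p =>
    |iteratedDeriv p.1 φ (p.2 + y) - iteratedDeriv p.1 φ p.2|
  have hle : ∀ y, 0 ≤ y → ∀ p, F y p ≤ 2 * B := by
    intro y hy p
    have h1 := hφ.bound p.1 (by have := p.1.2; omega) (p.2 + y) (by linarith [p.2.2])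
    have h2 := hφ.bound p.1 (by have := p.1.2; omega) p.2 p.2.2
    have h3 := abs_sub (iteratedDeriv p.1 φ (p.2 + y)) (iteratedDeriv p.1 φ p.2)
    change |_| ≤ _
    linarith
  have hbdd : ∀ y, 0 ≤ y → BddAbove (Set.range (F y)) := fun y hy =>
    ⟨2 * B, by rintro _ ⟨p, rfl⟩; exact hle y hy p⟩
  have hne : Nonempty (Fin 4 × {x : ℝ // 0 ≤ x}) := ⟨(0, ⟨0, le_refl _⟩)⟩
  refine ⟨fun y => ⨆ p, F y p, ?_, ?_, ?_⟩
  · intro y hy
    exact ⟨Real.iSup_nonneg fun p => abs_nonneg _, ciSup_le (hle y hy)⟩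
  · rw [Metric.tendsto_nhds]
    intro ε hε
    have h1 : ∀ k : Fin 4, ∀ᶠ y in 𝓝[≥] (0:ℝ), ∀ x, 0 ≤ x →
        |iteratedDeriv k φ (x + y) - iteratedDeriv k φ x| ≤ ε / 2 := fun k =>
      p3_unif hφ.smooth hφ.zero (by have := k.2; omega) (half_pos hε)
    filter_upwards [Filter.eventually_all.2 h1, self_mem_nhdsWithin] with y hy hy0
    have h2 : (⨆ p, F y p) ≤ ε / 2 := ciSup_le fun p => hy p.1 p.2 p.2.2
    have h3 : 0 ≤ ⨆ p, F y p := Real.iSup_nonneg fun p => abs_nonneg _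
    rw [Real.dist_eq, sub_zero, abs_of_nonneg h3]
    linarith
  · intro y hy
    refine ⟨?_, ?_, ?_⟩
    · exact (hφ.smooth.comp (contDiff_id.add contDiff_const)).sub hφ.smooth
    · intro x hx
      rw [hφ.zero x hx, hφ.zero (x + y) (by linarith), sub_self]
    · intro k hk x hx
      rw [p3_iter hφ.smooth y hk]
      exact le_ciSup (hbdd y hy) (⟨k, by omega⟩, ⟨x, hx⟩)

private theorem p3_norm {p : ℕ} (hp : p.Prime) (t : ℝ) (e : ℕ) :
    ‖((dcoef (-1/2) e : ℝ) : ℂ) * ((p:ℂ) ^ (-(crit t))) ^ e‖ = |dcoef (-1/2) e| * rp p ^ e := by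
  have h1 : ‖(p:ℂ) ^ (-(crit t))‖ = rp p := by
    rw [Complex.norm_natCast_cpow_of_pos hp.pos]
    have h2 : (-(crit t)).re = -(1/2 : ℝ) := by
      simp [crit]
    rw [h2, rp, Real.sqrt_eq_rpow, Real.rpow_neg (by positivity)]
  rw [norm_mul, norm_pow, h1, Complex.norm_real, Real.norm_eq_abs]

private theorem p3_lin (q N : ℕ) (δ : ℝ) (φ ψ : ℝ → ℝ) (s : ℂ) :
    AA q N δ (fun x => φ x - ψ x) s = AA q N δ φ s - AA q N δ ψ s := by
  unfold AA
  rw [← Finset.sum_sub_distrib]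
  refine Finset.sum_congr rfl fun h _ => ?_
  push_cast
  ring

private theorem p3_cs (S : Finset ℕ) (a v : ℕ → ℝ) (ha : ∀ e, 0 ≤ a e) {τ w : ℝ} (hτ : 0 ≤ τ) :
    (∑ e ∈ S, a e * v e + τ * w) ^ 2 ≤ (∑ e ∈ S, a e + τ) * (∑ e ∈ S, a e * v e ^ 2 + τ * w ^ 2) := by
  obtain ⟨x, hx⟩ : ∃ x, x = ∑ e ∈ S, a e * v e := ⟨_, rfl⟩
  obtain ⟨A, hA⟩ : ∃ A, A = ∑ e ∈ S, a e := ⟨_, rfl⟩
  obtain ⟨X, hX⟩ : ∃ X, X = ∑ e ∈ S, a e * v e ^ 2 := ⟨_, rfl⟩
  have h1 : x ^ 2 ≤ A * X := by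
    rw [hx, hA, hX]
    exact Finset.sum_sq_le_sum_mul_sum_of_sq_le_mul S (fun e _ => ha e)
      (fun e _ => mul_nonneg (ha e) (sq_nonneg _)) (fun e _ => le_of_eq (by ring))
  have hA0 : 0 ≤ A := by rw [hA]; exact Finset.sum_nonneg fun e _ => ha e
  have hX0 : 0 ≤ X := by rw [hX]; exact Finset.sum_nonneg fun e _ => mul_nonneg (ha e) (sq_nonneg _)
  rw [← hx, ← hA, ← hX]
  have h2 : 2 * (x * w) ≤ A * w ^ 2 + X := by
    have h3 : 0 ≤ A * w ^ 2 + X := by positivity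
    refine le_of_sq_le_sq ?_ h3
    have h4 : x ^ 2 * w ^ 2 ≤ A * X * w ^ 2 := mul_le_mul_of_nonneg_right h1 (sq_nonneg _)
    nlinarith [sq_nonneg (A * w ^ 2 - X)]
  have h5 := mul_le_mul_of_nonneg_left h2 hτ
  nlinarith

private theorem p3_key {p : ℕ} (hp : p.Prime) {q : ℕ} (hq : ¬ p ∣ q) {N : ℕ} {δ : ℝ} {φ : ℝ → ℝ}
    (h0 : ∀ h : ℕ, N < h → φ (δ * Real.log h) = 0)
    (hsum : Summable fun e : ℕ => |dcoef (-1/2) e| * rp p ^ e) (t : ℝ) :
    ‖AA q N δ φ (crit t) - Hp p (crit t) * AA (q * p) N δ φ (crit t)‖ ^ 2 ≤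
      (∑' e : ℕ, |dcoef (-1/2) e| * rp p ^ e) *
        (∑ e ∈ Finset.range (N + 1), |dcoef (-1/2) e| * rp p ^ e *
          ‖AA (q * p) N δ (fun x => φ (x + e * (δ * Real.log p)) - φ x) (crit t)‖ ^ 2 +
          (∑' e : ℕ, |dcoef (-1/2) (e + (N + 1))| * rp p ^ (e + (N + 1))) *
            ‖AA (q * p) N δ φ (crit t)‖ ^ 2) := by
  obtain ⟨c, hc⟩ : ∃ c : ℕ → ℂ, c = fun e => ((dcoef (-1/2) e : ℝ) : ℂ) * ((p:ℂ) ^ (-(crit t))) ^ e := ⟨_, rfl⟩
  obtain ⟨a, ha⟩ : ∃ a : ℕ → ℝ, a = fun e => |dcoef (-1/2) e| * rp p ^ e := ⟨_, rfl⟩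
  have hrp : 0 ≤ rp p := by unfold rp; positivity
  have ha0 : ∀ e, 0 ≤ a e := fun e => by rw [ha]; positivity
  have hca : ∀ e, ‖c e‖ = a e := fun e => by rw [hc, ha]; exact p3_norm hp t e
  have hcs : Summable c := Summable.of_norm (by
    have : (fun e => ‖c e‖) = a := funext hca
    rw [this, ha]; exact hsum)
  rw [← ha] at hsum
  have hH : Hp p (crit t) = ∑ e ∈ Finset.range (N + 1), c e + ∑' e, c (e + (N + 1)) := by
    rw [hcs.sum_add_tsum_nat_add, hc]; rfl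
  have hsa : Summable fun e => a (e + (N + 1)) := (summable_nat_add_iff (N + 1)).2 hsum
  have hS : ∑ e ∈ Finset.range (N + 1), a e + ∑' e, a (e + (N + 1)) = ∑' e, a e :=
    hsum.sum_add_tsum_nat_add (N + 1)
  have hT : ‖∑' e, c (e + (N + 1))‖ ≤ ∑' e, a (e + (N + 1)) := by
    refine (norm_tsum_le_tsum_norm ?_).trans (le_of_eq (tsum_congr fun e => hca _))
    have : (fun e => ‖c (e + (N + 1))‖) = fun e => a (e + (N + 1)) := funext fun e => hca _
    rw [this]; exact hsa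
  have hpeel := AA_peel hp hq h0 (crit t)
  obtain ⟨W, hW⟩ : ∃ W, W = AA (q * p) N δ φ (crit t) := ⟨_, rfl⟩
  obtain ⟨V, hV⟩ : ∃ V : ℕ → ℂ, V = fun e : ℕ =>
    AA (q * p) N δ (fun x => φ (x + e * (δ * Real.log p)) - φ x) (crit t) := ⟨_, rfl⟩
  have hd : AA q N δ φ (crit t) - Hp p (crit t) * W =
      ∑ e ∈ Finset.range (N + 1), c e * V e - (∑' e, c (e + (N + 1))) * W := by
    rw [hH, add_mul, hpeel, ← sub_sub, Finset.sum_mul, ← Finset.sum_sub_distrib]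
    congr 1
    refine Finset.sum_congr rfl fun e _ => ?_
    rw [hV]
    simp only
    rw [p3_lin, ← hW, hc]
    ring
  have hn : ‖AA q N δ φ (crit t) - Hp p (crit t) * W‖ ≤
      ∑ e ∈ Finset.range (N + 1), a e * ‖V e‖ + (∑' e, a (e + (N + 1))) * ‖W‖ := by
    rw [hd]
    refine (norm_sub_le _ _).trans (add_le_add ?_ ?_)
    · refine (norm_sum_le _ _).trans (le_of_eq (Finset.sum_congr rfl fun e _ => ?_))
      rw [norm_mul, hca]
    · rw [norm_mul]
      exact mul_le_mul_of_nonneg_right hT (norm_nonneg _)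
  have h2 := pow_le_pow_left₀ (norm_nonneg _) hn 2
  have h3 := h2.trans (p3_cs (Finset.range (N + 1)) a (fun e => ‖V e‖) ha0
    (w := ‖W‖) (tsum_nonneg fun e => ha0 (e + (N + 1))))
  rw [hS] at h3
  rw [hW, hV, ha] at h3
  exact h3

private theorem p3_AAcont (q N : ℕ) (δ : ℝ) (φ : ℝ → ℝ) :
    Continuous fun t : ℝ => AA q N δ φ (crit t) := by
  unfold AA
  refine continuous_finsetSum _ fun h hh => ?_
  have hh0 : (h : ℂ) ≠ 0 := by
    have := (Finset.mem_Icc.1 (Finset.mem_filter.1 hh).1).1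
    exact_mod_cast (by omega : h ≠ 0)
  refine continuous_const.mul ?_
  exact (continuous_crit.neg).const_cpow (Or.inl hh0)

private theorem p3_int (q N : ℕ) (δ : ℝ) (φ : ℝ → ℝ) (u : ℝ) (v : ℝ≥0) :
    Integrable (fun t : ℝ => ‖riemannZeta (crit t)‖ ^ 2 * ‖AA q N δ φ (crit t)‖ ^ 2)
      ((gaussianReal u v).restrict (win u)) := by
  have hc : Continuous fun t : ℝ => ‖riemannZeta (crit t)‖ ^ 2 * ‖AA q N δ φ (crit t)‖ ^ 2 :=
    (continuous_zeta_crit.norm.pow 2).mul ((p3_AAcont q N δ φ).norm.pow 2)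
  exact hc.continuousOn.integrableOn_compact isCompact_Icc

private theorem p3_XX {p : ℕ} (hp : p.Prime) {q : ℕ} (hq : ¬ p ∣ q) {c : ℝ} {P : ℝ × ℝ} {φ : ℝ → ℝ}
    (h0 : ∀ h : ℕ, NT c P.1 < h → φ (1 / Real.log P.1 * Real.log h) = 0)
    (hsum : Summable fun e : ℕ => |dcoef (-1/2) e| * rp p ^ e) :
    ∫ t in win P.2, ‖riemannZeta (crit t)‖ ^ 2 *
      ‖AA q (NT c P.1) (1 / Real.log P.1) φ (crit t) - Hp p (crit t) *
        AA (q * p) (NT c P.1) (1 / Real.log P.1) φ (crit t)‖ ^ 2 ∂(gaussianReal P.2 (vw P.1)) ≤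
      (∑' e : ℕ, |dcoef (-1/2) e| * rp p ^ e) *
        (∑ e ∈ Finset.range (NT c P.1 + 1), |dcoef (-1/2) e| * rp p ^ e *
          XX (q * p) c P (fun x => φ (x + e * (1 / Real.log P.1 * Real.log p)) - φ x) +
          (∑' e : ℕ, |dcoef (-1/2) (e + (NT c P.1 + 1))| * rp p ^ (e + (NT c P.1 + 1))) *
            XX (q * p) c P φ) := by
  have hi := fun φ : ℝ → ℝ => p3_int (q * p) (NT c P.1) (1 / Real.log P.1) φ P.2 (vw P.1)
  obtain ⟨S, hS⟩ : ∃ S, S = ∑' e : ℕ, |dcoef (-1/2) e| * rp p ^ e := ⟨_, rfl⟩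
  obtain ⟨τ, hτ⟩ : ∃ τ, τ = ∑' e : ℕ, |dcoef (-1/2) (e + (NT c P.1 + 1))| * rp p ^ (e + (NT c P.1 + 1)) := ⟨_, rfl⟩
  have hint1 : Integrable (fun t : ℝ => ∑ e ∈ Finset.range (NT c P.1 + 1), |dcoef (-1/2) e| * rp p ^ e *
      (‖riemannZeta (crit t)‖ ^ 2 * ‖AA (q * p) (NT c P.1) (1 / Real.log P.1)
        (fun x => φ (x + e * (1 / Real.log P.1 * Real.log p)) - φ x) (crit t)‖ ^ 2))
      ((gaussianReal P.2 (vw P.1)).restrict (win P.2)) :=
    integrable_finsetSum _ fun e _ => (hi _).const_mul _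
  have hint2 : Integrable (fun t : ℝ => τ * (‖riemannZeta (crit t)‖ ^ 2 *
      ‖AA (q * p) (NT c P.1) (1 / Real.log P.1) φ (crit t)‖ ^ 2))
      ((gaussianReal P.2 (vw P.1)).restrict (win P.2)) := (hi _).const_mul _
  have hle : ∀ t : ℝ, ‖riemannZeta (crit t)‖ ^ 2 *
      ‖AA q (NT c P.1) (1 / Real.log P.1) φ (crit t) - Hp p (crit t) *
        AA (q * p) (NT c P.1) (1 / Real.log P.1) φ (crit t)‖ ^ 2 ≤
      S * (∑ e ∈ Finset.range (NT c P.1 + 1), |dcoef (-1/2) e| * rp p ^ e *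
      (‖riemannZeta (crit t)‖ ^ 2 * ‖AA (q * p) (NT c P.1) (1 / Real.log P.1)
        (fun x => φ (x + e * (1 / Real.log P.1 * Real.log p)) - φ x) (crit t)‖ ^ 2) +
        τ * (‖riemannZeta (crit t)‖ ^ 2 *
      ‖AA (q * p) (NT c P.1) (1 / Real.log P.1) φ (crit t)‖ ^ 2)) := by
    intro t
    have h1 := mul_le_mul_of_nonneg_left (p3_key hp hq h0 hsum t)
      (sq_nonneg ‖riemannZeta (crit t)‖)
    rw [← hS, ← hτ] at h1
    refine h1.trans (le_of_eq ?_)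
    rw [mul_left_comm, mul_add, Finset.mul_sum]
    congr 2
    · exact Finset.sum_congr rfl fun e _ => by ring
    · ring
  have hfin := integral_mono_of_nonneg (μ := (gaussianReal P.2 (vw P.1)).restrict (win P.2))
    (Filter.Eventually.of_forall fun t => by positivity) ((hint1.add hint2).const_mul S)
    (Filter.Eventually.of_forall hle)
  refine hfin.trans (le_of_eq ?_)
  rw [← hS, ← hτ, integral_const_mul]
  congr 1
  have e1 : (∫ t in win P.2, ((fun t : ℝ => ∑ e ∈ Finset.range (NT c P.1 + 1), |dcoef (-1/2) e| * rp p ^ e *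
      (‖riemannZeta (crit t)‖ ^ 2 * ‖AA (q * p) (NT c P.1) (1 / Real.log P.1)
        (fun x => φ (x + e * (1 / Real.log P.1 * Real.log p)) - φ x) (crit t)‖ ^ 2)) +
      (fun t : ℝ => τ * (‖riemannZeta (crit t)‖ ^ 2 *
      ‖AA (q * p) (NT c P.1) (1 / Real.log P.1) φ (crit t)‖ ^ 2))) t ∂(gaussianReal P.2 (vw P.1))) = _ :=
    integral_add' hint1 hint2
  rw [e1, integral_finsetSum _ fun e _ => (hi _).const_mul _, integral_const_mul]
  congr 1
  refine Finset.sum_congr rfl fun e _ => ?_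
  rw [integral_const_mul]
  rfl

private theorem p3_vanish {c B : ℝ} {φ : ℝ → ℝ} (hφ : Adm c B φ) {T : ℝ} (hT : 1 < T) :
    ∀ h : ℕ, NT c T < h → φ (1 / Real.log T * Real.log h) = 0 := by
  intro h hh
  apply hφ.zero
  have hl : 0 < Real.log T := Real.log_pos hT
  have h1 : T ^ c < h := Nat.lt_of_floor_lt hh
  have h2 : 0 < T ^ c := Real.rpow_pos_of_pos (by linarith) _
  have h3 : c * Real.log T ≤ Real.log h := by
    rw [← Real.log_rpow (by linarith)]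
    exact Real.log_le_log h2 h1.le
  rw [one_div, ← div_eq_inv_mul, le_div_iff₀ hl]
  exact h3

/-- ROW P3b. One prime: `A_q` is asymptotically `Hp p · A_{qp}` in the weighted mean square.
PROOF. By `AA_peel`, `A_q φ - Hp p · A_{qp} φ = ∑_{e ≤ N} d(e) z^e A_{qp}(φ_e) - ∑_{e > N} d(e) z^e A_{qp} φ`, `φ_e = φ(·+eδ log p) - φ`, `z = p^{-crit t}`, `d = dcoef (-1/2)`. Cauchy-Schwarz: `‖∑ c_e V_e‖² ≤ (∑ |c_e|) ∑ |c_e| ‖V_e‖²`, so
`∫ |ζ|² ‖…‖² ≤ S (∑_{e ≤ N} |d(e)| rp^e XX (qp) (φ_e) + ∑_{e > N} |d(e)| rp^e XX (qp) φ)`, `S = ∑ |d(e)| rp^e`. By `XX_le` and `adm_shift` each term is `≤ C |d(e)| rp^e ω(e δ log p)² Lam`, dominated by `4 B² C |d(e)| rp^e Lam`, and tends to zero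
(dominated convergence for series, `tendsto_tsum_of_dominated_convergence`). -/
theorem one_prime {η : ℝ} (hη : 0 < η) {c : ℝ} (hc0 : 0 < c) (hc : c < 1/2) {φ : ℝ → ℝ} {B : ℝ} (hφ : Adm c B φ) {q : ℕ} (hq : 1 ≤ q) {p : ℕ} (hp : p.Prime) (hpq : ¬ p ∣ q) :
    Tendsto (fun P : ℝ × ℝ => (∫ t in win P.2, ‖riemannZeta (crit t)‖ ^ 2 *
      ‖AA q (NT c P.1) (1 / Real.log P.1) φ (crit t) - Hp p (crit t) * AA (q * p) (NT c P.1) (1 / Real.log P.1) φ (crit t)‖ ^ 2 ∂(gaussianReal P.2 (vw P.1))) / Lam P.1)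
      (Fl η) (𝓝 0) := by
  have hsum : Summable fun e : ℕ => |dcoef (-1/2) e| * rp p ^ e :=
    (Hp_props (r := 1) (p := fun _ => p) (fun _ => hp)).1 0
  obtain ⟨ω, hω1, hω2, hω3⟩ := adm_shift hφ
  obtain ⟨C, hC, hXX⟩ := XX_le hη hc0 hc (q := q * p) (Nat.mul_pos hq hp.pos)
  have hB : 0 ≤ B := (abs_nonneg _).trans (hφ.bound 0 (by norm_num) 0 le_rfl)
  have hrp : 0 ≤ rp p := by unfold rp; positivity
  have hlp : 0 ≤ Real.log p := Real.log_natCast_nonneg p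
  obtain ⟨S, hS⟩ : ∃ S, S = ∑' e : ℕ, |dcoef (-1/2) e| * rp p ^ e := ⟨_, rfl⟩
  have hS0 : 0 ≤ S := by rw [hS]; exact tsum_nonneg fun e => by positivity
  let f : ℝ × ℝ → ℕ → ℝ := fun P e => |dcoef (-1/2) e| * rp p ^ e *
    (if e < NT c P.1 + 1 then ω (e * (1 / Real.log P.1 * Real.log p)) ^ 2 else B ^ 2)
  have hfst := Fl_fst η
  have hT1 : ∀ᶠ P : ℝ × ℝ in Fl η, 1 < P.1 := hfst.eventually (eventually_gt_atTop 1)
  have hy : ∀ P : ℝ × ℝ, 1 < P.1 → ∀ e : ℕ, 0 ≤ (e:ℝ) * (1 / Real.log P.1 * Real.log p) := by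
    intro P hP e
    have : 0 < Real.log P.1 := Real.log_pos hP
    positivity
  have hfb : ∀ P : ℝ × ℝ, 1 < P.1 → ∀ e, 0 ≤ f P e ∧ f P e ≤ |dcoef (-1/2) e| * rp p ^ e * (4 * B ^ 2) := by
    intro P hP e
    have h1 := hω1 _ (hy P hP e)
    have h2 : ω (e * (1 / Real.log P.1 * Real.log p)) ^ 2 ≤ 4 * B ^ 2 := by
      have := pow_le_pow_left₀ h1.1 h1.2 2
      nlinarith
    constructor
    · change 0 ≤ _ * _
      refine mul_nonneg (by positivity) ?_
      split_ifs <;> positivity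
    · refine mul_le_mul_of_nonneg_left ?_ (by positivity)
      split_ifs
      · exact h2
      · nlinarith [sq_nonneg B]
  have hbs : Summable fun e : ℕ => |dcoef (-1/2) e| * rp p ^ e * (4 * B ^ 2) := hsum.mul_right _
  have hfs : ∀ P : ℝ × ℝ, 1 < P.1 → Summable (f P) := fun P hP =>
    Summable.of_nonneg_of_le (fun e => (hfb P hP e).1) (fun e => (hfb P hP e).2) hbs
  have hNT : Tendsto (fun P : ℝ × ℝ => NT c P.1) (Fl η) atTop := by
    have h1 : Tendsto (fun T : ℝ => ⌊T ^ c⌋₊) atTop atTop :=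
      tendsto_nat_floor_atTop.comp (tendsto_rpow_atTop hc0)
    exact h1.comp hfst
  have hlim : Tendsto (fun P => ∑' e, f P e) (Fl η) (𝓝 0) := by
    have h1 : Tendsto (fun P => ∑' e, f P e) (Fl η) (𝓝 (∑' _ : ℕ, (0:ℝ))) := by
      refine tendsto_tsum_of_dominated_convergence hbs (fun e => ?_) ?_
      · have h2 : Tendsto (fun P : ℝ × ℝ => (e:ℝ) * (1 / Real.log P.1 * Real.log p)) (Fl η) (𝓝[≥] 0) := by
          refine tendsto_nhdsWithin_iff.2 ⟨?_, ?_⟩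
          · have h3 : Tendsto (fun P : ℝ × ℝ => 1 / Real.log P.1) (Fl η) (𝓝 0) := by
              simp only [one_div]
              exact tendsto_inv_atTop_zero.comp (Real.tendsto_log_atTop.comp hfst)
            have h4 := (h3.mul_const (Real.log p)).const_mul (e:ℝ)
            simpa using h4
          · filter_upwards [hT1] with P hP using hy P hP e
        have h3 := ((hω2.comp h2).pow 2).const_mul (|dcoef (-1/2) e| * rp p ^ e)
        have h4 : |dcoef (-1/2) e| * rp p ^ e * (0:ℝ) ^ 2 = 0 := by ring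
        rw [h4] at h3
        refine h3.congr' ?_
        filter_upwards [hNT.eventually (eventually_ge_atTop e)] with P hP
        have : e < NT c P.1 + 1 := by omega
        simp only [f, Function.comp, if_pos this]
      · filter_upwards [hT1] with P hP e
        rw [Real.norm_eq_abs, abs_of_nonneg (hfb P hP e).1]
        exact (hfb P hP e).2
    simpa using h1
  have hlim2 : Tendsto (fun P => S * (C * ∑' e, f P e)) (Fl η) (𝓝 0) := by
    simpa using (hlim.const_mul C).const_mul S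
  refine tendsto_of_tendsto_of_tendsto_of_le_of_le' tendsto_const_nhds hlim2 ?_ ?_
  · filter_upwards [hT1] with P hP
    refine div_nonneg (integral_nonneg fun t => by positivity) (Lam_pos hP).le
  · filter_upwards [hT1, hXX] with P hP hX
    have hL := Lam_pos hP
    have h1 := p3_XX (q := q) hp hpq (p3_vanish hφ hP) hsum
    rw [← hS] at h1
    rw [div_le_iff₀ hL]
    refine h1.trans ?_
    rw [mul_assoc]
    refine mul_le_mul_of_nonneg_left ?_ hS0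
    obtain ⟨N, hN⟩ : ∃ N, N = NT c P.1 := ⟨_, rfl⟩
    have hsplit := (hfs P hP).sum_add_tsum_nat_add (N + 1)
    rw [← hsplit]
    have h2 : ∑ e ∈ Finset.range (NT c P.1 + 1), |dcoef (-1/2) e| * rp p ^ e *
          XX (q * p) c P (fun x => φ (x + e * (1 / Real.log P.1 * Real.log p)) - φ x) ≤
        C * (∑ e ∈ Finset.range (N + 1), f P e) * Lam P.1 := by
      rw [Finset.mul_sum, Finset.sum_mul, ← hN]
      refine Finset.sum_le_sum fun e he => ?_
      have h3 := hX _ _ (hω3 _ (hy P hP e))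
      have h4 := mul_le_mul_of_nonneg_left h3 (by positivity : 0 ≤ |dcoef (-1/2) e| * rp p ^ e)
      have h5 : f P e = |dcoef (-1/2) e| * rp p ^ e * ω (e * (1 / Real.log P.1 * Real.log p)) ^ 2 := by
        have : e < NT c P.1 + 1 := by rw [← hN]; exact Finset.mem_range.1 he
        simp only [f, if_pos this]
      rw [h5]
      refine h4.trans (le_of_eq (by ring))
    have h3 : (∑' e : ℕ, |dcoef (-1/2) (e + (NT c P.1 + 1))| * rp p ^ (e + (NT c P.1 + 1))) *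
            XX (q * p) c P φ ≤ C * (∑' e, f P (e + (N + 1))) * Lam P.1 := by
      have h4 := hX _ _ hφ
      have h5 : ∀ e, f P (e + (N + 1)) =
          |dcoef (-1/2) (e + (NT c P.1 + 1))| * rp p ^ (e + (NT c P.1 + 1)) * B ^ 2 := by
        intro e
        have : ¬ (e + (N + 1) < N + 1) := by omega
        simp only [f, ← hN, if_neg this]
      simp_rw [h5]
      rw [tsum_mul_right]
      have hτ0 : 0 ≤ ∑' e : ℕ, |dcoef (-1/2) (e + (NT c P.1 + 1))| * rp p ^ (e + (NT c P.1 + 1)) :=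
        tsum_nonneg fun e => by positivity
      have h6 := mul_le_mul_of_nonneg_left h4 hτ0
      refine h6.trans (le_of_eq (by ring))
    refine (add_le_add h2 h3).trans (le_of_eq (by ring))

end Pool.Agent.LibOM70
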