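import Pool.Agent.LibOM70B.P3

/-! ODD MOMENTS, signed route, row P4. -/

set_option autoImplicit false

namespace Pool.Agent.LibOM70

open MeasureTheory Set Filter Topology Complex ProbabilityTheory
open scoped NNReal ComplexConjugate
open Pool.Agent.LibZM Pool.Agent.LibM3
open Pool.Agent.LibLaw15 hiding Lam

private theorem p4_AA_cont {q N : ℕ} {δ : ℝ} {φ : ℝ → ℝ} : Continuous fun t : ℝ => AA q N δ φ (crit t) := by
  unfold AA
  refine continuous_finsetSum _ fun h hh => continuous_const.mul ?_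
  have h1 : 1 ≤ h := by
    rw [cs, Finset.mem_filter, Finset.mem_Icc] at hh
    exact hh.1.1
  refine Continuous.const_cpow ?_ (Or.inl (by exact_mod_cast (show h ≠ 0 by omega)))
  unfold crit
  fun_prop

private theorem p4_Lam_tendsto {η : ℝ} : Tendsto (fun P : ℝ × ℝ => Lam P.1) (Fl η) atTop := by
  have h1 : Tendsto (fun T : ℝ => Lam T) atTop atTop := by
    unfold Lam
    exact ((tendsto_rpow_atTop (by norm_num : (0:ℝ) < 1/4)).comp Real.tendsto_log_atTop).const_mul_atTop
      (Aconst_pos (by norm_num))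
  exact h1.comp (Fl_fst η)

/-- ROW P4. All primes: induction over `s ⊆ Fin r` with `q = ∏_{i ∈ s} p i` (`A11_ndvd'` in LibLaw15/A11): `AA 1 - ∏_{insert} Hp · AA (q p) = (AA 1 - ∏_s Hp · AA q) + ∏_s Hp · (AA q - Hp · AA (q p))`, `‖∏_s Hp‖ ≤ 2^r` (`Hp_props`), `‖a+b‖² ≤ 2‖a‖² + 2‖b‖²`. -/
theorem all_primes {η : ℝ} (hη : 0 < η) {c : ℝ} (hc0 : 0 < c) (hc : c < 1/2) {φ : ℝ → ℝ} {B : ℝ} (hφ : Adm c B φ)
    {r : ℕ} {p : Fin r → ℕ} (hp : ∀ i, (p i).Prime) (hinj : Function.Injective p) :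
    Tendsto (fun P : ℝ × ℝ => (∫ t in win P.2, ‖riemannZeta (crit t)‖ ^ 2 *
      ‖AA 1 (NT c P.1) (1 / Real.log P.1) φ (crit t) - (∏ i, Hp (p i) (crit t)) * AA (qP p) (NT c P.1) (1 / Real.log P.1) φ (crit t)‖ ^ 2 ∂(gaussianReal P.2 (vw P.1))) / Lam P.1)
      (Fl η) (𝓝 0) := by
  obtain ⟨-, hHle, hHc, -⟩ := Hp_props hp
  have hLam : ∀ᶠ P : ℝ × ℝ in Fl η, 0 < Lam P.1 := p4_Lam_tendsto.eventually_gt_atTop 0
  have hprodc : ∀ s : Finset (Fin r), Continuous fun t : ℝ => ∏ i ∈ s, Hp (p i) (crit t) :=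
    fun s => continuous_finsetProd _ fun i _ => hHc i
  have hprodle : ∀ (s : Finset (Fin r)) (t : ℝ), ‖∏ i ∈ s, Hp (p i) (crit t)‖ ≤ 2 ^ r := by
    intro s t
    rw [norm_prod]
    calc ∏ i ∈ s, ‖Hp (p i) (crit t)‖ ≤ ∏ _i ∈ s, (2:ℝ) :=
          Finset.prod_le_prod (fun i _ => norm_nonneg _) fun i _ => hHle i t
      _ = 2 ^ s.card := by rw [Finset.prod_const]
      _ ≤ 2 ^ r := pow_le_pow_right₀ (by norm_num) (by simpa using Finset.card_le_univ s)
  have key : ∀ s : Finset (Fin r), Tendsto (fun P : ℝ × ℝ => (∫ t in win P.2, ‖riemannZeta (crit t)‖ ^ 2 *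
      ‖AA 1 (NT c P.1) (1 / Real.log P.1) φ (crit t) - (∏ i ∈ s, Hp (p i) (crit t)) *
        AA (∏ i ∈ s, p i) (NT c P.1) (1 / Real.log P.1) φ (crit t)‖ ^ 2 ∂(gaussianReal P.2 (vw P.1))) / Lam P.1)
      (Fl η) (𝓝 0) := by
    intro s
    induction s using Finset.induction_on with
    | empty =>
      simp only [Finset.prod_empty, one_mul, sub_self, norm_zero]
      simp
      exact tendsto_const_nhds
    | insert i s his ih =>
      have hq1 : 1 ≤ ∏ j ∈ s, p j := Nat.one_le_iff_ne_zero.2 (Finset.prod_ne_zero_iff.2 fun j _ => (hp j).ne_zero)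
      have hpq : ¬ p i ∣ ∏ j ∈ s, p j := by
        intro hd
        obtain ⟨j, hj, hdj⟩ := (hp i).prime.exists_mem_finset_dvd hd
        have := (Nat.prime_dvd_prime_iff_eq (hp i) (hp j)).1 hdj
        exact his (hinj this ▸ hj)
      have h1 := one_prime hη hc0 hc hφ hq1 (hp i) hpq
      have hlim := (ih.const_mul 2).add (h1.const_mul (2 * (2 ^ r) ^ 2))
      rw [mul_zero, mul_zero, add_zero] at hlim
      refine squeeze_zero' ?_ ?_ hlim
      · filter_upwards [hLam] with P hL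
        exact div_nonneg (integral_nonneg fun t => by positivity) hL.le
      · filter_upwards [hLam] with P hL
        rw [← mul_div_assoc, ← mul_div_assoc, ← add_div]
        apply div_le_div_of_nonneg_right _ hL.le
        set N := NT c P.1
        set δ := 1 / Real.log P.1
        set q := ∏ j ∈ s, p j
        have hi1 : Integrable (fun t : ℝ => ‖riemannZeta (crit t)‖ ^ 2 *
            ‖AA 1 N δ φ (crit t) - (∏ i ∈ s, Hp (p i) (crit t)) * AA q N δ φ (crit t)‖ ^ 2)
            ((gaussianReal P.2 (vw P.1)).restrict (win P.2)) := by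
          refine Continuous.integrableOn_Icc ?_
          exact (continuous_zeta_crit.norm.pow 2).mul ((p4_AA_cont.sub ((hprodc s).mul p4_AA_cont)).norm.pow 2)
        have hi2 : Integrable (fun t : ℝ => ‖riemannZeta (crit t)‖ ^ 2 *
            ‖AA q N δ φ (crit t) - Hp (p i) (crit t) * AA (q * p i) N δ φ (crit t)‖ ^ 2)
            ((gaussianReal P.2 (vw P.1)).restrict (win P.2)) := by
          refine Continuous.integrableOn_Icc ?_
          exact (continuous_zeta_crit.norm.pow 2).mul ((p4_AA_cont.sub ((hHc i).mul p4_AA_cont)).norm.pow 2)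
        have hi3 : Integrable (fun t : ℝ => ‖riemannZeta (crit t)‖ ^ 2 *
            ‖AA 1 N δ φ (crit t) - (∏ i ∈ insert i s, Hp (p i) (crit t)) * AA (∏ j ∈ insert i s, p j) N δ φ (crit t)‖ ^ 2)
            ((gaussianReal P.2 (vw P.1)).restrict (win P.2)) := by
          refine Continuous.integrableOn_Icc ?_
          exact (continuous_zeta_crit.norm.pow 2).mul ((p4_AA_cont.sub ((hprodc _).mul p4_AA_cont)).norm.pow 2)
        rw [← integral_const_mul, ← integral_const_mul, ← integral_add (hi1.const_mul _) (hi2.const_mul _)]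
        refine integral_mono hi3 ((hi1.const_mul _).add (hi2.const_mul _)) fun t => ?_
        simp only
        rw [Finset.prod_insert his, Finset.prod_insert his, mul_comm (p i)]
        set a := AA 1 N δ φ (crit t)
        set b := AA q N δ φ (crit t)
        set d := AA (q * p i) N δ φ (crit t)
        set H := ∏ j ∈ s, Hp (p j) (crit t)
        set h := Hp (p i) (crit t)
        have e1 : a - h * H * d = (a - H * b) + H * (b - h * d) := by ring
        have e2 : ‖a - h * H * d‖ ≤ ‖a - H * b‖ + ‖H‖ * ‖b - h * d‖ := by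
          rw [e1]
          refine (norm_add_le _ _).trans ?_
          rw [norm_mul]
        have e3 : ‖H‖ * ‖b - h * d‖ ≤ 2 ^ r * ‖b - h * d‖ := mul_le_mul_of_nonneg_right (hprodle s t) (norm_nonneg _)
        have e4 : ‖a - h * H * d‖ ^ 2 ≤ 2 * ‖a - H * b‖ ^ 2 + 2 * (2 ^ r * ‖b - h * d‖) ^ 2 := by
          have e5 : ‖a - h * H * d‖ ^ 2 ≤ (‖a - H * b‖ + 2 ^ r * ‖b - h * d‖) ^ 2 :=
            pow_le_pow_left₀ (norm_nonneg _) (e2.trans (by linarith)) 2
          nlinarith [sq_nonneg (‖a - H * b‖ - 2 ^ r * ‖b - h * d‖)]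
        calc ‖riemannZeta (crit t)‖ ^ 2 * ‖a - h * H * d‖ ^ 2
            ≤ ‖riemannZeta (crit t)‖ ^ 2 * (2 * ‖a - H * b‖ ^ 2 + 2 * (2 ^ r * ‖b - h * d‖) ^ 2) :=
              mul_le_mul_of_nonneg_left e4 (by positivity)
          _ = _ := by ring
  exact key Finset.univ

end Pool.Agent.LibOM70
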