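import Pool.Agent.LibOM70B.P0
import Pool.Agent.LibOM70B.P2
import Pool.Agent.LibLaw15.E1b
import Pool.Agent.LibLaw15.T8
import Pool.Agent.LibLaw15.A12

/-! ODD MOMENTS, signed route, row P5. -/

set_option autoImplicit false

namespace Pool.Agent.LibOM70

open MeasureTheory Set Filter Topology Complex ProbabilityTheory
open scoped NNReal ComplexConjugate
open Pool.Agent.LibZM Pool.Agent.LibM3
open Pool.Agent.LibLaw15 hiding Lam

private theorem p5_AA_cont {q N : ℕ} {δ : ℝ} {φ : ℝ → ℝ} : Continuous fun t : ℝ => AA q N δ φ (crit t) := by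
  unfold AA
  refine continuous_finsetSum _ fun h hh => continuous_const.mul ?_
  have h1 : 1 ≤ h := by
    rw [cs, Finset.mem_filter, Finset.mem_Icc] at hh
    exact hh.1.1
  refine Continuous.const_cpow ?_ (Or.inl (by exact_mod_cast (show h ≠ 0 by omega)))
  unfold crit
  fun_prop

private theorem p5_adm {c B : ℝ} (hc : c ≤ 1) {φ : ℝ → ℝ} (hφ : Adm c B φ) : Adm 1 B φ :=
  ⟨hφ.smooth, fun x hx => hφ.zero x (hc.trans hx), hφ.bound⟩

private theorem p5_Lam_tendsto {η : ℝ} : Tendsto (fun P : ℝ × ℝ => Lam P.1) (Fl η) atTop := by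
  have h1 : Tendsto (fun T : ℝ => Lam T) atTop atTop := by
    unfold Lam
    exact ((tendsto_rpow_atTop (by norm_num : (0:ℝ) < 1/4)).comp Real.tendsto_log_atTop).const_mul_atTop
      (Aconst_pos (by norm_num))
  exact h1.comp (Fl_fst η)

/-- expansion of the form in the main parameter -/
private theorem p5_ZZ (m a : ℝ) (q M : ℕ) (δ : ℝ) (φ : ℝ → ℝ) :
    ZZ (m - a) q M δ φ = ZZ m q M δ φ - a * SS q M δ φ φ := by
  unfold ZZ SS
  rw [Finset.mul_sum, ← Finset.sum_sub_distrib]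
  refine Finset.sum_congr rfl fun h _ => ?_
  rw [Finset.mul_sum, ← Finset.sum_sub_distrib]
  refine Finset.sum_congr rfl fun k _ => ?_
  ring

private theorem p5_chr_one (t : ℝ) : chr 1 1 t = 1 := by
  unfold chr
  simp

/-- ROW P5. Law of the prime phases for `|ζ|² |A_q|²`, `q = ∏ p_i` (`qP p`).
PROOF. `equi_meas` (LibLaw15/E1b) with `V = ET², g = 1_win ‖ζ‖² ‖A‖²`, `κ = XX (qP p) · cS p`, `Nm = Lam`, as in `law_two'` (LibLaw15/E2). The characters: `mF_xt, mnP` (T9); `AA_mean` for `(m,n) = (mP p a, nP p a)` and for `(1,1)`; `ZZ (m - log mn) = ZZ m - log(mn) SS φ φ`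
(expand), `SS_le` (`ZZ_len`): `|SS| ≤ C δ^{3/4}` is `o(Lam)`; `(mn)^{-1/2} = ∏ rp^{|a_i|}` (`A12_sqrt`), `prod_rp` (T8). Bounds: `XX_le`. -/
theorem XXq_law {η : ℝ} (hη : 0 < η) {c : ℝ} (hc0 : 0 < c) (hc : c < 1/2) {φ : ℝ → ℝ} {B : ℝ} (hφ : Adm c B φ)
    {r : ℕ} {p : Fin r → ℕ} (hp : ∀ i, (p i).Prime) (hinj : Function.Injective p) {w : Tor r → ℝ} (hw : Continuous w) :
    Tendsto (fun P : ℝ × ℝ => (XW p w (qP p) c P φ - XX (qP p) c P φ * (cS p * ∫ x, w x * ET p x ^ 2 ∂(muT r))) / Lam P.1) (Fl η) (𝓝 0) := by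
  set q := qP p with hq
  have hq1 : 1 ≤ q := Nat.one_le_iff_ne_zero.2 (Finset.prod_ne_zero_iff.2 fun i _ => (hp i).ne_zero)
  have hc1 : c ≤ 1 := by linarith
  obtain ⟨C0, hC0, hXX⟩ := XX_le hη hc0 hc hq1
  obtain ⟨C1, hC1, hSS⟩ := SS_le
  have hB0 : ∀ x, 0 ≤ x → |φ x| ≤ B := by
    intro x hx
    have := hφ.bound 0 (by norm_num) x hx
    simpa using this
  -- the ambient largeness
  have hT3 : ∀ᶠ P : ℝ × ℝ in Fl η, Real.exp 1 ≤ P.1 := (Fl_fst η).eventually_ge_atTop _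
  have hLam : ∀ᶠ P : ℝ × ℝ in Fl η, 0 < Lam P.1 := p5_Lam_tendsto.eventually_gt_atTop 0
  have hcont : ∀ P : ℝ × ℝ, Continuous fun t : ℝ => ‖riemannZeta (crit t)‖ ^ 2 * ‖AA q (NT c P.1) (1 / Real.log P.1) φ (crit t)‖ ^ 2 :=
    fun P => (continuous_zeta_crit.norm.pow 2).mul (p5_AA_cont.norm.pow 2)
  have hint : ∀ P : ℝ × ℝ, Integrable (fun t : ℝ => ‖riemannZeta (crit t)‖ ^ 2 * ‖AA q (NT c P.1) (1 / Real.log P.1) φ (crit t)‖ ^ 2)
      ((gaussianReal P.2 (vw P.1)).restrict (win P.2)) := fun P => (hcont P).integrableOn_Icc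
  have hNT : ∀ P : ℝ × ℝ, Real.exp 1 ≤ P.1 → ((NT c P.1 : ℕ) : ℝ) ≤ P.1 ^ c := by
    intro P hP
    have h0 : (0:ℝ) ≤ P.1 := (Real.exp_pos 1).le.trans hP
    exact Nat.floor_le (Real.rpow_nonneg h0 _)
  have hXnn : ∀ P : ℝ × ℝ, 0 ≤ XX q c P φ := fun P => integral_nonneg fun t => by positivity
  -- the complex statement
  have key := equi_meas (l := Fl η) (ξ := xt p) (xt_continuous p)
    (μ := fun P => (gaussianReal P.2 (vw P.1)).restrict (win P.2))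
    (g := fun P t => ‖riemannZeta (crit t)‖ ^ 2 * ‖AA q (NT c P.1) (1 / Real.log P.1) φ (crit t)‖ ^ 2)
    (fun P t => by positivity) (Eventually.of_forall hint) (V := fun x => ET p x ^ 2)
    ((ET_props hp).1.pow 2) (κ := fun P => ((XX q c P φ * cS p : ℝ) : ℂ))
    (Nm := fun P => Lam P.1) hLam (B := C0 * B ^ 2 + C0 * B ^ 2 * |cS p|) ?_ ?_ ?_ hw
  · -- conclusion
    have h1 : Tendsto (fun P : ℝ × ℝ => ((((XW p w q c P φ - XX q c P φ * (cS p * ∫ x, w x * ET p x ^ 2 ∂(muT r))) / Lam P.1 : ℝ)) : ℂ))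
        (Fl η) (𝓝 0) := by
      refine key.congr fun P => ?_
      unfold XW
      push_cast
      congr 2
      ring
    rw [tendsto_zero_iff_norm_tendsto_zero] at h1 ⊢
    refine h1.congr fun P => ?_
    rw [Complex.norm_real]
  · filter_upwards [hXX, hLam] with P hP hL
    have h1 := hP φ B hφ
    have h2 : 0 ≤ C0 * B ^ 2 * |cS p| * Lam P.1 := by positivity
    have h3 : ∫ t, ‖riemannZeta (crit t)‖ ^ 2 * ‖AA q (NT c P.1) (1 / Real.log P.1) φ (crit t)‖ ^ 2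
        ∂((gaussianReal P.2 (vw P.1)).restrict (win P.2)) = XX q c P φ := rfl
    rw [h3]
    linarith [add_mul (C0 * B ^ 2) (C0 * B ^ 2 * |cS p|) (Lam P.1)]
  · filter_upwards [hXX, hLam] with P hP hL
    have h1 := hP φ B hφ
    rw [Complex.norm_real, Real.norm_eq_abs, abs_mul, abs_of_nonneg (hXnn P)]
    have h2 : XX q c P φ * |cS p| ≤ C0 * B ^ 2 * Lam P.1 * |cS p| := mul_le_mul_of_nonneg_right h1 (abs_nonneg _)
    have h3 : 0 ≤ C0 * B ^ 2 * Lam P.1 := by positivity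
    linarith [add_mul (C0 * B ^ 2) (C0 * B ^ 2 * |cS p|) (Lam P.1)]
  · intro a
    obtain ⟨hm1, hn1, hmn, -, hcop⟩ := mnP hp hinj a
    obtain ⟨Ca, κa, hCa, hκa, hA⟩ := AA_mean hη hc0 hc q hm1 hn1 hmn hcop
    obtain ⟨Cb, κb, hCb, hκb, hB⟩ := AA_mean hη hc0 hc q (m := 1) (n := 1) le_rfl le_rfl (Nat.coprime_one_left 1)
      (fun h _ => ⟨Nat.coprime_one_right h, Nat.coprime_one_right h⟩)
    set R : ℝ := ∏ i, rp (p i) ^ (a i).natAbs with hR
    have hR0 : 0 ≤ R := Finset.prod_nonneg fun i _ => pow_nonneg (rp_mem (hp i)).1.le _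
    have hsq : (((mP p a : ℕ) : ℝ) * (nP p a : ℕ)) ^ (-(1/2) : ℝ) = R := by
      have h1 := A12_sqrt hp a
      have h2 : (0:ℝ) < ((mP p a : ℕ) : ℝ) * (nP p a : ℕ) := by
        have h3 : (0:ℝ) < ((mP p a : ℕ) : ℝ) := by exact_mod_cast hm1
        have h4 : (0:ℝ) < ((nP p a : ℕ) : ℝ) := by exact_mod_cast hn1
        positivity
      rw [Real.rpow_neg h2.le, ← Real.sqrt_eq_rpow]
      exact inv_eq_of_mul_eq_one_right h1
    set lg : ℝ := Real.log (((mP p a : ℕ) : ℝ) * (nP p a : ℕ)) with hlg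
    set D : ℝ := Ca * B ^ 2 + R * (Cb * B ^ 2) + R * (|lg| * (C1 * Cq q ^ 2 * (B * B))) with hD
    have hlim : Tendsto (fun P : ℝ × ℝ => D / Lam P.1) (Fl η) (𝓝 0) :=
      Tendsto.div_atTop tendsto_const_nhds p5_Lam_tendsto
    refine squeeze_zero_norm' ?_ hlim
    filter_upwards [hA, hB, hT3, hLam] with P hPa hPb hT hL
    have hlog1 : 1 ≤ Real.log P.1 := by
      rw [← Real.log_exp 1]
      exact Real.log_le_log (Real.exp_pos 1) hT
    have hlog0 : 0 < Real.log P.1 := by linarith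
    have hδ0 : 0 < 1 / Real.log P.1 := by positivity
    have hδ1 : 1 / Real.log P.1 ≤ 1 := by
      rw [div_le_one hlog0]
      exact hlog1
    have hP1 : 1 ≤ P.1 := by
      have := Real.add_one_le_exp (1:ℝ)
      linarith
    have h1 := hPa (NT c P.1) (hNT P hT) (1 / Real.log P.1) φ B hδ0.le hB0
    have h2 := hPb (NT c P.1) (hNT P hT) (1 / Real.log P.1) φ B hδ0.le hB0
    have hpa : P.1 ^ (-κa) ≤ 1 := Real.rpow_le_one_of_one_le_of_nonpos hP1 (by linarith)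
    have hpb : P.1 ^ (-κb) ≤ 1 := Real.rpow_le_one_of_one_le_of_nonpos hP1 (by linarith)
    have e1 : (∫ t, ((‖riemannZeta (crit t)‖ ^ 2 * ‖AA q (NT c P.1) (1 / Real.log P.1) φ (crit t)‖ ^ 2 : ℝ) : ℂ) *
          UnitAddTorus.mFourier a (xt p t) ∂((gaussianReal P.2 (vw P.1)).restrict (win P.2))) =
        ∫ t in win P.2, ((‖riemannZeta (crit t)‖ ^ 2 : ℝ) : ℂ) *
          (((‖AA q (NT c P.1) (1 / Real.log P.1) φ (crit t)‖ ^ 2 : ℝ) : ℂ) * chr (mP p a) (nP p a) t)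
            ∂(gaussianReal P.2 (vw P.1)) := by
      congr 1
      funext t
      rw [mF_xt hp a t]
      push_cast
      ring
    have e2 : ((XX q c P φ * cS p : ℝ) : ℂ) * ∫ x, UnitAddTorus.mFourier a x * ((ET p x ^ 2 : ℝ) : ℂ) ∂(muT r) =
        ((R * XX q c P φ : ℝ) : ℂ) := by
      have h3 := prod_rp hp a
      rw [← hR] at h3
      push_cast at h3 ⊢
      rw [h3]
      ring
    have e3 : (∫ t in win P.2, ((‖riemannZeta (crit t)‖ ^ 2 : ℝ) : ℂ) *
          (((‖AA q (NT c P.1) (1 / Real.log P.1) φ (crit t)‖ ^ 2 : ℝ) : ℂ) * chr 1 1 t)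
            ∂(gaussianReal P.2 (vw P.1))) = ((XX q c P φ : ℝ) : ℂ) := by
      unfold XX
      rw [← integral_complex_ofReal]
      congr 1
      funext t
      rw [p5_chr_one, mul_one]
      push_cast
      ring
    rw [e3] at h2
    rw [hsq] at h1
    have e4 : (((1:ℕ):ℝ) * ((1:ℕ):ℝ)) ^ (-(1/2) : ℝ) * ZZ (mW P - Real.log (((1:ℕ):ℝ) * ((1:ℕ):ℝ))) q (NT c P.1) (1 / Real.log P.1) φ =
        ZZ (mW P) q (NT c P.1) (1 / Real.log P.1) φ := by
      simp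
    rw [e4] at h2
    have e5 := p5_ZZ (mW P) lg q (NT c P.1) (1 / Real.log P.1) φ
    have e6 := hSS q hq1 (1 / Real.log P.1) hδ0 hδ1 φ φ B B (p5_adm hc1 hφ) (p5_adm hc1 hφ)
    rw [← (ZZ_len hc1 hφ (mW P) q hT).2] at e6
    have e7 : (1 / Real.log P.1) ^ (3/4 : ℝ) ≤ 1 := Real.rpow_le_one hδ0.le hδ1 (by norm_num)
    rw [e1, e2, norm_div, Complex.norm_real, Real.norm_of_nonneg hL.le]
    apply div_le_div_of_nonneg_right _ hL.le
    set I1 := ∫ t in win P.2, ((‖riemannZeta (crit t)‖ ^ 2 : ℝ) : ℂ) *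
          (((‖AA q (NT c P.1) (1 / Real.log P.1) φ (crit t)‖ ^ 2 : ℝ) : ℂ) * chr (mP p a) (nP p a) t)
            ∂(gaussianReal P.2 (vw P.1)) with hI1
    set Z0 := ZZ (mW P) q (NT c P.1) (1 / Real.log P.1) φ with hZ0
    set S0 := SS q (NT c P.1) (1 / Real.log P.1) φ φ with hS0
    have h4 : |XX q c P φ - Z0| ≤ Cb * B ^ 2 := by
      have h5 : ‖((XX q c P φ : ℝ) : ℂ) - ((Z0 : ℝ) : ℂ)‖ = |XX q c P φ - Z0| := by
        rw [← Complex.ofReal_sub, Complex.norm_real, Real.norm_eq_abs]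
      rw [← h5]
      exact h2.trans (mul_le_of_le_one_right (by positivity) hpb)
    have h6 : ‖I1 - ((R * (Z0 - lg * S0) : ℝ) : ℂ)‖ ≤ Ca * B ^ 2 := by
      rw [← e5]
      exact h1.trans (mul_le_of_le_one_right (by positivity) hpa)
    have h7 : |S0| ≤ C1 * Cq q ^ 2 * (B * B) :=
      e6.trans (mul_le_of_le_one_right (by have := mul_self_nonneg B; positivity) e7)
    have h8 : I1 - ((R * XX q c P φ : ℝ) : ℂ) = (I1 - ((R * (Z0 - lg * S0) : ℝ) : ℂ)) +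
        ((R * (-(XX q c P φ - Z0)) - R * (lg * S0) : ℝ) : ℂ) := by
      push_cast
      ring
    rw [h8]
    refine (norm_add_le _ _).trans ?_
    rw [Complex.norm_real, Real.norm_eq_abs]
    have h9 : |R * (-(XX q c P φ - Z0)) - R * (lg * S0)| ≤ R * (Cb * B ^ 2) + R * (|lg| * (C1 * Cq q ^ 2 * (B * B))) := by
      refine (abs_sub _ _).trans ?_
      rw [abs_mul, abs_mul R, abs_neg, abs_mul lg, abs_of_nonneg hR0]
      gcongr
    rw [hD]
    linarith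

end Pool.Agent.LibOM70
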