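import Pool.Agent.LibOM70B.P4
import Pool.Agent.LibOM70B.P5
import Pool.Agent.LibOM70.S6

/-! ODD MOMENTS, signed route, row P6. -/

set_option autoImplicit false

namespace Pool.Agent.LibOM70

open MeasureTheory Set Filter Topology Complex ProbabilityTheory
open scoped NNReal ComplexConjugate
open Pool.Agent.LibZM Pool.Agent.LibM3
open Pool.Agent.LibLaw15 hiding Lam

/-- The polynomial is continuous on the critical line. -/
private theorem p6_AA (q N : ℕ) (δ : ℝ) (φ : ℝ → ℝ) :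
    Continuous fun t : ℝ => AA q N δ φ (crit t) := by
  unfold AA
  refine continuous_finsetSum _ fun h hh => ?_
  have h1 : (h : ℂ) ≠ 0 := by
    unfold cs at hh
    rw [Finset.mem_filter, Finset.mem_Icc] at hh
    have h2 : h ≠ 0 := by
      have h3 := hh.1.1
      omega
    exact_mod_cast h2
  exact continuous_const.mul (continuous_crit.neg.const_cpow (Or.inl h1))

private theorem p6_pt (a b : ℂ) {ε : ℝ} (hε : 0 < ε) :
    |‖a‖ ^ 2 - ‖b‖ ^ 2| ≤ ε * ‖a‖ ^ 2 + (1 + ε⁻¹) * ‖a - b‖ ^ 2 := by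
  have h1 : |‖a‖ - ‖b‖| ≤ ‖a - b‖ := abs_norm_sub_norm_le a b
  have h2 : ‖b‖ ≤ ‖a‖ + ‖a - b‖ := by
    have h4 := (abs_le.1 h1).1
    linarith
  have h3 : |‖a‖ ^ 2 - ‖b‖ ^ 2| = |‖a‖ - ‖b‖| * (‖a‖ + ‖b‖) := by
    rw [show ‖a‖ ^ 2 - ‖b‖ ^ 2 = (‖a‖ - ‖b‖) * (‖a‖ + ‖b‖) by ring, abs_mul,
      abs_of_nonneg (by positivity : 0 ≤ ‖a‖ + ‖b‖)]
  have h4 : 2 * ‖a‖ * ‖a - b‖ ≤ ε * ‖a‖ ^ 2 + ε⁻¹ * ‖a - b‖ ^ 2 := by
    have h5 : 0 ≤ (ε * ‖a‖ - ‖a - b‖) ^ 2 * ε⁻¹ := by positivity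
    have h6 : (ε * ‖a‖ - ‖a - b‖) ^ 2 * ε⁻¹ =
        ε * ‖a‖ ^ 2 - 2 * ‖a‖ * ‖a - b‖ + ε⁻¹ * ‖a - b‖ ^ 2 := by
      field_simp
      ring
    linarith
  rw [h3]
  calc |‖a‖ - ‖b‖| * (‖a‖ + ‖b‖) ≤ ‖a - b‖ * (2 * ‖a‖ + ‖a - b‖) :=
        mul_le_mul h1 (by linarith) (by positivity) (norm_nonneg _)
    _ = 2 * ‖a‖ * ‖a - b‖ + ‖a - b‖ ^ 2 := by ring
    _ ≤ (ε * ‖a‖ ^ 2 + ε⁻¹ * ‖a - b‖ ^ 2) + ‖a - b‖ ^ 2 := by linarith
    _ = ε * ‖a‖ ^ 2 + (1 + ε⁻¹) * ‖a - b‖ ^ 2 := by ring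

/-- The comparison for one `P`. -/
private theorem p6_diff {r : ℕ} {p : Fin r → ℕ} (hp : ∀ i, (p i).Prime) {w : Tor r → ℝ}
    (hw : Continuous w) {W : ℝ} (hW : ∀ x, |w x| ≤ W) (q N : ℕ) (δ : ℝ) (φ : ℝ → ℝ) (P : ℝ × ℝ)
    {ε : ℝ} (hε : 0 < ε) :
    |(∫ t in win P.2, ‖riemannZeta (crit t)‖ ^ 2 * ‖AA 1 N δ φ (crit t)‖ ^ 2 * w (xt p t)
        ∂(gaussianReal P.2 (vw P.1))) -
      ∫ t in win P.2, ‖riemannZeta (crit t)‖ ^ 2 * ‖AA q N δ φ (crit t)‖ ^ 2 *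
        (w (xt p t) / ET p (xt p t)) ∂(gaussianReal P.2 (vw P.1))| ≤
    W * (ε * (∫ t in win P.2, ‖riemannZeta (crit t)‖ ^ 2 * ‖AA 1 N δ φ (crit t)‖ ^ 2
        ∂(gaussianReal P.2 (vw P.1))) +
      (1 + ε⁻¹) * ∫ t in win P.2, ‖riemannZeta (crit t)‖ ^ 2 *
        ‖AA 1 N δ φ (crit t) - (∏ i, Hp (p i) (crit t)) * AA q N δ φ (crit t)‖ ^ 2
        ∂(gaussianReal P.2 (vw P.1))) := by
  have hW0 : 0 ≤ W := (abs_nonneg _).trans (hW 0)
  obtain ⟨-, -, hHc, hHn⟩ := Hp_props hp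
  obtain ⟨hEc, hEp⟩ := ET_props hp
  have hwx : Continuous fun t : ℝ => w (xt p t) := hw.comp (xt_continuous p)
  have hEx : Continuous fun t : ℝ => ET p (xt p t) := hEc.comp (xt_continuous p)
  have hz : Continuous fun t : ℝ => ‖riemannZeta (crit t)‖ ^ 2 := continuous_zeta_crit.norm.pow 2
  have ha : Continuous fun t : ℝ => ‖AA 1 N δ φ (crit t)‖ ^ 2 := (p6_AA 1 N δ φ).norm.pow 2
  have hq : Continuous fun t : ℝ => ‖AA q N δ φ (crit t)‖ ^ 2 := (p6_AA q N δ φ).norm.pow 2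
  have hH : Continuous fun t : ℝ => ∏ i, Hp (p i) (crit t) :=
    continuous_finsetProd _ fun i _ => hHc i
  have hd : Continuous fun t : ℝ =>
      ‖AA 1 N δ φ (crit t) - (∏ i, Hp (p i) (crit t)) * AA q N δ φ (crit t)‖ ^ 2 :=
    ((p6_AA 1 N δ φ).sub (hH.mul (p6_AA q N δ φ))).norm.pow 2
  have i1 : IntegrableOn (fun t : ℝ => ‖riemannZeta (crit t)‖ ^ 2 *
      ‖AA 1 N δ φ (crit t)‖ ^ 2 * w (xt p t)) (win P.2) (gaussianReal P.2 (vw P.1)) :=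
    ((hz.mul ha).mul hwx).integrableOn_Icc
  have i2 : IntegrableOn (fun t : ℝ => ‖riemannZeta (crit t)‖ ^ 2 *
      ‖AA q N δ φ (crit t)‖ ^ 2 * (w (xt p t) / ET p (xt p t))) (win P.2)
      (gaussianReal P.2 (vw P.1)) :=
    ((hz.mul hq).mul (hwx.div hEx fun t => (hEp _).ne')).integrableOn_Icc
  have i3 : IntegrableOn (fun t : ℝ => ‖riemannZeta (crit t)‖ ^ 2 *
      ‖AA 1 N δ φ (crit t)‖ ^ 2) (win P.2) (gaussianReal P.2 (vw P.1)) :=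
    (hz.mul ha).integrableOn_Icc
  have i4 : IntegrableOn (fun t : ℝ => ‖riemannZeta (crit t)‖ ^ 2 *
      ‖AA 1 N δ φ (crit t) - (∏ i, Hp (p i) (crit t)) * AA q N δ φ (crit t)‖ ^ 2) (win P.2)
      (gaussianReal P.2 (vw P.1)) :=
    (hz.mul hd).integrableOn_Icc
  rw [← integral_sub i1 i2, ← integral_const_mul, ← integral_const_mul,
    ← integral_add (i3.const_mul _) (i4.const_mul _), ← integral_const_mul]
  refine (abs_integral_le_integral_abs).trans ?_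
  refine integral_mono (i1.sub i2).abs (((i3.const_mul _).add (i4.const_mul _)).const_mul _) ?_
  intro t
  have hb : ‖(∏ i, Hp (p i) (crit t)) * AA q N δ φ (crit t)‖ ^ 2 =
      (ET p (xt p t))⁻¹ * ‖AA q N δ φ (crit t)‖ ^ 2 := by
    rw [norm_mul, mul_pow, norm_prod, ← Finset.prod_pow, hHn]
  have e1 : ‖riemannZeta (crit t)‖ ^ 2 * ‖AA 1 N δ φ (crit t)‖ ^ 2 * w (xt p t) -
      ‖riemannZeta (crit t)‖ ^ 2 * ‖AA q N δ φ (crit t)‖ ^ 2 * (w (xt p t) / ET p (xt p t)) =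
      w (xt p t) * (‖riemannZeta (crit t)‖ ^ 2 * (‖AA 1 N δ φ (crit t)‖ ^ 2 -
        ‖(∏ i, Hp (p i) (crit t)) * AA q N δ φ (crit t)‖ ^ 2)) := by
    rw [hb]
    ring
  show |‖riemannZeta (crit t)‖ ^ 2 * ‖AA 1 N δ φ (crit t)‖ ^ 2 * w (xt p t) -
      ‖riemannZeta (crit t)‖ ^ 2 * ‖AA q N δ φ (crit t)‖ ^ 2 *
        (w (xt p t) / ET p (xt p t))| ≤
    W * (ε * (‖riemannZeta (crit t)‖ ^ 2 * ‖AA 1 N δ φ (crit t)‖ ^ 2) +
      (1 + ε⁻¹) * (‖riemannZeta (crit t)‖ ^ 2 *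
        ‖AA 1 N δ φ (crit t) - (∏ i, Hp (p i) (crit t)) * AA q N δ φ (crit t)‖ ^ 2))
  rw [e1, abs_mul, abs_mul, abs_of_nonneg (sq_nonneg ‖riemannZeta (crit t)‖)]
  have h5 := p6_pt (AA 1 N δ φ (crit t)) ((∏ i, Hp (p i) (crit t)) * AA q N δ φ (crit t)) hε
  have h6 := mul_le_mul_of_nonneg_left h5 (sq_nonneg ‖riemannZeta (crit t)‖)
  refine (mul_le_mul (hW _) h6 (by positivity) hW0).trans (le_of_eq ?_)
  ring

/-- ROW P6. Law of the prime phases for `|ζ|² |A_1|²`.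
PROOF. By `all_primes`, `‖A_1‖²` may be replaced by `∏ ‖Hp‖² ‖A_q‖² = ‖A_q‖²/ET(xt)` (`Hp_props`) at cost `o(Lam)`: `|∫ |ζ|² (‖a‖² - ‖b‖²) w| ≤ W (∫ |ζ|² ‖a-b‖²)^{1/2} (∫ |ζ|² (‖a‖+‖b‖)²)^{1/2}` and `XX_le`. So `XW p w 1 = XW p (w/ET) (qP p) + o(Lam)
= XX (qP p) · cS p · MT1 p w + o(Lam)` (`XXq_law` with the continuous weight `w/ET`, `ET_props`). With `w = 1`: `XX 1 = XX (qP p) · cS p · MT1 p 1 + o(Lam)`. Divide (`TM1 = MT1 w / MT1 1`, `MT1 p 1 > 0`). -/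
theorem XX_law {η : ℝ} (hη : 0 < η) {c : ℝ} (hc0 : 0 < c) (hc : c < 1/2) {φ : ℝ → ℝ} {B : ℝ} (hφ : Adm c B φ)
    {r : ℕ} {p : Fin r → ℕ} (hp : ∀ i, (p i).Prime) (hinj : Function.Injective p) {w : Tor r → ℝ} (hw : Continuous w) :
    Tendsto (fun P : ℝ × ℝ => (XW p w 1 c P φ - XX 1 c P φ * TM1 p w) / Lam P.1) (Fl η) (𝓝 0) := by
  obtain ⟨hEc, hEp⟩ := ET_props hp
  obtain ⟨C, hC, hXX⟩ := XX_le hη hc0 hc (q := 1) le_rfl
  have hall := all_primes hη hc0 hc hφ hp hinj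
  have hA : ∀ w : Tor r → ℝ, Continuous w → Tendsto (fun P : ℝ × ℝ =>
      (XW p w 1 c P φ - XX (qP p) c P φ * (cS p * MT1 p w)) / Lam P.1) (Fl η) (𝓝 0) := by
    intro w hw
    have hwE : Continuous fun x => w x / ET p x := hw.div hEc fun x => (hEp x).ne'
    have h1 := XXq_law hη hc0 hc hφ hp hinj hwE
    have e1 : ∫ x, w x / ET p x * ET p x ^ 2 ∂(muT r) = MT1 p w := by
      unfold MT1
      refine integral_congr_ae (Eventually.of_forall fun x => ?_)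
      show w x / ET p x * ET p x ^ 2 = w x * ET p x
      have h2 := (hEp x).ne'
      field_simp
    rw [e1] at h1
    obtain ⟨W, hW⟩ : ∃ W : ℝ, ∀ x, |w x| ≤ W := by
      obtain ⟨W, hW⟩ := isCompact_univ.exists_bound_of_continuousOn hw.continuousOn
      exact ⟨W, fun x => hW x (mem_univ x)⟩
    have hW0 : 0 ≤ W := (abs_nonneg _).trans (hW 0)
    have h2 : Tendsto (fun P : ℝ × ℝ =>
        (XW p w 1 c P φ - XW p (fun x => w x / ET p x) (qP p) c P φ) / Lam P.1) (Fl η) (𝓝 0) := by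
      rw [Metric.tendsto_nhds]
      intro ε₀ hε₀
      obtain ⟨K, hK⟩ : ∃ K : ℝ, K = W * (C * B ^ 2) + 1 := ⟨_, rfl⟩
      have hK0 : 0 < K := by
        rw [hK]
        positivity
      obtain ⟨ε, hε⟩ : ∃ ε : ℝ, ε = ε₀ / (2 * K) := ⟨_, rfl⟩
      have hε0 : 0 < ε := by
        rw [hε]
        positivity
      have h3 := hall.const_mul (W * (1 + ε⁻¹))
      rw [mul_zero] at h3
      have h4 := h3.eventually (eventually_lt_nhds (by positivity : (0 : ℝ) < ε₀ / 2))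
      filter_upwards [h4, hXX, (Fl_fst η).eventually (eventually_gt_atTop 1)] with P hP4 hPX hP1
      have hLam : 0 < Lam P.1 := Lam_pos hP1
      have h5 := p6_diff hp hw hW (qP p) (NT c P.1) (1 / Real.log P.1) φ P hε0
      have h6 : ∫ t in win P.2, ‖riemannZeta (crit t)‖ ^ 2 *
          ‖AA 1 (NT c P.1) (1 / Real.log P.1) φ (crit t)‖ ^ 2 ∂(gaussianReal P.2 (vw P.1)) ≤
          C * B ^ 2 * Lam P.1 := hPX φ B hφ
      rw [dist_zero_right, Real.norm_eq_abs, abs_div, abs_of_pos hLam, div_lt_iff₀ hLam]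
      refine lt_of_le_of_lt h5 ?_
      rw [← mul_div_assoc, div_lt_iff₀ hLam] at hP4
      have h7 : W * (ε * ∫ t in win P.2, ‖riemannZeta (crit t)‖ ^ 2 *
          ‖AA 1 (NT c P.1) (1 / Real.log P.1) φ (crit t)‖ ^ 2 ∂(gaussianReal P.2 (vw P.1))) ≤
          ε₀ / 2 * Lam P.1 := by
        calc _ ≤ W * (ε * (C * B ^ 2 * Lam P.1)) := by gcongr
          _ = ε * (K - 1) * Lam P.1 := by
            rw [hK]
            ring
          _ ≤ ε * K * Lam P.1 := by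
            gcongr
            linarith
          _ = ε₀ / 2 * Lam P.1 := by
            rw [hε]
            field_simp
      rw [mul_add]
      have h8 : W * ((1 + ε⁻¹) * ∫ t in win P.2, ‖riemannZeta (crit t)‖ ^ 2 *
          ‖AA 1 (NT c P.1) (1 / Real.log P.1) φ (crit t) - (∏ i, Hp (p i) (crit t)) *
            AA (qP p) (NT c P.1) (1 / Real.log P.1) φ (crit t)‖ ^ 2
            ∂(gaussianReal P.2 (vw P.1))) < ε₀ / 2 * Lam P.1 := by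
        rw [← mul_assoc]
        exact hP4
      linarith
    have h3 := h2.add h1
    rw [add_zero] at h3
    refine h3.congr fun P => ?_
    ring
  have h1 := hA w hw
  have h2 := (hA 1 continuous_one).const_mul (TM1 p w)
  have h3 := h1.sub h2
  rw [mul_zero, sub_zero] at h3
  refine h3.congr fun P => ?_
  have hM := (MT1_one hp).1
  have e1 : TM1 p w * MT1 p 1 = MT1 p w := by
    unfold TM1
    field_simp
  have e2 : XW p (1 : Tor r → ℝ) 1 c P φ = XX 1 c P φ := by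
    unfold XW XX
    refine integral_congr_ae (Eventually.of_forall fun t => ?_)
    show _ * (1 : ℝ) = _
    rw [mul_one]
  rw [e2, ← e1]
  ring

end Pool.Agent.LibOM70
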